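import Pool.Agent.Lib_helper57.AP.ThApi

/-! Block Z12: the third order equation of `FF` and its (symmetric square) first integral. -/

namespace Pool.Agent.Lib_helper57.AP

open PowerSeries Finset

theorem bb_eq (k : ℕ) : bb k * (k.factorial) ^ 4 = (4 * k).factorial := by
  unfold bb
  have h1 := Nat.choose_mul_factorial_mul_factorial (n := 4 * k) (k := 2 * k) (by omega)
  have h2 := Nat.choose_mul_factorial_mul_factorial (n := 2 * k) (k := k) (by omega)
  have e1 : 4 * k - 2 * k = 2 * k := by omega
  have e2 : 2 * k - k = k := by omega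
  rw [e1] at h1
  rw [e2] at h2
  rw [← h1, ← h2]
  ring

theorem bb_pos (k : ℕ) : 0 < bb k := by
  have h := bb_eq k
  rcases Nat.eq_zero_or_pos (bb k) with h0 | h0
  · rw [h0, zero_mul] at h
    exact absurd h.symm (Nat.factorial_ne_zero _)
  · exact h0

theorem bb_succ (n : ℕ) : (n + 1) ^ 3 * bb (n + 1) = (256 * n ^ 3 + 384 * n ^ 2 + 176 * n + 24) * bb n := by
  have h1 := bb_eq n
  have h2 := bb_eq (n + 1)
  have e1 : 4 * (n + 1) = 4 * n + 1 + 1 + 1 + 1 := by ring
  rw [e1, Nat.factorial_succ (4 * n + 1 + 1 + 1), Nat.factorial_succ (4 * n + 1 + 1),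
    Nat.factorial_succ (4 * n + 1), Nat.factorial_succ (4 * n), ← h1,
    Nat.factorial_succ n, mul_pow] at h2
  have hf : 0 < n.factorial ^ 4 := pow_pos (Nat.factorial_pos n) 4
  have hn : 0 < n + 1 := Nat.succ_pos n
  apply Nat.eq_of_mul_eq_mul_right hf
  apply Nat.eq_of_mul_eq_mul_left hn
  calc (n + 1) * ((n + 1) ^ 3 * bb (n + 1) * n.factorial ^ 4)
      = bb (n + 1) * ((n + 1) ^ 4 * n.factorial ^ 4) := by ring
    _ = _ := by rw [h2]; ring

variable (K : Type) [Field K] [CharZero K]

theorem Z1 : (1 - 256 * X) * th (th (th (FF K))) =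
    X * (384 * th (th (FF K)) + 176 * th (FF K) + 24 * FF K) := by
  have e256 : (256 : PowerSeries K) = C (256 : K) := (map_ofNat C 256).symm
  have e384 : (384 : PowerSeries K) = C (384 : K) := (map_ofNat C 384).symm
  have e176 : (176 : PowerSeries K) = C (176 : K) := (map_ofNat C 176).symm
  have e24 : (24 : PowerSeries K) = C (24 : K) := (map_ofNat C 24).symm
  have h : th (th (th (FF K))) = X * (256 * th (th (th (FF K))) + 384 * th (th (FF K)) + 176 * th (FF K) + 24 * FF K) := by
    ext n
    cases n with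
    | zero => simp [coeff_th]
    | succ n =>
      rw [coeff_succ_X_mul]
      simp only [e256, e384, e176, e24, map_add, coeff_C_mul, coeff_th, FF, coeff_mk]
      have h := bb_succ n
      have h' : ((n : K) + 1) ^ 3 * (bb (n + 1) : K) = (256 * (n : K) ^ 3 + 384 * (n : K) ^ 2 + 176 * n + 24) * (bb n : K) := by
        exact_mod_cast h
      push_cast
      linear_combination h'
  linear_combination h

theorem Z2 : (1 - 256 * X) * (2 * FF K * th (th (FF K)) - (th (FF K)) ^ 2) =
    256 * X * FF K * th (FF K) + 48 * X * (FF K) ^ 2 := by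
  have h1 := Z1 K
  apply th_ext
  · simp only [th_mul, th_sub, th_add, th_pow, th_one, th_X, th_ofNat]
    push_cast
    simp only [Nat.add_one_sub_one, pow_one]
    linear_combination (2 * FF K) * h1
  · simp [constantCoeff_th]

end Pool.Agent.Lib_helper57.AP
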