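import Pool.Agent.Lib_helper57.AP.UB
import Pool.Agent.Lib_helper57.AP.Z12

/-! Block GZ: sizes of `bb k`, `bb k * hh k` for `k < p`, and the comparison of `bb k * hh k` with `gl p k`.
`v_p(bb k) = 4k/p` (floor) for `k < p`; `p * hh k` is p-integral for `k<p`.
 - `4k < p`: `hh k` is p-integral and `gz` is its reduction times `bb k`.
 - `p ≤ 4k`, `k ≤ (p-1)/2`: `hh k = 4/p + (p-integral)` (only `j = p` in `(k,4k]`), `bb k = p * (bb k / p)`.
 - `k > (p-1)/2`, `k < p`: `p² ∣ bb k`, so `bb k hh k` is `PI 1`. -/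

namespace Pool.Agent.Lib_helper57.AP

open PowerSeries Finset

variable (p : ℕ) [Fact p.Prime]

/-- `x` is integral with reduction `r` mod `p` -/
def GZ_Rep (x : ℚ_[p]) (r : ZMod p) : Prop :=
  ∃ y : ℤ_[p], (y : ℚ_[p]) = x ∧ PadicInt.toZMod y = r

variable {p} in
theorem GZ_Rep_nat (n : ℕ) : GZ_Rep p (n : ℚ_[p]) (n : ZMod p) :=
  ⟨(n : ℤ_[p]), by push_cast; rfl, map_natCast _ n⟩

variable {p} in
theorem GZ_Rep_add {x x' : ℚ_[p]} {r r' : ZMod p} (h : GZ_Rep p x r) (h' : GZ_Rep p x' r') :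
    GZ_Rep p (x + x') (r + r') := by
  obtain ⟨y, rfl, rfl⟩ := h
  obtain ⟨y', rfl, rfl⟩ := h'
  exact ⟨y + y', by push_cast; rfl, map_add _ _ _⟩

variable {p} in
theorem GZ_Rep_sub {x x' : ℚ_[p]} {r r' : ZMod p} (h : GZ_Rep p x r) (h' : GZ_Rep p x' r') :
    GZ_Rep p (x - x') (r - r') := by
  obtain ⟨y, rfl, rfl⟩ := h
  obtain ⟨y', rfl, rfl⟩ := h'
  exact ⟨y - y', by push_cast; rfl, map_sub _ _ _⟩

variable {p} in
theorem GZ_Rep_mul {x x' : ℚ_[p]} {r r' : ZMod p} (h : GZ_Rep p x r) (h' : GZ_Rep p x' r') :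
    GZ_Rep p (x * x') (r * r') := by
  obtain ⟨y, rfl, rfl⟩ := h
  obtain ⟨y', rfl, rfl⟩ := h'
  exact ⟨y * y', by push_cast; rfl, map_mul _ _ _⟩

variable {p} in
theorem GZ_Rep_sum {J : Type} (s : Finset J) (f : J → ℚ_[p]) (g : J → ZMod p)
    (h : ∀ j ∈ s, GZ_Rep p (f j) (g j)) : GZ_Rep p (∑ j ∈ s, f j) (∑ j ∈ s, g j) := by
  classical
  induction s using Finset.induction_on with
  | empty => simpa using GZ_Rep_nat (p := p) 0
  | insert a s ha ih =>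
    rw [Finset.sum_insert ha, Finset.sum_insert ha]
    exact GZ_Rep_add (h a (Finset.mem_insert_self _ _))
      (ih fun j hj => h j (Finset.mem_insert_of_mem hj))

variable {p} in
theorem GZ_Rep_inv (n : ℕ) (hn : ¬ p ∣ n) : GZ_Rep p ((n : ℚ_[p]))⁻¹ ((n : ZMod p))⁻¹ := by
  obtain ⟨y, hy⟩ := (PI_zero_iff_exists ((n : ℚ_[p])⁻¹)).1 (PI_natCast_inv n hn)
  refine ⟨y, hy, ?_⟩
  have h0 : (n : ℚ_[p]) ≠ 0 := by
    intro h
    apply hn
    have h1 : n = 0 := by exact_mod_cast h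
    rw [h1]
    exact dvd_zero p
  have h1 : (n : ℤ_[p]) * y = 1 := by
    apply PadicInt.ext
    push_cast
    rw [hy, mul_inv_cancel₀ h0]
  have h2 : (n : ZMod p) * PadicInt.toZMod y = 1 := by
    have := congrArg PadicInt.toZMod h1
    rwa [map_mul, map_one, map_natCast] at this
  exact (inv_eq_of_mul_eq_one_right h2).symm

variable {p} in
theorem GZ_PI_one {x : ℚ_[p]} (h : GZ_Rep p x 0) : PI 1 x := by
  obtain ⟨y, rfl, hy⟩ := h
  have h1 : y ∈ RingHom.ker (PadicInt.toZMod (p := p)) := hy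
  rw [PadicInt.ker_toZMod, PadicInt.maximalIdeal_eq_span_p] at h1
  have h2 := (PadicInt.norm_le_pow_iff_mem_span_pow y 1).2 (by simpa using h1)
  exact h2

variable {p} in
theorem GZ_Rep_zero {x : ℚ_[p]} (h : PI 1 x) : GZ_Rep p x 0 := by
  obtain ⟨y, rfl⟩ := (PI_zero_iff_exists x).1 (PI_mono (Nat.zero_le 1) h)
  refine ⟨y, rfl, ?_⟩
  have h2 := (PadicInt.norm_le_pow_iff_mem_span_pow y 1).1 h
  have h1 : y ∈ RingHom.ker (PadicInt.toZMod (p := p)) := by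
    rw [PadicInt.ker_toZMod, PadicInt.maximalIdeal_eq_span_p]
    simpa using h2
  exact h1

theorem GZ_hh (k : ℕ) (h : 4 * k < p) : GZ_Rep p (hh ℚ_[p] k)
    (4 * ∑ j ∈ Ioc k (4 * k), ((j : ZMod p))⁻¹) := by
  unfold hh
  refine GZ_Rep_mul (by simpa using GZ_Rep_nat (p := p) 4) (GZ_Rep_sum _ _ _ fun j hj => ?_)
  rw [Finset.mem_Ioc] at hj
  exact GZ_Rep_inv j (Nat.not_dvd_of_pos_of_lt (by omega) (by omega))

theorem bb_dvd1 (k : ℕ) (h1 : p ≤ 4 * k) (h2 : k < p) : p ∣ bb k := by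
  have hp : p.Prime := Fact.out
  have h3 : p ∣ bb k * k.factorial ^ 4 := by
    rw [bb_eq]
    exact Nat.dvd_factorial hp.pos h1
  rcases hp.dvd_mul.1 h3 with h4 | h4
  · exact h4
  · have h5 := hp.dvd_of_dvd_pow h4
    rw [hp.dvd_factorial] at h5
    omega

theorem bb_dvd2 (k : ℕ) (h1 : p ≤ 2 * k) (h2 : k < p) : p ^ 2 ∣ bb k := by
  have hp : p.Prime := Fact.out
  have h3 : p ∣ (2 * k).choose k := hp.dvd_choose h2 (by omega) h1
  exact Dvd.dvd.mul_left (pow_dvd_pow_of_dvd h3 2) _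

theorem PI_hh (k : ℕ) (h : 4 * k < p) : PI 0 (hh ℚ_[p] k) := by
  obtain ⟨y, hy, -⟩ := GZ_hh p k h
  exact (PI_zero_iff_exists _).2 ⟨y, hy⟩

theorem PI_p_hh (k : ℕ) (h : k < p) : PI 0 ((p : ℚ_[p]) * hh ℚ_[p] k) := by
  have hp : p.Prime := Fact.out
  have hp0 : (p : ℚ_[p]) ≠ 0 := by exact_mod_cast hp.ne_zero
  have e : (p : ℚ_[p]) * hh ℚ_[p] k =
      ∑ j ∈ Ioc k (4 * k), (p : ℚ_[p]) * (4 * ((j : ℚ_[p]))⁻¹) := by
    unfold hh
    rw [← Finset.mul_sum, ← Finset.mul_sum]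
  rw [e]
  refine PI_sum _ _ fun j hj => ?_
  rw [Finset.mem_Ioc] at hj
  have h4 : PI 0 (4 : ℚ_[p]) := by simpa using PI_natCast (p := p) 4
  by_cases hd : p ∣ j
  · obtain ⟨m, rfl⟩ := hd
    have hm0 : m ≠ 0 := by
      rintro rfl
      simp at hj
    have hm4 : m < 4 := by
      by_contra hcon
      have : p * 4 ≤ p * m := Nat.mul_le_mul_left p (by omega)
      omega
    have e2 : (p : ℚ_[p]) * (4 * (((p * m : ℕ) : ℚ_[p]))⁻¹) = 4 * ((m : ℚ_[p]))⁻¹ := by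
      have : (m : ℚ_[p]) ≠ 0 := by exact_mod_cast hm0
      push_cast
      field_simp
    rw [e2]
    obtain rfl | rfl | rfl : m = 1 ∨ m = 2 ∨ m = 3 := by omega
    · simpa using h4
    · have : (4 : ℚ_[p]) * (((2 : ℕ) : ℚ_[p]))⁻¹ = ((2 : ℕ) : ℚ_[p]) := by
        push_cast
        norm_num
      rw [this]
      exact PI_natCast 2
    · have h3 : ¬ p ∣ 3 := by
        intro h3
        have := (Nat.prime_dvd_prime_iff_eq hp Nat.prime_three).1 h3
        omega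
      simpa using PI_mul h4 (PI_natCast_inv (p := p) 3 h3)
  · have h5 : PI 0 (p : ℚ_[p]) := PI_natCast p
    simpa using PI_mul h5 (PI_mul h4 (PI_natCast_inv (p := p) j hd))

theorem PI_bbhh (k : ℕ) (h : k < p) : PI 0 ((bb k : ℚ_[p]) * hh ℚ_[p] k) := by
  by_cases h4 : 4 * k < p
  · exact PI_mul (PI_natCast _) (PI_hh p k h4)
  · obtain ⟨c, hc⟩ := bb_dvd1 p k (by omega) h
    rw [hc]
    have e : (((p * c : ℕ)) : ℚ_[p]) * hh ℚ_[p] k = (c : ℚ_[p]) * ((p : ℚ_[p]) * hh ℚ_[p] k) := by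
      push_cast
      ring
    rw [e]
    exact PI_mul (PI_natCast _) (PI_p_hh p k h)

theorem PI_bbhh1 (k : ℕ) (h1 : p ≤ 2 * k) (h : k < p) : PI 1 ((bb k : ℚ_[p]) * hh ℚ_[p] k) := by
  obtain ⟨c, hc⟩ := bb_dvd2 p k h1 h
  rw [hc]
  have e : (((p ^ 2 * c : ℕ)) : ℚ_[p]) * hh ℚ_[p] k =
      (p : ℚ_[p]) * ((c : ℚ_[p]) * ((p : ℚ_[p]) * hh ℚ_[p] k)) := by
    push_cast
    ring
  rw [e]
  exact PI_mul PI_p (PI_mul (PI_natCast _) (PI_p_hh p k h))

theorem GZ_main (hp : 3 < p) (k : ℕ) (h : k ≤ (p - 1) / 2) :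
    GZ_Rep p ((bb k : ℚ_[p]) * hh ℚ_[p] k) (gz p k) := by
  have hpp : p.Prime := Fact.out
  have hp0 : (p : ℚ_[p]) ≠ 0 := by exact_mod_cast hpp.ne_zero
  unfold gz
  by_cases h4 : 4 * k < p
  · rw [if_pos h4]
    exact GZ_Rep_mul (GZ_Rep_nat _) (GZ_hh p k h4)
  · rw [if_neg h4]
    have hkp : k < p := by omega
    have hd := bb_dvd1 p k (by omega) hkp
    set c := bb k / p with hc
    have hbc : bb k = p * c := (Nat.mul_div_cancel' hd).symm
    rw [hbc]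
    have hmem : p ∈ Ioc k (4 * k) := by
      rw [Finset.mem_Ioc]
      omega
    have e : (((p * c : ℕ)) : ℚ_[p]) * hh ℚ_[p] k =
        ((4 : ℕ) : ℚ_[p]) * (c : ℚ_[p]) * (1 + ∑ j ∈ (Ioc k (4 * k)).erase p,
          (p : ℚ_[p]) * ((j : ℚ_[p]))⁻¹) := by
      unfold hh
      rw [← Finset.add_sum_erase _ _ hmem, ← Finset.mul_sum]
      push_cast
      field_simp
    rw [e]
    have e2 : (4 : ZMod p) * ((c : ℕ) : ZMod p) =
        ((4 : ℕ) : ZMod p) * (c : ZMod p) * (((1 : ℕ) : ZMod p) + 0) := by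
      push_cast
      ring
    rw [e2]
    refine GZ_Rep_mul (GZ_Rep_mul (GZ_Rep_nat _) (GZ_Rep_nat _))
      (GZ_Rep_add (by simpa using GZ_Rep_nat (p := p) 1) (GZ_Rep_zero (PI_sum _ _ fun j hj => ?_)))
    rw [Finset.mem_erase, Finset.mem_Ioc] at hj
    have hj3 : ¬ p ∣ j := by
      rintro ⟨m, rfl⟩
      have hm0 : m ≠ 0 := by
        rintro rfl
        omega
      have hm1 : m ≠ 1 := by
        rintro rfl
        omega
      have : p * 2 ≤ p * m := Nat.mul_le_mul_left p (by omega)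
      have h6 : 2 * ((p - 1) / 2) ≤ p - 1 := Nat.mul_div_le _ _
      omega
    exact PI_mul PI_p (PI_natCast_inv j hj3)

theorem PI_gl (hp : 3 < p) (k : ℕ) (h : k ≤ (p - 1) / 2) :
    PI 1 ((bb k : ℚ_[p]) * hh ℚ_[p] k - (gl p k : ℚ_[p])) := by
  have h1 := GZ_Rep_sub (GZ_main p hp k h) (GZ_Rep_nat (p := p) (gl p k))
  have h2 : ((gl p k : ℕ) : ZMod p) = gz p k := ZMod.natCast_zmod_val _
  rw [h2, sub_self] at h1
  exact GZ_PI_one h1

theorem gl_cast (k : ℕ) : ((gl p k : ℕ) : ZMod p) = gz p k :=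
  ZMod.natCast_zmod_val _

/-- integrality of the power series `FF`, `WW`, `FT`, `GT`, `RR` and of `GG` up to index `nz p` -/
theorem PO_FF (T : ℕ) : PO 0 T (FF ℚ_[p]) := by
  intro n _
  rw [FF, PowerSeries.coeff_mk]
  exact PI_natCast _

theorem GZ_inv_FF (T : ℕ) : PO 0 T (FF ℚ_[p])⁻¹ :=
  PO_inv (PO_FF p T) (by rw [constantCoeff_FF]; exact norm_one)

theorem PO_WW (T : ℕ) : PO 0 T (WW ℚ_[p]) := by
  refine PO_mul_left (fun n _ => ?_) (GZ_inv_FF p T)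
  rw [CB, PowerSeries.coeff_mk]
  exact PI_natCast _

theorem PO_FT (T : ℕ) : PO 0 T (FT p) := by
  intro n _
  rw [FT, PowerSeries.coeff_mk]
  split_ifs
  · exact PI_natCast _
  · exact PI_zero 0

theorem PO_GT (T : ℕ) : PO 0 T (GT p) := by
  intro n _
  rw [GT, PowerSeries.coeff_mk]
  split_ifs with h
  · exact PI_bbhh p n h
  · exact PI_zero 0

theorem constantCoeff_FT : constantCoeff (FT p) = 1 := by
  have hp : p.Prime := Fact.out
  rw [← PowerSeries.coeff_zero_eq_constantCoeff_apply, FT, PowerSeries.coeff_mk, if_pos hp.pos]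
  simp [bb]

theorem PO_RR (T : ℕ) : PO 0 T (RR p) :=
  PO_mul_left (PO_GT p T) (PO_inv (PO_FT p T) (by rw [constantCoeff_FT]; exact norm_one))

theorem PO_GG : PO 0 (nz p) (GG ℚ_[p]) := by
  intro n hn
  rw [GG, PowerSeries.coeff_mk]
  unfold nz at hn
  exact PI_mul (PI_natCast _) (PI_hh p n (by omega))

theorem PO_EE : PO 0 (nz p) (EE ℚ_[p]) :=
  PO_mul_left (PO_GG p) (GZ_inv_FF p _)

omit [Fact p.Prime] in
theorem GZ_coeff_FlZ (n : ℕ) : (FlZ p).coeff n = if n ≤ p / 4 then (bb n : ℤ) else 0 := by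
  unfold FlZ
  rw [Polynomial.finsetSum_coeff]
  simp_rw [Polynomial.coeff_C_mul_X_pow]
  rw [Finset.sum_ite_eq (range (p / 4 + 1)) n]
  simp only [Finset.mem_range]
  split_ifs <;> first | rfl | omega

omit [Fact p.Prime] in
theorem GZ_coeff_GlZ (n : ℕ) :
    (GlZ p).coeff n = if n ≤ (p - 1) / 2 then (gl p n : ℤ) else 0 := by
  unfold GlZ
  rw [Polynomial.finsetSum_coeff]
  simp_rw [Polynomial.coeff_C_mul_X_pow]
  rw [Finset.sum_ite_eq (range ((p - 1) / 2 + 1)) n]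
  simp only [Finset.mem_range]
  split_ifs <;> first | rfl | omega

/-- `FT ≡ Fl`, `GT ≡ Gl` mod `p` -/
theorem PO_FT_sub (T : ℕ) : PO 1 T (FT p - cst ℚ_[p] (FlZ p)) := by
  intro n _
  have hp : p.Prime := Fact.out
  rw [map_sub, coeff_cst, GZ_coeff_FlZ, FT, PowerSeries.coeff_mk]
  by_cases h1 : n < p
  · rw [if_pos h1]
    by_cases h2 : n ≤ p / 4
    · rw [if_pos h2]
      push_cast
      rw [sub_self]
      exact PI_zero 1
    · rw [if_neg h2, Int.cast_zero, sub_zero]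
      exact (PI_natCast_iff 1 (bb n)).2 (by rw [pow_one]; exact bb_dvd1 p n (by omega) h1)
  · have h2 : ¬ n ≤ p / 4 := by
      have := Nat.div_lt_self hp.pos (show 1 < 4 by norm_num)
      omega
    rw [if_neg h1, if_neg h2, Int.cast_zero, sub_zero]
    exact PI_zero 1

theorem PO_GT_sub (hp : 3 < p) (T : ℕ) : PO 1 T (GT p - cst ℚ_[p] (GlZ p)) := by
  intro n _
  rw [map_sub, coeff_cst, GZ_coeff_GlZ, GT, PowerSeries.coeff_mk]
  by_cases h1 : n < p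
  · rw [if_pos h1]
    by_cases h2 : n ≤ (p - 1) / 2
    · rw [if_pos h2]
      push_cast
      exact PI_gl p hp n h2
    · rw [if_neg h2, Int.cast_zero, sub_zero]
      exact PI_bbhh1 p n (by omega) h1
  · have h2 : ¬ n ≤ (p - 1) / 2 := by omega
    rw [if_neg h1, if_neg h2, Int.cast_zero, sub_zero]
    exact PI_zero 1

end Pool.Agent.Lib_helper57.AP
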