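import Pool.Agent.Lib_helper57.AP.A0
import Pool.Agent.Lib_helper57.AP.GZ

/-! Block A12: `FF ≡ FT φFF + p GT φ(θFF)` and `p GG ≡ FT φGG + p GT (φFF + φθGG)`.
Coefficient `n = k0 + p k1` of `A * φ f` with `A` supported below `p` is `coeff k0 A * coeff k1 f` (`coeff_mul_ph`). -/

namespace Pool.Agent.Lib_helper57.AP

open PowerSeries Finset

variable (p : ℕ) [Fact p.Prime]

theorem A12_coeff_FT (n : ℕ) : coeff (n % p) (FT p) = (bb (n % p) : ℚ_[p]) := by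
  have hp0 : 0 < p := (Fact.out : p.Prime).pos
  rw [FT, coeff_mk, if_pos (Nat.mod_lt n hp0)]

theorem A12_coeff_GT (n : ℕ) :
    coeff (n % p) (GT p) = (bb (n % p) : ℚ_[p]) * hh ℚ_[p] (n % p) := by
  have hp0 : 0 < p := (Fact.out : p.Prime).pos
  rw [GT, coeff_mk, if_pos (Nat.mod_lt n hp0)]

theorem A12_FT_zero (n : ℕ) (h : p ≤ n) : coeff n (FT p) = 0 := by
  rw [FT, coeff_mk, if_neg (Nat.not_lt.mpr h)]

theorem A12_GT_zero (n : ℕ) (h : p ≤ n) : coeff n (GT p) = 0 := by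
  rw [GT, coeff_mk, if_neg (Nat.not_lt.mpr h)]

theorem A12_coeff_p_mul (f : PowerSeries ℚ_[p]) (n : ℕ) :
    coeff n ((p : PowerSeries ℚ_[p]) * f) = (p : ℚ_[p]) * coeff n f := by
  have h : (p : PowerSeries ℚ_[p]) = C (p : ℚ_[p]) := (map_natCast C p).symm
  rw [h, coeff_C_mul]

theorem A12_coeff_FF (n : ℕ) : coeff n (FF ℚ_[p]) = (bb n : ℚ_[p]) := by
  rw [FF, coeff_mk]

theorem A12_coeff_GG (n : ℕ) : coeff n (GG ℚ_[p]) = (bb n : ℚ_[p]) * hh ℚ_[p] n := by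
  rw [GG, coeff_mk]

theorem A1 (hp : 3 < p) (T : ℕ) :
    PO 2 T (FF ℚ_[p] - (FT p * ph p ℚ_[p] (FF ℚ_[p])
      + (p : PowerSeries ℚ_[p]) * GT p * ph p ℚ_[p] (th (FF ℚ_[p])))) := by
  intro n _
  have hp0 : 0 < p := (Fact.out : p.Prime).pos
  have h := A0a p hp (n % p) (n / p) (Nat.mod_lt n hp0)
  rw [Nat.mod_add_div] at h
  rw [map_sub, map_add, mul_assoc, A12_coeff_p_mul, coeff_mul_ph p _ _ (A12_FT_zero p),
    coeff_mul_ph p _ _ (A12_GT_zero p), A12_coeff_FT, A12_coeff_GT, coeff_th, A12_coeff_FF,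
    A12_coeff_FF]
  convert h using 1
  ring

theorem A2 (hp : 3 < p) :
    PO 2 (T0 p) ((p : PowerSeries ℚ_[p]) * GG ℚ_[p] - (FT p * ph p ℚ_[p] (GG ℚ_[p])
      + (p : PowerSeries ℚ_[p]) * GT p * (ph p ℚ_[p] (FF ℚ_[p]) + ph p ℚ_[p] (th (GG ℚ_[p]))))) := by
  intro n hn
  have hp0 : 0 < p := (Fact.out : p.Prime).pos
  have h1 : n / p < nz p := Nat.div_lt_of_lt_mul hn
  have h2 : 4 * (n / p) < p := by
    unfold nz at h1
    omega
  have h := A0b p hp (n % p) (n / p) (Nat.mod_lt n hp0) h2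
  rw [Nat.mod_add_div] at h
  rw [← map_add (ph p ℚ_[p]), map_sub, map_add, mul_assoc (p : PowerSeries ℚ_[p]),
    A12_coeff_p_mul, A12_coeff_p_mul, coeff_mul_ph p _ _ (A12_FT_zero p),
    coeff_mul_ph p _ _ (A12_GT_zero p), A12_coeff_FT, A12_coeff_GT, map_add, coeff_th,
    A12_coeff_FF, A12_coeff_GG, A12_coeff_GG]
  convert h using 1
  ring

end Pool.Agent.Lib_helper57.AP
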