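import Pool.Agent.Lib_helper57.AP.Z34

/-! Block Z5: `θ E = W - 1`, `E = G/F`.

Let `L f = (1-256X) θ³f - X(384 θ²f + 176 θf + 24 f)`, so `L F = 0` (Z1), and
`L₁ f = 3θ²f - X(768 θ²f + 768 θf + 176 f)`.
(a) `L G = - L₁ F` (coefficients: `G = ∑ bb k hh k X^k`, `hh (k+1) - hh k = 4(1/(4k+1)+1/(4k+2)+1/(4k+3)+1/(4k+4)-1/(k+1))`
    and `bb_succ`).
(b) choose `E'` with `θE' = W-1`, `E'(0)=0` (`exists_th_eq`), `G' = E' F`; using Z1, Z2, Z3 show `L G' = -L₁F`
    [`L(E'F) = ` terms with `θE' = W-1`, `θ²E' = θW`, `θ³E' = θ²W`, and `W F = CB`, `CB` algebraic].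
(c) `L H = 0`, `H(0) = 0` implies `H = 0` (coefficient recursion `(n+1)^3 h_{n+1} = (...) h_n`).  So `G = E'F`, `E = E'`.
 Check of (b): `L(E'F) = E' L F + [(1-256X)(3θE' θ²F + 3θ²E' θF + θ³E' F) - X(384(2θE' θF + θ²E' F) + 176 θE' F)]`.
-/

namespace Pool.Agent.Lib_helper57.AP

open PowerSeries Finset

/-- the differential operator of order 3 -/
noncomputable def Z5_L {K : Type} [Field K] (f : PowerSeries K) : PowerSeries K :=
  (1 - 256 * X) * th (th (th f)) - X * (384 * th (th f) + 176 * th f + 24 * f)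

/-- the operator `L₁` -/
noncomputable def Z5_L1 {K : Type} [Field K] (f : PowerSeries K) : PowerSeries K :=
  3 * th (th f) - X * (768 * th (th f) + 768 * th f + 176 * f)

theorem Z5_coeff_ofNat_mul {K : Type} [Field K] (m n : ℕ) [m.AtLeastTwo] (f : PowerSeries K) :
    coeff n ((OfNat.ofNat m : PowerSeries K) * f) = (OfNat.ofNat m : K) * coeff n f := by
  have h : (OfNat.ofNat m : PowerSeries K) = C (OfNat.ofNat m : K) := (map_ofNat C m).symm
  rw [h, coeff_C_mul]

theorem Z5_coeff_L {K : Type} [Field K] (f : PowerSeries K) (n : ℕ) :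
    coeff (n + 1) (Z5_L f) = ((n : K) + 1) ^ 3 * coeff (n + 1) f -
      (256 * (n : K) ^ 3 + 384 * (n : K) ^ 2 + 176 * n + 24) * coeff n f := by
  have h : Z5_L f = th (th (th f)) - X * (256 * th (th (th f)) + 384 * th (th f) + 176 * th f +
      24 * f) := by unfold Z5_L; ring
  have c1 : ∀ g : PowerSeries K, coeff n (256 * g) = 256 * coeff n g := Z5_coeff_ofNat_mul 256 n
  have c2 : ∀ g : PowerSeries K, coeff n (384 * g) = 384 * coeff n g := Z5_coeff_ofNat_mul 384 n
  have c3 : ∀ g : PowerSeries K, coeff n (176 * g) = 176 * coeff n g := Z5_coeff_ofNat_mul 176 n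
  have c4 : ∀ g : PowerSeries K, coeff n (24 * g) = 24 * coeff n g := Z5_coeff_ofNat_mul 24 n
  rw [h, map_sub, coeff_succ_X_mul, map_add, map_add, map_add, c1, c2, c3, c4]
  simp only [coeff_th]
  push_cast
  ring

theorem Z5_coeff_L1 {K : Type} [Field K] (f : PowerSeries K) (n : ℕ) :
    coeff (n + 1) (Z5_L1 f) = 3 * ((n : K) + 1) ^ 2 * coeff (n + 1) f -
      (768 * (n : K) ^ 2 + 768 * n + 176) * coeff n f := by
  unfold Z5_L1
  have c1 : ∀ g : PowerSeries K, coeff (n + 1) (3 * g) = 3 * coeff (n + 1) g :=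
    Z5_coeff_ofNat_mul 3 (n + 1)
  have c2 : ∀ g : PowerSeries K, coeff n (768 * g) = 768 * coeff n g := Z5_coeff_ofNat_mul 768 n
  have c3 : ∀ g : PowerSeries K, coeff n (176 * g) = 176 * coeff n g := Z5_coeff_ofNat_mul 176 n
  rw [map_sub, coeff_succ_X_mul, map_add, map_add, c1, c2, c2, c3]
  simp only [coeff_th]
  push_cast
  ring

theorem Z5_zero_L {K : Type} [Field K] (f : PowerSeries K) : coeff 0 (Z5_L f) = 0 := by
  have h : Z5_L f = th (th (th f)) - X * (256 * th (th (th f)) + 384 * th (th f) + 176 * th f +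
      24 * f) := by unfold Z5_L; ring
  rw [h, map_sub, coeff_zero_X_mul, coeff_th]
  simp

theorem Z5_zero_L1 {K : Type} [Field K] (f : PowerSeries K) : coeff 0 (Z5_L1 f) = 0 := by
  unfold Z5_L1
  rw [map_sub, coeff_zero_X_mul]
  have c1 : coeff 0 (3 * th (th f)) = 3 * coeff 0 (th (th f)) := Z5_coeff_ofNat_mul 3 0 _
  rw [c1, coeff_th]
  simp

theorem Z5_hh {K : Type} [Field K] (n : ℕ) :
    hh K (n + 1) + 4 * ((n + 1 : ℕ) : K)⁻¹ = hh K n + 4 * (((4 * n + 1 : ℕ) : K)⁻¹ +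
      ((4 * n + 2 : ℕ) : K)⁻¹ + ((4 * n + 3 : ℕ) : K)⁻¹ + ((4 * n + 4 : ℕ) : K)⁻¹) := by
  unfold hh
  have h1 : ∑ j ∈ Ioc n (4 * n + 4), ((j : K))⁻¹ = ∑ j ∈ Ioc n (4 * n), ((j : K))⁻¹ +
      ((4 * n + 1 : ℕ) : K)⁻¹ + ((4 * n + 2 : ℕ) : K)⁻¹ + ((4 * n + 3 : ℕ) : K)⁻¹ +
      ((4 * n + 4 : ℕ) : K)⁻¹ := by
    rw [Finset.sum_Ioc_succ_top (by omega : n ≤ 4 * n + 3),
      Finset.sum_Ioc_succ_top (by omega : n ≤ 4 * n + 2),
      Finset.sum_Ioc_succ_top (by omega : n ≤ 4 * n + 1),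
      Finset.sum_Ioc_succ_top (by omega : n ≤ 4 * n)]
  have h2 : ∑ j ∈ Ioc n (4 * n + 4), ((j : K))⁻¹ = ((n + 1 : ℕ) : K)⁻¹ +
      ∑ j ∈ Ioc (n + 1) (4 * n + 4), ((j : K))⁻¹ := by
    rw [← Finset.sum_Ioc_consecutive _ (Nat.le_succ n) (by omega : n + 1 ≤ 4 * n + 4)]
    simp
  have h3 : 4 * (n + 1) = 4 * n + 4 := by ring
  rw [h3]
  linear_combination 4 * h1 - 4 * h2

theorem Z5_LG (K : Type) [Field K] [CharZero K] : Z5_L (GG K) = - Z5_L1 (FF K) := by
  ext m
  rw [map_neg]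
  rcases m with _ | n
  · rw [Z5_zero_L, Z5_zero_L1, neg_zero]
  · rw [Z5_coeff_L, Z5_coeff_L1]
    unfold GG FF
    simp only [coeff_mk]
    have hb : ((n : K) + 1) ^ 3 * (bb (n + 1) : K) =
        (256 * (n : K) ^ 3 + 384 * (n : K) ^ 2 + 176 * n + 24) * (bb n : K) := by
      exact_mod_cast congrArg (Nat.cast : ℕ → K) (bb_succ n)
    have hh1 := Z5_hh (K := K) n
    push_cast at hh1
    have p1 : (n : K) + 1 ≠ 0 := by exact_mod_cast Nat.succ_ne_zero n
    have p2 : 4 * (n : K) + 1 ≠ 0 := by exact_mod_cast Nat.succ_ne_zero (4 * n)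
    have p3 : 4 * (n : K) + 2 ≠ 0 := by exact_mod_cast Nat.succ_ne_zero (4 * n + 1)
    have p4 : 4 * (n : K) + 3 ≠ 0 := by exact_mod_cast Nat.succ_ne_zero (4 * n + 2)
    have p5 : 4 * (n : K) + 4 ≠ 0 := by exact_mod_cast Nat.succ_ne_zero (4 * n + 3)
    have hh2 : hh K (n + 1) = hh K n + 4 * ((4 * (n : K) + 1)⁻¹ + (4 * (n : K) + 2)⁻¹ +
        (4 * (n : K) + 3)⁻¹ + (4 * (n : K) + 4)⁻¹) - 4 * ((n : K) + 1)⁻¹ := by
      linear_combination hh1
    have q0 : ((n : K) + 1)⁻¹ * ((n : K) + 1) = 1 := inv_mul_cancel₀ p1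
    have q1 : (4 * (n : K) + 1)⁻¹ * (4 * (n : K) + 1) = 1 := inv_mul_cancel₀ p2
    have q2 : (4 * (n : K) + 2)⁻¹ * (4 * (n : K) + 2) = 1 := inv_mul_cancel₀ p3
    have q3 : (4 * (n : K) + 3)⁻¹ * (4 * (n : K) + 3) = 1 := inv_mul_cancel₀ p4
    have q4 : 4 * (4 * (n : K) + 4)⁻¹ = ((n : K) + 1)⁻¹ := by
      have e5 : 4 * (n : K) + 4 = 4 * ((n : K) + 1) := by ring
      have h4 : (4 : K) ≠ 0 := by norm_num
      rw [e5, mul_inv, ← mul_assoc, mul_inv_cancel₀ h4, one_mul]
    generalize ((n : K) + 1)⁻¹ = a0 at *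
    generalize (4 * (n : K) + 1)⁻¹ = a1 at *
    generalize (4 * (n : K) + 2)⁻¹ = a2 at *
    generalize (4 * (n : K) + 3)⁻¹ = a3 at *
    generalize (4 * (n : K) + 4)⁻¹ = a4 at *
    linear_combination hh K (n + 1) * hb +
      (256 * (n : K) ^ 3 + 384 * (n : K) ^ 2 + 176 * n + 24) * (bb n : K) * hh2 +
      32 * (bb n : K) * (2 * n + 1) * (4 * n + 3) * q1 +
      16 * (bb n : K) * (4 * n + 1) * (4 * n + 3) * q2 +
      32 * (bb n : K) * (4 * n + 1) * (2 * n + 1) * q3 +
      (256 * (n : K) ^ 3 + 384 * (n : K) ^ 2 + 176 * n + 24) * (bb n : K) * q4 +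
      3 * a0 * hb - 3 * ((n : K) + 1) ^ 2 * (bb (n + 1) : K) * q0

theorem Z5_uniq {K : Type} [Field K] [CharZero K] {f : PowerSeries K} (h : Z5_L f = 0)
    (h0 : constantCoeff f = 0) : f = 0 := by
  have h1 : ∀ n, coeff n f = 0 := by
    intro n
    induction n with
    | zero => rw [coeff_zero_eq_constantCoeff_apply, h0]
    | succ n ih =>
      have h2 := Z5_coeff_L f n
      rw [h, map_zero, ih, mul_zero, sub_zero] at h2
      have p1 : (n : K) + 1 ≠ 0 := by exact_mod_cast Nat.succ_ne_zero n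
      rcases mul_eq_zero.1 h2.symm with h3 | h3
      · exact absurd h3 (pow_ne_zero 3 p1)
      · exact h3
  ext n
  rw [h1 n, map_zero]

variable (K : Type) [Field K] [CharZero K]

theorem Z5_WF : WW K * FF K = CB K := by
  unfold WW
  have h : constantCoeff (FF K) ≠ 0 := by rw [constantCoeff_FF]; exact one_ne_zero
  rw [mul_assoc, PowerSeries.inv_mul_cancel _ h, mul_one]

theorem Z5_LE {E : PowerSeries K} (hE : th E = WW K - 1) :
    Z5_L (E * FF K) = - Z5_L1 (FF K) := by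
  have hF : constantCoeff (FF K) ≠ 0 := by rw [constantCoeff_FF]; exact one_ne_zero
  have hF0 : FF K ≠ 0 := by intro h; rw [h, map_zero] at hF; exact hF rfl
  have hCB0 : CB K ≠ 0 := by
    intro h
    have := Z3 K
    rw [h] at this
    simp at this
  have hWF := Z5_WF K
  set F := FF K with hFd
  set W := WW K with hWd
  set B := CB K with hBd
  have z1 := Z1 K
  have z2 := Z2 K
  have z3 := Z3 K
  rw [← hFd] at z1 z2
  rw [← hBd] at z3
  -- derivatives of `W F = B`
  have w1 : th W * F + W * th F = th B := by rw [← th_mul, hWF]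
  have t256 : th (1 - 256 * X : PowerSeries K) = -256 * X := by
    rw [th_sub, th_one, th_ofNat_mul, th_X]; ring
  have b1 : (1 - 256 * X) * th B = 128 * X * B := by
    have h := congrArg th z3
    rw [th_mul, t256, th_one, sq, th_mul] at h
    have h2 : (2 * B) * ((1 - 256 * X) * th B - 128 * X * B) = 0 := by linear_combination h
    rcases mul_eq_zero.1 h2 with h3 | h3
    · rcases mul_eq_zero.1 h3 with h4 | h4
      · have h5 := congrArg constantCoeff h4
        rw [map_ofNat, map_zero] at h5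
        exact absurd h5 two_ne_zero
      · exact absurd h4 hCB0
    · exact sub_eq_zero.1 h3
  have b2 : (1 - 256 * X) * th (th B) = 384 * X * th B + 128 * X * B := by
    have h := congrArg th b1
    rw [th_mul, t256, th_mul, th_ofNat_mul, th_X] at h
    linear_combination h
  -- derivatives of `E F`
  have e1 : th (E * F) = B - F + E * th F := by
    rw [th_mul, hE]
    linear_combination hWF
  have e2 : th (th (E * F)) = th B - 2 * th F + W * th F + E * th (th F) := by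
    rw [e1, th_add, th_sub, th_mul, hE]
    ring
  have e3 : th (th (th (E * F))) = th (th B) - 3 * th (th F) + th W * th F + 2 * W * th (th F) +
      E * th (th (th F)) := by
    rw [e2, th_add, th_add, th_sub, th_ofNat_mul, th_mul, th_mul, hE]
    ring
  unfold Z5_L Z5_L1
  rw [e3, e2, e1]
  have hF3 : F * F ≠ 0 := mul_ne_zero hF0 hF0
  -- multiply by `F²`
  have main : (F * F) * ((1 - 256 * X) * (th (th B) + th W * th F + 2 * W * th (th F)) -
      X * (384 * th B + 384 * W * th F + 176 * B)) = 0 := by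
    have w2 : F * th W = th B - W * th F := by linear_combination w1
    -- replace `F W = B`, `F² θW = F θB - B θF`
    have w3 : F * F * th W = F * th B - B * th F := by
      linear_combination F * w2 - th F * hWF
    linear_combination (F * F) * b2 + (1 - 256 * X) * th F * w3 + F * th F * b1 + B * z2 +
      (F * ((1 - 256 * X) * 2 * th (th F) - 384 * X * th F)) * hWF
  have h4 : (1 - 256 * X) * (th (th B) + th W * th F + 2 * W * th (th F)) -
      X * (384 * th B + 384 * W * th F + 176 * B) = 0 :=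
    (mul_eq_zero.1 main).resolve_left hF3
  linear_combination h4 + E * z1

theorem Z5 : th (EE K) = WW K - 1 := by
  have hF : constantCoeff (FF K) ≠ 0 := by rw [constantCoeff_FF]; exact one_ne_zero
  obtain ⟨E, hE0, hE⟩ := exists_th_eq (WW K - 1) (by
    rw [map_sub, constantCoeff_WW, map_one, sub_self])
  have h1 := Z5_LE K hE
  have h2 := Z5_LG K
  have h3 : Z5_L (GG K - E * FF K) = 0 := by
    have h4 : Z5_L (GG K - E * FF K) = Z5_L (GG K) - Z5_L (E * FF K) := by
      unfold Z5_L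
      simp only [th_sub]
      ring
    rw [h4, h1, h2, sub_self]
  have h4 := Z5_uniq h3 (by rw [map_sub, constantCoeff_GG, map_mul, hE0, zero_mul, sub_zero])
  have h5 : EE K = E := by
    unfold EE
    rw [sub_eq_zero.1 h4, mul_assoc, PowerSeries.mul_inv_cancel _ hF, mul_one]
  rw [h5, hE]

/-- consequence used in A3 -/
theorem Z5' : (FF K) ^ 2 + (FF K * th (GG K) - GG K * th (FF K)) = (FF K) ^ 2 * WW K := by
  have hF : constantCoeff (FF K) ≠ 0 := by rw [constantCoeff_FF]; exact one_ne_zero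
  have h1 : EE K * FF K = GG K := by
    unfold EE
    rw [mul_assoc, PowerSeries.inv_mul_cancel _ hF, mul_one]
  have h2 : th (GG K) = th (EE K) * FF K + EE K * th (FF K) := by rw [← th_mul, h1]
  rw [h2, Z5]
  linear_combination th (FF K) * h1

end Pool.Agent.Lib_helper57.AP
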