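import Pool.Agent.Lib_helper57.AP.A12
import Pool.Agent.Lib_helper57.AP.Z5

/-! Block A3: `p E - φE ≡ p RR φW  mod (p², T0)`. -/

namespace Pool.Agent.Lib_helper57.AP

open PowerSeries Finset

variable (p : ℕ) [Fact p.Prime]

theorem A3_alg {R : Type} [CommRing R] (P a b E fE G fG T S r w t s : R)
    (h1 : E * a = G) (h2 : fE * b = fG) (h3 : r * T = S)
    (h4 : b ^ 2 + (b * s - fG * t) = b ^ 2 * w) :
    a * b * (P * E - fE - P * r * w) =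
      (P * G - (T * fG + P * S * (b + s))) * b - (a - (T * b + P * S * t)) * fG
        - P ^ 2 * (r * w * b * S * t) - P * r * w * b * (a - (T * b + P * S * t)) := by
  linear_combination P * b * h1 - a * h2 + P * S * h4 - P * w * b ^ 2 * h3

theorem A3 (hp : 3 < p) :
    PO 2 (T0 p) ((p : PowerSeries ℚ_[p]) * EE ℚ_[p] - ph p ℚ_[p] (EE ℚ_[p])
      - (p : PowerSeries ℚ_[p]) * RR p * ph p ℚ_[p] (WW ℚ_[p])) := by
  have hF0 : constantCoeff (FF ℚ_[p]) = 1 := constantCoeff_FF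
  have hF0' : constantCoeff (FF ℚ_[p]) ≠ 0 := by rw [hF0]; exact one_ne_zero
  have hT00 : constantCoeff (FT p) ≠ 0 := by rw [constantCoeff_FT]; exact one_ne_zero
  have h1 : EE ℚ_[p] * FF ℚ_[p] = GG ℚ_[p] := by
    unfold EE
    rw [mul_assoc, PowerSeries.inv_mul_cancel _ hF0', mul_one]
  have h2 : ph p ℚ_[p] (EE ℚ_[p]) * ph p ℚ_[p] (FF ℚ_[p]) = ph p ℚ_[p] (GG ℚ_[p]) := by
    rw [← map_mul, h1]
  have h3 : RR p * FT p = GT p := by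
    unfold RR
    rw [mul_assoc, PowerSeries.inv_mul_cancel _ hT00, mul_one]
  have h4 : ph p ℚ_[p] (FF ℚ_[p]) ^ 2 + (ph p ℚ_[p] (FF ℚ_[p]) * ph p ℚ_[p] (th (GG ℚ_[p]))
      - ph p ℚ_[p] (GG ℚ_[p]) * ph p ℚ_[p] (th (FF ℚ_[p]))) =
      ph p ℚ_[p] (FF ℚ_[p]) ^ 2 * ph p ℚ_[p] (WW ℚ_[p]) := by
    have h := congrArg (ph p ℚ_[p]) (Z5' (K := ℚ_[p]))
    simpa only [map_add, map_mul, map_sub, map_pow] using h
  have key := A3_alg (p : PowerSeries ℚ_[p]) (FF ℚ_[p]) (ph p ℚ_[p] (FF ℚ_[p])) (EE ℚ_[p])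
    (ph p ℚ_[p] (EE ℚ_[p])) (GG ℚ_[p]) (ph p ℚ_[p] (GG ℚ_[p])) (FT p) (GT p) (RR p)
    (ph p ℚ_[p] (WW ℚ_[p])) (ph p ℚ_[p] (th (FF ℚ_[p]))) (ph p ℚ_[p] (th (GG ℚ_[p])))
    h1 h2 h3 h4
  have e1 := A1 p hp (T0 p)
  have e2 := A2 p hp
  have hle : T0 p ≤ p * nz p := le_refl _
  have iF : PO 0 (T0 p) (FF ℚ_[p]) := PO_FF p _
  have ifF : PO 0 (T0 p) (ph p ℚ_[p] (FF ℚ_[p])) := PO_ph hle (PO_FF p _)
  have ifG : PO 0 (T0 p) (ph p ℚ_[p] (GG ℚ_[p])) := PO_ph hle (PO_GG p)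
  have ifW : PO 0 (T0 p) (ph p ℚ_[p] (WW ℚ_[p])) := PO_ph hle (PO_WW p _)
  have iftF : PO 0 (T0 p) (ph p ℚ_[p] (th (FF ℚ_[p]))) := PO_ph hle (PO_th (PO_FF p _))
  have iR : PO 0 (T0 p) (RR p) := PO_RR p _
  have iG : PO 0 (T0 p) (GT p) := PO_GT p _
  have ip : PO 1 (T0 p) (p : PowerSeries ℚ_[p]) := PO_p _
  have ip0 : PO 0 (T0 p) (p : PowerSeries ℚ_[p]) := PO_mono (Nat.zero_le 1) le_rfl ip
  have ip2 : PO 2 (T0 p) ((p : PowerSeries ℚ_[p]) ^ 2) := by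
    rw [sq]
    exact PO_mul ip ip
  have hD : PO 2 (T0 p) (FF ℚ_[p] * ph p ℚ_[p] (FF ℚ_[p]) *
      ((p : PowerSeries ℚ_[p]) * EE ℚ_[p] - ph p ℚ_[p] (EE ℚ_[p])
      - (p : PowerSeries ℚ_[p]) * RR p * ph p ℚ_[p] (WW ℚ_[p]))) := by
    rw [key]
    refine PO_sub (PO_sub (PO_sub ?_ ?_) ?_) ?_
    · exact PO_mul_right e2 ifF
    · exact PO_mul_right e1 ifG
    · exact PO_mul_right ip2
        (PO_mul_left (PO_mul_left (PO_mul_left (PO_mul_left iR ifW) ifF) iG) iftF)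
    · exact PO_mul_left (PO_mul_left (PO_mul_left (PO_mul_left ip0 iR) ifW) ifF) e1
  refine PO_of_mul (PO_mul_left iF ifF) ?_ hD
  rw [map_mul, constantCoeff_ph, hF0, mul_one, norm_one]

end Pool.Agent.Lib_helper57.AP
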