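import Pool.Agent.Lib_helper57.AP.A3
import Pool.Agent.Lib_helper57.AP.A4
import Pool.Agent.Lib_helper57.AP.A5

/-! Block A6.  `z = X^e g`, `δ = g^p/φg - 1`, `z^p = φz (1+δ)`, `A = λ + E(z)`.
`pA - φA = (pλ - φλ) + (pE - φE)(z) + [E(z^p) - E(φz)]`
 `≡ δ + (p RR φW)(z) + δ (θE)(φz)`  [A4; A3 composed with z (PO_cmp); A5 with f = E (PO_EE, n0 = nz)]
 `= p RR(z) W(z^p) + δ W(φz)`  [θE = W - 1, Z5] `≡ (p RR(z) + δ) φ(W(z))` [A5' for W, cmp_ph, ph_cmp]. -/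

namespace Pool.Agent.Lib_helper57.AP

open PowerSeries Finset

variable (p : ℕ) [Fact p.Prime]

theorem A6_unit (g : PowerSeries ℚ_[p]) (hg0 : constantCoeff g = 1) :
    (ph p ℚ_[p] g) * (ph p ℚ_[p] g)⁻¹ = 1 := by
  apply PowerSeries.mul_inv_cancel
  rw [constantCoeff_ph, hg0]
  exact one_ne_zero

/-- the p-adic unit `η` with `g^p = φ g (1 + p η)` -/
theorem A6_eta (g : PowerSeries ℚ_[p]) (hg0 : constantCoeff g = 1) (hg : ∀ T, PO 0 T g) :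
    ∃ η : PowerSeries ℚ_[p], (∀ T, PO 0 T η) ∧
      g ^ p * (ph p ℚ_[p] g)⁻¹ - 1 = (p : PowerSeries ℚ_[p]) * η := by
  have hp0 : (p : ℚ_[p]) ≠ 0 := by exact_mod_cast (Nat.Prime.ne_zero Fact.out : p ≠ 0)
  set δ := g ^ p * (ph p ℚ_[p] g)⁻¹ - 1 with hδ
  have hu := A6_unit p g hg0
  have hphi : ∀ T, PO 0 T (ph p ℚ_[p] g) := fun T =>
    PO_ph (n0 := T) (by nlinarith [Nat.Prime.one_lt (Fact.out : p.Prime)]) (hg T)
  have hinv : ∀ T, PO 0 T (ph p ℚ_[p] g)⁻¹ := fun T => by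
    apply PO_inv (hphi T)
    rw [constantCoeff_ph, hg0, norm_one]
  have e1 : δ = (g ^ p - ph p ℚ_[p] g) * (ph p ℚ_[p] g)⁻¹ := by
    rw [hδ, sub_mul, hu]
  have h1 : ∀ T, PO 1 T δ := fun T => by
    rw [e1]
    refine PO_mul_right ?_ (hinv T)
    have := PO_neg (frob p g hg T)
    rwa [neg_sub] at this
  have e2 : δ = (p : PowerSeries ℚ_[p]) * (C ((p : ℚ_[p])⁻¹) * δ) := by
    rw [← mul_assoc, ← map_natCast (C : ℚ_[p] →+* PowerSeries ℚ_[p]) p, ← map_mul,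
      mul_inv_cancel₀ hp0, map_one, one_mul]
  refine ⟨C ((p : ℚ_[p])⁻¹) * δ, fun T => ?_, e2⟩
  apply PO_of_p_mul
  rw [← e2]
  exact h1 T

theorem A6_main (e : ℕ) (g : PowerSeries ℚ_[p]) (he : 1 ≤ e)
    (hg0 : constantCoeff g = 1) (hg : ∀ T, PO 0 T g) (hp : 3 < p) (η : PowerSeries ℚ_[p])
    (hη : ∀ T, PO 0 T η)
    (hδ : g ^ p * (ph p ℚ_[p] g)⁻¹ - 1 = (p : PowerSeries ℚ_[p]) * η) :
    PO 2 (T0 p) ((p : PowerSeries ℚ_[p]) * cmp (EE ℚ_[p]) (X ^ e * g)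
        - ph p ℚ_[p] (cmp (EE ℚ_[p]) (X ^ e * g))
        - (p : PowerSeries ℚ_[p]) * cmp (RR p) (X ^ e * g)
          * ph p ℚ_[p] (cmp (WW ℚ_[p]) (X ^ e * g))
        - (p : PowerSeries ℚ_[p]) * η * (ph p ℚ_[p] (cmp (WW ℚ_[p]) (X ^ e * g)) - 1)) := by
  set z := X ^ e * g with hz
  have hz0 : constantCoeff z = 0 := by
    rw [hz, map_mul, map_pow, constantCoeff_X, zero_pow (by omega), zero_mul]
  have hzI : ∀ T, PO 0 T z := fun T => PO_mul_left (PO_X_pow e T) (hg T)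
  set y := ph p ℚ_[p] z with hy
  have hyX : X ^ p ∣ y := by
    refine ⟨X ^ (p * (e - 1)) * ph p ℚ_[p] g, ?_⟩
    rw [hy, hz, map_mul, map_pow, ph_X, ← mul_assoc, ← pow_add, ← pow_mul]
    congr 2
    obtain ⟨e', rfl⟩ : ∃ e', e = e' + 1 := ⟨e - 1, by omega⟩
    rw [Nat.add_sub_cancel]
    ring
  have hyI : ∀ T, PO 0 T y := fun T =>
    PO_ph (n0 := T) (by nlinarith [Nat.Prime.one_lt (Fact.out : p.Prime)]) (hzI T)
  have hyz : z ^ p = y * (1 + (p : PowerSeries ℚ_[p]) * η) := by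
    rw [← hδ, hy, hz, map_mul, map_pow, ph_X, mul_pow]
    have hu := A6_unit p g hg0
    have : ph p ℚ_[p] g * (1 + (g ^ p * (ph p ℚ_[p] g)⁻¹ - 1)) = g ^ p := by
      calc ph p ℚ_[p] g * (1 + (g ^ p * (ph p ℚ_[p] g)⁻¹ - 1))
          = (ph p ℚ_[p] g * (ph p ℚ_[p] g)⁻¹) * g ^ p := by ring
        _ = g ^ p := by rw [hu, one_mul]
    rw [mul_assoc, this]
    congr 1
    rw [← pow_mul, ← pow_mul, mul_comm]
  -- A3 composed with z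
  have h3 := PO_cmp (z := z) hz0 (A3 p hp) (hzI _)
  rw [cmp_sub _ _ _ hz0, cmp_sub _ _ _ hz0, cmp_mul _ _ _ hz0, cmp_mul _ _ _ hz0,
    cmp_mul _ _ _ hz0, cmp_natCast _ _ hz0, cmp_ph _ _ _ hz0, cmp_ph _ _ _ hz0, hyz] at h3
  -- A5 for E and A5' for W
  have h5 := A5 p (EE ℚ_[p]) y η (nz p) (PO_EE p) hyI hη hyX
  have h5' := A5' p (WW ℚ_[p]) y η (nz p) (PO_WW p _) hyI hη hyX
  have hy0 := A5_const p y hyX
  rw [Z5, cmp_sub _ _ _ hy0, cmp_one _ hy0] at h5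
  rw [show p * nz p = T0 p from rfl] at h5 h5'
  rw [ph_cmp _ _ _ hz0, ph_cmp _ _ _ hz0, ← hy]
  have h6 : PO 2 (T0 p) ((p : PowerSeries ℚ_[p]) * cmp (RR p) z
      * (cmp (WW ℚ_[p]) (y * (1 + (p : PowerSeries ℚ_[p]) * η)) - cmp (WW ℚ_[p]) y)) :=
    PO_mul (PO_mul_right (PO_p _) (PO_cmp hz0 (PO_RR p _) (hzI _))) h5'
  have e : (p : PowerSeries ℚ_[p]) * cmp (EE ℚ_[p]) z - cmp (EE ℚ_[p]) y
        - (p : PowerSeries ℚ_[p]) * cmp (RR p) z * cmp (WW ℚ_[p]) y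
        - (p : PowerSeries ℚ_[p]) * η * (cmp (WW ℚ_[p]) y - 1)
      = ((p : PowerSeries ℚ_[p]) * cmp (EE ℚ_[p]) z
          - cmp (EE ℚ_[p]) (y * (1 + (p : PowerSeries ℚ_[p]) * η))
          - (p : PowerSeries ℚ_[p]) * cmp (RR p) z
            * cmp (WW ℚ_[p]) (y * (1 + (p : PowerSeries ℚ_[p]) * η)))
        + (cmp (EE ℚ_[p]) (y * (1 + (p : PowerSeries ℚ_[p]) * η))
          - (cmp (EE ℚ_[p]) y + (p : PowerSeries ℚ_[p]) * η * (cmp (WW ℚ_[p]) y - 1)))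
        + (p : PowerSeries ℚ_[p]) * cmp (RR p) z
          * (cmp (WW ℚ_[p]) (y * (1 + (p : PowerSeries ℚ_[p]) * η)) - cmp (WW ℚ_[p]) y) := by
    ring
  rw [e]
  exact PO_add (PO_add h3 h5) h6

theorem A6 (hp : 3 < p) (e : ℕ) (he : 1 ≤ e) (g lam : PowerSeries ℚ_[p])
    (hg0 : constantCoeff g = 1) (hg : ∀ T, PO 0 T g) (hl0 : constantCoeff lam = 0)
    (hl : th lam * g = th g) :
    PO 2 (T0 p) ((p : PowerSeries ℚ_[p]) * (lam + cmp (EE ℚ_[p]) (X ^ e * g))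
        - ph p ℚ_[p] (lam + cmp (EE ℚ_[p]) (X ^ e * g))
      - ((p : PowerSeries ℚ_[p]) * cmp (RR p) (X ^ e * g) + (g ^ p * (ph p ℚ_[p] g)⁻¹ - 1))
        * ph p ℚ_[p] (cmp (WW ℚ_[p]) (X ^ e * g))) := by
  obtain ⟨η, hη, hδ⟩ := A6_eta p g hg0 hg
  have h1 := A4 p (by omega) g lam hg0 hg hl0 hl (T0 p)
  have h2 := A6_main p e g he hg0 hg hp η hη hδ
  rw [hδ] at h1 ⊢
  have e3 : (p : PowerSeries ℚ_[p]) * (lam + cmp (EE ℚ_[p]) (X ^ e * g))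
        - ph p ℚ_[p] (lam + cmp (EE ℚ_[p]) (X ^ e * g))
      - ((p : PowerSeries ℚ_[p]) * cmp (RR p) (X ^ e * g) + (p : PowerSeries ℚ_[p]) * η)
        * ph p ℚ_[p] (cmp (WW ℚ_[p]) (X ^ e * g))
      = ((p : PowerSeries ℚ_[p]) * lam - ph p ℚ_[p] lam - (p : PowerSeries ℚ_[p]) * η)
        + ((p : PowerSeries ℚ_[p]) * cmp (EE ℚ_[p]) (X ^ e * g)
        - ph p ℚ_[p] (cmp (EE ℚ_[p]) (X ^ e * g))
        - (p : PowerSeries ℚ_[p]) * cmp (RR p) (X ^ e * g)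
          * ph p ℚ_[p] (cmp (WW ℚ_[p]) (X ^ e * g))
        - (p : PowerSeries ℚ_[p]) * η * (ph p ℚ_[p] (cmp (WW ℚ_[p]) (X ^ e * g)) - 1)) := by
    rw [map_add]
    ring
  rw [e3]
  exact PO_add h1 h2

end Pool.Agent.Lib_helper57.AP
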