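import Pool.Agent.Lib_helper57.AP.A3

/-! Block A8 (Wronskian mod p).
(i) apply `θ` to A3 and divide by `p` (`θφ = pφθ`): `θE - φθE ≡ θRR φW mod (p, T0)`, so with Z5: `W ≡ (1+θRR) φW mod (p,T0)`.
(ii) Z3': `W²F²(1-256X) = 1`; divide by its `φ`-transform; `F ≡ FT φF`, `φ(1-256X) = 1-256X^p ≡ (1-256X)^p mod p`:
  `((1+θRR) FT)² ≡ (1-256X)^{p-1} mod (p,T0)`, so `(1+θRR) FT ≡ (1-256X)^q` (both have constant term 1, `p` odd).
(iii) multiply by `FT`: `FT² + FT θGT - GT θFT ≡ FT (1-256X)^q mod (p,T0)`; replace `FT`, `GT` by polynomials of degree `≤ q`. -/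

namespace Pool.Agent.Lib_helper57.AP

open PowerSeries Finset

variable (p : ℕ) [Fact p.Prime]

theorem A8_frob (T : ℕ) :
    PO 1 T ((1 - 256 * X : PowerSeries ℚ_[p]) ^ p - (1 - 256 * X ^ p)) := by
  have h : (1 - 256 * X : PowerSeries ℚ_[p]) ^ p - (1 - 256 * X ^ p) =
      cst ℚ_[p] ((1 - 256 * Polynomial.X) ^ p - (1 - 256 * Polynomial.X ^ p)) := by
    simp only [map_sub, map_pow, map_one, map_mul, map_ofNat, cst_X]
  rw [h]
  intro n _
  rw [coeff_cst, PI_intCast_iff, pow_one]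
  have h2 : Polynomial.map (Int.castRingHom (ZMod p))
      ((1 - 256 * Polynomial.X) ^ p - (1 - 256 * Polynomial.X ^ p)) = 0 := by
    simp only [Polynomial.map_sub, Polynomial.map_pow, Polynomial.map_one, Polynomial.map_mul,
      Polynomial.map_ofNat, Polynomial.map_X]
    rw [sub_pow_char, mul_pow, one_pow]
    have h3 : (256 : Polynomial (ZMod p)) ^ p = 256 := by
      have h4 : (256 : Polynomial (ZMod p)) = Polynomial.C (256 : ZMod p) :=
        (map_ofNat Polynomial.C 256).symm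
      rw [h4, ← Polynomial.C_pow, ZMod.pow_card]
    rw [h3]
    ring
  have h3 := congrArg (fun f => f.coeff n) h2
  simp only [Polynomial.coeff_map, Polynomial.coeff_zero] at h3
  rwa [eq_intCast, ZMod.intCast_zmod_eq_zero_iff_dvd] at h3

theorem A8_unit : ‖constantCoeff (1 - 256 * X : PowerSeries ℚ_[p])‖ = 1 := by
  simp

theorem A8_int (T : ℕ) : PO 0 T (1 - 256 * X : PowerSeries ℚ_[p]) := by
  have h : (1 - 256 * X : PowerSeries ℚ_[p]) = cst ℚ_[p] (1 - 256 * Polynomial.X) := by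
    simp only [map_sub, map_one, map_mul, map_ofNat, cst_X]
  rw [h]
  exact PO_cst _ _

theorem A8_p (T : ℕ) {f : PowerSeries ℚ_[p]} (hf : PO 0 T f) :
    PO 1 T ((p : PowerSeries ℚ_[p]) * f) := PO_mul_right (PO_p T) hf

theorem A8_i (hp : 3 < p) : PO 1 (T0 p) (WW ℚ_[p] -
    (1 + th (RR p)) * ph p ℚ_[p] (WW ℚ_[p])) := by
  have h1 := PO_th (A3 p hp)
  have e1 : th ((p : PowerSeries ℚ_[p]) * EE ℚ_[p] - ph p ℚ_[p] (EE ℚ_[p])
      - (p : PowerSeries ℚ_[p]) * RR p * ph p ℚ_[p] (WW ℚ_[p])) =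
      (p : PowerSeries ℚ_[p]) * (WW ℚ_[p] - (1 + th (RR p)) * ph p ℚ_[p] (WW ℚ_[p]) -
        (p : PowerSeries ℚ_[p]) * (RR p * ph p ℚ_[p] (th (WW ℚ_[p])))) := by
    rw [th_sub, th_sub, mul_assoc, th_natCast_mul, th_natCast_mul, th_mul, th_ph, th_ph, Z5,
      map_sub, map_one]
    ring
  rw [e1] at h1
  have h2 := PO_of_p_mul h1
  have h3 : PO 1 (T0 p) ((p : PowerSeries ℚ_[p]) * (RR p * ph p ℚ_[p] (th (WW ℚ_[p])))) := by
    apply A8_p
    exact PO_mul_left (PO_RR p _) (PO_ph (n0 := nz p) le_rfl (PO_th (PO_WW p _)))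
  have h4 := PO_add h2 h3
  have e2 : WW ℚ_[p] - (1 + th (RR p)) * ph p ℚ_[p] (WW ℚ_[p]) =
      (WW ℚ_[p] - (1 + th (RR p)) * ph p ℚ_[p] (WW ℚ_[p]) -
        (p : PowerSeries ℚ_[p]) * (RR p * ph p ℚ_[p] (th (WW ℚ_[p])))) +
      (p : PowerSeries ℚ_[p]) * (RR p * ph p ℚ_[p] (th (WW ℚ_[p]))) := by ring
  rw [e2]
  exact h4

theorem A8_F (hp : 3 < p) : PO 1 (T0 p) (FF ℚ_[p] - FT p * ph p ℚ_[p] (FF ℚ_[p])) := by
  have h1 := PO_mono (i := 1) (T := T0 p) (by norm_num) le_rfl (A1 p hp (T0 p))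
  have h2 : PO 1 (T0 p) ((p : PowerSeries ℚ_[p]) * (GT p * ph p ℚ_[p] (th (FF ℚ_[p])))) := by
    apply A8_p
    exact PO_mul_left (PO_GT p _) (PO_ph (n0 := nz p) le_rfl (PO_th (PO_FF p _)))
  have h3 := PO_add h1 h2
  have e : FF ℚ_[p] - FT p * ph p ℚ_[p] (FF ℚ_[p]) =
      (FF ℚ_[p] - (FT p * ph p ℚ_[p] (FF ℚ_[p])
      + (p : PowerSeries ℚ_[p]) * GT p * ph p ℚ_[p] (th (FF ℚ_[p])))) +
      (p : PowerSeries ℚ_[p]) * (GT p * ph p ℚ_[p] (th (FF ℚ_[p]))) := by ring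
  rw [e]
  exact h3

theorem A8 (hp : 3 < p) :
    PO 1 (T0 p) ((FT p) ^ 2 + (FT p * th (GT p) - GT p * th (FT p))
      - FT p * (1 - 256 * X) ^ ((p - 1) / 2)) := by
  have hpp : p.Prime := Fact.out
  obtain ⟨q, hq⟩ : ∃ q, p = 2 * q + 1 := by
    rcases hpp.eq_two_or_odd' with h | ⟨q, hq⟩
    · omega
    · exact ⟨q, hq⟩
  have hq2 : (p - 1) / 2 = q := by omega
  rw [hq2]
  set F := FF ℚ_[p] with hF
  set W := WW ℚ_[p] with hW
  set f := ph p ℚ_[p] F with hf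
  set w := ph p ℚ_[p] W with hw
  set B : PowerSeries ℚ_[p] := 1 - 256 * X with hB
  set A := (1 + th (RR p)) * FT p with hA
  -- integrality
  have iF : PO 0 (T0 p) F := PO_FF p _
  have iW : PO 0 (T0 p) W := PO_WW p _
  have if' : PO 0 (T0 p) f := PO_ph (n0 := nz p) le_rfl (PO_FF p _)
  have iw : PO 0 (T0 p) w := PO_ph (n0 := nz p) le_rfl (PO_WW p _)
  have iFT : PO 0 (T0 p) (FT p) := PO_FT p _
  have iR : PO 0 (T0 p) (1 + th (RR p)) := PO_add (PO_one _) (PO_th (PO_RR p _))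
  have iB : PO 0 (T0 p) B := A8_int p _
  have iA : PO 0 (T0 p) A := PO_mul_left iR iFT
  -- (ii)
  have h1 : PO 1 (T0 p) (W - (1 + th (RR p)) * w) := A8_i p hp
  have h2 : PO 1 (T0 p) (F - FT p * f) := A8_F p hp
  have h3 : PO 1 (T0 p) (W * F - A * (w * f)) := by
    have e : W * F - A * (w * f) = (W - (1 + th (RR p)) * w) * F +
        ((1 + th (RR p)) * w) * (F - FT p * f) := by
      rw [hA]; ring
    rw [e]
    exact PO_add (PO_mul_right h1 iF) (PO_mul_left (PO_mul_left iR iw) h2)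
  have z3 : W ^ 2 * F ^ 2 * B = 1 := Z3' ℚ_[p]
  have z3p : w ^ 2 * f ^ 2 * (1 - 256 * X ^ p) = 1 := by
    have h := congrArg (ph p ℚ_[p]) z3
    rw [map_mul, map_mul, map_pow, map_pow, map_one, hB, map_sub, map_one, map_mul, ph_X,
      map_ofNat] at h
    exact h
  have h4 : PO 1 (T0 p) (B ^ p - (1 - 256 * X ^ p)) := A8_frob p _
  have ip : PO 0 (T0 p) (1 - 256 * X ^ p : PowerSeries ℚ_[p]) := by
    have e : (1 - 256 * X ^ p : PowerSeries ℚ_[p]) = B ^ p - (B ^ p - (1 - 256 * X ^ p)) := by ring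
    rw [e]
    exact PO_sub (PO_pow iB _) (PO_mono (by norm_num) le_rfl h4)
  have h5 : PO 1 (T0 p) (1 - A ^ 2 * (w * f) ^ 2 * B) := by
    have e : 1 - A ^ 2 * (w * f) ^ 2 * B =
        (W * F - A * (w * f)) * ((W * F + A * (w * f)) * B) := by
      linear_combination -z3
    rw [e]
    refine PO_mul_right h3 (PO_mul_left ?_ iB)
    exact PO_add (PO_mul_left iW iF) (PO_mul_left iA (PO_mul_left iw if'))
  have h6 : PO 1 (T0 p) ((1 - 256 * X ^ p : PowerSeries ℚ_[p]) - A ^ 2 * B) := by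
    have e : (1 - 256 * X ^ p : PowerSeries ℚ_[p]) - A ^ 2 * B =
        (1 - A ^ 2 * (w * f) ^ 2 * B) * (1 - 256 * X ^ p) := by
      linear_combination (A ^ 2 * B) * z3p
    rw [e]
    exact PO_mul_right h5 ip
  have h7 : PO 1 (T0 p) (B * (A ^ 2 - (B ^ q) ^ 2)) := by
    have e : B * (A ^ 2 - (B ^ q) ^ 2) = -(((1 - 256 * X ^ p : PowerSeries ℚ_[p]) - A ^ 2 * B) +
        (B ^ p - (1 - 256 * X ^ p))) := by
      have e2 : B ^ p = B * (B ^ q) ^ 2 := by
        have e3 : B ^ p = B ^ (2 * q + 1) := congrArg (fun n => B ^ n) hq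
        rw [e3]
        ring
      rw [e2]
      ring
    rw [e]
    exact PO_neg (PO_add h6 h4)
  have h8 : PO 1 (T0 p) (A ^ 2 - (B ^ q) ^ 2) := PO_of_mul iB (A8_unit p) h7
  have cFT : constantCoeff (FT p) = 1 := constantCoeff_FT p
  have h9 : PO 1 (T0 p) (A - B ^ q) := by
    have e : A ^ 2 - (B ^ q) ^ 2 = (A + B ^ q) * (A - B ^ q) := by ring
    rw [e] at h8
    refine PO_of_mul (PO_add iA (PO_pow iB _)) ?_ h8
    have cA : constantCoeff A = 1 := by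
      rw [hA, map_mul, map_add, constantCoeff_th, cFT, map_one]
      ring
    have cB : constantCoeff B = 1 := by
      rw [hB]
      simp
    rw [map_add, map_pow, cA, cB, one_pow]
    have : ((1 : ℚ_[p]) + 1) = ((2 : ℕ) : ℚ_[p]) := by norm_num
    rw [this]
    apply norm_natCast_eq_one
    intro h
    have := Nat.le_of_dvd (by norm_num) h
    omega
  -- (iii)
  have r1 : RR p * FT p = GT p := by
    rw [RR, mul_assoc, PowerSeries.inv_mul_cancel _ (by rw [cFT]; exact one_ne_zero), mul_one]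
  have r2 : th (RR p) * FT p + RR p * th (FT p) = th (GT p) := by
    rw [← th_mul, r1]
  have e3 : (FT p) ^ 2 + (FT p * th (GT p) - GT p * th (FT p)) - FT p * B ^ q =
      FT p * (A - B ^ q) := by
    rw [← r2, ← r1, hA]
    ring
  rw [e3]
  exact PO_mul_left iFT h9

end Pool.Agent.Lib_helper57.AP
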