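import Pool.Agent.Lib_helper57.AP.A8
import Pool.Agent.Lib_helper57.AP.GZ

/-! Block A9: supersingular points.  From A8, in `(ZMod p)[X]`, with `f = ∑_{k≤q} bb k X^k`, `g = ∑_{k≤q} gz k X^k`
(degrees `≤ q`, `2q = p-1 < T0`): `f² + f θg - g θf = f (1-256X)^q`, so `f ∣ g * (X f')`.
If `f(a) = 0`, `a ≠ 0`, multiplicity `n ≥ 1` (`n ≤ q < p`): `f' ` has `a` with multiplicity exactly `n-1`, so `g(a) = 0`. -/

namespace Pool.Agent.Lib_helper57.AP

open PowerSeries Finset

theorem A9_root {K : Type} [Field K] (f g r : Polynomial K) (a : K) (hf0 : f ≠ 0) (ha : a ≠ 0)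
    (hfa : f.eval a = 0) (hn : ∀ n : ℕ, 0 < n → n ≤ f.natDegree → (n : K) ≠ 0)
    (h : f * r = g * (Polynomial.X * Polynomial.derivative f)) : g.eval a = 0 := by
  obtain ⟨q, hq, hqd⟩ := Polynomial.exists_eq_pow_rootMultiplicity_mul_and_not_dvd f hf0 a
  set n := Polynomial.rootMultiplicity a f with hndef
  have hnpos : 0 < n := (Polynomial.rootMultiplicity_pos hf0).2 hfa
  have hnle : n ≤ f.natDegree := by
    have h1 : (Polynomial.X - Polynomial.C a) ^ n ∣ f := Polynomial.pow_rootMultiplicity_dvd f a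
    have h2 := Polynomial.natDegree_le_of_dvd h1 hf0
    rwa [Polynomial.natDegree_pow, Polynomial.natDegree_X_sub_C, mul_one] at h2
  have hqa : q.eval a ≠ 0 := fun h0 => hqd (Polynomial.dvd_iff_isRoot.2 h0)
  obtain ⟨t, ht⟩ : ∃ t, n = t + 1 := ⟨n - 1, by omega⟩
  have hder : Polynomial.derivative f = (Polynomial.X - Polynomial.C a) ^ t
      * ((n : Polynomial K) * q + (Polynomial.X - Polynomial.C a) * Polynomial.derivative q) := by
    rw [hq, Polynomial.derivative_mul, Polynomial.derivative_pow, Polynomial.derivative_sub,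
      Polynomial.derivative_X, Polynomial.derivative_C, ht]
    simp only [Nat.add_sub_cancel, Polynomial.C_eq_natCast]
    ring
  have hX : (Polynomial.X - Polynomial.C a : Polynomial K) ≠ 0 := Polynomial.X_sub_C_ne_zero a
  have h2 : (Polynomial.X - Polynomial.C a) ^ t * ((Polynomial.X - Polynomial.C a) * q * r)
      = (Polynomial.X - Polynomial.C a) ^ t * (g * (Polynomial.X
        * ((n : Polynomial K) * q + (Polynomial.X - Polynomial.C a) * Polynomial.derivative q))) := by
    have h1 : f * r = (Polynomial.X - Polynomial.C a) ^ t * ((Polynomial.X - Polynomial.C a) * q * r) := by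
      conv_lhs => rw [hq, ht]
      ring
    rw [← h1, h, hder]
    ring
  have h3 := mul_left_cancel₀ (pow_ne_zero t hX) h2
  have h4 := congrArg (Polynomial.eval a) h3
  simp only [Polynomial.eval_mul, Polynomial.eval_sub, Polynomial.eval_X, Polynomial.eval_C,
    sub_self, zero_mul, Polynomial.eval_add, Polynomial.eval_natCast, add_zero] at h4
  have hnK : (n : K) ≠ 0 := hn n hnpos hnle
  have h5 : g.eval a * (a * ((n : K) * q.eval a)) = 0 := h4.symm
  rcases mul_eq_zero.1 h5 with h6 | h6
  · exact h6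
  · exact absurd h6 (mul_ne_zero ha (mul_ne_zero hnK hqa))

variable (p : ℕ) [Fact p.Prime]

/-- the polynomial of A8 -/
noncomputable def A9_P (p : ℕ) : Polynomial ℤ :=
  (FlZ p) ^ 2 + (FlZ p * (Polynomial.X * Polynomial.derivative (GlZ p))
    - GlZ p * (Polynomial.X * Polynomial.derivative (FlZ p)))
    - FlZ p * (1 - 256 * Polynomial.X) ^ ((p - 1) / 2)

theorem A9_cst : cst ℚ_[p] (A9_P p) =
    (cst ℚ_[p] (FlZ p)) ^ 2 + (cst ℚ_[p] (FlZ p) * th (cst ℚ_[p] (GlZ p))
      - cst ℚ_[p] (GlZ p) * th (cst ℚ_[p] (FlZ p)))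
      - cst ℚ_[p] (FlZ p) * (1 - 256 * X) ^ ((p - 1) / 2) := by
  unfold A9_P
  rw [th_cst, th_cst]
  have h256 : (cst ℚ_[p] (1 - 256 * Polynomial.X)) = (1 - 256 * X : PowerSeries ℚ_[p]) := by
    rw [map_sub, map_mul, map_one, cst_X, map_ofNat]
  simp only [map_sub, map_add, map_mul, map_pow] at h256 ⊢
  rw [h256]

theorem A9_PO (hp : 3 < p) : PO 1 (T0 p) (cst ℚ_[p] (A9_P p)) := by
  rw [A9_cst]
  have h8 := A8 p hp
  set F := cst ℚ_[p] (FlZ p) with hF
  set G := cst ℚ_[p] (GlZ p) with hG
  have hdF : PO 1 (T0 p) (FT p - F) := PO_FT_sub p _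
  have hdG : PO 1 (T0 p) (GT p - G) := PO_GT_sub p hp _
  have hF0 : PO 0 (T0 p) F := PO_cst _ _
  have hG0 : PO 0 (T0 p) G := PO_cst _ _
  have hFT : PO 0 (T0 p) (FT p) := PO_FT p _
  have hGT : PO 0 (T0 p) (GT p) := PO_GT p _
  have hB : PO 0 (T0 p) ((1 - 256 * X : PowerSeries ℚ_[p]) ^ ((p - 1) / 2)) := by
    have h256 : (cst ℚ_[p] (1 - 256 * Polynomial.X)) = (1 - 256 * X : PowerSeries ℚ_[p]) := by
      rw [map_sub, map_mul, map_one, cst_X, map_ofNat]
    rw [← h256]
    exact PO_pow (PO_cst _ _) _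
  set B := ((1 - 256 * X : PowerSeries ℚ_[p]) ^ ((p - 1) / 2)) with hBdef
  have e : F ^ 2 + (F * th G - G * th F) - F * B
      = ((FT p) ^ 2 + (FT p * th (GT p) - GT p * th (FT p)) - FT p * B)
        - ((FT p - F) * (FT p + F) + ((FT p - F) * th (GT p) + F * th (GT p - G))
          - ((GT p - G) * th (FT p) + G * th (FT p - F)) - (FT p - F) * B) := by
    rw [th_sub, th_sub]; ring
  rw [e]
  refine PO_sub h8 (PO_sub (PO_sub (PO_add ?_ (PO_add ?_ ?_)) (PO_add ?_ ?_)) ?_)
  · exact PO_mul_right hdF (PO_add hFT hF0)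
  · exact PO_mul_right hdF (PO_th hGT)
  · exact PO_mul_left hF0 (PO_th hdG)
  · exact PO_mul_right hdG (PO_th hFT)
  · exact PO_mul_left hG0 (PO_th hdF)
  · exact PO_mul_right hdF hB

theorem A9_degF : (FlZ p).natDegree ≤ p / 4 := by
  unfold FlZ
  refine Polynomial.natDegree_sum_le_of_forall_le _ _ fun k hk => ?_
  rw [Finset.mem_range] at hk
  refine (Polynomial.natDegree_C_mul_X_pow_le _ _).trans (by omega)

theorem A9_degG : (GlZ p).natDegree ≤ (p - 1) / 2 := by
  unfold GlZ
  refine Polynomial.natDegree_sum_le_of_forall_le _ _ fun k hk => ?_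
  rw [Finset.mem_range] at hk
  refine (Polynomial.natDegree_C_mul_X_pow_le _ _).trans (by omega)

theorem A9_degX (f : Polynomial ℤ) (d : ℕ) (h : f.natDegree ≤ d) :
    (Polynomial.X * Polynomial.derivative f).natDegree ≤ d := by
  by_cases h0 : f.natDegree = 0
  · have : Polynomial.derivative f = 0 := by
      rw [Polynomial.eq_C_of_natDegree_eq_zero h0, Polynomial.derivative_C]
    rw [this, mul_zero]; simp
  · have h1 := Polynomial.natDegree_derivative_lt h0
    have h2 := Polynomial.natDegree_mul_le (p := (Polynomial.X : Polynomial ℤ))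
      (q := Polynomial.derivative f)
    rw [Polynomial.natDegree_X] at h2
    omega

theorem A9_deg (hp : 3 < p) : (A9_P p).natDegree < T0 p := by
  have hF := A9_degF p
  have hG := A9_degG p
  have hXF := A9_degX _ _ hF
  have hXG := A9_degX _ _ hG
  have hT : p ≤ T0 p := by
    unfold T0 nz
    exact Nat.le_mul_of_pos_right p (by omega)
  have hB : ((1 - 256 * Polynomial.X : Polynomial ℤ) ^ ((p - 1) / 2)).natDegree ≤ (p - 1) / 2 := by
    refine (Polynomial.natDegree_pow_le).trans ?_
    have : (1 - 256 * Polynomial.X : Polynomial ℤ).natDegree ≤ 1 := by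
      have e : (1 - 256 * Polynomial.X : Polynomial ℤ)
          = Polynomial.C (-256) * Polynomial.X + Polynomial.C 1 := by
        simp only [map_neg, Polynomial.C_1, map_ofNat]; ring
      rw [e]
      exact Polynomial.natDegree_linear_le
    calc (p - 1) / 2 * (1 - 256 * Polynomial.X : Polynomial ℤ).natDegree ≤ (p - 1) / 2 * 1 :=
          Nat.mul_le_mul_left _ this
      _ = _ := mul_one _
  have key : (A9_P p).natDegree ≤ p / 4 + (p - 1) / 2 := by
    unfold A9_P
    refine (Polynomial.natDegree_sub_le _ _).trans (max_le ((Polynomial.natDegree_add_le _ _).trans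
      (max_le ?_ ((Polynomial.natDegree_sub_le _ _).trans (max_le ?_ ?_)))) ?_)
    · refine (Polynomial.natDegree_pow_le).trans ?_
      omega
    · exact (Polynomial.natDegree_mul_le).trans (by omega)
    · exact (Polynomial.natDegree_mul_le).trans (by omega)
    · exact (Polynomial.natDegree_mul_le).trans (by omega)
  omega

theorem A9_map (hp : 3 < p) : (A9_P p).map (Int.castRingHom (ZMod p)) = 0 := by
  ext n
  rw [Polynomial.coeff_map, Polynomial.coeff_zero]
  by_cases hn : n < T0 p
  · have h := A9_PO p hp n hn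
    rw [coeff_cst, PI_intCast_iff, pow_one] at h
    simpa using (ZMod.intCast_zmod_eq_zero_iff_dvd _ p).2 h
  · have := A9_deg p hp
    rw [Polynomial.coeff_eq_zero_of_natDegree_lt (by omega)]
    simp

theorem A9 (hp : 3 < p) (a : ZMod p) (ha : a ≠ 0)
    (h : ∑ k ∈ range ((p - 1) / 2 + 1), (bb k : ZMod p) * a ^ k = 0) :
    ∑ k ∈ range ((p - 1) / 2 + 1), gz p k * a ^ k = 0 := by
  set f : Polynomial (ZMod p) := (FlZ p).map (Int.castRingHom (ZMod p)) with hf
  set g : Polynomial (ZMod p) := (GlZ p).map (Int.castRingHom (ZMod p)) with hg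
  have hga : g.eval a = ∑ k ∈ range ((p - 1) / 2 + 1), gz p k * a ^ k := by
    rw [hg]
    unfold GlZ
    rw [Polynomial.map_sum, Polynomial.eval_finsetSum]
    refine Finset.sum_congr rfl fun k _ => ?_
    rw [← gl_cast]
    simp
  have hfa : f.eval a = ∑ k ∈ range (p / 4 + 1), (bb k : ZMod p) * a ^ k := by
    rw [hf]
    unfold FlZ
    rw [Polynomial.map_sum, Polynomial.eval_finsetSum]
    refine Finset.sum_congr rfl fun k _ => ?_
    simp
  have hf1 : f.eval a = 0 := by
    rw [hfa, ← h]
    refine Finset.sum_subset (fun k hk => ?_) (fun k hk hk' => ?_)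
    · rw [Finset.mem_range] at hk ⊢
      omega
    · rw [Finset.mem_range] at hk hk'
      have hd : p ∣ bb k := bb_dvd1 p k (by omega) (by omega)
      rw [(ZMod.natCast_eq_zero_iff _ _).2 hd, zero_mul]
  have hf0 : f ≠ 0 := by
    intro h0
    have h1 : f.coeff 0 = 1 := by
      rw [hf, Polynomial.coeff_map]
      unfold FlZ
      rw [Polynomial.finsetSum_coeff, Finset.sum_eq_single 0]
      · simp [bb]
      · intro k _ hk
        simp [Polynomial.coeff_X_pow, hk.symm]
      · intro h; exact absurd (Finset.mem_range.2 (Nat.succ_pos _)) h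
    rw [h0, Polynomial.coeff_zero] at h1
    exact zero_ne_one h1
  have hmap := A9_map p hp
  unfold A9_P at hmap
  simp only [Polynomial.map_sub, Polynomial.map_add, Polynomial.map_mul, Polynomial.map_pow,
    Polynomial.map_X] at hmap
  rw [← hga]
  refine A9_root f g (f + Polynomial.X * Polynomial.derivative g
    - ((1 - 256 * Polynomial.X : Polynomial ℤ).map (Int.castRingHom (ZMod p))) ^ ((p - 1) / 2)) a hf0 ha hf1 ?_ ?_
  · intro n hn hn' h0
    have h1 := (ZMod.natCast_eq_zero_iff _ _).1 h0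
    have h2 := Nat.le_of_dvd hn h1
    have h3 : f.natDegree ≤ p / 4 := (Polynomial.natDegree_map_le).trans (A9_degF p)
    omega
  · simp only [Polynomial.map_sub, Polynomial.map_mul, Polynomial.map_X]
    rw [hf, hg, Polynomial.derivative_map, Polynomial.derivative_map]
    linear_combination hmap

end Pool.Agent.Lib_helper57.AP
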