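import Pool.Agent.Lib_helper57.AP.Defs

/-! Block B1: weighted degree in `R[X][Y]/(Y²-D)`, `wd X = 1`, `wd Y = g+1`, `deg D ≤ 2g+2`. -/

namespace Pool.Agent.Lib_helper57.AP

open Finset

/-- `t` has weighted degree `≤ n` -/
def B1_WD (M : MD) {R : Type} [CommRing R] (n : ℕ) (t : QR M R) : Prop :=
  (∀ i, n < i → t.re.coeff i = 0) ∧ (∀ i, n < i + (M.g + 1) → t.im.coeff i = 0)

section
variable {M : MD} {R : Type} [CommRing R]

theorem B1_mono {m n : ℕ} (h : m ≤ n) {t : QR M R} (ht : B1_WD M m t) : B1_WD M n t :=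
  ⟨fun i hi => ht.1 i (by omega), fun i hi => ht.2 i (by omega)⟩

theorem B1_zero (n : ℕ) : B1_WD M n (0 : QR M R) :=
  ⟨fun i _ => by simp, fun i _ => by simp⟩

theorem B1_add {n : ℕ} {s t : QR M R} (hs : B1_WD M n s) (ht : B1_WD M n t) :
    B1_WD M n (s + t) := by
  refine ⟨fun i hi => ?_, fun i hi => ?_⟩
  · rw [QuadraticAlgebra.re_add, Polynomial.coeff_add, hs.1 i hi, ht.1 i hi, add_zero]
  · rw [QuadraticAlgebra.im_add, Polynomial.coeff_add, hs.2 i hi, ht.2 i hi, add_zero]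

theorem B1_sub {n : ℕ} {s t : QR M R} (hs : B1_WD M n s) (ht : B1_WD M n t) :
    B1_WD M n (s - t) := by
  refine ⟨fun i hi => ?_, fun i hi => ?_⟩
  · rw [QuadraticAlgebra.re_sub, Polynomial.coeff_sub, hs.1 i hi, ht.1 i hi, sub_zero]
  · rw [QuadraticAlgebra.im_sub, Polynomial.coeff_sub, hs.2 i hi, ht.2 i hi, sub_zero]

theorem B1_pmul {a b : ℕ} {f h : Polynomial R} (hf : ∀ i, a < i → f.coeff i = 0)
    (hh : ∀ i, b < i → h.coeff i = 0) (i : ℕ) (hi : a + b < i) : (f * h).coeff i = 0 := by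
  rw [Polynomial.coeff_mul]
  apply Finset.sum_eq_zero
  intro x hx
  rw [HasAntidiagonal.mem_antidiagonal] at hx
  by_cases h1 : a < x.1
  · rw [hf _ h1, zero_mul]
  · rw [hh x.2 (by omega), mul_zero]

/-- product with a shifted bound -/
theorem B1_pmul2 {a b c : ℕ} {f h : Polynomial R} (hf : ∀ i, a < i → f.coeff i = 0)
    (hh : ∀ i, b < i + c → h.coeff i = 0) (i : ℕ) (hi : a + b < i + c) :
    (f * h).coeff i = 0 := by
  rw [Polynomial.coeff_mul]
  apply Finset.sum_eq_zero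
  intro x hx
  rw [HasAntidiagonal.mem_antidiagonal] at hx
  by_cases h1 : a < x.1
  · rw [hf _ h1, zero_mul]
  · rw [hh x.2 (by omega), mul_zero]

theorem B1_pmul3 {a b c : ℕ} {f h : Polynomial R} (hf : ∀ i, a < i + c → f.coeff i = 0)
    (hh : ∀ i, b < i + c → h.coeff i = 0) (i : ℕ) (hi : a + b < i + 2 * c) :
    (f * h).coeff i = 0 := by
  rw [Polynomial.coeff_mul]
  apply Finset.sum_eq_zero
  intro x hx
  rw [HasAntidiagonal.mem_antidiagonal] at hx
  by_cases h1 : a < x.1 + c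
  · rw [hf _ h1, zero_mul]
  · rw [hh x.2 (by omega), mul_zero]

theorem B1_red {f : Polynomial ℤ} {n : ℕ} (hf : f.natDegree ≤ n) (i : ℕ) (hi : n < i) :
    (red R f).coeff i = 0 := by
  unfold red
  rw [Polynomial.coe_mapRingHom, Polynomial.coeff_map,
    Polynomial.coeff_eq_zero_of_natDegree_lt (by omega), map_zero]

theorem B1_mul (hD : M.D.natDegree ≤ 2 * M.g + 2) {m n : ℕ} {s t : QR M R}
    (hs : B1_WD M m s) (ht : B1_WD M n t) : B1_WD M (m + n) (s * t) := by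
  refine ⟨fun i hi => ?_, fun i hi => ?_⟩
  · rw [QuadraticAlgebra.re_mul, Polynomial.coeff_add, B1_pmul hs.1 ht.1 i hi, zero_add,
      mul_assoc, Polynomial.coeff_mul]
    apply Finset.sum_eq_zero
    intro x hx
    rw [HasAntidiagonal.mem_antidiagonal] at hx
    by_cases h1 : 2 * M.g + 2 < x.1
    · rw [B1_red hD _ h1, zero_mul]
    · rw [B1_pmul3 hs.2 ht.2 x.2 (by omega), mul_zero]
  · rw [QuadraticAlgebra.im_mul, zero_mul, zero_mul, add_zero, Polynomial.coeff_add,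
      B1_pmul2 hs.1 ht.2 i hi, mul_comm s.im, B1_pmul2 ht.1 hs.2 i (by omega), add_zero]

theorem B1_one : B1_WD M 0 (1 : QR M R) := by
  refine ⟨fun i hi => ?_, fun i hi => ?_⟩
  · change (1 : Polynomial R).coeff i = 0
    rw [Polynomial.coeff_one, if_neg (by omega)]
  · change (0 : Polynomial R).coeff i = 0
    simp

theorem B1_nat (k : ℕ) : B1_WD M 0 (k : QR M R) := by
  refine ⟨fun i hi => ?_, fun i hi => ?_⟩
  · rw [QuadraticAlgebra.re_natCast, Polynomial.coeff_natCast_ite, if_neg (by omega), Nat.cast_zero]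
  · rw [QuadraticAlgebra.im_natCast, Polynomial.coeff_zero]

theorem B1_pow (hD : M.D.natDegree ≤ 2 * M.g + 2) {n : ℕ} {t : QR M R}
    (ht : B1_WD M n t) (k : ℕ) : B1_WD M (k * n) (t ^ k) := by
  induction k with
  | zero => rw [zero_mul, pow_zero]; exact B1_one
  | succ k ih =>
      rw [pow_succ, Nat.succ_mul]
      exact B1_mul hD ih ht

theorem B1_sum {ι : Type} (s : Finset ι) (f : ι → QR M R) {n : ℕ}
    (h : ∀ i ∈ s, B1_WD M n (f i)) : B1_WD M n (∑ i ∈ s, f i) := by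
  classical
  induction s using Finset.induction_on with
  | empty => rw [Finset.sum_empty]; exact B1_zero n
  | insert a s ha ih =>
      rw [Finset.sum_insert ha]
      exact B1_add (h a (Finset.mem_insert_self a s))
        (ih fun i hi => h i (Finset.mem_insert_of_mem hi))

theorem B1_natmul (hD : M.D.natDegree ≤ 2 * M.g + 2) {n : ℕ} {t : QR M R} (k : ℕ)
    (ht : B1_WD M n t) : B1_WD M n ((k : QR M R) * t) := by
  have := B1_mul hD (B1_nat k) ht
  rwa [zero_add] at this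

theorem B1_two (hD : M.D.natDegree ≤ 2 * M.g + 2) {n : ℕ} {t : QR M R}
    (ht : B1_WD M n t) : B1_WD M n (2 * t) := by
  have := B1_natmul hD 2 ht
  exact_mod_cast this

theorem B1_C {f : Polynomial R} {n : ℕ} (hf : ∀ i, n < i → f.coeff i = 0) :
    B1_WD M n (⟨f, 0⟩ : QR M R) :=
  ⟨hf, fun i _ => Polynomial.coeff_zero i⟩

theorem B1_x : B1_WD M 1 (⟨Polynomial.X, 0⟩ : QR M R) :=
  B1_C fun i hi => by rw [Polynomial.coeff_X, if_neg (by omega)]

theorem B1_y : B1_WD M (M.g + 1) (⟨0, 1⟩ : QR M R) :=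
  ⟨fun i _ => Polynomial.coeff_zero i,
    fun i hi => by
      change (1 : Polynomial R).coeff i = 0
      rw [Polynomial.coeff_one, if_neg (by omega)]⟩

theorem B1_der {f : Polynomial ℤ} {n : ℕ} (hf : f.natDegree ≤ n) :
    (Polynomial.X * Polynomial.derivative f).natDegree ≤ n := by
  rw [Polynomial.natDegree_le_iff_coeff_eq_zero]
  intro i hi
  obtain ⟨j, rfl⟩ : ∃ j, i = j + 1 := ⟨i - 1, by omega⟩
  rw [Polynomial.coeff_X_mul, Polynomial.coeff_derivative,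
    Polynomial.coeff_eq_zero_of_natDegree_lt (by omega), zero_mul]

theorem B1_exp {f : Polynomial ℤ} {n p : ℕ} (_hp : 0 < p) (hf : f.natDegree ≤ n) :
    (Polynomial.expand ℤ p f).natDegree ≤ n * p := by
  rw [Polynomial.natDegree_expand]
  exact Nat.mul_le_mul_right p hf

theorem B1_homog (hD : M.D.natDegree ≤ 2 * M.g + 2) {n K : ℕ} {a b : QR M R} (c : ℕ → ℕ)
    (ha : B1_WD M n a) (hb : B1_WD M n b) :
    B1_WD M (K * n) (∑ k ∈ range (K + 1), (c k : QR M R) * a ^ k * b ^ (K - k)) := by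
  apply B1_sum
  intro k hk
  rw [Finset.mem_range] at hk
  have h1 := B1_natmul hD (c k) (B1_pow hD ha k)
  have h2 := B1_mul hD h1 (B1_pow hD hb (K - k))
  refine B1_mono (le_of_eq ?_) h2
  rw [← Nat.add_mul]
  congr 1
  omega

end

theorem Theta_im_coeff (M : MD) (hM : M.Valid) (p : ℕ) [Fact p.Prime] (hp : 3 < p) (hB : M.Big p)
    (R : Type) [CommRing R] (i : ℕ) (hi : T0 p ≤ i) :
    (Theta p M.d (datQ M p R)).im.coeff i = 0 := by
  have hD := hM.degD
  have hp0 : 0 < p := by omega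
  have hgd : M.g + 1 ≤ M.d := by have := hM.degQ; omega
  have hS : B1_WD M M.d (datQ M p R).S := B1_C (B1_red hM.degS)
  have hQ : B1_WD M (M.d - (M.g + 1)) (datQ M p R).Q :=
    B1_C (B1_red (by have := hM.degQ; omega))
  have hDD : B1_WD M (2 * M.g + 2) (datQ M p R).D := B1_C (B1_red hD)
  have hN : B1_WD M (M.d + 1) (datQ M p R).N := B1_C (B1_red hM.degN)
  have htS : B1_WD M M.d (datQ M p R).tS := B1_C (B1_red (B1_der hM.degS))
  have htQ : B1_WD M (M.d - (M.g + 1)) (datQ M p R).tQ :=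
    B1_C (B1_red (B1_der (by have := hM.degQ; omega)))
  have htD : B1_WD M (2 * M.g + 2) (datQ M p R).tD := B1_C (B1_red (B1_der hD))
  have hSf : B1_WD M (M.d * p) (datQ M p R).Sf := B1_C (B1_red (B1_exp hp0 hM.degS))
  have hQf : B1_WD M ((M.d - (M.g + 1)) * p) (datQ M p R).Qf :=
    B1_C (B1_red (B1_exp hp0 (by have := hM.degQ; omega)))
  have hDf : B1_WD M ((2 * M.g + 2) * p) (datQ M p R).Df := B1_C (B1_red (B1_exp hp0 hD))
  have hx : B1_WD M 1 (datQ M p R).x := B1_x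
  have hy : B1_WD M (M.g + 1) (datQ M p R).y := B1_y
  generalize datQ M p R = t at *
  have hQy : B1_WD M M.d (t.Q * t.y) := B1_mono (by omega) (B1_mul hD hQ hy)
  have hP : B1_WD M M.d (t.S + t.Q * t.y) := B1_add hS hQy
  have hPb : B1_WD M M.d (t.S - t.Q * t.y) := B1_sub hS hQy
  have hxP : B1_WD M (M.d + 1) (t.x * (t.S + t.Q * t.y)) :=
    B1_mono (by omega) (B1_mul hD hx hP)
  have hxPb : B1_WD M (M.d + 1) (t.x * (t.S - t.Q * t.y)) :=
    B1_mono (by omega) (B1_mul hD hx hPb)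
  have h2N : B1_WD M (M.d + 1) (2 * t.N) := B1_two hD hN
  have hGH : B1_WD M ((p - 1) / 2 * (M.d + 1)) (GH p (t.x * (t.S + t.Q * t.y)) (2 * t.N)) :=
    B1_homog hD (gl p) hxP h2N
  have hFH : B1_WD M (p / 4 * (M.d + 1)) (FH p (t.x * (t.S + t.Q * t.y)) (2 * t.N)) :=
    B1_homog hD bb hxP h2N
  have hFHb : B1_WD M (p / 4 * (M.d + 1)) (FH p (t.x * (t.S - t.Q * t.y)) (2 * t.N)) :=
    B1_homog hD bb hxPb h2N
  have hDp : B1_WD M (p * (2 * M.g + 2)) (t.D ^ p) := B1_pow hD hDD p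
  have hPbp : B1_WD M (p * M.d) ((t.S - t.Q * t.y) ^ p) := B1_pow hD hPb p
  have hyp : B1_WD M (p * (M.g + 1)) (t.y ^ p) := B1_pow hD hy p
  -- first factor
  have f1 : B1_WD M (p * (2 * M.g + 2) + (p - 1) / 2 * (M.d + 1) + p * M.d)
      (2 * (p : QR M R) * t.D ^ p * GH p (t.x * (t.S + t.Q * t.y)) (2 * t.N) *
        (t.S - t.Q * t.y) ^ p) := by
    have e : (2 * (p : QR M R) * t.D ^ p) = 2 * ((p : QR M R) * t.D ^ p) := by ring
    rw [e]
    exact B1_mul hD (B1_mul hD (B1_two hD (B1_natmul hD p hDp)) hGH) hPbp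
  have f2 : B1_WD M (p * (2 * M.g + 2) + p * M.d)
      (2 ^ (p - 1) * (2 * t.D ^ p * t.Sf - t.Qf * t.y ^ p * (t.D ^ p + t.Df)) -
        2 * t.D ^ p * (t.S - t.Q * t.y) ^ p) := by
    apply B1_sub
    · have e : ((2 : QR M R) ^ (p - 1)) = ((2 ^ (p - 1) : ℕ) : QR M R) := by push_cast; rfl
      rw [e]
      apply B1_natmul hD
      apply B1_sub
      · refine B1_mono (le_of_eq ?_) (B1_mul hD (B1_two hD hDp) hSf)
        ring
      · have hDD2 : B1_WD M (p * (2 * M.g + 2)) (t.D ^ p + t.Df) :=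
          B1_add hDp (B1_mono (le_of_eq (by ring)) hDf)
        refine B1_mono (le_of_eq ?_) (B1_mul hD (B1_mul hD hQf hyp) hDD2)
        obtain ⟨r, hr⟩ : ∃ r, M.d = r + (M.g + 1) := ⟨M.d - (M.g + 1), by omega⟩
        rw [hr]
        simp only [Nat.add_sub_cancel]
        ring
    · exact B1_mul hD (B1_two hD hDp) hPbp
  have hKq : p / 4 ≤ (p - 1) / 2 := by omega
  have f3 : B1_WD M (p * (2 * M.g + 2) + p * M.d + ((p - 1) / 2 - p / 4) * (M.d + 1) +
      p / 4 * (M.d + 1))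
      ((2 ^ (p - 1) * (2 * t.D ^ p * t.Sf - t.Qf * t.y ^ p * (t.D ^ p + t.Df)) -
        2 * t.D ^ p * (t.S - t.Q * t.y) ^ p) * (2 * t.N) ^ ((p - 1) / 2 - p / 4) *
        FH p (t.x * (t.S + t.Q * t.y)) (2 * t.N)) :=
    B1_mul hD (B1_mul hD f2 (B1_pow hD h2N _)) hFH
  have f4 : B1_WD M (2 * M.g + 2 + M.d)
      (2 * t.D * ((M.d : QR M R) * t.S - t.tS) +
        (2 * t.D * ((M.d : QR M R) * t.Q - t.tQ) - t.Q * t.tD) * t.y) := by
    have h2D : B1_WD M (2 * M.g + 2) (2 * t.D) := B1_two hD hDD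
    apply B1_add
    · exact B1_mul hD h2D (B1_sub (B1_natmul hD M.d hS) htS)
    · have a1 : B1_WD M (2 * M.g + 2 + (M.d - (M.g + 1)))
          (2 * t.D * ((M.d : QR M R) * t.Q - t.tQ) - t.Q * t.tD) := by
        apply B1_sub
        · exact B1_mul hD h2D (B1_sub (B1_natmul hD M.d hQ) htQ)
        · exact B1_mono (by omega) (B1_mul hD hQ htD)
      exact B1_mono (by omega) (B1_mul hD a1 hy)
  have f5 := B1_pow hD f4 p
  have hq : ((p - 1) / 2 - p / 4) * (M.d + 1) + p / 4 * (M.d + 1) = (p - 1) / 2 * (M.d + 1) := by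
    rw [← Nat.add_mul]
    congr 1
    omega
  have f6 : B1_WD M (p * (2 * M.g + 2) + p * M.d + (p - 1) / 2 * (M.d + 1) +
      p / 4 * (M.d + 1) + p * (2 * M.g + 2 + M.d)) (Theta p M.d t) := by
    unfold Theta
    refine B1_mul hD (B1_mul hD (B1_add (B1_mono (le_of_eq (by ring)) f1)
      (B1_mono (le_of_eq ?_) f3)) hFHb) f5
    rw [add_assoc (p * (2 * M.g + 2) + p * M.d), hq]
  apply f6.2 i
  -- the numerical inequality
  unfold MD.Big at hB
  unfold T0 at hi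
  have k1 : 4 * ((p - 1) / 2) + 4 * (p / 4) + 2 ≤ 3 * p := by omega
  have k2 : p * (4 * (4 * M.g + 4 + 2 * M.d) + 3 * (M.d + 1)) ≤ p * (4 * nz p) :=
    Nat.mul_le_mul_left p hB
  have k3 : (4 * ((p - 1) / 2) + 4 * (p / 4) + 2) * (M.d + 1) ≤ 3 * p * (M.d + 1) :=
    Nat.mul_le_mul_right _ k1
  have k4 : 4 * (p * (2 * M.g + 2) + p * M.d + (p - 1) / 2 * (M.d + 1) +
      p / 4 * (M.d + 1) + p * (2 * M.g + 2 + M.d)) + 2 * (M.d + 1) =
      4 * (p * (4 * M.g + 4 + 2 * M.d)) +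
        (4 * ((p - 1) / 2) + 4 * (p / 4) + 2) * (M.d + 1) := by ring
  have k5 : p * (4 * (4 * M.g + 4 + 2 * M.d) + 3 * (M.d + 1)) =
      4 * (p * (4 * M.g + 4 + 2 * M.d)) + 3 * p * (M.d + 1) := by ring
  have k6 : p * (4 * nz p) = 4 * (p * nz p) := by ring
  omega

end Pool.Agent.Lib_helper57.AP
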