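import Pool.Agent.Lib_helper57.AP.ThApi

/-! Block B2.  B2: in `(ZMod (p²))⟦X⟧` with `Y² = D`: `φY = Y^p + p h` (Frobenius mod p, then lift), hence
`φD = D^p + 2 p Y^p h` and `2 D^p φY = Y^p (D^p + φD)`.
B3: `Theta` in the power series ring is `2 D^p (2D)^p` times `ThetaS` (`2 D θY = Y θD` from `2 Y θY = θD`; `Pb = PP M (-Y)`,
`Y ↦ -Y`: `p` odd is not needed for B3 itself: B2 is used for `φ(PP M (-Y)) = φS - φQ φY`). -/

namespace Pool.Agent.Lib_helper57.AP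

open PowerSeries Finset

variable (p : ℕ) [Fact p.Prime]

theorem B2_frob (f : PowerSeries (ZMod p)) : ph p (ZMod p) f = f ^ p := by
  have h := MvPowerSeries.map_frobenius_expand (R := ZMod p) (σ := Unit) p
    (Nat.Prime.ne_zero Fact.out) (f := f)
  rw [ZMod.frobenius_zmod, MvPowerSeries.map_id] at h
  exact h

theorem B2_dvd (a : ZMod (p ^ 2))
    (h : ZMod.castHom (dvd_pow_self p two_ne_zero) (ZMod p) a = 0) :
    ∃ b : ZMod (p ^ 2), a = (p : ZMod (p ^ 2)) * b := by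
  have : NeZero (p ^ 2) := ⟨pow_ne_zero 2 (Nat.Prime.ne_zero Fact.out)⟩
  have h1 : ((a.val : ℕ) : ZMod p) = 0 := by
    rw [← h, ZMod.castHom_apply, ← ZMod.natCast_val]
  rw [ZMod.natCast_eq_zero_iff] at h1
  obtain ⟨c, hc⟩ := h1
  refine ⟨(c : ZMod (p ^ 2)), ?_⟩
  rw [← ZMod.natCast_zmod_val a, hc, Nat.cast_mul]

theorem B2_lift (Y : PowerSeries (ZMod (p ^ 2))) :
    ∃ h : PowerSeries (ZMod (p ^ 2)),
      ph p (ZMod (p ^ 2)) Y = Y ^ p + (p : PowerSeries (ZMod (p ^ 2))) * h := by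
  have key : ∀ n, ∃ b : ZMod (p ^ 2), coeff n (ph p (ZMod (p ^ 2)) Y - Y ^ p) =
      (p : ZMod (p ^ 2)) * b := by
    intro n
    apply B2_dvd
    rw [← PowerSeries.coeff_map, map_sub, map_ph, map_pow, B2_frob, sub_self, map_zero]
  choose b hb using key
  refine ⟨PowerSeries.mk b, ?_⟩
  rw [← sub_eq_iff_eq_add']
  ext n
  have hc : (p : PowerSeries (ZMod (p ^ 2))) = C ((p : ZMod (p ^ 2))) := by simp
  rw [hb n, hc, PowerSeries.coeff_C_mul, PowerSeries.coeff_mk]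

theorem B2_psq : ((p : PowerSeries (ZMod (p ^ 2)))) ^ 2 = 0 := by
  have h : ((p ^ 2 : ℕ) : PowerSeries (ZMod (p ^ 2))) = 0 := by
    have hc : ((p ^ 2 : ℕ) : PowerSeries (ZMod (p ^ 2))) = C (((p ^ 2 : ℕ) : ZMod (p ^ 2))) :=
      (map_natCast (C (R := ZMod (p ^ 2))) (p ^ 2)).symm
    rw [hc, ZMod.natCast_self, map_zero]
  rw [← h]
  push_cast
  ring

theorem B2 (D Y : PowerSeries (ZMod (p ^ 2))) (hY : Y ^ 2 = D) :
    2 * D ^ p * ph p (ZMod (p ^ 2)) Y = Y ^ p * (D ^ p + ph p (ZMod (p ^ 2)) D) := by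
  obtain ⟨h, hh⟩ := B2_lift p Y
  have h2 := B2_psq p
  rw [← hY, map_pow, hh, ← pow_mul, mul_comm 2 p, pow_mul]
  linear_combination (-(Y ^ p) * h ^ 2) * h2

theorem B3 (M : MD) (Y : PowerSeries (ZMod (p ^ 2))) (hY : Y ^ 2 = cst (ZMod (p ^ 2)) M.D) :
    Theta p M.d (datPS M p Y) =
      2 * (cst (ZMod (p ^ 2)) M.D) ^ p * (2 * cst (ZMod (p ^ 2)) M.D) ^ p * ThetaS M p Y := by
  have hB2 := B2 p (cst (ZMod (p ^ 2)) M.D) Y hY
  rw [ph_cst] at hB2
  have hth : 2 * Y * th Y = cst (ZMod (p ^ 2)) (Polynomial.X * Polynomial.derivative M.D) := by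
    rw [← th_cst, ← hY, th_pow]
    push_cast
    ring
  have hth2 : 2 * cst (ZMod (p ^ 2)) M.D * th Y =
      cst (ZMod (p ^ 2)) (Polynomial.X * Polynomial.derivative M.D) * Y := by
    rw [← hY, ← hth]; ring
  have e1 : ph p (ZMod (p ^ 2)) (PP M (-Y)) =
      cst (ZMod (p ^ 2)) (Polynomial.expand ℤ p M.S)
        - cst (ZMod (p ^ 2)) (Polynomial.expand ℤ p M.Q) * ph p (ZMod (p ^ 2)) Y := by
    unfold PP
    rw [map_add, map_mul, map_neg, ph_cst, ph_cst]; ring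
  have e2 : th (PP M Y) = cst (ZMod (p ^ 2)) (Polynomial.X * Polynomial.derivative M.S)
      + (cst (ZMod (p ^ 2)) (Polynomial.X * Polynomial.derivative M.Q) * Y
        + cst (ZMod (p ^ 2)) M.Q * th Y) := by
    unfold PP
    rw [th_add, th_mul, th_cst, th_cst]
  have e3 : PP M (-Y) = cst (ZMod (p ^ 2)) M.S - cst (ZMod (p ^ 2)) M.Q * Y := by
    unfold PP; ring
  unfold Theta ThetaS
  rw [e1, e2]
  simp only [datPS]
  rw [e3]
  have e4 : PP M Y = cst (ZMod (p ^ 2)) M.S + cst (ZMod (p ^ 2)) M.Q * Y := rfl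
  rw [e4]
  set D := cst (ZMod (p ^ 2)) M.D with hD
  set S := cst (ZMod (p ^ 2)) M.S
  set Q := cst (ZMod (p ^ 2)) M.Q
  set N := cst (ZMod (p ^ 2)) M.N
  set tD := cst (ZMod (p ^ 2)) (Polynomial.X * Polynomial.derivative M.D)
  set tS := cst (ZMod (p ^ 2)) (Polynomial.X * Polynomial.derivative M.S)
  set tQ := cst (ZMod (p ^ 2)) (Polynomial.X * Polynomial.derivative M.Q)
  set Sf := cst (ZMod (p ^ 2)) (Polynomial.expand ℤ p M.S)
  set Qf := cst (ZMod (p ^ 2)) (Polynomial.expand ℤ p M.Q)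
  set Df := cst (ZMod (p ^ 2)) (Polynomial.expand ℤ p M.D)
  have f1 : 2 * D * ((M.d : PowerSeries (ZMod (p ^ 2))) * S - tS)
      + (2 * D * ((M.d : PowerSeries (ZMod (p ^ 2))) * Q - tQ) - Q * tD) * Y
      = (2 * D) * ((M.d : PowerSeries (ZMod (p ^ 2))) * (S + Q * Y) - (tS + (tQ * Y + Q * th Y))) := by
    linear_combination Q * hth2
  rw [f1, mul_pow (2 * D)]
  generalize FH p (X * (S + Q * Y)) (2 * N) = F1
  generalize FH p (X * (S - Q * Y)) (2 * N) = F2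
  generalize GH p (X * (S + Q * Y)) (2 * N) = G1
  generalize ((M.d : PowerSeries (ZMod (p ^ 2))) * (S + Q * Y) - (tS + (tQ * Y + Q * th Y))) ^ p = L
  generalize (2 * N) ^ ((p - 1) / 2 - p / 4) = NN
  generalize (S - Q * Y) ^ p = PB
  generalize (2 * D) ^ p = DD
  generalize (2 : PowerSeries (ZMod (p ^ 2))) ^ (p - 1) = TT
  linear_combination (TT * Qf * NN * F1 * F2 * DD * L) * hB2

end Pool.Agent.Lib_helper57.AP
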