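import Pool.Agent.Lib_helper57.AP.B1
import Pool.Agent.Lib_helper57.AP.B2

/-! Block B3: the im-part of `Theta` vanishes.
`evQ Y : QR M R →+* R⟦X⟧`, `t ↦ t.re + t.im Y` (`QuadraticAlgebra.lift` or by hand) for `Y² = D`; it maps `Theta p d (datQ M p R)` to
`Theta p d (datPS M p Y)` (`Theta_map`).  Apply it with `Y` and `-Y`; by B3 the difference is
`2 * im * Y = 2 D^p (2D)^p (ThetaS M p Y - ThetaS M p (-Y))`, coefficients `0` below `T0`; `2`, `Y` units; Theta_im_coeff above. -/

namespace Pool.Agent.Lib_helper57.AP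

open PowerSeries Finset

/-- image of the data under a ring homomorphism -/
def Dat.map {A B : Type} [CommRing A] [CommRing B] (φ : A →+* B) (t : Dat A) : Dat B where
  x := φ t.x
  y := φ t.y
  S := φ t.S
  Q := φ t.Q
  D := φ t.D
  N := φ t.N
  tS := φ t.tS
  tQ := φ t.tQ
  tD := φ t.tD
  Sf := φ t.Sf
  Qf := φ t.Qf
  Df := φ t.Df

theorem B3_FH_map (p : ℕ) {A B : Type} [CommRing A] [CommRing B] (φ : A →+* B) (a b : A) :
    φ (FH p a b) = FH p (φ a) (φ b) := by
  unfold FH
  simp only [map_sum, map_mul, map_pow, map_natCast]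

theorem B3_GH_map (p : ℕ) {A B : Type} [CommRing A] [CommRing B] (φ : A →+* B) (a b : A) :
    φ (GH p a b) = GH p (φ a) (φ b) := by
  unfold GH
  simp only [map_sum, map_mul, map_pow, map_natCast]

theorem Theta_map (p d : ℕ) {A B : Type} [CommRing A] [CommRing B] (φ : A →+* B) (t : Dat A) :
    φ (Theta p d t) = Theta p d (t.map φ) := by
  unfold Theta
  simp only [map_mul, map_add, map_sub, map_pow, map_natCast, map_ofNat, B3_FH_map, B3_GH_map,
    Dat.map]

/-- evaluation at a square root of `D` -/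
noncomputable def B3_evQ (M : MD) (R : Type) [CommRing R] (Y : PowerSeries R)
    (hY : Y ^ 2 = cst R M.D) : QR M R →+* PowerSeries R where
  toFun t := Polynomial.coeToPowerSeries.ringHom t.re + Polynomial.coeToPowerSeries.ringHom t.im * Y
  map_one' := by
    simp only [QuadraticAlgebra.re_one, QuadraticAlgebra.im_one, map_one, map_zero, zero_mul,
      add_zero]
  map_zero' := by
    simp only [QuadraticAlgebra.re_zero, QuadraticAlgebra.im_zero, map_zero, zero_mul, add_zero]
  map_add' s t := by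
    simp only [QuadraticAlgebra.re_add, QuadraticAlgebra.im_add, map_add]
    ring
  map_mul' s t := by
    have h : cst R M.D = Polynomial.coeToPowerSeries.ringHom (red R M.D) := rfl
    simp only [QuadraticAlgebra.re_mul, QuadraticAlgebra.im_mul, map_add, map_mul, map_zero]
    rw [h] at hY
    linear_combination (-(Polynomial.coeToPowerSeries.ringHom s.im)
      * (Polynomial.coeToPowerSeries.ringHom t.im)) * hY

theorem B3_dat (M : MD) (p : ℕ) [Fact p.Prime] (R : Type) [CommRing R] (Y : PowerSeries R)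
    (hY : Y ^ 2 = cst R M.D) :
    (datQ M p R).map (B3_evQ M R Y hY) = datPS M p Y := by
  have h0 : ∀ f : Polynomial R, B3_evQ M R Y hY ⟨f, 0⟩ =
      Polynomial.coeToPowerSeries.ringHom f := by
    intro f
    change Polynomial.coeToPowerSeries.ringHom f
      + Polynomial.coeToPowerSeries.ringHom (0 : Polynomial R) * Y = _
    rw [map_zero, zero_mul, add_zero]
  have h1 : B3_evQ M R Y hY ⟨0, 1⟩ = Y := by
    change Polynomial.coeToPowerSeries.ringHom (0 : Polynomial R)
      + Polynomial.coeToPowerSeries.ringHom (1 : Polynomial R) * Y = _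
    rw [map_zero, zero_add, map_one, one_mul]
  unfold datQ datPS Dat.map
  simp only [h0, h1]
  congr 1
  · simp

theorem Theta_im_eq_zero (M : MD) (hM : M.Valid) (p : ℕ) [Fact p.Prime] (hp : 3 < p) (hB : M.Big p)
    (Y : PowerSeries (ZMod (p ^ 2))) (hY : Y ^ 2 = cst (ZMod (p ^ 2)) M.D)
    (hY0 : constantCoeff Y = 1)
    (hFE : ∀ n < T0 p, coeff n (ThetaS M p Y - ThetaS M p (-Y)) = 0) :
    (Theta p M.d (datQ M p (ZMod (p ^ 2)))).im = 0 := by
  have hY' : (-Y) ^ 2 = cst (ZMod (p ^ 2)) M.D := by rw [neg_sq, hY]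
  set t := Theta p M.d (datQ M p (ZMod (p ^ 2))) with ht
  have e1 : Polynomial.coeToPowerSeries.ringHom t.re + Polynomial.coeToPowerSeries.ringHom t.im * Y
      = Theta p M.d (datPS M p Y) := by
    rw [← B3_dat M p (ZMod (p ^ 2)) Y hY, ← Theta_map]
    rfl
  have e2 : Polynomial.coeToPowerSeries.ringHom t.re
        + Polynomial.coeToPowerSeries.ringHom t.im * (-Y)
      = Theta p M.d (datPS M p (-Y)) := by
    rw [← B3_dat M p (ZMod (p ^ 2)) (-Y) hY', ← Theta_map]
    rfl
  rw [B3 p M Y hY] at e1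
  rw [B3 p M (-Y) hY'] at e2
  have e3 : Polynomial.coeToPowerSeries.ringHom t.im * (2 * Y) =
      2 * (cst (ZMod (p ^ 2)) M.D) ^ p * (2 * cst (ZMod (p ^ 2)) M.D) ^ p
        * (ThetaS M p Y - ThetaS M p (-Y)) := by
    linear_combination e1 - e2
  have hu : IsUnit (2 * Y) := by
    rw [PowerSeries.isUnit_iff_constantCoeff, map_mul, hY0, mul_one, map_ofNat]
    have h2 : ((2 : ℕ) : ZMod (p ^ 2)) = 2 := by norm_cast
    rw [← h2, ZMod.isUnit_iff_coprime]
    apply Nat.Coprime.pow_right
    rw [Nat.coprime_comm, Nat.Prime.coprime_iff_not_dvd Fact.out]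
    intro h
    have := Nat.le_of_dvd (by norm_num) h
    omega
  have hd : (X : PowerSeries (ZMod (p ^ 2))) ^ (T0 p) ∣
      Polynomial.coeToPowerSeries.ringHom t.im := by
    have h1 : (X : PowerSeries (ZMod (p ^ 2))) ^ (T0 p) ∣ ThetaS M p Y - ThetaS M p (-Y) :=
      PowerSeries.X_pow_dvd_iff.mpr hFE
    have h2 : (X : PowerSeries (ZMod (p ^ 2))) ^ (T0 p) ∣
        Polynomial.coeToPowerSeries.ringHom t.im * (2 * Y) := by
      rw [e3]; exact Dvd.dvd.mul_left h1 _
    exact (IsUnit.dvd_mul_right hu).mp h2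
  ext n
  by_cases hn : n < T0 p
  · have := PowerSeries.X_pow_dvd_iff.mp hd n hn
    rw [Polynomial.coeff_zero]
    simpa using this
  · rw [Polynomial.coeff_zero]
    exact Theta_im_coeff M hM p hp hB (ZMod (p ^ 2)) n (not_lt.mp hn)

end Pool.Agent.Lib_helper57.AP
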