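import Pool.Agent.Lib_helper57.AP.Defs

/-! Block B4: evaluation at the CM point, in `A = QuadraticAlgebra (ZMod (p²)) D0 0` (`y² = D0`). -/

namespace Pool.Agent.Lib_helper57.AP

open Finset

theorem B4_frob (p : ℕ) [Fact p.Prime] (x : ZMod (p ^ 2)) :
    ∃ t : ZMod (p ^ 2), x ^ p = x + (p : ZMod (p ^ 2)) * t := by
  have : NeZero (p ^ 2) := ⟨pow_ne_zero 2 (Nat.Prime.ne_zero Fact.out)⟩
  obtain ⟨n, rfl⟩ : ∃ n : ℤ, (n : ZMod (p ^ 2)) = x := ⟨x.cast, by simp⟩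
  have h1 : ((n ^ p - n : ℤ) : ZMod p) = 0 := by
    push_cast
    rw [ZMod.pow_card, sub_self]
  rw [ZMod.intCast_zmod_eq_zero_iff_dvd] at h1
  obtain ⟨t, ht⟩ := h1
  refine ⟨(t : ZMod (p ^ 2)), ?_⟩
  have h2 : n ^ p = n + (p : ℤ) * t := by linarith
  calc ((n : ZMod (p ^ 2))) ^ p = ((n ^ p : ℤ) : ZMod (p ^ 2)) := by push_cast; ring
    _ = _ := by rw [h2]; push_cast; ring

theorem B4_pp (p : ℕ) : (p : ZMod (p ^ 2)) ^ 2 = 0 := by
  have : ((p ^ 2 : ℕ) : ZMod (p ^ 2)) = 0 := ZMod.natCast_self _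
  rw [← this]
  push_cast
  ring

theorem B4_absorb (p : ℕ) [Fact p.Prime] (x : ZMod (p ^ 2)) :
    (p : ZMod (p ^ 2)) * x ^ p = (p : ZMod (p ^ 2)) * x := by
  obtain ⟨t, ht⟩ := B4_frob p x
  rw [ht]
  linear_combination t * B4_pp p

theorem B4_FH_map (p : ℕ) {A B : Type} [CommRing A] [CommRing B] (f : A →+* B) (a b : A) :
    FH p (f a) (f b) = f (FH p a b) := by
  unfold FH
  rw [map_sum]
  refine sum_congr rfl fun k _ => ?_
  simp only [map_mul, map_pow, map_natCast]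

theorem B4_GH_map (p : ℕ) {A B : Type} [CommRing A] [CommRing B] (f : A →+* B) (a b : A) :
    GH p (f a) (f b) = f (GH p a b) := by
  unfold GH
  rw [map_sum]
  refine sum_congr rfl fun k _ => ?_
  simp only [map_mul, map_pow, map_natCast]

theorem B4_FH_scale (p : ℕ) {A : Type} [CommRing A] (v b : A) :
    FH p (v * b) b = b ^ (p / 4) * ∑ k ∈ range (p / 4 + 1), (bb k : A) * v ^ k := by
  unfold FH
  rw [mul_sum]
  refine sum_congr rfl fun k hk => ?_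
  rw [mem_range] at hk
  have h : b ^ (p / 4) = b ^ k * b ^ (p / 4 - k) := by
    rw [← pow_add]; congr 1; omega
  rw [h, mul_pow]
  ring

theorem B4_GH_scale (p : ℕ) {A : Type} [CommRing A] (v b : A) :
    GH p (v * b) b = b ^ ((p - 1) / 2) *
      ∑ k ∈ range ((p - 1) / 2 + 1), (gl p k : A) * v ^ k := by
  unfold GH
  rw [mul_sum]
  refine sum_congr rfl fun k hk => ?_
  rw [mem_range] at hk
  have h : b ^ ((p - 1) / 2) = b ^ k * b ^ ((p - 1) / 2 - k) := by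
    rw [← pow_add]; congr 1; omega
  rw [h, mul_pow]
  ring

theorem B4_core (p : ℕ) [Fact p.Prime] {A : Type} [CommRing A] (hpp : (p : A) ^ 2 = 0)
    (d q : ℕ) (hq : p = 2 * q + 1) (x y S D N tS tQ tD e S1 Q1 D1 w : A)
    (hDp : (p : A) * D ^ p = p * D) (hc : (p : A) * 2 ^ (p - 1) = p)
    (hS : 2 ^ (p - 1) * S - S ^ p = -((p : A) * w)) (hy : y ^ 2 = D)
    (ha : (p : A) * (2 * D * (d * S - tS)) ^ p = p * (2 * D * (d * S - tS)))
    (hb : (p : A) * (2 * D * (-tQ)) ^ p = p * (2 * D * (-tQ))) :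
    Theta p d (⟨x, y, S, 0, D, N, tS, tQ, tD, S + p * e * S1, p * e * Q1, D + p * e * D1⟩ : Dat A) =
      p * FH p (x * S) (2 * N) * ((2 * D * GH p (x * S) (2 * N) * S +
        2 * D * (e * S1 - w) * (2 * N) ^ ((p - 1) / 2 - p / 4) * FH p (x * S) (2 * N)) *
          (2 * D * (d * S - tS)) +
        (-2 * D * e * Q1 * (2 * N) ^ ((p - 1) / 2 - p / 4) * FH p (x * S) (2 * N)) *
          (2 * D * (-tQ)) * D) +
      p * FH p (x * S) (2 * N) * ((2 * D * GH p (x * S) (2 * N) * S +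
        2 * D * (e * S1 - w) * (2 * N) ^ ((p - 1) / 2 - p / 4) * FH p (x * S) (2 * N)) *
          (2 * D * (-tQ)) +
        (-2 * D * e * Q1 * (2 * N) ^ ((p - 1) / 2 - p / 4) * FH p (x * S) (2 * N)) *
          (2 * D * (d * S - tS))) * D ^ q * y := by
  have e0 : S + 0 * y = S := by ring
  have e1 : S - 0 * y = S := by ring
  have e2 : 2 * D * ((d : A) * S - tS) + (2 * D * ((d : A) * 0 - tQ) - 0 * tD) * y =
      2 * D * ((d : A) * S - tS) + 2 * D * (-tQ) * y := by ring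
  simp only [Theta]
  rw [e0, e1, e2]
  set F := FH p (x * S) (2 * N) with hF
  set G := GH p (x * S) (2 * N) with hG
  set n := (2 * N) ^ ((p - 1) / 2 - p / 4) with hn
  generalize 2 * D * ((d : A) * S - tS) = a at ha e2 ⊢
  generalize 2 * D * (-tQ) = b at hb e2 ⊢
  have hyp : y ^ p = D ^ q * y := by
    rw [show y ^ p = y ^ (2 * q + 1) by rw [← hq], pow_succ, pow_mul, hy]
  have hDq : D * (D ^ q) ^ 2 = D ^ p := by
    rw [show D ^ p = D ^ (2 * q + 1) by rw [← hq]]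
    ring
  obtain ⟨r, hr⟩ := exists_add_pow_prime_eq (Fact.out : p.Prime) a (b * y)
  have hL : (p : A) * (a + b * y) ^ p = p * (a + b * y ^ p) := by
    rw [hr, mul_pow]
    linear_combination ha + y ^ p * hb + a * (b * y) * r * hpp
  have hpS : (p : A) * S ^ p = p * S := by
    linear_combination S * hc - p * hS + w * hpp
  have hpD : (p : A) * (D + p * e * D1) = p * D := by
    linear_combination e * D1 * hpp
  have hB : 2 ^ (p - 1) * (2 * D ^ p * (S + p * e * S1) - p * e * Q1 * y ^ p * (D ^ p + (D + p * e * D1))) -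
      2 * D ^ p * S ^ p = p * (2 * D * (e * S1 - w) - 2 * D * e * Q1 * y ^ p) := by
    linear_combination 2 * D ^ p * hS + (-2 * w) * hDp +
      2 * e * S1 * (2 ^ (p - 1) * hDp + D * hc) -
      e * Q1 * y ^ p * (2 ^ (p - 1) * hDp + D * hc + 2 ^ (p - 1) * hpD + D * hc)
  rw [hB]
  have hfirst : 2 * (p : A) * D ^ p * G * S ^ p = p * (2 * D * G * S) := by
    linear_combination 2 * G * S ^ p * hDp + 2 * G * D * hpS
  rw [hfirst]
  have hyy : (p : A) * (y ^ p) ^ 2 = p * D := by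
    rw [hyp, mul_pow, hy]
    linear_combination p * hDq + hDp
  have hstep : ((p : A) * (2 * D * G * S) +
      p * (2 * D * (e * S1 - w) - 2 * D * e * Q1 * y ^ p) * n * F) * F * (a + b * y) ^ p =
      p * F * ((2 * D * G * S + 2 * D * (e * S1 - w) * n * F) * a +
        (-2 * D * e * Q1 * n * F) * b * D) +
      p * F * ((2 * D * G * S + 2 * D * (e * S1 - w) * n * F) * b +
        (-2 * D * e * Q1 * n * F) * a) * y ^ p := by
    linear_combination ((2 * D * G * S) +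
      (2 * D * (e * S1 - w) - 2 * D * e * Q1 * y ^ p) * n * F) * F * hL +
      F * (-2 * D * e * Q1 * n * F) * b * hyy
  rw [hstep, hyp]
  ring

theorem B4 (p : ℕ) [Fact p.Prime] (hp : 3 < p) (d : ℕ) (hd : 1 ≤ d)
    (u m S1 Q1 D0 D1 v : ZMod (p ^ 2)) (hu : IsUnit u) (hv : v * m = 1) (hD : IsUnit D0)
    (hQ : IsUnit Q1)
    (hF : IsUnit (∑ k ∈ range (p / 4 + 1), (bb k : ZMod (p ^ 2)) * v ^ k))
    (him : (Theta p d (⟨⟨u, 0⟩, ⟨0, 1⟩, ⟨2 * u ^ d * m, 0⟩, ⟨0, 0⟩, ⟨D0, 0⟩, ⟨u ^ (d + 1) * m ^ 2, 0⟩,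
        ⟨u * S1, 0⟩, ⟨u * Q1, 0⟩, ⟨u * D1, 0⟩, ⟨2 * u ^ d * m + (u ^ p - u) * S1, 0⟩,
        ⟨(u ^ p - u) * Q1, 0⟩, ⟨D0 + (u ^ p - u) * D1, 0⟩⟩ :
        Dat (QuadraticAlgebra (ZMod (p ^ 2)) D0 0))).im = 0) :
    (p : ZMod (p ^ 2)) * ∑ k ∈ range ((p - 1) / 2 + 1), (gl p k : ZMod (p ^ 2)) * v ^ k =
      (m ^ (p - 1) - 1) * ∑ k ∈ range (p / 4 + 1), (bb k : ZMod (p ^ 2)) * v ^ k := by
  have hprime : p.Prime := Fact.out
  obtain ⟨q, hq⟩ : ∃ q, p = 2 * q + 1 := by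
    rcases hprime.eq_two_or_odd' with h | h
    · omega
    · exact h
  have hp2 := B4_pp p
  obtain ⟨e, he⟩ := B4_frob p u
  obtain ⟨em, hem⟩ := B4_frob p m
  have h2u : IsUnit (2 : ZMod (p ^ 2)) := by
    have : ((2 : ℕ) : ZMod (p ^ 2)) = 2 := by norm_num
    rw [← this, ZMod.isUnit_iff_coprime]
    exact Nat.Coprime.pow_right 2 ((Nat.coprime_primes Nat.prime_two hprime).2 (by omega))
  have hm : IsUnit m := IsUnit.of_mul_eq_one v (by rw [mul_comm]; exact hv)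
  -- `2^(p-1) = 1 + p τ`
  have hc0 : (p : ZMod (p ^ 2)) * 2 ^ (p - 1) = p := by
    have h1 := B4_absorb p (2 : ZMod (p ^ 2))
    have h2 : (2 : ZMod (p ^ 2)) ^ p = 2 ^ (p - 1) * 2 := by
      rw [← pow_succ]; congr 1; omega
    rw [h2, ← mul_assoc] at h1
    exact h2u.mul_right_cancel h1
  set S : ZMod (p ^ 2) := 2 * u ^ d * m with hSdef
  set w : ZMod (p ^ 2) := 2 * u ^ d * em + 2 * (d : ZMod (p ^ 2)) * e * u ^ (d - 1) * m with hw
  have hud : u ^ d = u ^ (d - 1) * u := by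
    rw [← pow_succ]; congr 1; omega
  have hupd : (u ^ p) ^ d = u ^ d + p * (d * e * u ^ (d - 1)) := by
    rw [he]
    obtain ⟨r, hr⟩ := Polynomial.powAddExpansion u (p * e) d
    rw [hr]
    linear_combination (e ^ 2 * r) * hp2
  have hS : 2 ^ (p - 1) * S - S ^ p = -((p : ZMod (p ^ 2)) * w) := by
    have h2 : (2 : ZMod (p ^ 2)) ^ p = 2 ^ (p - 1) * 2 := by
      rw [← pow_succ]; congr 1; omega
    have h3 : S ^ p = 2 ^ (p - 1) * 2 * ((u ^ p) ^ d * m ^ p) := by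
      rw [hSdef, mul_pow, mul_pow, h2, ← pow_mul, ← pow_mul, mul_comm d p]
      ring
    rw [h3, hupd, hem, hSdef, hw]
    linear_combination (-2 * u ^ d * em - 2 * d * e * u ^ (d - 1) * m) * hc0 -
      2 ^ (p - 1) * 2 * (d * e * u ^ (d - 1)) * em * hp2
  -- the quadratic algebra
  have hupe : u ^ p - u = (p : ZMod (p ^ 2)) * e := by rw [he]; ring
  set C : ZMod (p ^ 2) →+* QuadraticAlgebra (ZMod (p ^ 2)) D0 0 :=
    algebraMap (ZMod (p ^ 2)) (QuadraticAlgebra (ZMod (p ^ 2)) D0 0) with hC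
  have hCr : ∀ r : ZMod (p ^ 2), C r = ⟨r, 0⟩ := fun r => rfl
  set N0 : ZMod (p ^ 2) := u ^ (d + 1) * m ^ 2 with hN0
  have hCp : C (p : ZMod (p ^ 2)) = (p : QuadraticAlgebra (ZMod (p ^ 2)) D0 0) := map_natCast C p
  have hppA : ((p : QuadraticAlgebra (ZMod (p ^ 2)) D0 0)) ^ 2 = 0 := by
    rw [← hCp, ← map_pow, hp2, map_zero]
  have hdat : (⟨⟨u, 0⟩, ⟨0, 1⟩, ⟨S, 0⟩, ⟨0, 0⟩, ⟨D0, 0⟩, ⟨N0, 0⟩,
        ⟨u * S1, 0⟩, ⟨u * Q1, 0⟩, ⟨u * D1, 0⟩, ⟨S + (u ^ p - u) * S1, 0⟩,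
        ⟨(u ^ p - u) * Q1, 0⟩, ⟨D0 + (u ^ p - u) * D1, 0⟩⟩ :
        Dat (QuadraticAlgebra (ZMod (p ^ 2)) D0 0)) =
      ⟨C u, ⟨0, 1⟩, C S, 0, C D0, C N0, C (u * S1), C (u * Q1), C (u * D1),
        C S + p * C e * C S1, p * C e * C Q1, C D0 + p * C e * C D1⟩ := by
    rw [hupe]
    have k1 : C S + p * C e * C S1 = ⟨S + p * e * S1, 0⟩ := by
      rw [← hCp, ← map_mul, ← map_mul, ← map_add]; exact hCr _
    have k2 : (p : QuadraticAlgebra (ZMod (p ^ 2)) D0 0) * C e * C Q1 = ⟨p * e * Q1, 0⟩ := by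
      rw [← hCp, ← map_mul, ← map_mul]; exact hCr _
    have k3 : C D0 + p * C e * C D1 = ⟨D0 + p * e * D1, 0⟩ := by
      rw [← hCp, ← map_mul, ← map_mul, ← map_add]; exact hCr _
    rw [k1, k2, k3]
    rfl
  rw [hdat] at him
  have hy2 : (⟨0, 1⟩ : QuadraticAlgebra (ZMod (p ^ 2)) D0 0) ^ 2 = C D0 := by
    rw [pow_two (⟨0, 1⟩ : QuadraticAlgebra (ZMod (p ^ 2)) D0 0), hCr]
    ext <;> simp
  have hmapabs : ∀ r : ZMod (p ^ 2),
      (p : QuadraticAlgebra (ZMod (p ^ 2)) D0 0) * (C r) ^ p = p * C r := by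
    intro r
    rw [← hCp, ← map_pow, ← map_mul, ← map_mul, B4_absorb]
  have hcore := B4_core p hppA d q hq (C u) ⟨0, 1⟩ (C S) (C D0) (C N0) (C (u * S1)) (C (u * Q1))
    (C (u * D1)) (C e) (C S1) (C Q1) (C D1) (C w) (hmapabs D0)
    (by
      rw [← hCp, show (2 : QuadraticAlgebra (ZMod (p ^ 2)) D0 0) = C 2 from (map_ofNat C 2).symm,
        ← map_pow, ← map_mul, hc0])
    (by
      rw [← hCp, show (2 : QuadraticAlgebra (ZMod (p ^ 2)) D0 0) = C 2 from (map_ofNat C 2).symm,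
        ← map_pow, ← map_mul, ← map_pow, ← map_sub, hS, map_neg, map_mul])
    hy2
    (by
      have : (2 : QuadraticAlgebra (ZMod (p ^ 2)) D0 0) * C D0 * ((d : QuadraticAlgebra (ZMod (p ^ 2)) D0 0) * C S - C (u * S1)) =
          C (2 * D0 * ((d : ZMod (p ^ 2)) * S - u * S1)) := by
        simp only [map_mul, map_sub, map_natCast, map_ofNat]
      rw [this]
      exact hmapabs _)
    (by
      have : (2 : QuadraticAlgebra (ZMod (p ^ 2)) D0 0) * C D0 * (-C (u * Q1)) =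
          C (2 * D0 * (-(u * Q1))) := by
        simp only [map_mul, map_neg, map_ofNat]
      rw [this]
      exact hmapabs _)
  set F0 : ZMod (p ^ 2) := FH p (u * S) (2 * N0) with hF0
  set G0 : ZMod (p ^ 2) := GH p (u * S) (2 * N0) with hG0
  set n : ZMod (p ^ 2) := (2 * N0) ^ ((p - 1) / 2 - p / 4) with hn
  have hF' : FH p (C u * C S) (2 * C N0) = C F0 := by
    rw [hF0, ← B4_FH_map]
    simp only [map_mul, map_ofNat]
  have hG' : GH p (C u * C S) (2 * C N0) = C G0 := by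
    rw [hG0, ← B4_GH_map]
    simp only [map_mul, map_ofNat]
  have hn' : (2 * C N0) ^ ((p - 1) / 2 - p / 4) = C n := by
    rw [hn]
    simp only [map_mul, map_pow, map_ofNat]
  rw [hF', hG', hn'] at hcore
  rw [hcore] at him
  have hβ : (p : ZMod (p ^ 2)) * F0 * ((2 * D0 * G0 * S + 2 * D0 * (e * S1 - w) * n * F0) *
      (2 * D0 * (-(u * Q1))) + (-2 * D0 * e * Q1 * n * F0) *
      (2 * D0 * (d * S - u * S1))) * D0 ^ q = 0 := by
    rw [← him]
    set β := (p : ZMod (p ^ 2)) * F0 * ((2 * D0 * G0 * S + 2 * D0 * (e * S1 - w) * n * F0) *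
      (2 * D0 * (-(u * Q1))) + (-2 * D0 * e * Q1 * n * F0) *
      (2 * D0 * (d * S - u * S1))) * D0 ^ q with hβd
    set α := (p : ZMod (p ^ 2)) * F0 * ((2 * D0 * G0 * S + 2 * D0 * (e * S1 - w) * n * F0) *
      (2 * D0 * (d * S - u * S1)) + (-2 * D0 * e * Q1 * n * F0) *
      (2 * D0 * (-(u * Q1))) * D0) with hαd
    have k : C α + C β * ⟨0, 1⟩ = (p : QuadraticAlgebra (ZMod (p ^ 2)) D0 0) * C F0 * ((2 * C D0 * C G0 * C S +
        2 * C D0 * (C e * C S1 - C w) * C n * C F0) *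
          (2 * C D0 * (d * C S - C (u * S1))) +
        (-2 * C D0 * C e * C Q1 * C n * C F0) *
          (2 * C D0 * (-C (u * Q1))) * C D0) +
      p * C F0 * ((2 * C D0 * C G0 * C S +
        2 * C D0 * (C e * C S1 - C w) * C n * C F0) *
          (2 * C D0 * (-C (u * Q1))) +
        (-2 * C D0 * C e * C Q1 * C n * C F0) *
          (2 * C D0 * (d * C S - C (u * S1)))) * C D0 ^ q * ⟨0, 1⟩ := by
      rw [hαd, hβd]
      simp only [map_mul, map_add, map_sub, map_neg, map_pow, map_natCast, map_ofNat]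
    rw [← k, hCr, hCr]
    simp
  -- final algebra
  have hN0u : IsUnit N0 := by
    rw [hN0]
    exact (hu.pow _).mul (hm.pow _)
  have h2N : IsUnit (2 * N0) := h2u.mul hN0u
  set Fl : ZMod (p ^ 2) := ∑ k ∈ range (p / 4 + 1), (bb k : ZMod (p ^ 2)) * v ^ k with hFl
  set Gl : ZMod (p ^ 2) := ∑ k ∈ range ((p - 1) / 2 + 1), (gl p k : ZMod (p ^ 2)) * v ^ k with hGl
  have huS : u * S = v * (2 * N0) := by
    rw [hSdef, hN0]
    linear_combination (-2 * u ^ (d + 1) * m) * hv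
  have hFe : F0 = (2 * N0) ^ (p / 4) * Fl := by
    rw [hF0, huS, B4_FH_scale]
  have hGe : G0 = (2 * N0) ^ ((p - 1) / 2) * Gl := by
    rw [hG0, huS, B4_GH_scale]
  have hnF : n * F0 = (2 * N0) ^ ((p - 1) / 2) * Fl := by
    rw [hFe, hn, ← mul_assoc, ← pow_add]
    congr 2
    omega
  have hF0u : IsUnit F0 := by
    rw [hFe]
    exact (h2N.pow _).mul hF
  have h1 : (p : ZMod (p ^ 2)) * ((2 * D0 * G0 * S + 2 * D0 * (e * S1 - w) * n * F0) *
      (2 * D0 * (-(u * Q1))) + (-2 * D0 * e * Q1 * n * F0) *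
      (2 * D0 * (d * S - u * S1))) = 0 := by
    have hun : IsUnit (F0 * D0 ^ q) := hF0u.mul (hD.pow q)
    apply hun.mul_left_cancel
    rw [mul_zero, ← hβ]
    ring
  have h2 : (p : ZMod (p ^ 2)) * (G0 * m - n * F0 * em) = 0 := by
    have hun : IsUnit (2 * (2 * D0) * (2 * D0) * Q1 * u ^ (d + 1)) :=
      ((((h2u.mul (h2u.mul hD)).mul (h2u.mul hD)).mul hQ).mul (hu.pow _))
    apply hun.mul_left_cancel
    rw [mul_zero, ← neg_eq_zero, ← h1, hSdef, hw, pow_succ u d, hud]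
    ring
  have h3 : (p : ZMod (p ^ 2)) * (Gl * m - Fl * em) = 0 := by
    have hun : IsUnit ((2 * N0) ^ ((p - 1) / 2)) := h2N.pow _
    apply hun.mul_left_cancel
    rw [mul_zero, ← h2, hnF, hGe]
    ring
  have h4 : m ^ p = m ^ (p - 1) * m := by
    rw [← pow_succ]; congr 1; omega
  apply hm.mul_right_cancel
  have h5 : (m ^ (p - 1) - 1) * m = p * em := by
    rw [sub_mul, ← h4, hem]
    ring
  linear_combination h3 - Fl * h5

end Pool.Agent.Lib_helper57.AP
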