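import Pool.Agent.Lib_helper57.AP.B3
import Pool.Agent.Lib_helper57.AP.B4

/-! Block B5: specialize `datQ` at `X = u`, `u s = 1` in `ZMod (p²)`.
Ring hom `QR M (ZMod (p²)) →+* QuadraticAlgebra (ZMod (p²)) D0 0`, `t ↦ ⟨eval u t.re, eval u t.im⟩`, `D0 = eval u (red D)`.
`f(u) = u^n hev n f s` for `natDegree f ≤ n`.  `f(u^p) = f(u) + (u^p - u) f'(u)` since `(u^p-u)² = 0` (Polynomial Taylor:
`Polynomial.aeval_add_of_sq_eq_zero` or similar).  `S(u) = 2u^d m`, `Q(u) = 0`, `N(u) = u^(d+1) m²`; `D(u)`, `u Q'(u)` units. -/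

namespace Pool.Agent.Lib_helper57.AP

open Finset

/-- evaluation at `X = u` -/
noncomputable def B5_ev (M : MD) {R : Type} [CommRing R] (u : R) :
    QR M R →+* QuadraticAlgebra R ((red R M.D).eval u) 0 where
  toFun t := ⟨t.re.eval u, t.im.eval u⟩
  map_one' := by ext <;> simp [QuadraticAlgebra.re_one, QuadraticAlgebra.im_one]
  map_mul' x y := by ext <;> simp
  map_zero' := by ext <;> simp
  map_add' x y := by ext <;> simp

theorem B5_red_coeff {R : Type} [CommRing R] (f : Polynomial ℤ) (i : ℕ) :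
    (red R f).coeff i = (f.coeff i : R) := by
  simp [red, Polynomial.coe_mapRingHom, Polynomial.coeff_map]

theorem B5_hev {R : Type} [CommRing R] (n : ℕ) (f : Polynomial ℤ) (s : ℤ) (u : R)
    (hu : u * (s : R) = 1) (hdeg : f.natDegree ≤ n) :
    (red R f).eval u = u ^ n * ((hev n f s : ℤ) : R) := by
  have hd : (red R f).natDegree < n + 1 := by
    have : (red R f).natDegree ≤ f.natDegree := by
      simp only [red, Polynomial.coe_mapRingHom]
      exact Polynomial.natDegree_map_le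
    omega
  rw [Polynomial.eval_eq_sum_range' hd, hev]
  push_cast
  rw [Finset.mul_sum]
  apply Finset.sum_congr rfl
  intro i hi
  have hi' : i ≤ n := by
    have := Finset.mem_range.mp hi
    omega
  rw [B5_red_coeff]
  have h1 : u ^ n = u ^ i * u ^ (n - i) := by
    rw [← pow_add]
    congr 1
    omega
  have h2 : u ^ (n - i) * (s : R) ^ (n - i) = 1 := by
    rw [← mul_pow, hu, one_pow]
  rw [h1]
  calc (f.coeff i : R) * u ^ i = (f.coeff i : R) * u ^ i * 1 := by ring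
    _ = (f.coeff i : R) * u ^ i * (u ^ (n - i) * (s : R) ^ (n - i)) := by rw [h2]
    _ = u ^ i * u ^ (n - i) * ((f.coeff i : R) * (s : R) ^ (n - i)) := by ring

theorem B5_unit (p : ℕ) [Fact p.Prime] (a : ℤ) (ha : ¬ (p : ℤ) ∣ a) :
    IsUnit ((a : ℤ) : ZMod (p ^ 2)) := by
  rw [ZMod.coe_int_isUnit_iff_isCoprime]
  push_cast
  apply IsCoprime.pow_left
  have hp : Prime (p : ℤ) := Nat.prime_iff_prime_int.mp Fact.out
  exact (Prime.coprime_iff_not_dvd hp).mpr ha

theorem B5_sq (p : ℕ) [Fact p.Prime] (u : ZMod (p ^ 2)) : (u ^ p - u) ^ 2 = 0 := by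
  obtain ⟨a, rfl⟩ := ZMod.intCast_surjective u
  have h : (p : ℤ) ∣ a ^ p - a := by
    have h1 : ((a ^ p - a : ℤ) : ZMod p) = 0 := by
      push_cast
      rw [ZMod.pow_card, sub_self]
    exact (ZMod.intCast_zmod_eq_zero_iff_dvd _ _).mp h1
  obtain ⟨c, hc⟩ := h
  have h2 : ((a : ZMod (p ^ 2)) ^ p - (a : ZMod (p ^ 2))) = (((p : ℤ) * c : ℤ) : ZMod (p ^ 2)) := by
    rw [← hc]
    push_cast
    ring
  rw [h2]
  have h3 : (((p : ℤ) * c : ℤ) : ZMod (p ^ 2)) ^ 2 = ((p ^ 2 : ℕ) : ZMod (p ^ 2)) * (c : ZMod (p ^ 2)) ^ 2 := by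
    push_cast
    ring
  rw [h3, ZMod.natCast_self, zero_mul]

theorem B5_expand (p : ℕ) [Fact p.Prime] (f : Polynomial ℤ) (u : ZMod (p ^ 2)) :
    (red (ZMod (p ^ 2)) (Polynomial.expand ℤ p f)).eval u =
      (red (ZMod (p ^ 2)) f).eval u +
        (u ^ p - u) * (red (ZMod (p ^ 2)) (Polynomial.derivative f)).eval u := by
  have h1 : red (ZMod (p ^ 2)) (Polynomial.expand ℤ p f)
      = Polynomial.expand (ZMod (p ^ 2)) p (red (ZMod (p ^ 2)) f) := by
    simp only [red, Polynomial.coe_mapRingHom]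
    exact Polynomial.map_expand
  have h2 : red (ZMod (p ^ 2)) (Polynomial.derivative f)
      = Polynomial.derivative (red (ZMod (p ^ 2)) f) := by
    simp only [red, Polynomial.coe_mapRingHom]
    exact (Polynomial.derivative_map _ _).symm
  rw [h1, h2, Polynomial.expand_eval]
  have h3 := Polynomial.eval_add_of_sq_eq_zero (red (ZMod (p ^ 2)) f) u (u ^ p - u) (B5_sq p u)
  have h4 : u + (u ^ p - u) = u ^ p := by ring
  rw [h4] at h3
  rw [h3]
  ring

theorem B5 (M : MD) (hM : M.Valid) (p : ℕ) [Fact p.Prime] (hp : 3 < p) (s m : ℤ)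
    (hpt : M.Point s m) (hg : M.Good s m p) (v : ZMod (p ^ 2)) (hv : v * (m : ZMod (p ^ 2)) = 1)
    (hF : IsUnit (∑ k ∈ range (p / 4 + 1), (bb k : ZMod (p ^ 2)) * v ^ k))
    (him : (Theta p M.d (datQ M p (ZMod (p ^ 2)))).im = 0) :
    (p : ZMod (p ^ 2)) * ∑ k ∈ range ((p - 1) / 2 + 1), (gl p k : ZMod (p ^ 2)) * v ^ k =
      ((m : ZMod (p ^ 2)) ^ (p - 1) - 1) * ∑ k ∈ range (p / 4 + 1), (bb k : ZMod (p ^ 2)) * v ^ k := by
  have hsu := B5_unit p s hg.hs
  obtain ⟨us, hus⟩ := hsu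
  set u : ZMod (p ^ 2) := ((us⁻¹ : (ZMod (p ^ 2))ˣ) : ZMod (p ^ 2)) with hu_def
  have hu : u * (s : ZMod (p ^ 2)) = 1 := by
    rw [← hus, hu_def]
    exact Units.inv_mul us
  have hU : IsUnit u := ⟨us⁻¹, rfl⟩
  have hd := hM.hd
  have hS : (red (ZMod (p ^ 2)) M.S).eval u = 2 * u ^ M.d * (m : ZMod (p ^ 2)) := by
    rw [B5_hev M.d M.S s u hu hM.degS, hpt.hS]
    push_cast
    ring
  have hQ : (red (ZMod (p ^ 2)) M.Q).eval u = 0 := by
    have hq := hM.degQ
    rw [B5_hev (M.d - M.g - 1) M.Q s u hu (by omega), hpt.hQ]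
    simp
  have hN : (red (ZMod (p ^ 2)) M.N).eval u = u ^ (M.d + 1) * (m : ZMod (p ^ 2)) ^ 2 := by
    rw [B5_hev (M.d + 1) M.N s u hu hM.degN, hpt.hN]
    push_cast
    ring
  have hD : IsUnit ((red (ZMod (p ^ 2)) M.D).eval u) := by
    rw [B5_hev (2 * M.g + 2) M.D s u hu hM.degD]
    exact (hU.pow _).mul (B5_unit p _ hg.hD)
  have hXf : ∀ f : Polynomial ℤ, (red (ZMod (p ^ 2)) (Polynomial.X * f)).eval u
      = u * (red (ZMod (p ^ 2)) f).eval u := by
    intro f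
    rw [map_mul, Polynomial.eval_mul]
    congr 1
    simp [red]
  have hQ1 : IsUnit ((red (ZMod (p ^ 2)) (Polynomial.derivative M.Q)).eval u) := by
    have h1 : IsUnit (u * (red (ZMod (p ^ 2)) (Polynomial.derivative M.Q)).eval u) := by
      rw [← hXf]
      have hq := hM.degQ
      have hdeg : (Polynomial.X * Polynomial.derivative M.Q).natDegree ≤ M.d - M.g - 1 := by
        rcases Nat.eq_zero_or_pos M.Q.natDegree with h0 | h0
        · have : Polynomial.derivative M.Q = 0 := by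
            rw [Polynomial.eq_C_of_natDegree_eq_zero h0]
            simp
          rw [this]
          simp
        · have h2 := Polynomial.natDegree_derivative_lt (p := M.Q) (by omega)
          have h3 := Polynomial.natDegree_mul_le (p := (Polynomial.X : Polynomial ℤ))
            (q := Polynomial.derivative M.Q)
          have h4 : (Polynomial.X : Polynomial ℤ).natDegree ≤ 1 := Polynomial.natDegree_X_le
          omega
      rw [B5_hev (M.d - M.g - 1) _ s u hu hdeg]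
      exact (hU.pow _).mul (B5_unit p _ hg.hQ)
    exact (IsUnit.mul_iff.mp h1).2
  have hT := Theta_map p M.d (B5_ev M u) (datQ M p (ZMod (p ^ 2)))
  have himT : (Theta p M.d ((datQ M p (ZMod (p ^ 2))).map (B5_ev M u))).im = 0 := by
    rw [← hT]
    show (Theta p M.d (datQ M p (ZMod (p ^ 2)))).im.eval u = 0
    rw [him]
    simp
  have hdat : (datQ M p (ZMod (p ^ 2))).map (B5_ev M u) =
      (⟨⟨u, 0⟩, ⟨0, 1⟩, ⟨2 * u ^ M.d * (m : ZMod (p ^ 2)), 0⟩, ⟨0, 0⟩, ⟨(red (ZMod (p ^ 2)) M.D).eval u, 0⟩,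
        ⟨u ^ (M.d + 1) * (m : ZMod (p ^ 2)) ^ 2, 0⟩,
        ⟨u * (red (ZMod (p ^ 2)) (Polynomial.derivative M.S)).eval u, 0⟩,
        ⟨u * (red (ZMod (p ^ 2)) (Polynomial.derivative M.Q)).eval u, 0⟩,
        ⟨u * (red (ZMod (p ^ 2)) (Polynomial.derivative M.D)).eval u, 0⟩,
        ⟨2 * u ^ M.d * (m : ZMod (p ^ 2)) + (u ^ p - u) *
          (red (ZMod (p ^ 2)) (Polynomial.derivative M.S)).eval u, 0⟩,
        ⟨(u ^ p - u) * (red (ZMod (p ^ 2)) (Polynomial.derivative M.Q)).eval u, 0⟩,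
        ⟨(red (ZMod (p ^ 2)) M.D).eval u + (u ^ p - u) *
          (red (ZMod (p ^ 2)) (Polynomial.derivative M.D)).eval u, 0⟩⟩ :
        Dat (QuadraticAlgebra (ZMod (p ^ 2)) ((red (ZMod (p ^ 2)) M.D).eval u) 0)) := by
    have e1 := B5_expand p M.S u
    have e2 := B5_expand p M.Q u
    have e3 := B5_expand p M.D u
    rw [hS] at e1
    rw [hQ, zero_add] at e2
    simp only [Dat.map, datQ, B5_ev, RingHom.coe_mk, MonoidHom.coe_mk, OneHom.coe_mk,
      Polynomial.eval_X, Polynomial.eval_zero, Polynomial.eval_one, hS, hQ, hN, e1, e2, e3, hXf]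
  rw [hdat] at himT
  exact B4 p hp M.d (by omega) u (m : ZMod (p ^ 2)) _ _ _ _ v hU hv hD hQ1 hF himT

end Pool.Agent.Lib_helper57.AP
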