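import Pool.Agent.Lib_helper57.AP.FE6

/-! Block FE7: transfer of FE6 to `ZMod (p^2)`.
`exists_sqrt`: recursion for the coefficients (or Hensel / completeness of power series).
`map_ThetaS`: `ThetaS` is compatible with coefficient ring maps (map_ph, map_th, map_cst).
FE7: take `Y0 : ℤ_[p]⟦X⟧` with `Y0² = D`; its image in `ℚ_[p]⟦X⟧` satisfies FE6, the coefficients of `ThetaS M p Y0 - ThetaS M p (-Y0)`
are in `p²ℤ_p` for `n < T0 p` (PI_zmod), so they vanish in `ZMod (p^2)`; `Y =` image of `Y0` in `(ZMod (p^2))⟦X⟧`. -/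

namespace Pool.Agent.Lib_helper57.AP

open PowerSeries Finset

/-- coefficients of the square root (`u = 1/2`) -/
noncomputable def FE7_y {R : Type} [CommRing R] (u : R) (D : ℕ → R) : ℕ → R
  | 0 => 1
  | n + 1 => u * (D (n + 1) - ∑ i : Fin n, FE7_y u D (i.1 + 1) * FE7_y u D (n - i.1))
termination_by n => n
decreasing_by
  · have := i.2; omega
  · have := i.2; omega

theorem exists_sqrt {R : Type} [CommRing R] (h2 : IsUnit (2 : R)) (D : PowerSeries R)
    (hD : constantCoeff D = 1) : ∃ Y : PowerSeries R, Y ^ 2 = D ∧ constantCoeff Y = 1 := by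
  obtain ⟨u, hu⟩ := h2.exists_right_inv
  set y : ℕ → R := FE7_y u (fun n => coeff n D) with hy
  have y0 : y 0 = 1 := by rw [hy, FE7_y]
  have y1 : ∀ n, y (n + 1) = u * (coeff (n + 1) D - ∑ i ∈ range n, y (i + 1) * y (n - i)) := by
    intro n
    have h : y (n + 1) = u * (coeff (n + 1) D - ∑ i : Fin n, y (i.1 + 1) * y (n - i.1)) := by
      rw [hy, FE7_y]
    rw [h, Fin.sum_univ_eq_sum_range (fun i => y (i + 1) * y (n - i)) n]
  refine ⟨PowerSeries.mk y, ?_, ?_⟩
  · ext n
    rw [pow_two, coeff_mul]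
    simp only [coeff_mk]
    rw [Finset.Nat.sum_antidiagonal_eq_sum_range_succ (fun i j => y i * y j) n]
    cases n with
    | zero =>
      simp only [Finset.sum_range_succ, Finset.sum_range_zero, zero_add, Nat.sub_zero, y0, mul_one]
      rw [← hD, coeff_zero_eq_constantCoeff_apply]
    | succ n =>
      rw [Finset.sum_range_succ, Finset.sum_range_succ', Nat.sub_self, Nat.sub_zero, y0]
      have h1 : ∑ k ∈ range n, y (k + 1) * y (n + 1 - (k + 1)) =
          ∑ i ∈ range n, y (i + 1) * y (n - i) := by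
        refine Finset.sum_congr rfl fun k _ => ?_
        rw [Nat.add_sub_add_right]
      rw [h1, y1]
      linear_combination (coeff (n + 1) D - ∑ i ∈ range n, y (i + 1) * y (n - i)) * hu
  · rw [← coeff_zero_eq_constantCoeff_apply, coeff_mk, y0]

variable (p : ℕ) [Fact p.Prime]

omit [Fact p.Prime] in
theorem FE7_map_GH {A B : Type} [CommRing A] [CommRing B] (f : A →+* B) (a b : A) :
    f (GH p a b) = GH p (f a) (f b) := by
  simp only [GH, map_sum, map_mul, map_pow, map_natCast]

omit [Fact p.Prime] in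
theorem FE7_map_FH {A B : Type} [CommRing A] [CommRing B] (f : A →+* B) (a b : A) :
    f (FH p a b) = FH p (f a) (f b) := by
  simp only [FH, map_sum, map_mul, map_pow, map_natCast]

theorem FE7_map_PP (M : MD) {R R' : Type} [CommRing R] [CommRing R'] (φ : R →+* R')
    (Y : PowerSeries R) : PowerSeries.map φ (PP M Y) = PP M (PowerSeries.map φ Y) := by
  simp only [PP, map_add, map_mul, map_cst]

theorem map_ThetaS (M : MD) {R R' : Type} [CommRing R] [CommRing R'] (φ : R →+* R')
    (Y : PowerSeries R) : PowerSeries.map φ (ThetaS M p Y) = ThetaS M p (PowerSeries.map φ Y) := by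
  simp only [ThetaS, map_add, map_sub, map_mul, map_pow, map_natCast, map_ofNat, FE7_map_GH,
    FE7_map_FH, FE7_map_PP, map_cst, map_ph, map_th, map_neg, PowerSeries.map_X]

theorem FE7 (hp : 3 < p) (M : MD) (hM : M.Valid) (hpd : ¬ p ∣ M.d) :
    ∃ Y : PowerSeries (ZMod (p ^ 2)), Y ^ 2 = cst (ZMod (p ^ 2)) M.D ∧ constantCoeff Y = 1 ∧
      ∀ n < T0 p, coeff n (ThetaS M p Y - ThetaS M p (-Y)) = 0 := by
  have h2 : IsUnit (2 : ℤ_[p]) := by
    have h : ¬ p ∣ 2 := fun h => by have := Nat.le_of_dvd (by norm_num) h; omega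
    rw [PadicInt.isUnit_iff, PadicInt.norm_def]
    have := norm_natCast_eq_one (p := p) 2 h
    push_cast at this ⊢
    exact this
  obtain ⟨Y0, hY0, hY01⟩ := exists_sqrt h2 (cst ℤ_[p] M.D) (by
    rw [constantCoeff_cst, hM.D0]; simp)
  have hq := FE6 p hp M hM hpd (PowerSeries.map (PadicInt.Coe.ringHom (p := p)) Y0)
    (by rw [← map_pow, hY0, map_cst])
    (by rw [← coeff_zero_eq_constantCoeff_apply, coeff_map, coeff_zero_eq_constantCoeff_apply,
      hY01, map_one])
    (by
      intro T n _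
      rw [coeff_map, PI_zero_iff_exists]
      exact ⟨_, rfl⟩)
  refine ⟨PowerSeries.map (PadicInt.toZModPow 2) Y0, ?_, ?_, ?_⟩
  · rw [← map_pow, hY0, map_cst]
  · rw [← coeff_zero_eq_constantCoeff_apply, coeff_map, coeff_zero_eq_constantCoeff_apply, hY01,
      map_one]
  · intro n hn
    have h1 := hq n hn
    rw [← map_neg, ← map_ThetaS, ← map_ThetaS, ← map_sub, coeff_map] at h1
    rw [← map_neg, ← map_ThetaS, ← map_ThetaS, ← map_sub, coeff_map]
    exact (PI_zmod 2 _).1 h1

end Pool.Agent.Lib_helper57.AP
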