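import Pool.Agent.Lib_helper57.AP.B5
import Pool.Agent.Lib_helper57.AP.A9
import Pool.Agent.Lib_helper57.AP.FE7

/-! Block B6: STAR for large primes.
StarOf: `m^(p-1) - 1 = p f`, `f = (m^(p-1)-1)/p`; `p (A - f B) = 0` in `ZMod (p²)` ⇒ `A = f B` in `ZMod p` (`ZMod.castHom`);
`bb k ≡ 0 mod p` for `p/4 < k ≤ (p-1)/2` (bb_dvd1), `gl_cast`.
BigStar: if `∑_{k ≤ q} bb k m^{-k} = 0` in `ZMod p` use A9; otherwise FE7 + Theta_im_eq_zero + B5 + StarOf. -/

namespace Pool.Agent.Lib_helper57.AP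

open Finset

theorem B6_cancel (p : ℕ) [Fact p.Prime] (x : ZMod (p ^ 2)) (h : (p : ZMod (p ^ 2)) * x = 0) :
    ZMod.castHom (dvd_pow_self p two_ne_zero) (ZMod p) x = 0 := by
  obtain ⟨a, rfl⟩ := ZMod.intCast_surjective x
  have h1 : (((p : ℤ) * a : ℤ) : ZMod (p ^ 2)) = 0 := by
    push_cast
    exact h
  have h2 : ((p ^ 2 : ℕ) : ℤ) ∣ (p : ℤ) * a := (ZMod.intCast_zmod_eq_zero_iff_dvd _ _).mp h1
  have hp0 : (p : ℤ) ≠ 0 := by
    exact_mod_cast (Fact.out : p.Prime).ne_zero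
  have h3 : (p : ℤ) ∣ a := by
    have : (p : ℤ) * (p : ℤ) ∣ (p : ℤ) * a := by
      have e : ((p ^ 2 : ℕ) : ℤ) = (p : ℤ) * (p : ℤ) := by
        push_cast
        ring
      rwa [e] at h2
    exact (mul_dvd_mul_iff_left hp0).mp this
  rw [map_intCast]
  exact (ZMod.intCast_zmod_eq_zero_iff_dvd _ _).mpr h3

/-- the sum over `k ≤ (p-1)/2` equals the sum over `k ≤ p/4` modulo `p` -/
theorem B6_sum (p : ℕ) [Fact p.Prime] (hp : 3 < p) (w : ZMod p) :
    ∑ k ∈ range ((p - 1) / 2 + 1), (bb k : ZMod p) * w ^ k =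
      ∑ k ∈ range (p / 4 + 1), (bb k : ZMod p) * w ^ k := by
  have hsub : range (p / 4 + 1) ⊆ range ((p - 1) / 2 + 1) := by
    intro k hk
    rw [Finset.mem_range] at hk ⊢
    omega
  symm
  apply Finset.sum_subset hsub
  intro k hk hk'
  rw [Finset.mem_range] at hk hk'
  have hd : p ∣ bb k := by
    apply bb_dvd1 p k
    · omega
    · omega
  have : ((bb k : ℕ) : ZMod p) = 0 := (ZMod.natCast_eq_zero_iff _ _).mpr hd
  rw [this, zero_mul]

theorem B6_inv (p : ℕ) [Fact p.Prime] (m : ℤ) (hm : ¬ (p : ℤ) ∣ m) (v : ZMod (p ^ 2))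
    (hv : v * (m : ZMod (p ^ 2)) = 1) :
    ZMod.castHom (dvd_pow_self p two_ne_zero) (ZMod p) v = ((m : ZMod p))⁻¹ := by
  have h1 : ZMod.castHom (dvd_pow_self p two_ne_zero) (ZMod p) v * (m : ZMod p) = 1 := by
    have := congrArg (ZMod.castHom (dvd_pow_self p two_ne_zero) (ZMod p)) hv
    rw [map_mul, map_intCast, map_one] at this
    exact this
  exact eq_inv_of_mul_eq_one_left h1

theorem StarOf (p : ℕ) [Fact p.Prime] (hp : 3 < p) (m : ℤ) (hm : ¬ (p : ℤ) ∣ m) (v : ZMod (p ^ 2))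
    (hv : v * (m : ZMod (p ^ 2)) = 1)
    (h : (p : ZMod (p ^ 2)) * ∑ k ∈ range ((p - 1) / 2 + 1), (gl p k : ZMod (p ^ 2)) * v ^ k =
      ((m : ZMod (p ^ 2)) ^ (p - 1) - 1) * ∑ k ∈ range (p / 4 + 1), (bb k : ZMod (p ^ 2)) * v ^ k) :
    Star p m := by
  have hw := B6_inv p m hm v hv
  have hdiv : (p : ℤ) ∣ m ^ (p - 1) - 1 := by
    have h1 : ((m ^ (p - 1) - 1 : ℤ) : ZMod p) = 0 := by
      push_cast
      have hm0 : (m : ZMod p) ≠ 0 := by
        intro h0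
        exact hm ((ZMod.intCast_zmod_eq_zero_iff_dvd _ _).mp h0)
      rw [ZMod.pow_card_sub_one_eq_one hm0, sub_self]
    exact (ZMod.intCast_zmod_eq_zero_iff_dvd _ _).mp h1
  have hf : m ^ (p - 1) - 1 = (p : ℤ) * ((m ^ (p - 1) - 1) / (p : ℤ)) :=
    (Int.mul_ediv_cancel' hdiv).symm
  set f : ℤ := (m ^ (p - 1) - 1) / (p : ℤ) with hf_def
  have hf' : (m : ZMod (p ^ 2)) ^ (p - 1) - 1 = (p : ZMod (p ^ 2)) * (f : ZMod (p ^ 2)) := by
    have := congrArg (fun z : ℤ => (z : ZMod (p ^ 2))) hf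
    push_cast at this
    exact this
  have h0 : (p : ZMod (p ^ 2)) * (∑ k ∈ range ((p - 1) / 2 + 1), (gl p k : ZMod (p ^ 2)) * v ^ k
      - (f : ZMod (p ^ 2)) * ∑ k ∈ range (p / 4 + 1), (bb k : ZMod (p ^ 2)) * v ^ k) = 0 := by
    rw [mul_sub, h, hf']
    ring
  have h1 := B6_cancel p _ h0
  rw [map_sub, map_sum, map_mul, map_sum, map_intCast, sub_eq_zero] at h1
  unfold Star
  rw [B6_sum p hp]
  have e1 : ∑ k ∈ range ((p - 1) / 2 + 1), gz p k * ((m : ZMod p)⁻¹) ^ k =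
      ∑ x ∈ range ((p - 1) / 2 + 1), (ZMod.castHom (dvd_pow_self p two_ne_zero) (ZMod p))
        ((gl p x : ZMod (p ^ 2)) * v ^ x) := by
    apply Finset.sum_congr rfl
    intro k _
    rw [map_mul, map_natCast, map_pow, hw, gl_cast]
  have e2 : ∑ k ∈ range (p / 4 + 1), (bb k : ZMod p) * ((m : ZMod p)⁻¹) ^ k =
      ∑ x ∈ range (p / 4 + 1), (ZMod.castHom (dvd_pow_self p two_ne_zero) (ZMod p))
        ((bb x : ZMod (p ^ 2)) * v ^ x) := by
    apply Finset.sum_congr rfl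
    intro k _
    rw [map_mul, map_natCast, map_pow, hw]
  rw [e1, e2, h1]
  rfl

theorem BigStar (M : MD) (hM : M.Valid) (p : ℕ) [Fact p.Prime] (hp : 3 < p) (hB : M.Big p) (s m : ℤ)
    (hpt : M.Point s m) (hg : M.Good s m p) : Star p m := by
  have hm0 : (m : ZMod p) ≠ 0 := by
    intro h0
    exact hg.hm ((ZMod.intCast_zmod_eq_zero_iff_dvd _ _).mp h0)
  by_cases hsum : ∑ k ∈ range ((p - 1) / 2 + 1), (bb k : ZMod p) * ((m : ZMod p)⁻¹) ^ k = 0
  · unfold Star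
    rw [hsum, mul_zero]
    exact A9 p hp _ (inv_ne_zero hm0) hsum
  · have hpd : ¬ p ∣ M.d := by
      intro hdvd
      have h1 : p ≤ M.d := Nat.le_of_dvd (by have := hM.hd; omega) hdvd
      have h2 := hB
      unfold MD.Big nz at h2
      omega
    obtain ⟨Y, hY, hY0, hFE⟩ := FE7 p hp M hM hpd
    have him := Theta_im_eq_zero M hM p hp hB Y hY hY0 hFE
    obtain ⟨um, hum⟩ := B5_unit p m hg.hm
    set v : ZMod (p ^ 2) := ((um⁻¹ : (ZMod (p ^ 2))ˣ) : ZMod (p ^ 2)) with hv_def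
    have hv : v * (m : ZMod (p ^ 2)) = 1 := by
      rw [← hum, hv_def]
      exact Units.inv_mul um
    have hF : IsUnit (∑ k ∈ range (p / 4 + 1), (bb k : ZMod (p ^ 2)) * v ^ k) := by
      obtain ⟨a, ha⟩ := ZMod.intCast_surjective
        (∑ k ∈ range (p / 4 + 1), (bb k : ZMod (p ^ 2)) * v ^ k)
      rw [← ha]
      apply B5_unit p a
      intro hpa
      apply hsum
      rw [B6_sum p hp]
      have h1 : ((a : ℤ) : ZMod p) = 0 := (ZMod.intCast_zmod_eq_zero_iff_dvd _ _).mpr hpa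
      have h2 := congrArg (ZMod.castHom (dvd_pow_self p two_ne_zero) (ZMod p)) ha
      rw [map_intCast, h1, map_sum] at h2
      rw [h2]
      apply Finset.sum_congr rfl
      intro k _
      rw [map_mul, map_natCast, map_pow, B6_inv p m hg.hm v hv]
    exact StarOf p hp m hg.hm v hv (B5 M hM p hp s m hpt hg v hv hF him)

end Pool.Agent.Lib_helper57.AP
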