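import Pool.Agent.Lib_helper57.AP.Data

/-! Block ChkA: computable arithmetic on coefficient lists and its soundness; all fields of
`MD.Valid` except the differential identity, for the four data sets. -/

namespace Pool.Agent.Lib_helper57.AP

/-- sum of coefficient lists -/
def ChkA_add : List ℤ → List ℤ → List ℤ
  | [], b => b
  | x :: a, [] => x :: a
  | x :: a, y :: b => (x + y) :: ChkA_add a b

/-- scalar multiple of a coefficient list -/
def ChkA_smul (c : ℤ) : List ℤ → List ℤ
  | [] => []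
  | x :: a => (c * x) :: ChkA_smul c a

/-- product of coefficient lists -/
def ChkA_mul : List ℤ → List ℤ → List ℤ
  | [], _ => []
  | x :: a, b => ChkA_add (ChkA_smul x b) (0 :: ChkA_mul a b)

/-- multiplication by `X ^ n` -/
def ChkA_shift : ℕ → List ℤ → List ℤ
  | 0, a => a
  | n + 1, a => 0 :: ChkA_shift n a

/-- all coefficients are zero -/
def ChkA_zero : List ℤ → Bool
  | [] => true
  | x :: a => (x == 0) && ChkA_zero a

theorem ChkA_pl_add (a b : List ℤ) : pl (ChkA_add a b) = pl a + pl b := by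
  induction a generalizing b with
  | nil => simp [ChkA_add, pl]
  | cons x a ih =>
    cases b with
    | nil => simp [ChkA_add, pl]
    | cons y b =>
      simp only [ChkA_add, pl, ih, Polynomial.C_add]
      ring

theorem ChkA_pl_smul (c : ℤ) (a : List ℤ) : pl (ChkA_smul c a) = Polynomial.C c * pl a := by
  induction a with
  | nil => simp [ChkA_smul, pl]
  | cons x a ih =>
    simp only [ChkA_smul, pl, ih, Polynomial.C_mul]
    ring

theorem ChkA_pl_mul (a b : List ℤ) : pl (ChkA_mul a b) = pl a * pl b := by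
  induction a with
  | nil => simp [ChkA_mul, pl]
  | cons x a ih =>
    simp only [ChkA_mul, ChkA_pl_add, ChkA_pl_smul, pl, ih, Polynomial.C_0]
    ring

theorem ChkA_pl_shift (n : ℕ) (a : List ℤ) :
    pl (ChkA_shift n a) = Polynomial.X ^ n * pl a := by
  induction n with
  | zero => simp [ChkA_shift]
  | succ n ih =>
    simp only [ChkA_shift, pl, ih, Polynomial.C_0, pow_succ]
    ring

theorem ChkA_pl_zero (a : List ℤ) (h : ChkA_zero a = true) : pl a = 0 := by
  induction a with
  | nil => rfl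
  | cons x a ih =>
    simp only [ChkA_zero, Bool.and_eq_true, beq_iff_eq] at h
    simp [pl, h.1, ih h.2]

theorem ChkA_rel (S Q D N : List ℤ) (d : ℕ)
    (h : ChkA_zero (ChkA_add (ChkA_mul S S) (ChkA_add (ChkA_smul (-1) (ChkA_mul (ChkA_mul Q Q) D))
      (ChkA_shift (d - 1) (ChkA_smul (-4) N)))) = true) :
    pl S ^ 2 - pl Q ^ 2 * pl D = 4 * Polynomial.X ^ (d - 1) * pl N := by
  have h1 := ChkA_pl_zero _ h
  rw [ChkA_pl_add, ChkA_pl_add, ChkA_pl_mul, ChkA_pl_smul, ChkA_pl_mul, ChkA_pl_mul,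
    ChkA_pl_shift, ChkA_pl_smul] at h1
  have h2 : (Polynomial.C (-1 : ℤ)) = -1 := by simp
  have h3 : (Polynomial.C (-4 : ℤ)) = -4 := by
    rw [show (-4 : ℤ) = -(4 : ℤ) from rfl, Polynomial.C_neg]
    rfl
  rw [h2, h3] at h1
  linear_combination h1

theorem ChkA_coeff (l : List ℤ) (n : ℕ) : (pl l).coeff n = l.getD n 0 := by
  induction l generalizing n with
  | nil => simp [pl]
  | cons x l ih =>
    cases n with
    | zero => simp [pl]
    | succ n =>
      simp only [pl, Polynomial.coeff_add, Polynomial.coeff_C_succ, Polynomial.coeff_X_mul, ih,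
        zero_add, List.getD_cons_succ]

theorem ChkA_deg (l : List ℤ) : (pl l).natDegree ≤ l.length - 1 := by
  rw [Polynomial.natDegree_le_iff_coeff_eq_zero]
  intro n hn
  rw [ChkA_coeff, List.getD_eq_default]
  omega

/-- all fields of `MD.Valid` except the differential identity -/
structure MD.Basic (M : MD) : Prop where
  hd : 2 ≤ M.d
  rel : M.S ^ 2 - M.Q ^ 2 * M.D = 4 * Polynomial.X ^ (M.d - 1) * M.N
  S0 : M.S.coeff 0 = 1
  Q0 : M.Q.coeff 0 = 1
  D0 : M.D.coeff 0 = 1
  N0 : M.N.coeff 0 = 1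
  Jn0 : M.Jn.coeff 0 = 0
  Jd0 : M.Jd.coeff 0 ≠ 0
  degS : M.S.natDegree ≤ M.d
  degQ : M.Q.natDegree + (M.g + 1) ≤ M.d
  degD : M.D.natDegree ≤ 2 * M.g + 2
  degN : M.N.natDegree ≤ M.d + 1

theorem ChkA_basic (d g : ℕ) (S Q D N Jn Jd : List ℤ) (hd : 2 ≤ d)
    (h : ChkA_zero (ChkA_add (ChkA_mul S S) (ChkA_add (ChkA_smul (-1) (ChkA_mul (ChkA_mul Q Q) D))
      (ChkA_shift (d - 1) (ChkA_smul (-4) N)))) = true)
    (hS : S.getD 0 0 = 1) (hQ : Q.getD 0 0 = 1) (hD : D.getD 0 0 = 1) (hN : N.getD 0 0 = 1)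
    (hJn : Jn.getD 0 0 = 0) (hJd : Jd.getD 0 0 ≠ 0) (dS : S.length - 1 ≤ d)
    (dQ : Q.length - 1 + (g + 1) ≤ d) (dD : D.length - 1 ≤ 2 * g + 2) (dN : N.length - 1 ≤ d + 1) :
    (⟨d, g, pl S, pl Q, pl D, pl N, pl Jn, pl Jd⟩ : MD).Basic where
  hd := hd
  rel := ChkA_rel S Q D N d h
  S0 := (ChkA_coeff S 0).trans hS
  Q0 := (ChkA_coeff Q 0).trans hQ
  D0 := (ChkA_coeff D 0).trans hD
  N0 := (ChkA_coeff N 0).trans hN
  Jn0 := (ChkA_coeff Jn 0).trans hJn
  Jd0 := by
    change (pl Jd).coeff 0 ≠ 0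
    rw [ChkA_coeff]; exact hJd
  degS := (ChkA_deg S).trans dS
  degQ := (Nat.add_le_add_right (ChkA_deg Q) _).trans dQ
  degD := (ChkA_deg D).trans dD
  degN := (ChkA_deg N).trans dN

theorem M3_basic : M3.Basic :=
  ChkA_basic 3 0 S3 Q3 D3 N3 Jn3 Jd3 (by decide) (by decide +kernel) (by decide) (by decide)
    (by decide) (by decide) (by decide) (by decide) (by decide) (by decide) (by decide) (by decide)

theorem M11_basic : M11.Basic :=
  ChkA_basic 11 1 S11 Q11 D11 N11 Jn11 Jd11 (by decide) (by decide +kernel) (by decide) (by decide)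
    (by decide) (by decide) (by decide) (by decide) (by decide) (by decide) (by decide) (by decide)

theorem M13_basic : M13.Basic :=
  ChkA_basic 13 1 S13 Q13 D13 N13 Jn13 Jd13 (by decide) (by decide +kernel) (by decide) (by decide)
    (by decide) (by decide) (by decide) (by decide) (by decide) (by decide) (by decide) (by decide)

theorem M31_basic : M31.Basic :=
  ChkA_basic 31 4 S31 Q31 D31 N31 Jn31 Jd31 (by decide) (by decide +kernel) (by decide) (by decide)
    (by decide) (by decide) (by decide) (by decide) (by decide) (by decide) (by decide) (by decide)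

end Pool.Agent.Lib_helper57.AP
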