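import Pool.Agent.Lib_helper57.AP.Defs

/-! Modular equation data for the degrees 3, 11, 13, 31 (level 2, Fricke-extended). -/

namespace Pool.Agent.Lib_helper57.AP

def S3 : List ℤ :=
  [1, 0, -236, -848]

def Q3 : List ℤ :=
  [1, 4, -60]

def D3 : List ℤ :=
  [1, -8, -308]

def N3 : List ℤ :=
  [1, 104, 4056, 70304, 456976]

def Jn3 : List ℤ :=
  [0, -4, -88]

def Jd3 : List ℤ :=
  [1, 20, 100]

noncomputable def M3 : MD := ⟨3, 0, pl S3, pl Q3, pl D3, pl N3, pl Jn3, pl Jd3⟩

def S11 : List ℤ :=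
  [1, 0, -55, -66, 924, 2090, -3608, -14520, -10560, 7040, 12288, 4608]

def Q11 : List ℤ :=
  [1, 0, -41, -44, 460, 880, -864, -2816, -1536]

def D11 : List ℤ :=
  [1, 0, -28, -44, -24]

def N11 : List ℤ :=
  [1, 104, 4312, 90464, 1015696, 6203648, 22967296, 55261184, 89233408, 96780288, 68124672,
    28311552, 5308416]

def Jn11 : List ℤ :=
  [0, 0, -16, -100, -272, -320, -144]

def Jd11 : List ℤ :=
  [1, 4, 4]

noncomputable def M11 : MD := ⟨11, 1, pl S11, pl Q11, pl D11, pl N11, pl Jn11, pl Jd11⟩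

def S13 : List ℤ :=
  [1, 0, -52, -52, 910, 1716, -5330, -15652, 533, 33540, 28626, 1040, -3808]

def Q13 : List ℤ :=
  [1, -1, -39, 1, 493, 377, -2001, -2601, 1066, 2224, 480]

def D13 : List ℤ :=
  [1, 2, -23, -76, -64]

def N13 : List ℤ :=
  [1, 104, 4316, 90792, 1025830, 6350344, 24016252, 59459608, 99473569, 112521552, 83169632,
    36558080, 7311616]

def Jn13 : List ℤ :=
  [0, 2, -31, -196, -252]

def Jd13 : List ℤ :=
  [2]

noncomputable def M13 : MD := ⟨13, 1, pl S13, pl Q13, pl D13, pl N13, pl Jn13, pl Jd13⟩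

def S31 : List ℤ :=
  [1, 0, -31, -31, 372, 806, -1705, -7812, -3441, 30535, 63922, -1674, -197160, -308884, -16554,
    607290, 905231, 301754, -819547, -1341029, -706924, 385454, 851539, 482546, -69471, -246977,
    -119288, 9734, 28768, 7936, -960, -288]

def Q31 : List ℤ :=
  [1, -1, -27, 1, 299, 299, -1518, -3520, 1596, 15106, 16508, -16814, -61336, -50526, 37702,
    119856, 96283, -15809, -95809, -75867, -8891, 26051, 17544, 1944, -2352, -720]

def D31 : List ℤ :=
  [1, 2, -5, -22, -41, -30, -2, 32, 21, 4, -12]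

def N31 : List ℤ :=
  [1, 104, 4340, 93000, 1106018, 7815720, 38506836, 141742168, 407078639, 930903712, 1707812568,
    2490967056, 2792819388, 2164914512, 647964232, -1061536720, -2026186257, -1812936792,
    -813202044, 159534184, 578836898, 474945544, 190290276, -11110152, -68599807, -48733488,
    -17210704, -1228096, 2623840, 1690368, 642816, 138240, 20736]

def Jn31 : List ℤ :=
  [0, 2, -7, -76, -224, -214, 7, 460, 351, 80, -288]

def Jd31 : List ℤ :=
  [2]

noncomputable def M31 : MD := ⟨31, 4, pl S31, pl Q31, pl D31, pl N31, pl Jn31, pl Jd31⟩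

end Pool.Agent.Lib_helper57.AP
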