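import Pool.Agent.Lib_helper57.AP.ThApi
import Pool.Agent.Lib_helper57.AP.Data

/-! Block ChkB: kernel check of the differential identity `ModEq` for the four data sets.
Elements `a + b Y` are pairs of integer polynomials.  The identity is checked at `X = x` for an integer `x` larger than
the sum of the absolute values of the coefficients (Kronecker substitution). -/

namespace Pool.Agent.Lib_helper57.AP

open Finset

/-! ### Lists -/

def ChkB_add : List ℤ → List ℤ → List ℤ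
  | [], b => b
  | a :: l, [] => a :: l
  | a :: l, b :: m => (a + b) :: ChkB_add l m

def ChkB_sm (c : ℤ) : List ℤ → List ℤ
  | [] => []
  | a :: l => (c * a) :: ChkB_sm c l

def ChkB_mul : List ℤ → List ℤ → List ℤ
  | [], _ => []
  | a :: l, m => ChkB_add (ChkB_sm a m) (0 :: ChkB_mul l m)

def ChkB_thn (n : ℤ) : List ℤ → List ℤ
  | [] => []
  | a :: l => (n * a) :: ChkB_thn (n + 1) l

def ChkB_ev (x : ℤ) : List ℤ → ℤ
  | [] => 0
  | a :: l => a + x * ChkB_ev x l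

def ChkB_nm : List ℤ → ℕ
  | [] => 0
  | a :: l => a.natAbs + ChkB_nm l

theorem ChkB_pl_add : ∀ a b : List ℤ, pl (ChkB_add a b) = pl a + pl b
  | [], b => by simp [ChkB_add, pl]
  | a :: l, [] => by simp [ChkB_add, pl]
  | a :: l, b :: m => by
      simp only [ChkB_add, pl, ChkB_pl_add l m, map_add]
      ring

theorem ChkB_pl_sm (c : ℤ) : ∀ a : List ℤ, pl (ChkB_sm c a) = Polynomial.C c * pl a
  | [] => by simp [ChkB_sm, pl]
  | a :: l => by
      simp only [ChkB_sm, pl, ChkB_pl_sm c l, map_mul]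
      ring

theorem ChkB_pl_mul : ∀ a b : List ℤ, pl (ChkB_mul a b) = pl a * pl b
  | [], b => by simp [ChkB_mul, pl]
  | a :: l, m => by
      simp only [ChkB_mul, pl, ChkB_pl_add, ChkB_pl_sm, ChkB_pl_mul l m, map_zero]
      ring

theorem ChkB_pl_thn : ∀ (l : List ℤ) (n : ℤ),
    pl (ChkB_thn n l) = Polynomial.C n * pl l + Polynomial.X * Polynomial.derivative (pl l)
  | [], n => by simp [ChkB_thn, pl]
  | a :: l, n => by
      simp only [ChkB_thn, pl, ChkB_pl_thn l (n + 1), map_mul, map_add, Polynomial.derivative_mul,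
        Polynomial.derivative_C, Polynomial.derivative_X, map_one]
      ring

theorem ChkB_pl_th (l : List ℤ) :
    pl (ChkB_thn 0 l) = Polynomial.X * Polynomial.derivative (pl l) := by
  rw [ChkB_pl_thn, map_zero, zero_mul, zero_add]

theorem ChkB_eval (x : ℤ) : ∀ l : List ℤ, (pl l).eval x = ChkB_ev x l
  | [] => by simp [ChkB_ev, pl]
  | a :: l => by simp [ChkB_ev, pl, ChkB_eval x l]

/-! ### Norms -/

noncomputable def ChkB_l1 (f : Polynomial ℤ) : ℕ := ∑ i ∈ f.support, (f.coeff i).natAbs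

theorem ChkB_l1_eq (f : Polynomial ℤ) (S : Finset ℕ) (h : f.support ⊆ S) :
    ChkB_l1 f = ∑ i ∈ S, (f.coeff i).natAbs := by
  unfold ChkB_l1
  apply Finset.sum_subset h
  intro i _ hi
  rw [Polynomial.notMem_support_iff.1 hi, Int.natAbs_zero]

theorem ChkB_coeff_le (f : Polynomial ℤ) (i : ℕ) : (f.coeff i).natAbs ≤ ChkB_l1 f := by
  by_cases h : i ∈ f.support
  · exact Finset.single_le_sum (f := fun i => (f.coeff i).natAbs) (fun _ _ => Nat.zero_le _) h
  · rw [Polynomial.notMem_support_iff.1 h, Int.natAbs_zero]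
    exact Nat.zero_le _

theorem ChkB_l1_add (f g : Polynomial ℤ) : ChkB_l1 (f + g) ≤ ChkB_l1 f + ChkB_l1 g := by
  classical
  rw [ChkB_l1_eq (f + g) (f.support ∪ g.support) Polynomial.support_add,
    ChkB_l1_eq f (f.support ∪ g.support) Finset.subset_union_left,
    ChkB_l1_eq g (f.support ∪ g.support) Finset.subset_union_right, ← Finset.sum_add_distrib]
  apply Finset.sum_le_sum
  intro i _
  rw [Polynomial.coeff_add]
  exact Int.natAbs_add_le _ _

theorem ChkB_l1_neg (f : Polynomial ℤ) : ChkB_l1 (-f) = ChkB_l1 f := by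
  unfold ChkB_l1
  rw [Polynomial.support_neg]
  simp

theorem ChkB_l1_sub (f g : Polynomial ℤ) : ChkB_l1 (f - g) ≤ ChkB_l1 f + ChkB_l1 g := by
  rw [sub_eq_add_neg]
  exact (ChkB_l1_add f (-g)).trans (by rw [ChkB_l1_neg])

theorem ChkB_l1_zero : ChkB_l1 0 = 0 := by
  simp [ChkB_l1]

theorem ChkB_l1_mon (n : ℕ) (c : ℤ) : ChkB_l1 (Polynomial.monomial n c) = c.natAbs := by
  rw [ChkB_l1_eq _ {n} (Polynomial.support_monomial_subset n c)]
  simp

theorem ChkB_l1_mon_mul (n : ℕ) (c : ℤ) (g : Polynomial ℤ) :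
    ChkB_l1 (Polynomial.monomial n c * g) = c.natAbs * ChkB_l1 g := by
  have hsub : (Polynomial.monomial n c * g).support ⊆ g.support.map (addRightEmbedding n) := by
    intro i hi
    rw [Finset.mem_map]
    rw [Polynomial.mem_support_iff] at hi
    by_cases hn : n ≤ i
    · obtain ⟨d, rfl⟩ := Nat.exists_eq_add_of_le hn
      refine ⟨d, ?_, ?_⟩
      · rw [Polynomial.mem_support_iff]
        intro h0
        apply hi
        rw [add_comm, Polynomial.coeff_monomial_mul, h0, mul_zero]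
      · simp [addRightEmbedding, add_comm]
    · exfalso
      apply hi
      rw [← Polynomial.C_mul_X_pow_eq_monomial, mul_assoc, mul_comm (Polynomial.X ^ n) g,
        Polynomial.coeff_C_mul, Polynomial.coeff_mul_X_pow', if_neg hn, mul_zero]
  rw [ChkB_l1_eq _ _ hsub, Finset.sum_map]
  unfold ChkB_l1
  rw [Finset.mul_sum]
  apply Finset.sum_congr rfl
  intro i _
  simp only [addRightEmbedding_apply]
  rw [Polynomial.coeff_monomial_mul, Int.natAbs_mul]

theorem ChkB_l1_mul (f g : Polynomial ℤ) : ChkB_l1 (f * g) ≤ ChkB_l1 f * ChkB_l1 g := by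
  conv_lhs => rw [f.as_sum_support, Finset.sum_mul]
  refine (Finset.le_sum_of_subadditive ChkB_l1 ChkB_l1_zero.le ChkB_l1_add _ _).trans ?_
  rw [show ChkB_l1 f * ChkB_l1 g = ∑ i ∈ f.support, (f.coeff i).natAbs * ChkB_l1 g by
    unfold ChkB_l1; rw [Finset.sum_mul]]
  exact Finset.sum_le_sum fun i _ => (ChkB_l1_mon_mul i _ g).le

theorem ChkB_l1_C (c : ℤ) : ChkB_l1 (Polynomial.C c) = c.natAbs := by
  rw [← Polynomial.monomial_zero_left, ChkB_l1_mon]

theorem ChkB_l1_X_pow (n : ℕ) : ChkB_l1 (Polynomial.X ^ n) = 1 := by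
  rw [← Polynomial.monomial_one_right_eq_X_pow, ChkB_l1_mon]
  rfl

theorem ChkB_l1_X : ChkB_l1 Polynomial.X = 1 := by
  rw [← pow_one Polynomial.X, ChkB_l1_X_pow]

theorem ChkB_l1_pl : ∀ l : List ℤ, ChkB_l1 (pl l) ≤ ChkB_nm l
  | [] => by simp [pl, ChkB_nm, ChkB_l1_zero]
  | a :: l => by
      simp only [pl, ChkB_nm]
      refine (ChkB_l1_add _ _).trans ?_
      rw [ChkB_l1_C]
      refine Nat.add_le_add_left ?_ _
      refine (ChkB_l1_mul _ _).trans ?_
      rw [ChkB_l1_X, one_mul]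
      exact ChkB_l1_pl l

/-! ### Kronecker substitution -/

theorem ChkB_kron (x : ℤ) : ∀ (n : ℕ) (f : Polynomial ℤ), f.natDegree < n →
    (∀ i, |f.coeff i| < x) → f.eval x = 0 → f = 0 := by
  intro n
  induction n with
  | zero => intro f h; omega
  | succ n ih =>
    intro f hd hc he
    have hx : 0 < x := lt_of_le_of_lt (abs_nonneg _) (hc 0)
    have hf := Polynomial.divX_mul_X_add f
    have he' : f.divX.eval x * x + f.coeff 0 = 0 := by
      rw [← hf] at he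
      simpa using he
    have h0 : f.coeff 0 = 0 := by
      have hdv : x ∣ f.coeff 0 := ⟨- f.divX.eval x, by linarith [he', mul_comm x (Polynomial.eval x f.divX)]⟩
      exact Int.eq_zero_of_abs_lt_dvd hdv (hc 0)
    rw [h0, add_zero] at he'
    have h1 : f.divX.eval x = 0 := by
      rcases mul_eq_zero.1 he' with h | h
      · exact h
      · exact absurd h hx.ne'
    have h2 : f.divX = 0 := by
      by_cases hn : f.natDegree = 0
      · rw [Polynomial.divX_eq_zero_iff]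
        exact (Polynomial.eq_C_of_natDegree_eq_zero hn)
      · apply ih
        · rw [Polynomial.natDegree_divX_eq_natDegree_tsub_one]
          omega
        · intro i
          rw [Polynomial.coeff_divX]
          exact hc _
        · exact h1
    rw [← hf, h2, h0]
    simp

/-! ### Pairs -/

structure ChkB_T where
  a : ℤ
  b : ℤ
  n : ℕ

def ChkB_T.add (s t : ChkB_T) : ChkB_T := ⟨s.a + t.a, s.b + t.b, s.n + t.n⟩

def ChkB_T.sub (s t : ChkB_T) : ChkB_T := ⟨s.a - t.a, s.b - t.b, s.n + t.n⟩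

def ChkB_T.mul (D : ℤ) (s t : ChkB_T) : ChkB_T :=
  ⟨s.a * t.a + D * (s.b * t.b), s.a * t.b + s.b * t.a, s.n * t.n⟩

def ChkB_T.lst (x : ℤ) (c : ℕ) (a b : List ℤ) : ChkB_T :=
  ⟨ChkB_ev x a, ChkB_ev x b, ChkB_nm a + c * ChkB_nm b⟩

def ChkB_Rep (x : ℤ) (c : ℕ) (R : Type) [CommRing R] (Y : PowerSeries R) (f : PowerSeries R)
    (t : ChkB_T) : Prop :=
  ∃ a b : Polynomial ℤ, f = cst R a + cst R b * Y ∧ a.eval x = t.a ∧ b.eval x = t.b ∧
    ChkB_l1 a + c * ChkB_l1 b ≤ t.n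

section rep

variable {x : ℤ} {c : ℕ} {R : Type} [CommRing R] {Y : PowerSeries R}

theorem ChkB_Rep.add {f g : PowerSeries R} {s t : ChkB_T} (hf : ChkB_Rep x c R Y f s)
    (hg : ChkB_Rep x c R Y g t) : ChkB_Rep x c R Y (f + g) (s.add t) := by
  obtain ⟨a, b, h1, h2, h3, h4⟩ := hf
  obtain ⟨a', b', h1', h2', h3', h4'⟩ := hg
  refine ⟨a + a', b + b', ?_, ?_, ?_, ?_⟩
  · rw [h1, h1', map_add, map_add]; ring
  · simp [ChkB_T.add, h2, h2']
  · simp [ChkB_T.add, h3, h3']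
  · simp only [ChkB_T.add]
    have e1 := ChkB_l1_add a a'
    have e2 := Nat.mul_le_mul_left c (ChkB_l1_add b b')
    rw [mul_add] at e2
    omega

theorem ChkB_Rep.sub {f g : PowerSeries R} {s t : ChkB_T} (hf : ChkB_Rep x c R Y f s)
    (hg : ChkB_Rep x c R Y g t) : ChkB_Rep x c R Y (f - g) (s.sub t) := by
  obtain ⟨a, b, h1, h2, h3, h4⟩ := hf
  obtain ⟨a', b', h1', h2', h3', h4'⟩ := hg
  refine ⟨a - a', b - b', ?_, ?_, ?_, ?_⟩
  · rw [h1, h1', map_sub, map_sub]; ring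
  · simp [ChkB_T.sub, h2, h2']
  · simp [ChkB_T.sub, h3, h3']
  · simp only [ChkB_T.sub]
    have e1 := ChkB_l1_sub a a'
    have e2 := Nat.mul_le_mul_left c (ChkB_l1_sub b b')
    rw [mul_add] at e2
    omega

theorem ChkB_Rep.mul {D : Polynomial ℤ} (hY : Y ^ 2 = cst R D) (hc : ChkB_l1 D ≤ c ^ 2) {Dx : ℤ}
    (hDx : D.eval x = Dx)
    {f g : PowerSeries R} {s t : ChkB_T} (hf : ChkB_Rep x c R Y f s)
    (hg : ChkB_Rep x c R Y g t) : ChkB_Rep x c R Y (f * g) (s.mul Dx t) := by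
  obtain ⟨a, b, h1, h2, h3, h4⟩ := hf
  obtain ⟨a', b', h1', h2', h3', h4'⟩ := hg
  refine ⟨a * a' + D * (b * b'), a * b' + b * a', ?_, ?_, ?_, ?_⟩
  · rw [h1, h1']
    simp only [map_add, map_mul]
    rw [← hY]
    ring
  · simp [ChkB_T.mul, h2, h2', h3, h3', hDx]
  · simp [ChkB_T.mul, h2, h2', h3, h3']
  · simp only [ChkB_T.mul]
    refine le_trans ?_ (Nat.mul_le_mul h4 h4')
    have e1 : ChkB_l1 (a * a' + D * (b * b')) ≤ ChkB_l1 a * ChkB_l1 a' +
        c ^ 2 * (ChkB_l1 b * ChkB_l1 b') := by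
      refine (ChkB_l1_add _ _).trans (Nat.add_le_add (ChkB_l1_mul _ _) ?_)
      exact (ChkB_l1_mul _ _).trans (Nat.mul_le_mul hc (ChkB_l1_mul _ _))
    have e2 : ChkB_l1 (a * b' + b * a') ≤ ChkB_l1 a * ChkB_l1 b' + ChkB_l1 b * ChkB_l1 a' :=
      (ChkB_l1_add _ _).trans (Nat.add_le_add (ChkB_l1_mul _ _) (ChkB_l1_mul _ _))
    calc _ ≤ ChkB_l1 a * ChkB_l1 a' + c ^ 2 * (ChkB_l1 b * ChkB_l1 b') +
          c * (ChkB_l1 a * ChkB_l1 b' + ChkB_l1 b * ChkB_l1 a') :=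
          Nat.add_le_add e1 (Nat.mul_le_mul_left c e2)
      _ = _ := by ring

theorem ChkB_Rep.lst (a b : List ℤ) :
    ChkB_Rep x c R Y (cst R (pl a) + cst R (pl b) * Y) (ChkB_T.lst x c a b) := by
  refine ⟨pl a, pl b, rfl, ChkB_eval x a, ChkB_eval x b, ?_⟩
  simp only [ChkB_T.lst]
  exact Nat.add_le_add (ChkB_l1_pl a) (Nat.mul_le_mul_left c (ChkB_l1_pl b))

theorem ChkB_Rep.cst (a : List ℤ) :
    ChkB_Rep x c R Y (cst R (pl a)) (ChkB_T.lst x c a []) := by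
  have := ChkB_Rep.lst (x := x) (c := c) (R := R) (Y := Y) a []
  simpa [pl] using this

theorem ChkB_Rep.con (k : ℤ) : ChkB_Rep x c R Y (k : PowerSeries R) ⟨k, 0, k.natAbs⟩ := by
  refine ⟨Polynomial.C k, 0, ?_, ?_, ?_, ?_⟩
  · rw [cst_C]; simp
  · simp
  · simp
  · rw [ChkB_l1_C, ChkB_l1_zero, mul_zero, add_zero]

theorem ChkB_Rep.Xp (k : ℕ) : ChkB_Rep x c R Y (PowerSeries.X ^ k : PowerSeries R) ⟨x ^ k, 0, 1⟩ := by
  refine ⟨Polynomial.X ^ k, 0, ?_, ?_, ?_, ?_⟩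
  · rw [map_pow, cst_X]; simp
  · simp
  · simp
  · rw [ChkB_l1_X_pow, ChkB_l1_zero, mul_zero, add_zero]

theorem ChkB_Rep.eq_zero {f : PowerSeries R} {t : ChkB_T} (hf : ChkB_Rep x c R Y f t)
    (hc : 1 ≤ c) (ha : t.a = 0) (hb : t.b = 0) (hn : (t.n : ℤ) < x) : f = 0 := by
  obtain ⟨a, b, h1, h2, h3, h4⟩ := hf
  have hA : ∀ i, |a.coeff i| < x := by
    intro i
    have := ChkB_coeff_le a i
    have h5 : (a.coeff i).natAbs ≤ t.n := by omega
    have : |a.coeff i| = ((a.coeff i).natAbs : ℤ) := Int.abs_eq_natAbs _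
    rw [this]
    exact lt_of_le_of_lt (by exact_mod_cast h5) hn
  have hB : ∀ i, |b.coeff i| < x := by
    intro i
    have h6 := ChkB_coeff_le b i
    have h7 : ChkB_l1 b ≤ c * ChkB_l1 b := Nat.le_mul_of_pos_left _ hc
    have h5 : (b.coeff i).natAbs ≤ t.n := by omega
    have : |b.coeff i| = ((b.coeff i).natAbs : ℤ) := Int.abs_eq_natAbs _
    rw [this]
    exact lt_of_le_of_lt (by exact_mod_cast h5) hn
  have ea : a = 0 := ChkB_kron x _ a (Nat.lt_succ_self _) hA (h2.trans ha)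
  have eb : b = 0 := ChkB_kron x _ b (Nat.lt_succ_self _) hB (h3.trans hb)
  rw [h1, ea, eb, map_zero]
  simp

end rep

/-! ### The step -/

def ChkB_sa (d : ℕ) (D b : List ℤ) : List ℤ :=
  ChkB_add (ChkB_sm 2 (ChkB_mul D (ChkB_thn 0 b)))
    (ChkB_add (ChkB_mul (ChkB_thn 0 D) b) (ChkB_sm (-(2 * (d : ℤ))) (ChkB_mul D b)))

def ChkB_sb (d : ℕ) (a : List ℤ) : List ℤ :=
  ChkB_add (ChkB_sm 2 (ChkB_thn 0 a)) (ChkB_sm (-(2 * (d : ℤ))) a)

theorem ChkB_stp {R : Type} [CommRing R] (d : ℕ) (D a b : List ℤ) (Y : PowerSeries R)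
    (hY : Y ^ 2 = cst R (pl D)) :
    stp d Y (cst R (pl a) + cst R (pl b) * Y) =
      cst R (pl (ChkB_sa d D b)) + cst R (pl (ChkB_sb d a)) * Y := by
  have hth : 2 * (Y * th Y) = th (cst R (pl D)) := by
    rw [← hY, sq, th_mul]; ring
  have hsa : cst R (pl (ChkB_sa d D b)) = 2 * cst R (pl D) * th (cst R (pl b)) +
      th (cst R (pl D)) * cst R (pl b) - 2 * (d : PowerSeries R) * cst R (pl D) * cst R (pl b) := by
    unfold ChkB_sa
    rw [ChkB_pl_add, ChkB_pl_add, ChkB_pl_sm, ChkB_pl_sm, ChkB_pl_mul, ChkB_pl_mul, ChkB_pl_mul,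
      ChkB_pl_th, ChkB_pl_th, th_cst, th_cst]
    simp only [map_add, map_mul, cst_C]
    push_cast
    ring
  have hsb : cst R (pl (ChkB_sb d a)) = 2 * th (cst R (pl a)) - 2 * (d : PowerSeries R) * cst R (pl a) := by
    unfold ChkB_sb
    rw [ChkB_pl_add, ChkB_pl_sm, ChkB_pl_sm, ChkB_pl_th, th_cst]
    simp only [map_add, map_mul, cst_C]
    push_cast
    ring
  rw [hsa, hsb]
  unfold stp
  rw [th_add, th_mul]
  have : 2 * (Y * (th (cst R (pl a)) + (th (cst R (pl b)) * Y + cst R (pl b) * th Y)) -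
      (d : PowerSeries R) * Y * (cst R (pl a) + cst R (pl b) * Y)) =
      2 * Y ^ 2 * th (cst R (pl b)) + (2 * (Y * th Y)) * cst R (pl b)
      - 2 * (d : PowerSeries R) * Y ^ 2 * cst R (pl b) +
      (2 * th (cst R (pl a)) - 2 * (d : PowerSeries R) * cst R (pl a)) * Y := by ring
  rw [this, hth, hY]

/-- the whole check -/
def ChkB_tot (x : ℤ) (c d : ℕ) (S Q D Jn Jd : List ℤ) : ChkB_T :=
  let Dx := ChkB_ev x D
  let P1a := ChkB_sa d D Q
  let P1b := ChkB_sb d S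
  let P2a := ChkB_sa d D P1b
  let P2b := ChkB_sb d P1a
  let P3a := ChkB_sa d D P2b
  let P3b := ChkB_sb d P2a
  let P := ChkB_T.lst x c S Q
  let P1 := ChkB_T.lst x c P1a P1b
  let P2 := ChkB_T.lst x c P2a P2b
  let P3 := ChkB_T.lst x c P3a P3b
  let M := ChkB_T.mul Dx
  let K : ℤ → ChkB_T := fun k => ⟨k, 0, k.natAbs⟩
  let E := P.sub (M (K 512) ⟨x ^ d, 0, 1⟩)
  let U := M (M P P) (M E E)
  (M (ChkB_T.lst x c Jd []) ((M U ((M (K 2) (M P3 P1)).sub (M (K 3) (M P2 P2)))).add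
    (M (M (M P1 P1) (M P1 P1)) (((M P P).sub (M (M (K 608) ⟨x ^ d, 0, 1⟩) P)).add
      (M (K 245760) ⟨x ^ (2 * d), 0, 1⟩))))).sub
    (M (M (M (K 8) (ChkB_T.lst x c Jn [])) U) (M P1 P1))

def ChkB_chk (B c d : ℕ) (S Q D Jn Jd : List ℤ) : Bool :=
  let t := ChkB_tot (2 ^ B) c d S Q D Jn Jd
  decide (t.a = 0) && decide (t.b = 0) && decide ((t.n : ℤ) < 2 ^ B) &&
    decide (ChkB_nm D ≤ c ^ 2) && decide (1 ≤ c)

theorem ChkB_sound (B c d g : ℕ) (N' : Polynomial ℤ) (S Q D Jn Jd : List ℤ)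
    (h : ChkB_chk B c d S Q D Jn Jd = true) :
    ModEq ⟨d, g, pl S, pl Q, pl D, N', pl Jn, pl Jd⟩ := by
  simp only [ChkB_chk, Bool.and_eq_true, decide_eq_true_eq] at h
  obtain ⟨⟨⟨⟨ha, hb⟩, hn⟩, hD⟩, hc⟩ := h
  intro R _ Y hY
  simp only at hY
  have hDc : ChkB_l1 (pl D) ≤ c ^ 2 := (ChkB_l1_pl D).trans hD
  have hDx := ChkB_eval (2 ^ B) D
  simp only [PP]
  rw [ChkB_stp d D S Q Y hY, ChkB_stp d D _ _ Y hY, ChkB_stp d D _ _ Y hY]
  set x : ℤ := 2 ^ B with hx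
  have rm : ∀ {f g : PowerSeries R} {s t : ChkB_T}, ChkB_Rep x c R Y f s → ChkB_Rep x c R Y g t →
      ChkB_Rep x c R Y (f * g) (s.mul (ChkB_ev x D) t) := fun h1 h2 => h1.mul hY hDc hDx h2
  have rP := ChkB_Rep.lst (x := x) (c := c) (R := R) (Y := Y) S Q
  have r1 := ChkB_Rep.lst (x := x) (c := c) (R := R) (Y := Y) (ChkB_sa d D Q) (ChkB_sb d S)
  have r2 := ChkB_Rep.lst (x := x) (c := c) (R := R) (Y := Y) (ChkB_sa d D (ChkB_sb d S))
    (ChkB_sb d (ChkB_sa d D Q))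
  have r3 := ChkB_Rep.lst (x := x) (c := c) (R := R) (Y := Y)
    (ChkB_sa d D (ChkB_sb d (ChkB_sa d D Q))) (ChkB_sb d (ChkB_sa d D (ChkB_sb d S)))
  have rJn := ChkB_Rep.cst (x := x) (c := c) (R := R) (Y := Y) Jn
  have rJd := ChkB_Rep.cst (x := x) (c := c) (R := R) (Y := Y) Jd
  have rX := ChkB_Rep.Xp (x := x) (c := c) (R := R) (Y := Y) d
  have rX2 := ChkB_Rep.Xp (x := x) (c := c) (R := R) (Y := Y) (2 * d)
  have rK := fun k => ChkB_Rep.con (x := x) (c := c) (R := R) (Y := Y) k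
  generalize cst R (pl S) + cst R (pl Q) * Y = P at *
  generalize cst R (pl (ChkB_sa d D Q)) + cst R (pl (ChkB_sb d S)) * Y = P1 at *
  generalize cst R (pl (ChkB_sa d D (ChkB_sb d S))) + cst R (pl (ChkB_sb d (ChkB_sa d D Q))) * Y = P2
    at *
  generalize cst R (pl (ChkB_sa d D (ChkB_sb d (ChkB_sa d D Q)))) +
    cst R (pl (ChkB_sb d (ChkB_sa d D (ChkB_sb d S)))) * Y = P3 at *
  have rE := rP.sub (rm (rK 512) rX)
  have rU := rm (rm rP rP) (rm rE rE)
  have rT := (rm rJd ((rm rU ((rm (rK 2) (rm r3 r1)).sub (rm (rK 3) (rm r2 r2)))).add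
    (rm (rm (rm r1 r1) (rm r1 r1)) (((rm rP rP).sub (rm (rm (rK 608) rX) rP)).add
      (rm (rK 245760) rX2))))).sub (rm (rm (rm (rK 8) rJn) rU) (rm r1 r1))
  have h0 := rT.eq_zero hc ha hb hn
  push_cast at h0
  rw [← sub_eq_zero, ← h0]
  ring

theorem M3_meq : ModEq M3 :=
  ChkB_sound 88 18 3 0 (pl N3) S3 Q3 D3 Jn3 Jd3 (by decide +kernel)

theorem M11_meq : ModEq M11 :=
  ChkB_sound 131 10 11 1 (pl N11) S11 Q11 D11 Jn11 Jd11 (by decide +kernel)

theorem M13_meq : ModEq M13 :=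
  ChkB_sound 137 13 13 1 (pl N13) S13 Q13 D13 Jn13 Jd13 (by decide +kernel)

theorem M31_meq : ModEq M31 :=
  ChkB_sound 181 14 31 4 (pl N31) S31 Q31 D31 Jn31 Jd31 (by decide +kernel)

end Pool.Agent.Lib_helper57.AP
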