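import Pool.Agent.Lib_helper57.AP.Data

/-! Block ChkC: CM points and units.  `hev n (pl l) s` is computed from the list.
`M*_good`: the three integers `s`, `hev .. D s`, `hev .. (X Q') s` have only prime factors `< 40`. -/

namespace Pool.Agent.Lib_helper57.AP

/-- evaluation of the homogenized polynomial from its list of coefficients -/
def ChkC_ev (s : ℤ) : ℕ → List ℤ → ℤ
  | _, [] => 0
  | 0, a :: _ => a
  | n + 1, a :: l => a * s ^ (n + 1) + ChkC_ev s n l

/-- coefficients of `C k f + X f'` -/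
def ChkC_D : ℤ → List ℤ → List ℤ
  | _, [] => []
  | k, a :: l => k * a :: ChkC_D (k + 1) l

theorem ChkC_hev (s : ℤ) : ∀ (n : ℕ) (l : List ℤ), hev n (pl l) s = ChkC_ev s n l := by
  intro n
  induction n with
  | zero =>
    intro l
    cases l with
    | nil => simp [hev, pl, ChkC_ev]
    | cons a l => simp [hev, pl, ChkC_ev]
  | succ n ih =>
    intro l
    cases l with
    | nil => simp [hev, pl, ChkC_ev]
    | cons a l =>
      have h1 : hev (n + 1) (pl (a :: l)) s = hev n (pl l) s + a * s ^ (n + 1) := by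
        unfold hev
        rw [Finset.sum_range_succ']
        congr 1
        · refine Finset.sum_congr rfl fun i _ => ?_
          rw [pl, Polynomial.coeff_add, Polynomial.coeff_C_succ, zero_add,
            Polynomial.coeff_X_mul, Nat.add_sub_add_right]
        · simp [pl]
      rw [h1, ih, ChkC_ev]; ring

theorem ChkC_der : ∀ (l : List ℤ) (k : ℤ),
    Polynomial.C k * pl l + Polynomial.X * Polynomial.derivative (pl l) = pl (ChkC_D k l) := by
  intro l
  induction l with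
  | nil => intro k; simp [pl, ChkC_D]
  | cons a l ih =>
    intro k
    rw [ChkC_D, pl, pl, ← ih (k + 1)]
    simp only [Polynomial.derivative_C, Polynomial.derivative_mul,
      Polynomial.derivative_X, map_mul, map_add, map_one]
    ring

theorem ChkC_hevD (s : ℤ) (n : ℕ) (l : List ℤ) :
    hev n (Polynomial.X * Polynomial.derivative (pl l)) s = ChkC_ev s n (ChkC_D 0 l) := by
  rw [← ChkC_hev, ← ChkC_der l 0, map_zero, zero_mul, zero_add]

theorem ChkC_small (p : ℕ) [Fact p.Prime] (hp : 40 < p) (N : ℤ)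
    (h : N ∣ ((Nat.factorial 40 : ℕ) : ℤ)) : ¬ (p : ℤ) ∣ N := by
  intro h1
  have h2 : p ∣ Nat.factorial 40 := by exact_mod_cast h1.trans h
  have h3 := ((Fact.out : p.Prime).dvd_factorial).1 h2
  omega

theorem ChkC_point (d g : ℕ) (S Q D N J K : List ℤ) (s m : ℤ)
    (h1 : ChkC_ev s (d - g - 1) Q = 0) (h2 : ChkC_ev s d S = 2 * m)
    (h3 : ChkC_ev s (d + 1) N = m ^ 2) :
    MD.Point ⟨d, g, pl S, pl Q, pl D, pl N, pl J, pl K⟩ s m :=
  ⟨by rw [ChkC_hev]; exact h1, by rw [ChkC_hev]; exact h2, by rw [ChkC_hev]; exact h3⟩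

theorem ChkC_good (p : ℕ) [Fact p.Prime] (hp : 40 < p) (d g : ℕ) (S Q D N J K : List ℤ) (s m : ℤ)
    (hm : ¬ (p : ℤ) ∣ m) (h1 : s ∣ ((Nat.factorial 40 : ℕ) : ℤ))
    (h2 : ChkC_ev s (2 * g + 2) D ∣ ((Nat.factorial 40 : ℕ) : ℤ))
    (h3 : ChkC_ev s (d - g - 1) (ChkC_D 0 Q) ∣ ((Nat.factorial 40 : ℕ) : ℤ)) :
    MD.Good ⟨d, g, pl S, pl Q, pl D, pl N, pl J, pl K⟩ s m p :=
  ⟨ChkC_small p hp _ h1, hm, by rw [ChkC_hev]; exact ChkC_small p hp _ h2,
    by rw [ChkC_hevD]; exact ChkC_small p hp _ h3⟩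

theorem M3_pt1 : M3.Point (-10) 256 :=
  ChkC_point _ _ _ _ _ _ _ _ _ _ (by decide +kernel) (by decide +kernel) (by decide +kernel)

theorem M3_pt2 : M3.Point 6 (-1024) :=
  ChkC_point _ _ _ _ _ _ _ _ _ _ (by decide +kernel) (by decide +kernel) (by decide +kernel)

theorem M11_pt1 : M11.Point (-4) 20736 :=
  ChkC_point _ _ _ _ _ _ _ _ _ _ (by decide +kernel) (by decide +kernel) (by decide +kernel)

theorem M11_pt2 : M11.Point 2 (-82944) :=
  ChkC_point _ _ _ _ _ _ _ _ _ _ (by decide +kernel) (by decide +kernel) (by decide +kernel)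

theorem M11_pt3 : M11.Point 4 614656 :=
  ChkC_point _ _ _ _ _ _ _ _ _ _ (by decide +kernel) (by decide +kernel) (by decide +kernel)

theorem M11_pt4 : M11.Point (-1) 81 :=
  ChkC_point _ _ _ _ _ _ _ _ _ _ (by decide +kernel) (by decide +kernel) (by decide +kernel)

theorem M11_pt5 : M11.Point (-3) (-3969) :=
  ChkC_point _ _ _ _ _ _ _ _ _ _ (by decide +kernel) (by decide +kernel) (by decide +kernel)

theorem M13_pt1 : M13.Point (-3) (-12288) :=
  ChkC_point _ _ _ _ _ _ _ _ _ _ (by decide +kernel) (by decide +kernel) (by decide +kernel)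

theorem M13_pt2 : M13.Point (-2) 648 :=
  ChkC_point _ _ _ _ _ _ _ _ _ _ (by decide +kernel) (by decide +kernel) (by decide +kernel)

theorem M13_pt3 : M13.Point 5 (-6635520) :=
  ChkC_point _ _ _ _ _ _ _ _ _ _ (by decide +kernel) (by decide +kernel) (by decide +kernel)

theorem M13_pt4 : M13.Point 4 2509056 :=
  ChkC_point _ _ _ _ _ _ _ _ _ _ (by decide +kernel) (by decide +kernel) (by decide +kernel)

theorem M13_pt5 : M13.Point (-1) (-144) :=
  ChkC_point _ _ _ _ _ _ _ _ _ _ (by decide +kernel) (by decide +kernel) (by decide +kernel)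

theorem M31_pt1 : M31.Point 2 (-199148544) :=
  ChkC_point _ _ _ _ _ _ _ _ _ _ (by decide +kernel) (by decide +kernel) (by decide +kernel)

theorem M31_pt2 : M31.Point 3 24591257856 :=
  ChkC_point _ _ _ _ _ _ _ _ _ _ (by decide +kernel) (by decide +kernel) (by decide +kernel)

theorem M31_pt3 : M31.Point (-1) 2304 :=
  ChkC_point _ _ _ _ _ _ _ _ _ _ (by decide +kernel) (by decide +kernel) (by decide +kernel)

theorem M3_good (p : ℕ) [Fact p.Prime] (hp : 40 < p) (s m : ℤ)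
    (h : (s, m) ∈ [((-10 : ℤ), (256 : ℤ)), (6, -1024)]) (hm : ¬ (p : ℤ) ∣ m) : M3.Good s m p := by
  simp only [List.mem_cons, List.not_mem_nil, or_false, Prod.mk.injEq] at h
  rcases h with ⟨rfl, rfl⟩ | ⟨rfl, rfl⟩ <;>
    exact ChkC_good p hp _ _ _ _ _ _ _ _ _ _ hm (by decide +kernel) (by decide +kernel)
      (by decide +kernel)

theorem M11_good (p : ℕ) [Fact p.Prime] (hp : 40 < p) (s m : ℤ)
    (h : (s, m) ∈ [((-4 : ℤ), (20736 : ℤ)), (2, -82944), (4, 614656), (-1, 81), (-3, -3969)])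
    (hm : ¬ (p : ℤ) ∣ m) : M11.Good s m p := by
  simp only [List.mem_cons, List.not_mem_nil, or_false, Prod.mk.injEq] at h
  rcases h with ⟨rfl, rfl⟩ | ⟨rfl, rfl⟩ | ⟨rfl, rfl⟩ | ⟨rfl, rfl⟩ | ⟨rfl, rfl⟩ <;>
    exact ChkC_good p hp _ _ _ _ _ _ _ _ _ _ hm (by decide +kernel) (by decide +kernel)
      (by decide +kernel)

theorem M13_good (p : ℕ) [Fact p.Prime] (hp : 40 < p) (s m : ℤ)
    (h : (s, m) ∈ [((-3 : ℤ), (-12288 : ℤ)), (-2, 648), (5, -6635520), (4, 2509056), (-1, -144)])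
    (hm : ¬ (p : ℤ) ∣ m) : M13.Good s m p := by
  simp only [List.mem_cons, List.not_mem_nil, or_false, Prod.mk.injEq] at h
  rcases h with ⟨rfl, rfl⟩ | ⟨rfl, rfl⟩ | ⟨rfl, rfl⟩ | ⟨rfl, rfl⟩ | ⟨rfl, rfl⟩ <;>
    exact ChkC_good p hp _ _ _ _ _ _ _ _ _ _ hm (by decide +kernel) (by decide +kernel)
      (by decide +kernel)

theorem M31_good (p : ℕ) [Fact p.Prime] (hp : 40 < p) (s m : ℤ)
    (h : (s, m) ∈ [((2 : ℤ), (-199148544 : ℤ)), (3, 24591257856), (-1, 2304)])
    (hm : ¬ (p : ℤ) ∣ m) : M31.Good s m p := by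
  simp only [List.mem_cons, List.not_mem_nil, or_false, Prod.mk.injEq] at h
  rcases h with ⟨rfl, rfl⟩ | ⟨rfl, rfl⟩ | ⟨rfl, rfl⟩ <;>
    exact ChkC_good p hp _ _ _ _ _ _ _ _ _ _ hm (by decide +kernel) (by decide +kernel)
      (by decide +kernel)

end Pool.Agent.Lib_helper57.AP
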