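import Mathlib

/-!
Definitions for the proof of MP_a1c035_nt (sums of Apery polynomials at CM points mod p^2).
-/

namespace Pool.Agent.Lib_helper57.AP

open PowerSeries Finset

/-- `(4k)!/(k!)^4` -/
def bb (k : ℕ) : ℕ := (4 * k).choose (2 * k) * ((2 * k).choose k) ^ 2

/-- the harmonic number `H_n` in a field -/
def Hn (K : Type) [Field K] (n : ℕ) : K := ∑ j ∈ Ioc 0 n, ((j : K))⁻¹

/-- `4 (H_{4k} - H_k)` in a field -/
def hh (K : Type) [Field K] (k : ℕ) : K := 4 * ∑ j ∈ Ioc k (4 * k), ((j : K))⁻¹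

/-- theta = X d/dX on power series -/
noncomputable def th {R : Type} [CommRing R] (f : PowerSeries R) : PowerSeries R :=
  PowerSeries.mk fun n => (n : R) * coeff n f

/-- the map `f(X) ↦ f(X^p)` as a ring homomorphism -/
noncomputable def ph (p : ℕ) [Fact p.Prime] (R : Type) [CommRing R] :
    PowerSeries R →+* PowerSeries R :=
  (PowerSeries.expand p (Nat.Prime.ne_zero Fact.out) : PowerSeries R →ₐ[R] PowerSeries R).toRingHom

/-- composition `f(z(X))` (used only when `constantCoeff z = 0`) -/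
noncomputable def cmp {R : Type} [CommRing R] (f z : PowerSeries R) : PowerSeries R :=
  PowerSeries.subst z f

/-- an integer polynomial as a power series over `R` -/
noncomputable def cst (R : Type) [CommRing R] : Polynomial ℤ →+* PowerSeries R :=
  (Polynomial.coeToPowerSeries.ringHom (R := R)).comp (Polynomial.mapRingHom (Int.castRingHom R))

section char0

variable (K : Type) [Field K]

/-- `F = ∑ bb k X^k` -/
noncomputable def FF : PowerSeries K := PowerSeries.mk fun k => (bb k : K)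
/-- `∑ C(2k,k) 64^k X^k = (1-256X)^{-1/2}` -/
noncomputable def CB : PowerSeries K := PowerSeries.mk fun k => ((Nat.centralBinom k * 64 ^ k : ℕ) : K)
/-- `G = ∑ bb k hh k X^k` -/
noncomputable def GG : PowerSeries K := PowerSeries.mk fun k => (bb k : K) * hh K k
/-- `W = CB / F` -/
noncomputable def WW : PowerSeries K := CB K * (FF K)⁻¹
/-- `E = G / F` -/
noncomputable def EE : PowerSeries K := GG K * (FF K)⁻¹

end char0

section padic

variable {p : ℕ} [Fact p.Prime]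

/-- `x ∈ p^j ℤ_p` -/
def PI (j : ℕ) (x : ℚ_[p]) : Prop := ‖x‖ ≤ (p : ℝ) ^ (-(j : ℤ))

/-- the coefficients of index `< T` of `f` are in `p^j ℤ_p` -/
def PO (j T : ℕ) (f : PowerSeries ℚ_[p]) : Prop := ∀ n < T, PI j (coeff n f)

end padic

/-- `FF` truncated at `p` -/
noncomputable def FT (p : ℕ) [Fact p.Prime] : PowerSeries ℚ_[p] :=
  PowerSeries.mk fun k => if k < p then (bb k : ℚ_[p]) else 0
/-- `GG` truncated at `p` -/
noncomputable def GT (p : ℕ) [Fact p.Prime] : PowerSeries ℚ_[p] :=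
  PowerSeries.mk fun k => if k < p then (bb k : ℚ_[p]) * hh ℚ_[p] k else 0
/-- `GT/FT` -/
noncomputable def RR (p : ℕ) [Fact p.Prime] : PowerSeries ℚ_[p] := GT p * (FT p)⁻¹

/-- `ceil(p/4)` -/
def nz (p : ℕ) : ℕ := (p + 3) / 4
/-- the truncation order -/
def T0 (p : ℕ) : ℕ := p * nz p

/-- `bb k * hh k` mod `p` for `k ≤ (p-1)/2` -/
def gz (p : ℕ) (k : ℕ) : ZMod p :=
  if 4 * k < p then (bb k : ZMod p) * (4 * ∑ j ∈ Ioc k (4 * k), ((j : ZMod p))⁻¹)
  else 4 * ((bb k / p : ℕ) : ZMod p)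

/-- an integer lift of `gz` -/
def gl (p : ℕ) (k : ℕ) : ℕ := (gz p k).val

/-- Fermat quotient `(m^{p-1}-1)/p` mod `p` -/
def fq (p : ℕ) (m : ℤ) : ZMod p := (((m ^ (p - 1) - 1) / (p : ℤ) : ℤ) : ZMod p)

/-- the key congruence -/
def Star (p : ℕ) (m : ℤ) : Prop :=
  ∑ k ∈ range ((p - 1) / 2 + 1), gz p k * ((m : ZMod p)⁻¹) ^ k =
    fq p m * ∑ k ∈ range ((p - 1) / 2 + 1), (bb k : ZMod p) * ((m : ZMod p)⁻¹) ^ k

/-- the Apery polynomial -/
def AA (n : ℕ) (x : ℚ) : ℚ :=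
  ∑ k ∈ range (n + 1), ((n.choose k : ℚ)) ^ 2 * (((n + k).choose k : ℚ)) ^ 2 * x ^ k

/-- modular equation data -/
structure MD where
  d : ℕ
  g : ℕ
  S : Polynomial ℤ
  Q : Polynomial ℤ
  D : Polynomial ℤ
  N : Polynomial ℤ
  Jn : Polynomial ℤ
  Jd : Polynomial ℤ

/-- `P = S + Q Y` -/
noncomputable def PP (M : MD) {R : Type} [CommRing R] (Y : PowerSeries R) : PowerSeries R :=
  cst R M.S + cst R M.Q * Y

/-- `f ↦ 2 (Y θf - d Y f)` -/
noncomputable def stp (d : ℕ) {R : Type} [CommRing R] (Y f : PowerSeries R) : PowerSeries R :=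
  2 * (Y * th f - (d : PowerSeries R) * Y * f)

/-- the differential identity encoding the modular equation of degree `d` -/
def ModEq (M : MD) : Prop :=
  ∀ (R : Type) [CommRing R] (Y : PowerSeries R), Y ^ 2 = cst R M.D →
    let P := PP M Y
    let P1 := stp M.d Y P
    let P2 := stp M.d Y P1
    let P3 := stp M.d Y P2
    cst R M.Jd * (P ^ 2 * (P - 512 * X ^ M.d) ^ 2 * (2 * P3 * P1 - 3 * P2 ^ 2)
        + P1 ^ 4 * (P ^ 2 - 608 * X ^ M.d * P + 245760 * X ^ (2 * M.d)))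
      = 8 * cst R M.Jn * P ^ 2 * (P - 512 * X ^ M.d) ^ 2 * P1 ^ 2

structure MD.Valid (M : MD) : Prop where
  hd : 2 ≤ M.d
  rel : M.S ^ 2 - M.Q ^ 2 * M.D = 4 * Polynomial.X ^ (M.d - 1) * M.N
  S0 : M.S.coeff 0 = 1
  Q0 : M.Q.coeff 0 = 1
  D0 : M.D.coeff 0 = 1
  N0 : M.N.coeff 0 = 1
  Jn0 : M.Jn.coeff 0 = 0
  Jd0 : M.Jd.coeff 0 ≠ 0
  degS : M.S.natDegree ≤ M.d
  degQ : M.Q.natDegree + (M.g + 1) ≤ M.d
  degD : M.D.natDegree ≤ 2 * M.g + 2
  degN : M.N.natDegree ≤ M.d + 1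
  meq : ModEq M

/-- homogenized evaluation `s^n f(1/s)` -/
noncomputable def hev (n : ℕ) (f : Polynomial ℤ) (s : ℤ) : ℤ :=
  ∑ i ∈ range (n + 1), f.coeff i * s ^ (n - i)

/-- `m = 256 x` is the value at a CM point `u = 1/s` -/
structure MD.Point (M : MD) (s m : ℤ) : Prop where
  hQ : hev (M.d - M.g - 1) M.Q s = 0
  hS : hev M.d M.S s = 2 * m
  hN : hev (M.d + 1) M.N s = m ^ 2

/-- units needed at the point -/
structure MD.Good (M : MD) (s m : ℤ) (p : ℕ) : Prop where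
  hs : ¬ (p : ℤ) ∣ s
  hm : ¬ (p : ℤ) ∣ m
  hD : ¬ (p : ℤ) ∣ hev (2 * M.g + 2) M.D s
  hQ : ¬ (p : ℤ) ∣ hev (M.d - M.g - 1) (Polynomial.X * Polynomial.derivative M.Q) s

/-- the size condition -/
def MD.Big (M : MD) (p : ℕ) : Prop := 4 * (4 * M.g + 4 + 2 * M.d) + 3 * (M.d + 1) ≤ 4 * nz p

/-- product of the `j ≤ n` prime to `p` -/
def UU (p n : ℕ) : ℕ := ∏ j ∈ (Ioc 0 n).filter (fun j => ¬ p ∣ j), j

/-- sum of the inverses of the `j ≤ n` prime to `p` -/
noncomputable def HU (p : ℕ) [Fact p.Prime] (n : ℕ) : ℚ_[p] :=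
  ∑ j ∈ (Ioc 0 n).filter (fun j => ¬ p ∣ j), ((j : ℚ_[p]))⁻¹

/-- the differential equation of `Z7` -/
def SE {K : Type} [Field K] (Y Jn Jd V : PowerSeries K) : Prop :=
  Jd * (2 * V * (Y * th (Y * th V)) - 3 * (Y * th V) ^ 2) = 2 * Jn * V ^ 2

/-- homogeneous form of `∑_{k ≤ p/4} bb k X^k` -/
def FH (p : ℕ) {A : Type} [CommRing A] (a b : A) : A :=
  ∑ k ∈ range (p / 4 + 1), (bb k : A) * a ^ k * b ^ (p / 4 - k)

/-- homogeneous form of `∑_{k ≤ (p-1)/2} gl k X^k` -/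
def GH (p : ℕ) {A : Type} [CommRing A] (a b : A) : A :=
  ∑ k ∈ range ((p - 1) / 2 + 1), (gl p k : A) * a ^ k * b ^ ((p - 1) / 2 - k)

/-- `∑_{k ≤ p/4} bb k X^k` in `ℤ[X]` -/
noncomputable def FlZ (p : ℕ) : Polynomial ℤ :=
  ∑ k ∈ range (p / 4 + 1), Polynomial.C (bb k : ℤ) * Polynomial.X ^ k

/-- `∑_{k ≤ (p-1)/2} gl k X^k` in `ℤ[X]` -/
noncomputable def GlZ (p : ℕ) : Polynomial ℤ :=
  ∑ k ∈ range ((p - 1) / 2 + 1), Polynomial.C (gl p k : ℤ) * Polynomial.X ^ k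

/-- one side of the functional equation, as a power series -/
noncomputable def ThetaS (M : MD) (p : ℕ) [Fact p.Prime] {R : Type} [CommRing R]
    (Y : PowerSeries R) : PowerSeries R :=
  ((p : PowerSeries R) * GH p (X * PP M Y) (2 * cst R M.N) * (PP M (-Y)) ^ p
      + (2 ^ (p - 1) * ph p R (PP M (-Y)) - (PP M (-Y)) ^ p)
        * (2 * cst R M.N) ^ ((p - 1) / 2 - p / 4) * FH p (X * PP M Y) (2 * cst R M.N))
    * FH p (X * PP M (-Y)) (2 * cst R M.N)
    * ((M.d : PowerSeries R) * PP M Y - th (PP M Y)) ^ p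

/-- the quantities entering `Theta`, in an arbitrary ring -/
structure Dat (A : Type) where
  x : A
  y : A
  S : A
  Q : A
  D : A
  N : A
  tS : A
  tQ : A
  tD : A
  Sf : A
  Qf : A
  Df : A

/-- the polynomial form of one side of the functional equation -/
def Theta (p d : ℕ) {A : Type} [CommRing A] (t : Dat A) : A :=
  (2 * (p : A) * t.D ^ p * GH p (t.x * (t.S + t.Q * t.y)) (2 * t.N) * (t.S - t.Q * t.y) ^ p
      + (2 ^ (p - 1) * (2 * t.D ^ p * t.Sf - t.Qf * t.y ^ p * (t.D ^ p + t.Df))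
          - 2 * t.D ^ p * (t.S - t.Q * t.y) ^ p)
        * (2 * t.N) ^ ((p - 1) / 2 - p / 4) * FH p (t.x * (t.S + t.Q * t.y)) (2 * t.N))
    * FH p (t.x * (t.S - t.Q * t.y)) (2 * t.N)
    * (2 * t.D * ((d : A) * t.S - t.tS)
        + (2 * t.D * ((d : A) * t.Q - t.tQ) - t.Q * t.tD) * t.y) ^ p

/-- the data in the power series ring -/
noncomputable def datPS (M : MD) (p : ℕ) {R : Type} [CommRing R] (Y : PowerSeries R) :
    Dat (PowerSeries R) where
  x := X
  y := Y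
  S := cst R M.S
  Q := cst R M.Q
  D := cst R M.D
  N := cst R M.N
  tS := cst R (Polynomial.X * Polynomial.derivative M.S)
  tQ := cst R (Polynomial.X * Polynomial.derivative M.Q)
  tD := cst R (Polynomial.X * Polynomial.derivative M.D)
  Sf := cst R (Polynomial.expand ℤ p M.S)
  Qf := cst R (Polynomial.expand ℤ p M.Q)
  Df := cst R (Polynomial.expand ℤ p M.D)

/-- reduction of an integer polynomial -/
noncomputable def red (R : Type) [CommRing R] : Polynomial ℤ →+* Polynomial R :=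
  Polynomial.mapRingHom (Int.castRingHom R)

/-- `R[X][Y]/(Y^2-D)` -/
abbrev QR (M : MD) (R : Type) [CommRing R] : Type := QuadraticAlgebra (Polynomial R) (red R M.D) 0

/-- the data in `R[X][Y]/(Y^2-D)` -/
noncomputable def datQ (M : MD) (p : ℕ) (R : Type) [CommRing R] : Dat (QR M R) where
  x := ⟨Polynomial.X, 0⟩
  y := ⟨0, 1⟩
  S := ⟨red R M.S, 0⟩
  Q := ⟨red R M.Q, 0⟩
  D := ⟨red R M.D, 0⟩
  N := ⟨red R M.N, 0⟩
  tS := ⟨red R (Polynomial.X * Polynomial.derivative M.S), 0⟩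
  tQ := ⟨red R (Polynomial.X * Polynomial.derivative M.Q), 0⟩
  tD := ⟨red R (Polynomial.X * Polynomial.derivative M.D), 0⟩
  Sf := ⟨red R (Polynomial.expand ℤ p M.S), 0⟩
  Qf := ⟨red R (Polynomial.expand ℤ p M.Q), 0⟩
  Df := ⟨red R (Polynomial.expand ℤ p M.D), 0⟩

/-- polynomial from its list of coefficients (constant term first) -/
noncomputable def pl : List ℤ → Polynomial ℤ
  | [] => 0
  | a :: l => Polynomial.C a + Polynomial.X * pl l

end Pool.Agent.Lib_helper57.AP
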