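import Pool.Agent.Lib_helper57.AP.ThApi

/-! Block Z7: uniqueness of power series solutions of
`Jd (2 V vt²V - 3 (vt V)²) = 2 Jn V²`, `vt f = Y θ f`, up to a constant factor.
Put `A = C c2 * V1`, `B = C c1 * V2` (same nonzero constant coefficient, both satisfy SE by homogeneity).
If `A ≡ B mod X^n` (`n ≥ 1`), compare coefficient `n` of the two equations: all terms agree except
`Jd(0) * 2 c * n² * (coeff n A - coeff n B)`, so `A ≡ B mod X^(n+1)`. -/

namespace Pool.Agent.Lib_helper57.AP

open PowerSeries Finset

variable {K : Type} [Field K] [CharZero K]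

omit [CharZero K] in
theorem Z7_coeff {n : ℕ} (f g : PowerSeries K) (hg : X ^ n ∣ g) :
    coeff n (f * g) = constantCoeff f * coeff n g := by
  obtain ⟨h, rfl⟩ := hg
  rw [mul_left_comm, coeff_X_pow_mul', if_pos le_rfl, Nat.sub_self, coeff_X_pow_mul',
    if_pos le_rfl, Nat.sub_self, coeff_zero_eq_constantCoeff_apply,
    coeff_zero_eq_constantCoeff_apply, map_mul]

omit [CharZero K] in
theorem Z7_th {n : ℕ} {g : PowerSeries K} (hg : X ^ n ∣ g) : X ^ n ∣ th g := by
  rw [X_pow_dvd_iff] at hg ⊢
  intro m hm
  rw [coeff_th, hg m hm, mul_zero]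

omit [CharZero K] in
theorem Z7_scale (Y Jn Jd V : PowerSeries K) (a : K) (h : SE Y Jn Jd V) :
    SE Y Jn Jd (C a * V) := by
  unfold SE at h ⊢
  have h1 : Y * th (C a * V) = C a * (Y * th V) := by rw [th_C_mul]; ring
  rw [h1, th_C_mul]
  linear_combination (C a) ^ 2 * h

theorem Z7 (Y Jn Jd V1 V2 : PowerSeries K) (hY : constantCoeff Y = 1)
    (hJn : constantCoeff Jn = 0) (hJd : constantCoeff Jd ≠ 0)
    (h1 : SE Y Jn Jd V1) (h2 : SE Y Jn Jd V2)
    (c1 : constantCoeff V1 ≠ 0) (c2 : constantCoeff V2 ≠ 0) :
    C (constantCoeff V2) * V1 = C (constantCoeff V1) * V2 := by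
  have hA := Z7_scale Y Jn Jd V1 (constantCoeff V2) h1
  have hB := Z7_scale Y Jn Jd V2 (constantCoeff V1) h2
  set A := C (constantCoeff V2) * V1 with hAdef
  set B := C (constantCoeff V1) * V2 with hBdef
  have hA0 : constantCoeff A = constantCoeff V1 * constantCoeff V2 := by
    rw [hAdef, map_mul, constantCoeff_C, mul_comm]
  have hB0 : constantCoeff B = constantCoeff V1 * constantCoeff V2 := by
    rw [hBdef, map_mul, constantCoeff_C]
  obtain ⟨D, hD⟩ : ∃ D, D = A - B := ⟨_, rfl⟩
  have key : Jd * (2 * B * (Y * th (Y * th D))) =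
      2 * Jn * (A + B) * D - Jd * (2 * (Y * th (Y * th A))) * D +
        Jd * (3 * (Y * th A + Y * th B)) * (Y * th D) := by
    have e1 : Y * th D = Y * th A - Y * th B := by rw [hD, th_sub]; ring
    have e2 : Y * th (Y * th D) = Y * th (Y * th A) - Y * th (Y * th B) := by
      rw [e1, th_sub]; ring
    unfold SE at hA hB
    rw [e2, e1, hD]
    linear_combination hA - hB
  have hz : ∀ f : PowerSeries K, constantCoeff (Y * th f) = 0 := by
    intro f
    rw [map_mul, constantCoeff_th, mul_zero]
  have hind : ∀ n : ℕ, X ^ n ∣ D := by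
    intro n
    induction n with
    | zero => simp
    | succ n ih =>
      have hn : coeff n D = 0 := by
        rcases Nat.eq_zero_or_pos n with h0 | h0
        · subst h0
          rw [coeff_zero_eq_constantCoeff_apply, hD, map_sub, hA0, hB0, sub_self]
        · have i1 : X ^ n ∣ Y * th D := dvd_mul_of_dvd_right (Z7_th ih) _
          have i2 : X ^ n ∣ Y * th (Y * th D) := dvd_mul_of_dvd_right (Z7_th i1) _
          have k1 : coeff n (Y * th D) = n * coeff n D := by
            rw [Z7_coeff _ _ (Z7_th ih), hY, one_mul, coeff_th]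
          have k2 : coeff n (Y * th (Y * th D)) = n * (n * coeff n D) := by
            rw [Z7_coeff _ _ (Z7_th i1), hY, one_mul, coeff_th, k1]
          have h3 := congrArg (coeff n) key
          rw [← mul_assoc Jd (2 * B), map_add, map_sub, Z7_coeff _ _ i2, Z7_coeff _ _ ih,
            Z7_coeff _ _ ih, Z7_coeff _ _ i1, k1, k2] at h3
          simp only [map_mul, map_add, hJn, hz, hB0] at h3
          have h4 : constantCoeff Jd * (constantCoeff (2 : PowerSeries K) *
              (constantCoeff V1 * constantCoeff V2)) * ((n : K) * (n * coeff n D)) = 0 := by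
            rw [h3]; ring
          have h5 : (constantCoeff (2 : PowerSeries K)) = (2 : K) := map_ofNat _ 2
          rw [h5] at h4
          have h6 : (n : K) ≠ 0 := by exact_mod_cast h0.ne'
          have h7 : (2 : K) ≠ 0 := two_ne_zero
          rcases mul_eq_zero.1 h4 with h8 | h8
          · exact absurd h8 (mul_ne_zero hJd (mul_ne_zero h7 (mul_ne_zero c1 c2)))
          · rcases mul_eq_zero.1 h8 with h9 | h9
            · exact absurd h9 h6
            · rcases mul_eq_zero.1 h9 with h10 | h10
              · exact absurd h10 h6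
              · exact h10
      rw [X_pow_dvd_iff] at ih ⊢
      intro m hm
      rcases Nat.lt_succ_iff_lt_or_eq.1 hm with h | h
      · exact ih m h
      · rw [h, hn]
  have hD0 : D = 0 := by
    ext n
    have := hind (n + 1)
    rw [X_pow_dvd_iff] at this
    rw [this n (Nat.lt_succ_self n), map_zero]
  rw [hD, sub_eq_zero] at hD0
  exact hD0

end Pool.Agent.Lib_helper57.AP
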