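import Pool.Agent.Lib_helper57.AP.CmpApi

/-! Block Z8a: from the identity `ModEq` to the differential equation of `μ`.
With `P = PP M Y`, `z P = 2 X^d`, `μ P = d Y P - Y θP`:
`P1 = -2 μ P`, `P2 = -4 P (vt μ - μ²)`, `P3 = -8 P (vt²μ - 3 μ vt μ + μ³)`,
`2 P3 P1 - 3 P2² = 16 P² (2 μ vt²μ - 3 (vt μ)² - μ⁴)`, `P - 512 X^d = P (1 - 256 z)`,
`P² - 608 X^d P + 245760 X^{2d} = P² (1 - 304 z + 61440 z²)`; cancel `16 P^6`. -/

namespace Pool.Agent.Lib_helper57.AP

open PowerSeries Finset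

variable {K : Type} [Field K] [CharZero K]

theorem Z8z (M : MD) (Y z μ : PowerSeries K) (hP : PP M Y ≠ 0)
    (hz : PP M Y * z = 2 * X ^ M.d)
    (hμ : μ * PP M Y = (M.d : PowerSeries K) * Y * PP M Y - Y * th (PP M Y)) :
    Y * th z = μ * z := by
  generalize PP M Y = P at *
  have h1 : th (P * z) = th (2 * X ^ M.d) := by rw [hz]
  rw [th_mul, th_ofNat_mul, th_X_pow] at h1
  apply mul_left_cancel₀ hP
  linear_combination Y * h1 - (M.d : PowerSeries K) * Y * hz - z * hμ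

theorem Z8a (M : MD) (hM : ModEq M) (Y z μ : PowerSeries K) (hY : Y ^ 2 = cst K M.D)
    (hP : PP M Y ≠ 0) (hz : PP M Y * z = 2 * X ^ M.d)
    (hμ : μ * PP M Y = (M.d : PowerSeries K) * Y * PP M Y - Y * th (PP M Y)) :
    cst K M.Jd * (1 - 256 * z) ^ 2 * (2 * μ * (Y * th (Y * th μ)) - 3 * (Y * th μ) ^ 2)
        + 2 * cst K M.Jd * (104 * z - 2048 * z ^ 2) * μ ^ 4
      = 2 * cst K M.Jn * (1 - 256 * z) ^ 2 * μ ^ 2 := by
  have h := hM K Y hY
  simp only at h
  generalize PP M Y = P at *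
  have e1 : stp M.d Y P = -2 * (μ * P) := by
    rw [stp, hμ]; ring
  have e2 : stp M.d Y (stp M.d Y P) = -4 * (P * (Y * th μ - μ ^ 2)) := by
    rw [e1, stp]
    have : th (-2 * (μ * P)) = -2 * (th μ * P + μ * th P) := by
      rw [neg_mul, th_neg, th_ofNat_mul, th_mul]; ring
    rw [this]
    linear_combination -4 * μ * hμ
  have e3 : stp M.d Y (stp M.d Y (stp M.d Y P)) =
      -8 * (P * (Y * th (Y * th μ) - 3 * μ * (Y * th μ) + μ ^ 3)) := by
    rw [e2, stp]
    have : th (-4 * (P * (Y * th μ - μ ^ 2))) =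
        -4 * (th P * (Y * th μ - μ ^ 2) + P * (th (Y * th μ) - 2 * μ * th μ)) := by
      rw [neg_mul, th_neg, th_ofNat_mul, th_mul P, th_sub, th_pow]
      simp only [Nat.cast_ofNat, Nat.add_one_sub_one, pow_one]
      ring
    rw [this]
    generalize th (Y * th μ) = m2 at *
    linear_combination -8 * (Y * th μ - μ ^ 2) * hμ
  rw [e3, e2, e1] at h
  generalize Y * th (Y * th μ) = m2 at *
  generalize Y * th μ = m1 at *
  have hX : (X : PowerSeries K) ^ (2 * M.d) = (X ^ M.d) ^ 2 := by rw [mul_comm, pow_mul]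
  rw [hX] at h
  generalize (X : PowerSeries K) ^ M.d = x at *
  have hA : P - 512 * x = P * (1 - 256 * z) := by linear_combination 256 * hz
  have hB : P ^ 2 - 608 * x * P + 245760 * x ^ 2 = P ^ 2 * (1 - 304 * z + 61440 * z ^ 2) := by
    linear_combination (304 * P - 61440 * (P * z + 2 * x)) * hz
  rw [hA, hB] at h
  have h16 : (16 * P ^ 6 : PowerSeries K) ≠ 0 := by
    refine mul_ne_zero ?_ (pow_ne_zero _ hP)
    intro h0
    have h1 := congrArg (constantCoeff (R := K)) h0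
    rw [map_ofNat, map_zero] at h1
    exact (by norm_num : (16 : K) ≠ 0) h1
  apply mul_left_cancel₀ h16
  linear_combination h

end Pool.Agent.Lib_helper57.AP
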