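import Pool.Agent.Lib_helper57.AP.Z6
import Pool.Agent.Lib_helper57.AP.Z7
import Pool.Agent.Lib_helper57.AP.Z8a

/-! Block Z8: `l2 W(z2) = d l1 W(z1)`, `l_i = θ z_i / z_i`. -/

namespace Pool.Agent.Lib_helper57.AP

open PowerSeries Finset

variable {K : Type} [Field K] [CharZero K]

theorem Z8_two : (2 : PowerSeries K) ≠ 0 := by
  intro h
  have h1 := congrArg (constantCoeff (R := K)) h
  rw [map_ofNat, map_zero] at h1
  exact two_ne_zero h1

/-- the logarithmic derivative -/
theorem Z8_log {P z l : PowerSeries K} {d : ℕ} (hz : P * z = 2 * X ^ d) (hl : l * z = th z) :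
    l * P = (d : PowerSeries K) * P - th P := by
  have hX : (2 : PowerSeries K) * X ^ d ≠ 0 := by
    apply mul_ne_zero
    · exact Z8_two
    · exact pow_ne_zero _ X_ne_zero
  have hz0 : z ≠ 0 := by
    rintro rfl
    rw [mul_zero] at hz
    exact hX hz.symm
  have h1 : th P * z + P * th z = 2 * ((d : PowerSeries K) * X ^ d) := by
    rw [← th_mul, hz, th_ofNat_mul, th_X_pow]
  have h2 : (l * P) * z = ((d : PowerSeries K) * P - th P) * z := by
    rw [← hl] at h1
    linear_combination h1 - (d : PowerSeries K) * hz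
  exact mul_right_cancel₀ hz0 h2

/-- the differential equation -/
theorem Z8_SE (M : MD) (hM : ModEq M) {Y z l : PowerSeries K} (hY : Y ^ 2 = cst K M.D)
    (hz : PP M Y * z = 2 * X ^ M.d) (hl : l * z = th z) (hz0 : constantCoeff z = 0)
    (hμ0 : Y * l ≠ 0) :
    SE Y (cst K M.Jn) (cst K M.Jd) (Y * l * cmp (WW K) z) := by
  have hX : (2 : PowerSeries K) * X ^ M.d ≠ 0 := by
    apply mul_ne_zero
    · exact Z8_two
    · exact pow_ne_zero _ X_ne_zero
  have hP : PP M Y ≠ 0 := by
    intro h
    rw [h, zero_mul] at hz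
    exact hX hz.symm
  have hlog := Z8_log hz hl
  have hμ : (Y * l) * PP M Y = (M.d : PowerSeries K) * Y * PP M Y - Y * th (PP M Y) := by
    linear_combination Y * hlog
  have h1 := Z8a M hM Y z (Y * l) hY hP hz hμ
  have hzz : Y * th z = (Y * l) * z := by rw [← hl]; ring
  have h2 := Z6 Y (Y * l) z hz0 hzz (Y * l * cmp (WW K) z) rfl
  unfold SE
  generalize Y * l * cmp (WW K) z = V at *
  generalize Y * l = μ at *
  have h3 : (1 - 256 * z) ^ 2 * μ ^ 2 ≠ 0 := by
    apply mul_ne_zero
    · apply pow_ne_zero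
      intro h
      have := congrArg (constantCoeff (R := K)) h
      rw [map_sub, map_mul, hz0, mul_zero, map_one, map_zero, sub_zero] at this
      exact one_ne_zero this
    · exact pow_ne_zero _ hμ0
  apply mul_left_cancel₀ h3
  linear_combination cst K M.Jd * h2 + V ^ 2 * h1

theorem Z8 (M : MD) (hM : M.Valid) (Y z1 z2 l1 l2 : PowerSeries K)
    (hY : Y ^ 2 = cst K M.D) (hY0 : constantCoeff Y = 1)
    (hz2 : PP M Y * z2 = 2 * X ^ M.d) (hz1 : 2 * cst K M.N * z1 = X * PP M Y)
    (hl2 : l2 * z2 = th z2) (hl1 : l1 * z1 = th z1) :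
    l2 * cmp (WW K) z2 = (M.d : PowerSeries K) * l1 * cmp (WW K) z1 := by
  have hd := hM.hd
  have h2 : (2 : K) ≠ 0 := two_ne_zero
  have cS : constantCoeff (cst K M.S) = 1 := by rw [constantCoeff_cst, hM.S0, Int.cast_one]
  have cQ : constantCoeff (cst K M.Q) = 1 := by rw [constantCoeff_cst, hM.Q0, Int.cast_one]
  have cN : constantCoeff (cst K M.N) = 1 := by rw [constantCoeff_cst, hM.N0, Int.cast_one]
  have cP : constantCoeff (PP M Y) = 2 := by
    unfold PP
    rw [map_add, map_mul, cS, cQ, hY0]
    norm_num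
  have c2 : constantCoeff (2 : PowerSeries K) = 2 := map_ofNat _ 2
  -- the conjugate
  have hY' : (-Y) ^ 2 = cst K M.D := by rw [neg_sq, hY]
  have hPP : PP M Y * PP M (-Y) = 4 * X ^ (M.d - 1) * cst K M.N := by
    have h := congrArg (cst K) hM.rel
    have e4 : cst K (4 : Polynomial ℤ) = 4 := map_ofNat _ 4
    rw [map_sub, map_mul, map_pow, map_pow, map_mul, map_mul, map_pow, cst_X, e4] at h
    unfold PP
    linear_combination h - (cst K M.Q) ^ 2 * hY
  have hN0 : cst K M.N ≠ 0 := by
    intro h
    rw [h, map_zero] at cN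
    exact zero_ne_one cN
  have hz1' : PP M (-Y) * z1 = 2 * X ^ M.d := by
    have hne : 2 * cst K M.N ≠ 0 := mul_ne_zero Z8_two hN0
    apply mul_left_cancel₀ hne
    have hXd : (X : PowerSeries K) ^ M.d = X * X ^ (M.d - 1) := by
      rw [← pow_succ']
      congr 1
      omega
    rw [hXd]
    linear_combination PP M (-Y) * hz1 + X * hPP
  -- constant coefficients of z
  have z20 : constantCoeff z2 = 0 := by
    have h := congrArg (constantCoeff (R := K)) hz2
    rw [map_mul, cP, map_mul, map_pow, constantCoeff_X, zero_pow (by omega), mul_zero] at h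
    exact (mul_eq_zero.1 h).resolve_left h2
  have z10 : constantCoeff z1 = 0 := by
    have h := congrArg (constantCoeff (R := K)) hz1
    rw [map_mul, map_mul, cN, c2, map_mul, constantCoeff_X, zero_mul, mul_one] at h
    exact (mul_eq_zero.1 h).resolve_left h2
  -- constant coefficients of l
  have l20 : constantCoeff l2 = (M.d : K) := by
    have h := congrArg (constantCoeff (R := K)) (Z8_log hz2 hl2)
    rw [map_mul, map_sub, map_mul, cP, constantCoeff_th, sub_zero, map_natCast] at h
    exact mul_right_cancel₀ h2 h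
  have l10 : constantCoeff l1 = 1 := by
    have e1 : 2 * th (cst K M.N) * z1 + 2 * cst K M.N * th z1 = X * PP M Y + X * th (PP M Y) := by
      have h := congrArg th hz1
      rw [th_mul (2 * cst K M.N) z1, th_mul X (PP M Y), th_X, th_ofNat_mul] at h
      exact h
    rw [← hl1] at e1
    have e2 : X * (PP M Y * (2 * th (cst K M.N) + 2 * cst K M.N * l1)) =
        X * (2 * cst K M.N * (PP M Y + th (PP M Y))) := by
      linear_combination 2 * cst K M.N * e1 -
        (2 * th (cst K M.N) + 2 * cst K M.N * l1) * hz1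
    have e3 := mul_left_cancel₀ X_ne_zero e2
    have h := congrArg (constantCoeff (R := K)) e3
    rw [map_mul, map_add, map_mul, map_mul, map_mul, map_mul, map_mul, map_add, cP,
      constantCoeff_th, constantCoeff_th, c2, cN] at h
    have h4 : (4 : K) * constantCoeff l1 = 4 * 1 := by linear_combination h
    exact mul_left_cancel₀ (by norm_num) h4
  have hdK : (M.d : K) ≠ 0 := by
    have : M.d ≠ 0 := by omega
    exact_mod_cast this
  have m2 : Y * l2 ≠ 0 := by
    intro h
    have := congrArg (constantCoeff (R := K)) h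
    rw [map_mul, hY0, l20, map_zero, one_mul] at this
    exact hdK this
  have m1 : Y * l1 ≠ 0 := by
    intro h
    have := congrArg (constantCoeff (R := K)) h
    rw [map_mul, hY0, l10, map_zero, one_mul] at this
    exact one_ne_zero this
  have m1' : (-Y) * l1 ≠ 0 := by
    rw [neg_mul]
    exact neg_ne_zero.2 m1
  have s2 := Z8_SE M hM.meq hY hz2 hl2 z20 m2
  have s1' := Z8_SE M hM.meq hY' hz1' hl1 z10 m1'
  have s1 : SE Y (cst K M.Jn) (cst K M.Jd) (Y * l1 * cmp (WW K) z1) := by
    unfold SE at s1' ⊢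
    have e : -Y * l1 * cmp (WW K) z1 = -(Y * l1 * cmp (WW K) z1) := by ring
    rw [e] at s1'
    generalize Y * l1 * cmp (WW K) z1 = V at *
    have e1 : -Y * th (-V) = Y * th V := by rw [th_neg]; ring
    rw [e1] at s1'
    linear_combination s1'
  have cW : constantCoeff (WW K) = 1 := constantCoeff_WW
  have cV1 : constantCoeff (Y * l1 * cmp (WW K) z1) = 1 := by
    rw [map_mul, map_mul, hY0, l10, constantCoeff_cmp _ _ z10, cW]
    norm_num
  have cV2 : constantCoeff (Y * l2 * cmp (WW K) z2) = (M.d : K) := by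
    rw [map_mul, map_mul, hY0, l20, constantCoeff_cmp _ _ z20, cW]
    ring
  have h7 := Z7 Y (cst K M.Jn) (cst K M.Jd) (Y * l1 * cmp (WW K) z1) (Y * l2 * cmp (WW K) z2)
    hY0 (by rw [constantCoeff_cst, hM.Jn0, Int.cast_zero])
    (by rw [constantCoeff_cst]; exact_mod_cast hM.Jd0) s1 s2
    (by rw [cV1]; exact one_ne_zero) (by rw [cV2]; exact hdK)
  rw [cV1, cV2, map_one, one_mul, map_natCast] at h7
  have hYne : Y ≠ 0 := by
    rintro rfl
    rw [map_zero] at hY0
    exact zero_ne_one hY0
  apply mul_left_cancel₀ hYne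
  linear_combination -h7

end Pool.Agent.Lib_helper57.AP
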