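import Pool.Agent.Lib_helper57.AP.A7
import Pool.Agent.Lib_helper57.AP.Z8

/-! Block FE5. -/

namespace Pool.Agent.Lib_helper57.AP

open PowerSeries Finset

variable (p : ℕ) [Fact p.Prime]

theorem PP_mul (M : MD) (hM : M.Valid) {R : Type} [CommRing R] (Y : PowerSeries R) (hY : Y ^ 2 = cst R M.D) :
    PP M Y * PP M (-Y) = 4 * X ^ (M.d - 1) * cst R M.N := by
  have h := congrArg (cst R) hM.rel
  simp only [map_sub, map_mul, map_pow, map_ofNat, cst_X] at h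
  unfold PP
  rw [← h, ← hY]
  ring

theorem FE5_aux1 (P g : PowerSeries ℚ_[p]) (n : ℕ) (h0 : constantCoeff g ≠ 0)
    (hg : g * P = 2 * X ^ n) :
    g ^ p * (ph p ℚ_[p] g)⁻¹ * P ^ p = 2 ^ (p - 1) * ph p ℚ_[p] P := by
  have hp1 : 1 ≤ p := (Nat.Prime.pos Fact.out)
  have hφ : ph p ℚ_[p] g * ph p ℚ_[p] P = 2 * (X ^ p) ^ n := by
    rw [← map_mul, hg, map_mul, map_pow, map_ofNat, ph_X]
  have h1 : constantCoeff (ph p ℚ_[p] g) ≠ 0 := by rwa [constantCoeff_ph]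
  have hinv : ph p ℚ_[p] g * (ph p ℚ_[p] g)⁻¹ = 1 := PowerSeries.mul_inv_cancel _ h1
  have h2 : g ^ p * P ^ p = 2 ^ (p - 1) * (ph p ℚ_[p] g * ph p ℚ_[p] P) := by
    rw [hφ, ← mul_pow, hg, mul_pow, ← pow_mul, ← pow_mul, mul_comm n p]
    have : (2 : PowerSeries ℚ_[p]) ^ p = 2 ^ (p - 1) * 2 := by
      rw [← pow_succ]; congr 1; omega
    rw [this]
    ring
  calc g ^ p * (ph p ℚ_[p] g)⁻¹ * P ^ p = (g ^ p * P ^ p) * (ph p ℚ_[p] g)⁻¹ := by ring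
    _ = 2 ^ (p - 1) * ph p ℚ_[p] P * (ph p ℚ_[p] g * (ph p ℚ_[p] g)⁻¹) := by rw [h2]; ring
    _ = _ := by rw [hinv, mul_one]

theorem FE5_two (hp : 3 < p) : PI 1 ((2 : ℚ_[p]) ^ (p - 1) - 1) := by
  have h2 : ¬ p ∣ 2 := fun h => by
    have := Nat.le_of_dvd (by norm_num) h
    omega
  have h1 : ((2 : ℤ) ^ (p - 1) - 1 : ℤ) = ((2 ^ (p - 1) - 1 : ℤ)) := rfl
  have h3 : (p : ℤ) ^ 1 ∣ ((2 : ℤ) ^ (p - 1) - 1) := by
    rw [pow_one]
    have := (ZMod.intCast_zmod_eq_zero_iff_dvd ((2 : ℤ) ^ (p - 1) - 1) p).1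
    apply this
    push_cast
    rw [ZMod.pow_card_sub_one_eq_one, sub_self]
    intro h
    apply h2
    rw [← ZMod.natCast_eq_zero_iff]
    exact_mod_cast h
  have h4 := (PI_intCast_iff 1 ((2 : ℤ) ^ (p - 1) - 1)).2 h3
  push_cast at h4
  exact h4

theorem FE5_B (hp : 3 < p) (P : PowerSeries ℚ_[p]) (hP : ∀ T, PO 0 T P) (T : ℕ) :
    PO 1 T (2 ^ (p - 1) * ph p ℚ_[p] P - P ^ p) := by
  have hphi : PO 0 T (ph p ℚ_[p] P) := by
    have hle : T ≤ p * T := Nat.le_mul_of_pos_left T (Nat.Prime.pos Fact.out)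
    exact PO_ph hle (hP T)
  have e : (2 : PowerSeries ℚ_[p]) ^ (p - 1) * ph p ℚ_[p] P - P ^ p =
      C ((2 : ℚ_[p]) ^ (p - 1) - 1) * ph p ℚ_[p] P + (ph p ℚ_[p] P - P ^ p) := by
    rw [map_sub, map_pow, map_one, map_ofNat]
    ring
  rw [e]
  exact PO_add (PO_mul_right (PO_C (FE5_two p hp)) hphi) (frob p P hP T)

theorem FE5_RG (hp : 3 < p) (z : PowerSeries ℚ_[p]) (hz0 : constantCoeff z = 0)
    (hz : ∀ T, PO 0 T z) (T : ℕ) :
    PO 1 T (cmp (RR p) z * cmp (cst ℚ_[p] (FlZ p)) z - cmp (cst ℚ_[p] (GlZ p)) z) := by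
  rw [← cmp_mul _ _ _ hz0, ← cmp_sub _ _ _ hz0]
  refine PO_cmp hz0 ?_ (hz T)
  have h0 : constantCoeff (FT p) ≠ 0 := by rw [constantCoeff_FT]; exact one_ne_zero
  have h1 : RR p * FT p = GT p := by
    unfold RR
    rw [mul_assoc, PowerSeries.inv_mul_cancel _ h0, mul_one]
  have e : RR p * cst ℚ_[p] (FlZ p) - cst ℚ_[p] (GlZ p) =
      -(RR p * (FT p - cst ℚ_[p] (FlZ p))) + (GT p - cst ℚ_[p] (GlZ p)) := by
    rw [← h1]; ring
  rw [e]
  exact PO_add (PO_neg (PO_mul_left (PO_RR p T) (PO_FT_sub p T))) (PO_GT_sub p hp T)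

theorem FE5 (hp : 3 < p) (M : MD) (hM : M.Valid) (hpd : ¬ p ∣ M.d) (Y z1 z2 : PowerSeries ℚ_[p])
    (hY : Y ^ 2 = cst ℚ_[p] M.D) (hY0 : constantCoeff Y = 1) (hYi : ∀ T, PO 0 T Y)
    (hz2 : PP M Y * z2 = 2 * X ^ M.d) (hz1 : 2 * cst ℚ_[p] M.N * z1 = X * PP M Y) :
    PO 2 (T0 p)
      (((p : PowerSeries ℚ_[p]) * cmp (cst ℚ_[p] (GlZ p)) z1 * (PP M (-Y)) ^ p
          + (2 ^ (p - 1) * ph p ℚ_[p] (PP M (-Y)) - (PP M (-Y)) ^ p) * cmp (cst ℚ_[p] (FlZ p)) z1)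
          * cmp (cst ℚ_[p] (FlZ p)) z2
          * ((M.d : PowerSeries ℚ_[p]) * PP M Y - th (PP M Y)) ^ p
        - ((p : PowerSeries ℚ_[p]) * cmp (cst ℚ_[p] (GlZ p)) z2 * (PP M Y) ^ p
          + (2 ^ (p - 1) * ph p ℚ_[p] (PP M Y) - (PP M Y) ^ p) * cmp (cst ℚ_[p] (FlZ p)) z2)
          * cmp (cst ℚ_[p] (FlZ p)) z1
          * ((M.d : PowerSeries ℚ_[p]) * PP M (-Y) - th (PP M (-Y))) ^ p) := by
  have hd2 := hM.hd
  have hmul := PP_mul M hM Y hY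
  have hPi : ∀ T, PO 0 T (PP M Y) := fun T =>
    PO_add (PO_cst T _) (PO_mul_left (PO_cst T _) (hYi T))
  have hPbi : ∀ T, PO 0 T (PP M (-Y)) := fun T =>
    PO_add (PO_cst T _) (PO_mul_left (PO_cst T _) (PO_neg (hYi T)))
  have hP0 : constantCoeff (PP M Y) = 2 := by
    unfold PP
    rw [map_add, map_mul, constantCoeff_cst, constantCoeff_cst, hM.S0, hM.Q0, hY0]
    norm_num
  set P := PP M Y with hPdef
  set Pb := PP M (-Y) with hPbdef
  have hnd : ¬ p ∣ 2 := fun h => by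
    have := Nat.le_of_dvd (by norm_num) h
    omega
  have h2norm : ‖(2 : ℚ_[p])‖ = 1 := by
    have := norm_natCast_eq_one (p := p) 2 hnd
    exact_mod_cast this
  have h2ne : (2 : ℚ_[p]) ≠ 0 := by norm_num
  have hPne : constantCoeff P ≠ 0 := by rw [hP0]; exact h2ne
  set N := cst ℚ_[p] M.N with hNdef
  have hN0 : constantCoeff (2 * N) = 2 := by
    rw [map_mul, map_ofNat, hNdef, constantCoeff_cst, hM.N0]
    norm_num
  have hNne : constantCoeff (2 * N) ≠ 0 := by rw [hN0]; exact h2ne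
  have hNi : ∀ T, PO 0 T (2 * N) := fun T => by
    have : (2 : PowerSeries ℚ_[p]) = ((2 : ℕ) : PowerSeries ℚ_[p]) := by norm_num
    rw [this]
    exact PO_mul_left (PO_natCast 2 T) (PO_cst T _)
  -- g2
  set g2 : PowerSeries ℚ_[p] := 2 * P⁻¹ with hg2
  have hg2P : g2 * P = 2 := by
    rw [hg2, mul_assoc, PowerSeries.inv_mul_cancel _ hPne, mul_one]
  have hg20 : constantCoeff g2 = 1 := by
    have := congrArg constantCoeff hg2P
    rw [map_mul, map_ofNat, hP0] at this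
    exact mul_right_cancel₀ h2ne (by rw [this, one_mul])
  have hg2i : ∀ T, PO 0 T g2 := fun T => by
    have : (2 : PowerSeries ℚ_[p]) = ((2 : ℕ) : PowerSeries ℚ_[p]) := by norm_num
    rw [hg2, this]
    exact PO_mul_left (PO_natCast 2 T) (PO_inv (hPi T) (by rw [hP0]; exact h2norm))
  -- g1
  set g1 : PowerSeries ℚ_[p] := P * (2 * N)⁻¹ with hg1
  have hg1N : g1 * (2 * N) = P := by
    rw [hg1, mul_assoc, PowerSeries.inv_mul_cancel _ hNne, mul_one]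
  have hg10 : constantCoeff g1 = 1 := by
    have := congrArg constantCoeff hg1N
    rw [map_mul, hN0, hP0] at this
    exact mul_right_cancel₀ h2ne (by rw [this, one_mul])
  have hg1i : ∀ T, PO 0 T g1 := fun T => by
    rw [hg1]
    exact PO_mul_left (hPi T) (PO_inv (hNi T) (by rw [hN0]; exact h2norm))
  have hPne' : P ≠ 0 := fun h => hPne (by rw [h, map_zero])
  have hNne' : (2 * N : PowerSeries ℚ_[p]) ≠ 0 := fun h => hNne (by rw [h, map_zero])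
  have hg1ne : g1 ≠ 0 := fun h => by
    rw [h, map_zero] at hg10
    exact zero_ne_one hg10
  have hg2ne : g2 ≠ 0 := fun h => by
    rw [h, map_zero] at hg20
    exact zero_ne_one hg20
  have hz2' : z2 = X ^ M.d * g2 := by
    apply mul_left_cancel₀ hPne'
    rw [hz2]
    linear_combination (-(X ^ M.d : PowerSeries ℚ_[p])) * hg2P
  have hz1' : z1 = X * g1 := by
    apply mul_left_cancel₀ hNne'
    rw [hz1]
    linear_combination (-(X : PowerSeries ℚ_[p])) * hg1N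
  have hg1Pb : g1 * Pb = 2 * X ^ (M.d - 1) := by
    apply mul_left_cancel₀ hNne'
    linear_combination Pb * hg1N + hmul
  -- l1, l2
  set l2 : PowerSeries ℚ_[p] := (M.d : PowerSeries ℚ_[p]) + th g2 * g2⁻¹ with hl2def
  set l1 : PowerSeries ℚ_[p] := 1 + th g1 * g1⁻¹ with hl1def
  have hg1c : constantCoeff g1 ≠ 0 := by rw [hg10]; exact one_ne_zero
  have hg2c : constantCoeff g2 ≠ 0 := by rw [hg20]; exact one_ne_zero
  have hl1 : l1 * g1 = g1 + th g1 := by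
    rw [hl1def, add_mul, one_mul, mul_assoc, PowerSeries.inv_mul_cancel _ hg1c, mul_one]
  have hl2 : l2 * g2 = (M.d : PowerSeries ℚ_[p]) * g2 + th g2 := by
    rw [hl2def, add_mul, mul_assoc (th g2), PowerSeries.inv_mul_cancel _ hg2c, mul_one]
  have hl1i : ∀ T, PO 0 T l1 := fun T =>
    PO_add (PO_one T) (PO_mul_left (PO_th (hg1i T))
      (PO_inv (hg1i T) (by rw [hg10]; exact norm_one)))
  have hl2i : ∀ T, PO 0 T l2 := fun T =>
    PO_add (PO_natCast _ T) (PO_mul_left (PO_th (hg2i T))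
      (PO_inv (hg2i T) (by rw [hg20]; exact norm_one)))
  have hl2P : l2 * P = (M.d : PowerSeries ℚ_[p]) * P - th P := by
    have h1 := congrArg th hg2P
    rw [th_mul, th_ofNat] at h1
    apply mul_left_cancel₀ hg2ne
    linear_combination P * hl2 + h1
  have hl1Pb : l1 * Pb = (M.d : PowerSeries ℚ_[p]) * Pb - th Pb := by
    have h1 := congrArg th hg1Pb
    rw [th_mul, th_ofNat_mul, th_X_pow] at h1
    have hdc : ((M.d - 1 : ℕ) : PowerSeries ℚ_[p]) = (M.d : PowerSeries ℚ_[p]) - 1 := by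
      rw [Nat.cast_sub (by omega), Nat.cast_one]
    rw [hdc] at h1
    apply mul_left_cancel₀ hg1ne
    linear_combination Pb * hl1 + h1 - ((M.d : PowerSeries ℚ_[p]) - 1) * hg1Pb
  have hz20 : constantCoeff z2 = 0 := by
    rw [hz2', map_mul, map_pow, constantCoeff_X, zero_pow (by omega), zero_mul]
  have hz10 : constantCoeff z1 = 0 := by
    rw [hz1', map_mul, constantCoeff_X, zero_mul]
  have hz2i : ∀ T, PO 0 T z2 := fun T => by
    rw [hz2']; exact PO_mul_left (PO_X_pow _ T) (hg2i T)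
  have hz1i : ∀ T, PO 0 T z1 := fun T => by
    rw [hz1']
    have := PO_X_pow (p := p) 1 T
    rw [pow_one] at this
    exact PO_mul_left this (hg1i T)
  have hW : l2 * cmp (WW ℚ_[p]) z2 = (M.d : PowerSeries ℚ_[p]) * l1 * cmp (WW ℚ_[p]) z1 := by
    refine Z8 M hM Y z1 z2 l1 l2 hY hY0 hz2 hz1 ?_ ?_
    · rw [hz2', th_mul, th_X_pow]
      linear_combination (X ^ M.d : PowerSeries ℚ_[p]) * hl2
    · rw [hz1', th_mul, th_X]
      linear_combination (X : PowerSeries ℚ_[p]) * hl1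
  have hA := A7 p hp M.d (by omega) hpd g1 g2 l1 l2 hg10 hg20 hg1i hg2i hl1 hl2
    (by rw [← hz2', ← hz1']; exact hW)
  rw [← hz2', ← hz1'] at hA
  have hφ2 := FE5_aux1 p P g2 0 hg2c (by rw [pow_zero, mul_one]; exact hg2P)
  have hφ1 := FE5_aux1 p Pb g1 (M.d - 1) hg1c hg1Pb
  set T := T0 p with hT
  have hRz : ∀ z : PowerSeries ℚ_[p], constantCoeff z = 0 → (∀ T, PO 0 T z) →
      PO 0 T (cmp (RR p) z) := fun z h0 hi => PO_cmp h0 (PO_RR p T) (hi T)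
  have hFz : ∀ z : PowerSeries ℚ_[p], constantCoeff z = 0 → (∀ T, PO 0 T z) →
      PO 0 T (cmp (cst ℚ_[p] (FlZ p)) z) := fun z h0 hi => PO_cmp h0 (PO_cst T _) (hi T)
  set R2 := cmp (RR p) z2 with hR2
  set R1 := cmp (RR p) z1 with hR1
  set F2 := cmp (cst ℚ_[p] (FlZ p)) z2 with hF2
  set F1 := cmp (cst ℚ_[p] (FlZ p)) z1 with hF1
  set G2 := cmp (cst ℚ_[p] (GlZ p)) z2 with hG2
  set G1 := cmp (cst ℚ_[p] (GlZ p)) z1 with hG1
  have hRG2 : PO 1 T (R2 * F2 - G2) := FE5_RG p hp z2 hz20 hz2i T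
  have hRG1 : PO 1 T (R1 * F1 - G1) := FE5_RG p hp z1 hz10 hz1i T
  have hR2i := hRz z2 hz20 hz2i
  have hR1i := hRz z1 hz10 hz1i
  have hF2i := hFz z2 hz20 hz2i
  have hF1i := hFz z1 hz10 hz1i
  have hB2 := FE5_B p hp P hPi T
  have hB1 := FE5_B p hp Pb hPbi T
  have hU2 : PO 1 T ((p : PowerSeries ℚ_[p]) * (R2 * P ^ p) +
      (2 ^ (p - 1) * ph p ℚ_[p] P - P ^ p)) :=
    PO_add (PO_mul_right (PO_p T) (PO_mul_left hR2i (PO_pow (hPi T) p))) hB2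
  have hU1 : PO 1 T ((p : PowerSeries ℚ_[p]) * (R1 * Pb ^ p) +
      (2 ^ (p - 1) * ph p ℚ_[p] Pb - Pb ^ p)) :=
    PO_add (PO_mul_right (PO_p T) (PO_mul_left hR1i (PO_pow (hPbi T) p))) hB1
  have hf1 := frob p l1 hl1i T
  have hf2 := frob p l2 hl2i T
  -- main congruence multiplied out
  have k1 : PO 2 T (P ^ p * Pb ^ p * (((p : PowerSeries ℚ_[p]) * R2 + (g2 ^ p * (ph p ℚ_[p] g2)⁻¹ - 1))
          * ph p ℚ_[p] l1 - ((p : PowerSeries ℚ_[p]) * R1 + (g1 ^ p * (ph p ℚ_[p] g1)⁻¹ - 1))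
          * ph p ℚ_[p] l2) * (F1 * F2)) :=
    PO_mul_right (PO_mul_left (PO_mul_left (PO_pow (hPi T) p) (PO_pow (hPbi T) p)) hA)
      (PO_mul_left hF1i hF2i)
  have k2 : PO 2 T (((p : PowerSeries ℚ_[p]) * (R2 * P ^ p) +
      (2 ^ (p - 1) * ph p ℚ_[p] P - P ^ p)) * (ph p ℚ_[p] l1 - l1 ^ p) * (Pb ^ p * (F1 * F2))) :=
    PO_mul_right (PO_mul hU2 hf1) (PO_mul_left (PO_pow (hPbi T) p) (PO_mul_left hF1i hF2i))
  have k3 : PO 2 T (((p : PowerSeries ℚ_[p]) * (R1 * Pb ^ p) +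
      (2 ^ (p - 1) * ph p ℚ_[p] Pb - Pb ^ p)) * (ph p ℚ_[p] l2 - l2 ^ p) * (P ^ p * (F1 * F2))) :=
    PO_mul_right (PO_mul hU1 hf2) (PO_mul_left (PO_pow (hPi T) p) (PO_mul_left hF1i hF2i))
  have k4 : PO 2 T ((p : PowerSeries ℚ_[p]) * (R2 * F2 - G2) * (P ^ p * (F1 * (l1 * Pb) ^ p))) :=
    PO_mul_right (PO_mul (PO_p T) hRG2) (PO_mul_left (PO_pow (hPi T) p) (PO_mul_left hF1i
      (PO_pow (PO_mul_left (hl1i T) (hPbi T)) p)))
  have k5 : PO 2 T ((p : PowerSeries ℚ_[p]) * (R1 * F1 - G1) * (Pb ^ p * (F2 * (l2 * P) ^ p))) :=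
    PO_mul_right (PO_mul (PO_p T) hRG1) (PO_mul_left (PO_pow (hPbi T) p) (PO_mul_left hF2i
      (PO_pow (PO_mul_left (hl2i T) (hPi T)) p)))
  have hall := PO_add (PO_sub (PO_add (PO_sub k2 k3) k4) k1) (PO_neg k5)
  refine (congrArg (PO 2 T) ?_).mp hall
  clear_value R1 R2 F1 F2 G1 G2 l1 l2 g1 g2 P Pb N
  rw [← hl2P, ← hl1Pb, mul_pow, mul_pow]
  linear_combination (-(Pb ^ p * ph p ℚ_[p] l1 * (F1 * F2))) * hφ2 +
    (P ^ p * ph p ℚ_[p] l2 * (F1 * F2)) * hφ1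

end Pool.Agent.Lib_helper57.AP
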