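import Pool.Agent.Lib_helper57.AP.FE5

/-! Block FE6: multiply FE5 by `(2N)^(K+q)`, `K = p/4`, `q = (p-1)/2`.
`z2 = 2X^d/P`, `z1 = XP/(2N)`; `2N z2 = X Pb` (PP_mul, cancel `P`).
`(2N)^K Fl(z1) = FH (XP) (2N)`, `(2N)^q Gl(z1) = GH (XP) (2N)`, `(2N)^K Fl(z2) = FH (X Pb) (2N)` etc. (cmp_cst_FlZ, cmp_cst_GlZ).
`ThetaS M p Y` is `(2N)^(K+q)` times the first term of FE5 and `ThetaS M p (-Y)` the second. -/

namespace Pool.Agent.Lib_helper57.AP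

open PowerSeries Finset

variable (p : ℕ) [Fact p.Prime]

theorem FE6_FH {R : Type} [CommRing R] (p : ℕ) (a b z : PowerSeries R) (h : b * z = a)
    (hz : constantCoeff z = 0) :
    b ^ (p / 4) * cmp (cst R (FlZ p)) z = FH p a b := by
  rw [cmp_cst_FlZ p z hz, FH, Finset.mul_sum]
  refine Finset.sum_congr rfl fun k hk => ?_
  have hk' : k ≤ p / 4 := by have := Finset.mem_range.1 hk; omega
  have : b ^ (p / 4) = b ^ k * b ^ (p / 4 - k) := by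
    rw [← pow_add]; congr 1; omega
  rw [this, ← h, mul_pow]; ring

theorem FE6_GH {R : Type} [CommRing R] (p : ℕ) (a b z : PowerSeries R) (h : b * z = a)
    (hz : constantCoeff z = 0) :
    b ^ ((p - 1) / 2) * cmp (cst R (GlZ p)) z = GH p a b := by
  rw [cmp_cst_GlZ p z hz, GH, Finset.mul_sum]
  refine Finset.sum_congr rfl fun k hk => ?_
  have hk' : k ≤ (p - 1) / 2 := by have := Finset.mem_range.1 hk; omega
  have : b ^ ((p - 1) / 2) = b ^ k * b ^ ((p - 1) / 2 - k) := by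
    rw [← pow_add]; congr 1; omega
  rw [this, ← h, mul_pow]; ring

theorem FE6_alg {A : Type} [CommRing A] (n K q : ℕ) (hq : q = (q - K) + K) (pp G1 G2 F1 F2 P Pb c2 f fb L Lb b : A)
    (g1 g2 h1 h2 : A) (hG1 : b ^ q * G1 = g1) (hG2 : b ^ q * G2 = g2) (hF1 : b ^ K * F1 = h1)
    (hF2 : b ^ K * F2 = h2) :
    b ^ (K + q) * ((pp * G1 * Pb ^ n + (c2 * fb - Pb ^ n) * F1) * F2 * L ^ n
      - (pp * G2 * P ^ n + (c2 * f - P ^ n) * F2) * F1 * Lb ^ n)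
    = (pp * g1 * Pb ^ n + (c2 * fb - Pb ^ n) * b ^ (q - K) * h1) * h2 * L ^ n
      - (pp * g2 * P ^ n + (c2 * f - P ^ n) * b ^ (q - K) * h2) * h1 * Lb ^ n := by
  have hb : b ^ q = b ^ (q - K) * b ^ K := by rw [← pow_add, ← hq]
  subst hG1 hG2 hF1 hF2
  rw [pow_add, hb]
  ring

theorem FE6 (hp : 3 < p) (M : MD) (hM : M.Valid) (hpd : ¬ p ∣ M.d) (Y : PowerSeries ℚ_[p])
    (hY : Y ^ 2 = cst ℚ_[p] M.D) (hY0 : constantCoeff Y = 1) (hYi : ∀ T, PO 0 T Y) :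
    PO 2 (T0 p) (ThetaS M p Y - ThetaS M p (-Y)) := by
  have hd := hM.hd
  have hNc : constantCoeff (cst ℚ_[p] M.N) = 1 := by
    rw [constantCoeff_cst, hM.N0]; simp
  have h2N : constantCoeff (2 * cst ℚ_[p] M.N) ≠ 0 := by
    have h2c : constantCoeff (2 : PowerSeries ℚ_[p]) = 2 := map_ofNat _ 2
    rw [map_mul, hNc, h2c]; norm_num
  have hPc : constantCoeff (PP M Y) ≠ 0 := by
    have : constantCoeff (PP M Y) = 2 := by
      unfold PP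
      rw [map_add, map_mul, constantCoeff_cst, constantCoeff_cst, hM.S0, hM.Q0, hY0]; norm_num
    rw [this]; norm_num
  have hPne : PP M Y ≠ 0 := by
    intro h; rw [h] at hPc; simp at hPc
  set z1 : PowerSeries ℚ_[p] := (2 * cst ℚ_[p] M.N)⁻¹ * (X * PP M Y) with hz1d
  set z2 : PowerSeries ℚ_[p] := (PP M Y)⁻¹ * (2 * X ^ M.d) with hz2d
  have hz1 : 2 * cst ℚ_[p] M.N * z1 = X * PP M Y := by
    rw [hz1d, ← mul_assoc, PowerSeries.mul_inv_cancel _ h2N, one_mul]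
  have hz2 : PP M Y * z2 = 2 * X ^ M.d := by
    rw [hz2d, ← mul_assoc, PowerSeries.mul_inv_cancel _ hPc, one_mul]
  have hz10 : constantCoeff z1 = 0 := by
    rw [hz1d]; simp
  have hz20 : constantCoeff z2 = 0 := by
    rw [hz2d, map_mul, map_mul, map_pow, constantCoeff_X, zero_pow (by omega)]; simp
  have hz2' : 2 * cst ℚ_[p] M.N * z2 = X * PP M (-Y) := by
    apply mul_left_cancel₀ hPne
    have h := PP_mul M hM Y hY
    have hX : (X : PowerSeries ℚ_[p]) ^ M.d = X * X ^ (M.d - 1) := by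
      rw [← pow_succ']; congr 1; omega
    calc PP M Y * (2 * cst ℚ_[p] M.N * z2) = 2 * cst ℚ_[p] M.N * (PP M Y * z2) := by ring
      _ = 2 * cst ℚ_[p] M.N * (2 * (X * X ^ (M.d - 1))) := by rw [hz2, hX]
      _ = X * (4 * X ^ (M.d - 1) * cst ℚ_[p] M.N) := by ring
      _ = PP M Y * (X * PP M (-Y)) := by rw [← h]; ring
  have hF := FE5 p hp M hM hpd Y z1 z2 hY hY0 hYi hz2 hz1
  have hq : (p - 1) / 2 = ((p - 1) / 2 - p / 4) + p / 4 := by omega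
  have key := FE6_alg p (p / 4) ((p - 1) / 2) hq (p : PowerSeries ℚ_[p])
    (cmp (cst ℚ_[p] (GlZ p)) z1) (cmp (cst ℚ_[p] (GlZ p)) z2)
    (cmp (cst ℚ_[p] (FlZ p)) z1) (cmp (cst ℚ_[p] (FlZ p)) z2)
    (PP M Y) (PP M (-Y)) (2 ^ (p - 1)) (ph p ℚ_[p] (PP M Y)) (ph p ℚ_[p] (PP M (-Y)))
    ((M.d : PowerSeries ℚ_[p]) * PP M Y - th (PP M Y))
    ((M.d : PowerSeries ℚ_[p]) * PP M (-Y) - th (PP M (-Y)))
    (2 * cst ℚ_[p] M.N) _ _ _ _
    (FE6_GH p _ _ _ hz1 hz10) (FE6_GH p _ _ _ hz2' hz20)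
    (FE6_FH p _ _ _ hz1 hz10) (FE6_FH p _ _ _ hz2' hz20)
  have hT : ThetaS M p Y - ThetaS M p (-Y) = (2 * cst ℚ_[p] M.N) ^ (p / 4 + (p - 1) / 2) *
      (((p : PowerSeries ℚ_[p]) * cmp (cst ℚ_[p] (GlZ p)) z1 * (PP M (-Y)) ^ p
          + (2 ^ (p - 1) * ph p ℚ_[p] (PP M (-Y)) - (PP M (-Y)) ^ p) * cmp (cst ℚ_[p] (FlZ p)) z1)
          * cmp (cst ℚ_[p] (FlZ p)) z2
          * ((M.d : PowerSeries ℚ_[p]) * PP M Y - th (PP M Y)) ^ p
        - ((p : PowerSeries ℚ_[p]) * cmp (cst ℚ_[p] (GlZ p)) z2 * (PP M Y) ^ p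
          + (2 ^ (p - 1) * ph p ℚ_[p] (PP M Y) - (PP M Y) ^ p) * cmp (cst ℚ_[p] (FlZ p)) z2)
          * cmp (cst ℚ_[p] (FlZ p)) z1
          * ((M.d : PowerSeries ℚ_[p]) * PP M (-Y) - th (PP M (-Y))) ^ p) := by
    rw [key]
    unfold ThetaS
    rw [neg_neg]
  rw [hT]
  refine PO_mul_left ?_ hF
  refine PO_pow ?_ _
  have h2 : PO 0 (T0 p) (2 : PowerSeries ℚ_[p]) := by
    have := PO_natCast (p := p) 2 (T0 p)
    simpa using this
  exact PO_mul_left h2 (PO_cst _ _)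

end Pool.Agent.Lib_helper57.AP
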