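import Pool.Agent.Lib_helper57.AP.R4

/-! Block R5: conclusion from STAR.  `m^q ≡ (m/p)(1 + (p/2) f) mod p²`, `f = (m^(p-1)-1)/p` (`m^q ≡ (m/p) mod p`, Euler;
`m^(2q) = 1 + p f`); `p bb i hh i ≡ p gl i mod p²` (PI_gl), STAR lifted to `ℚ_p`: `∑ gl i m^{-i} ≡ f ∑ bb i m^{-i} mod p`;
`bb k ≡ 0 mod p²` for `q < k < p` (bb_dvd2). -/

namespace Pool.Agent.Lib_helper57.AP

open Finset

theorem R5_inv (p : ℕ) [Fact p.Prime] (m : ℤ) (hm : ¬ (p : ℤ) ∣ m) : PI 0 ((m : ℚ_[p]))⁻¹ := by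
  obtain ⟨n, rfl | rfl⟩ := m.eq_nat_or_neg
  · have h1 : ¬ p ∣ n := fun h => hm (Int.natCast_dvd_natCast.2 h)
    have h2 := PI_natCast_inv (p := p) n h1
    push_cast
    exact h2
  · have h1 : ¬ p ∣ n := fun h => hm ((Int.natCast_dvd_natCast.2 h).neg_right)
    have h2 := PI_natCast_inv (p := p) n h1
    push_cast
    rw [inv_neg]
    exact PI_neg h2

theorem R5_star (p : ℕ) [Fact p.Prime] (m : ℤ) (hm : ¬ (p : ℤ) ∣ m) (hs : Star p m) :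
    PI 1 (∑ k ∈ range ((p - 1) / 2 + 1), (gl p k : ℚ_[p]) * ((m : ℚ_[p])⁻¹) ^ k -
      (((m ^ (p - 1) - 1) / (p : ℤ) : ℤ) : ℚ_[p]) *
        ∑ k ∈ range ((p - 1) / 2 + 1), (bb k : ℚ_[p]) * ((m : ℚ_[p])⁻¹) ^ k) := by
  set q : ℕ := (p - 1) / 2 with hq
  set f : ℤ := (m ^ (p - 1) - 1) / (p : ℤ) with hf
  have hmz : (m : ZMod p) ≠ 0 := by
    intro h
    exact hm ((ZMod.intCast_zmod_eq_zero_iff_dvd m p).1 h)
  have hmq : (m : ℚ_[p]) ≠ 0 := by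
    intro h
    have : m = 0 := by exact_mod_cast h
    exact hm (this ▸ dvd_zero _)
  set N₁ : ℤ := ∑ k ∈ range (q + 1), (gl p k : ℤ) * m ^ (q - k) with hN₁
  set N₂ : ℤ := ∑ k ∈ range (q + 1), (bb k : ℤ) * m ^ (q - k) with hN₂
  have hpow : ∀ (F : Type) [Field F] (y : F), y ≠ 0 → ∀ k ∈ range (q + 1),
      y ^ (q - k) = y ^ q * (y⁻¹) ^ k := by
    intro F _ y hy k hk
    have hk' : k ≤ q := by have := Finset.mem_range.1 hk; omega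
    obtain ⟨s, hs⟩ := Nat.exists_eq_add_of_le hk'
    have e : q - k = s := by omega
    rw [e, hs, pow_add, inv_pow]
    field_simp
  have hz : ((N₁ - f * N₂ : ℤ) : ZMod p) = 0 := by
    have e1 : ((N₁ : ℤ) : ZMod p) = (m : ZMod p) ^ q *
        ∑ k ∈ range (q + 1), gz p k * ((m : ZMod p)⁻¹) ^ k := by
      rw [hN₁, Finset.mul_sum]
      push_cast
      refine Finset.sum_congr rfl fun k hk => ?_
      rw [gl_cast, hpow (ZMod p) _ hmz k hk]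
      ring
    have e2 : ((N₂ : ℤ) : ZMod p) = (m : ZMod p) ^ q *
        ∑ k ∈ range (q + 1), (bb k : ZMod p) * ((m : ZMod p)⁻¹) ^ k := by
      rw [hN₂, Finset.mul_sum]
      push_cast
      refine Finset.sum_congr rfl fun k hk => ?_
      rw [hpow (ZMod p) _ hmz k hk]
      ring
    have hs' := hs
    unfold Star fq at hs'
    rw [← hf, ← hq] at hs'
    rw [Int.cast_sub, Int.cast_mul, e1, e2, hs']
    ring
  have hd : (p : ℤ) ∣ N₁ - f * N₂ := (ZMod.intCast_zmod_eq_zero_iff_dvd _ p).1 hz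
  have h1 : PI 1 (((N₁ - f * N₂ : ℤ)) : ℚ_[p]) := by
    rw [PI_intCast_iff]
    simpa using hd
  have e3 : ∑ k ∈ range (q + 1), (gl p k : ℚ_[p]) * ((m : ℚ_[p])⁻¹) ^ k -
      ((f : ℤ) : ℚ_[p]) * ∑ k ∈ range (q + 1), (bb k : ℚ_[p]) * ((m : ℚ_[p])⁻¹) ^ k =
      ((m : ℚ_[p])⁻¹) ^ q * (((N₁ - f * N₂ : ℤ)) : ℚ_[p]) := by
    have e1 : ((N₁ : ℤ) : ℚ_[p]) = (m : ℚ_[p]) ^ q *
        ∑ k ∈ range (q + 1), (gl p k : ℚ_[p]) * ((m : ℚ_[p])⁻¹) ^ k := by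
      rw [hN₁, Finset.mul_sum]
      push_cast
      refine Finset.sum_congr rfl fun k hk => ?_
      rw [hpow ℚ_[p] _ hmq k hk]
      ring
    have e2 : ((N₂ : ℤ) : ℚ_[p]) = (m : ℚ_[p]) ^ q *
        ∑ k ∈ range (q + 1), (bb k : ℚ_[p]) * ((m : ℚ_[p])⁻¹) ^ k := by
      rw [hN₂, Finset.mul_sum]
      push_cast
      refine Finset.sum_congr rfl fun k hk => ?_
      rw [hpow ℚ_[p] _ hmq k hk]
      ring
    rw [Int.cast_sub, Int.cast_mul, e1, e2]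
    have e4 : ((m : ℚ_[p])⁻¹) ^ q * (m : ℚ_[p]) ^ q = 1 := by
      rw [← mul_pow, inv_mul_cancel₀ hmq, one_pow]
    linear_combination (-(∑ k ∈ range (q + 1), (gl p k : ℚ_[p]) * ((m : ℚ_[p])⁻¹) ^ k) +
      ((f : ℤ) : ℚ_[p]) * ∑ k ∈ range (q + 1), (bb k : ℚ_[p]) * ((m : ℚ_[p])⁻¹) ^ k) * e4
  rw [e3]
  have h2 : PI (0 + 1) (((m : ℚ_[p])⁻¹) ^ q * (((N₁ - f * N₂ : ℤ)) : ℚ_[p])) :=
    PI_mul (PI_pow (R5_inv p m hm) q) h1
  simpa using h2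

theorem R5 (p : ℕ) [Fact p.Prime] (hp : 3 < p) (x : ℚ) (m : ℤ) (hx : 256 * x = m)
    (hm : ¬ (p : ℤ) ∣ m) (hs : Star p m) :
    PI 2 (((∑ n ∈ range p, AA n x : ℚ) : ℚ_[p])
      - ((legendreSym p m : ℤ) : ℚ_[p]) * ∑ k ∈ range p, (bb k : ℚ_[p]) * ((m : ℚ_[p])⁻¹) ^ k) := by
  have hpp := (Fact.out : p.Prime)
  have hodd : p % 2 = 1 := by
    rcases hpp.eq_two_or_odd with h2 | h2
    · omega
    · exact h2
  have hR4 := R4 p hp x m hx hm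
  have hst := R5_star p m hm hs
  set q : ℕ := (p - 1) / 2 with hq
  have hq2 : 2 * q = p - 1 := by omega
  set f : ℤ := (m ^ (p - 1) - 1) / (p : ℤ) with hf
  set μ : ℚ_[p] := (m : ℚ_[p]) with hμ
  set χ : ℤ := legendreSym p m with hχ
  have hmz : (m : ZMod p) ≠ 0 := by
    intro h
    exact hm ((ZMod.intCast_zmod_eq_zero_iff_dvd m p).1 h)
  -- Fermat
  have hfer : (p : ℤ) * f = m ^ (p - 1) - 1 := by
    have h1 : (p : ℤ) ∣ m ^ (p - 1) - 1 := by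
      rw [← ZMod.intCast_zmod_eq_zero_iff_dvd]
      push_cast
      rw [ZMod.pow_card_sub_one_eq_one hmz, sub_self]
    exact Int.mul_ediv_cancel' h1
  have hferQ : (p : ℚ_[p]) * (f : ℚ_[p]) = (μ ^ q) ^ 2 - 1 := by
    rw [← pow_mul, mul_comm q 2, hq2]
    have h := congrArg (fun z : ℤ => (z : ℚ_[p])) hfer
    push_cast at h
    exact h
  -- Euler
  have hχ2 : (χ : ℚ_[p]) ^ 2 = 1 := by
    have := legendreSym.sq_one p hmz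
    rw [← hχ] at this
    exact_mod_cast congrArg (fun z : ℤ => (z : ℚ_[p])) this
  have hE : PI 1 (μ ^ q - (χ : ℚ_[p])) := by
    have h1 : (p : ℤ) ∣ m ^ q - χ := by
      rw [← ZMod.intCast_zmod_eq_zero_iff_dvd]
      push_cast
      have h2 := legendreSym.eq_pow p m
      have h3 : p / 2 = q := by omega
      rw [h3, ← hχ] at h2
      rw [h2, sub_self]
    have h2 : PI 1 (((m ^ q - χ : ℤ)) : ℚ_[p]) := by
      rw [PI_intCast_iff]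
      simpa using h1
    push_cast at h2
    exact h2
  have hhalf : PI 0 ((2 : ℚ_[p]))⁻¹ := by
    have := PI_natCast_inv (p := p) 2 (by
      intro h
      have := Nat.le_of_dvd (by norm_num) h
      omega)
    simpa using this
  have hμi : PI 0 μ⁻¹ := R5_inv p m hm
  have hχi : PI 0 (χ : ℚ_[p]) := PI_intCast χ
  set S₁ : ℚ_[p] := ∑ i ∈ range (q + 1), (bb i : ℚ_[p]) * (μ⁻¹) ^ i with hS₁
  set S₂ : ℚ_[p] := ∑ i ∈ range (q + 1), (bb i : ℚ_[p]) * hh ℚ_[p] i * (μ⁻¹) ^ i with hS₂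
  set Sg : ℚ_[p] := ∑ i ∈ range (q + 1), (gl p i : ℚ_[p]) * (μ⁻¹) ^ i with hSg
  set Sp : ℚ_[p] := ∑ k ∈ range p, (bb k : ℚ_[p]) * (μ⁻¹) ^ k with hSp
  have hS₁i : PI 0 S₁ := PI_sum _ _ fun i _ => by
    have : PI (0 + 0) ((bb i : ℚ_[p]) * (μ⁻¹) ^ i) := PI_mul (PI_natCast _) (PI_pow hμi i)
    simpa using this
  have hS₂i : PI 0 S₂ := PI_sum _ _ fun i hi => by
    have hi' : i < p := by have := Finset.mem_range.1 hi; omega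
    have : PI (0 + 0) ((bb i : ℚ_[p]) * hh ℚ_[p] i * (μ⁻¹) ^ i) :=
      PI_mul (PI_bbhh p i hi') (PI_pow hμi i)
    simpa using this
  have hb : PI 2 (Sp - S₁) := by
    have e1 : Sp - S₁ = ∑ k ∈ Ico (q + 1) p, (bb k : ℚ_[p]) * (μ⁻¹) ^ k := by
      rw [hSp, hS₁, Finset.sum_Ico_eq_sub _ (by omega)]
    rw [e1]
    refine PI_sum _ _ fun k hk => ?_
    rw [Finset.mem_Ico] at hk
    have h1 : PI 2 (bb k : ℚ_[p]) := by
      rw [PI_natCast_iff]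
      exact bb_dvd2 p k (by omega) hk.2
    have : PI (2 + 0) ((bb k : ℚ_[p]) * (μ⁻¹) ^ k) := PI_mul h1 (PI_pow hμi k)
    simpa using this
  have hc : PI 1 (S₂ - Sg) := by
    rw [hS₂, hSg, ← Finset.sum_sub_distrib]
    refine PI_sum _ _ fun i hi => ?_
    have hi' : i ≤ q := by have := Finset.mem_range.1 hi; omega
    have h1 := PI_gl p hp i (by omega)
    have e1 : (bb i : ℚ_[p]) * hh ℚ_[p] i * (μ⁻¹) ^ i - (gl p i : ℚ_[p]) * (μ⁻¹) ^ i =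
        ((bb i : ℚ_[p]) * hh ℚ_[p] i - (gl p i : ℚ_[p])) * (μ⁻¹) ^ i := by ring
    rw [e1]
    have : PI (1 + 0) (((bb i : ℚ_[p]) * hh ℚ_[p] i - (gl p i : ℚ_[p])) * (μ⁻¹) ^ i) :=
      PI_mul h1 (PI_pow hμi i)
    simpa using this
  have eS : ∑ i ∈ range (q + 1), (bb i : ℚ_[p]) * (μ⁻¹) ^ i * (1 - (p : ℚ_[p]) / 2 * hh ℚ_[p] i) =
      S₁ - (p : ℚ_[p]) * (2 : ℚ_[p])⁻¹ * S₂ := by
    rw [hS₁, hS₂, Finset.mul_sum, ← Finset.sum_sub_distrib]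
    refine Finset.sum_congr rfl fun i _ => ?_
    rw [div_eq_mul_inv]
    ring
  rw [eS] at hR4
  set A : ℚ_[p] := ((∑ n ∈ range p, AA n x : ℚ) : ℚ_[p]) with hA
  set E : ℚ_[p] := μ ^ q - (χ : ℚ_[p]) with hEd
  have hμq : μ ^ q = (χ : ℚ_[p]) + E := by rw [hEd]; ring
  rw [hμq] at hferQ hR4
  have h2i : (2 : ℚ_[p]) * (2 : ℚ_[p])⁻¹ = 1 := mul_inv_cancel₀ (by norm_num)
  have hkey : A - (χ : ℚ_[p]) * Sp =
      (A - ((χ : ℚ_[p]) + E) * (S₁ - (p : ℚ_[p]) * (2 : ℚ_[p])⁻¹ * S₂)) -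
      (χ : ℚ_[p]) * (Sp - S₁) -
      (p : ℚ_[p]) * ((Sg - (f : ℚ_[p]) * S₁) + (S₂ - Sg)) * ((χ : ℚ_[p]) * (2 : ℚ_[p])⁻¹) -
      E * E * ((χ : ℚ_[p]) * (S₁ * (2 : ℚ_[p])⁻¹)) -
      (p : ℚ_[p]) * E * ((2 : ℚ_[p])⁻¹ * S₂) := by
    have h5 : E = (χ : ℚ_[p]) * ((p : ℚ_[p]) * (f : ℚ_[p]) - E * E) * (2 : ℚ_[p])⁻¹ := by
      have h6 : (χ : ℚ_[p]) * ((p : ℚ_[p]) * (f : ℚ_[p]) - E * E) = 2 * E := by
        rw [hferQ]
        linear_combination ((χ : ℚ_[p]) + 2 * E) * hχ2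
      rw [h6]
      linear_combination (-E) * h2i
    linear_combination S₁ * h5
  rw [hkey]
  have hEE : PI 2 (E * E * ((χ : ℚ_[p]) * (S₁ * (2 : ℚ_[p])⁻¹))) := by
    have h1 : PI ((1 + 1) + (0 + (0 + 0))) (E * E * ((χ : ℚ_[p]) * (S₁ * (2 : ℚ_[p])⁻¹))) :=
      PI_mul (PI_mul hE hE) (PI_mul hχi (PI_mul hS₁i hhalf))
    simpa using h1
  have hpE : PI 2 ((p : ℚ_[p]) * E * ((2 : ℚ_[p])⁻¹ * S₂)) := by
    have h1 : PI ((1 + 1) + (0 + 0)) ((p : ℚ_[p]) * E * ((2 : ℚ_[p])⁻¹ * S₂)) :=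
      PI_mul (PI_mul PI_p hE) (PI_mul hhalf hS₂i)
    simpa using h1
  have hpS : PI 2 ((p : ℚ_[p]) * ((Sg - (f : ℚ_[p]) * S₁) + (S₂ - Sg)) *
      ((χ : ℚ_[p]) * (2 : ℚ_[p])⁻¹)) := by
    have h1 : PI ((1 + 1) + (0 + 0)) ((p : ℚ_[p]) * ((Sg - (f : ℚ_[p]) * S₁) + (S₂ - Sg)) *
      ((χ : ℚ_[p]) * (2 : ℚ_[p])⁻¹)) :=
      PI_mul (PI_mul PI_p (PI_add hst hc)) (PI_mul hχi hhalf)
    simpa using h1
  have hcb : PI 2 ((χ : ℚ_[p]) * (Sp - S₁)) := by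
    have h1 : PI (0 + 2) ((χ : ℚ_[p]) * (Sp - S₁)) := PI_mul hχi hb
    simpa using h1
  exact PI_sub (PI_sub (PI_sub (PI_sub hR4 hcb) hpS) hEE) hpE

end Pool.Agent.Lib_helper57.AP
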