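import Pool.Agent.Lib_helper57.AP.Defs

/-! Block Small: STAR for small primes, by kernel computation. -/

namespace Pool.Agent.Lib_helper57.AP

/-- forces the evaluation of `n` in the kernel -/
def Small_fr {α : Type} (n : ℕ) (f : ℕ → α) : α := Nat.rec (f 0) (fun k _ => f (k + 1)) n

theorem Small_fr_eq {α : Type} (n : ℕ) (f : ℕ → α) : Small_fr n f = f n := by
  cases n <;> rfl

/-- the inverse of `j` modulo `p` -/
def Small_inv (p j : ℕ) : ℕ := j ^ (p - 2) % p

/-- next harmonic value -/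
def Small_h (p k h : ℕ) : ℕ :=
  (h + 4 * (Small_inv p (4 * k + 1) + Small_inv p (4 * k + 2) + Small_inv p (4 * k + 3) +
    Small_inv p (4 * k + 4) + (p - Small_inv p (k + 1)))) % p

/-- the main loop -/
def Small_loop (p M F : ℕ) (n : ℕ) : ℕ → ℕ → ℕ → ℕ → ℕ → Bool :=
  Nat.rec (fun _ _ _ A B => Nat.beq (A % p) (F * B % p))
    (fun _ ih k b h A B =>
      Small_fr (k + 1) fun k' =>
      Small_fr (b * (8 * (2 * k + 1) * (4 * k + 1) * (4 * k + 3)) / (k + 1) ^ 3) fun b' =>
      Small_fr (cond (Nat.ble (4 * (k + 1) + 1) p) (Small_h p k h) 0) fun h' =>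
      Small_fr ((A * M + cond (Nat.ble (4 * (k + 1) + 1) p) (b' % p * h') (4 * (b' / p))) % p)
        fun A' =>
      Small_fr ((B * M + b') % p) fun B' => ih k' b' h' A' B') n

/-- the check for one prime and one `m` -/
def Small_chk (m : ℤ) (p : ℕ) : Bool :=
  Small_fr ((m % ((p ^ 2 : ℕ) : ℤ)).toNat) fun M =>
    cond (Nat.beq (M % p) 0) true
      (Small_fr ((M ^ (p - 1) % p ^ 2 - 1) / p) fun F =>
        Small_loop p M F ((p - 1) / 2) 0 1 0 0 1)

/-- trial division -/
def Small_tr (p : ℕ) : Bool :=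
  [2, 3, 5, 7, 11, 13, 17, 19].all fun d => Nat.ble p d || !(Nat.beq (p % d) 0)

/-- all primes in a range -/
def Small_all (m : ℤ) (n : ℕ) : Bool :=
  (List.range n).all fun p => Nat.ble p 4 || !(Small_tr p) || Small_chk m p

theorem Small_bb_succ (k : ℕ) :
    bb (k + 1) * (k + 1) ^ 3 = bb k * (8 * (2 * k + 1) * (4 * k + 1) * (4 * k + 3)) := by
  have h : ∀ n : ℕ, bb n * (n.factorial) ^ 4 = (4 * n).factorial := by
    intro n
    have h1 := Nat.choose_mul_factorial_mul_factorial (n := 4 * n) (k := 2 * n) (by omega)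
    have h2 := Nat.choose_mul_factorial_mul_factorial (n := 2 * n) (k := n) (by omega)
    rw [show 4 * n - 2 * n = 2 * n by omega] at h1
    rw [show 2 * n - n = n by omega] at h2
    rw [← h1, bb]
    conv_rhs => rw [← h2]
    ring
  have h0 := h k
  have h1 := h (k + 1)
  have e1 : (4 * (k + 1)).factorial =
      (4 * k + 4) * ((4 * k + 3) * ((4 * k + 2) * ((4 * k + 1) * (4 * k).factorial))) := by
    rw [show 4 * (k + 1) = 4 * k + 3 + 1 by ring, Nat.factorial_succ, Nat.factorial_succ,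
      Nat.factorial_succ, Nat.factorial_succ]
  rw [e1, ← h0, Nat.factorial_succ] at h1
  have hk : 0 < k.factorial ^ 4 * (k + 1) := by positivity
  apply Nat.eq_of_mul_eq_mul_right hk
  calc bb (k + 1) * (k + 1) ^ 3 * (k.factorial ^ 4 * (k + 1))
      = bb (k + 1) * ((k + 1) * k.factorial) ^ 4 := by ring
    _ = (4 * k + 4) * ((4 * k + 3) * ((4 * k + 2) * ((4 * k + 1) * (bb k * k.factorial ^ 4)))) := h1
    _ = bb k * (8 * (2 * k + 1) * (4 * k + 1) * (4 * k + 3)) * (k.factorial ^ 4 * (k + 1)) := by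
        ring

theorem Small_inv_cast (p : ℕ) [hp : Fact p.Prime] (j : ℕ) (h : ¬ p ∣ j) :
    ((Small_inv p j : ℕ) : ZMod p) = ((j : ℕ) : ZMod p)⁻¹ := by
  have hj : (j : ZMod p) ≠ 0 := by rwa [Ne, ZMod.natCast_eq_zero_iff]
  rw [Small_inv, ZMod.natCast_mod, Nat.cast_pow]
  apply eq_inv_of_mul_eq_one_left
  rw [← pow_succ]
  have h2 : p - 2 + 1 = p - 1 := by have := hp.out.two_le; omega
  rw [h2]
  exact ZMod.pow_card_sub_one_eq_one hj

theorem Small_h_cast (p : ℕ) [hp : Fact p.Prime] (k h : ℕ) (hk : 4 * (k + 1) < p)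
    (hh : (h : ZMod p) = 4 * ∑ j ∈ Finset.Ioc k (4 * k), ((j : ZMod p))⁻¹) :
    ((Small_h p k h : ℕ) : ZMod p) =
      4 * ∑ j ∈ Finset.Ioc (k + 1) (4 * (k + 1)), ((j : ZMod p))⁻¹ := by
  have hnd : ∀ j : ℕ, 0 < j → j < p → ¬ p ∣ j := fun j h0 h1 h2 =>
    absurd (Nat.le_of_dvd h0 h2) (by omega)
  have hle : Small_inv p (k + 1) ≤ p := (Nat.mod_lt _ hp.out.pos).le
  rw [Small_h, ZMod.natCast_mod]
  push_cast [Nat.cast_sub hle]
  rw [Small_inv_cast p _ (hnd _ (by omega) (by omega)), Small_inv_cast p _ (hnd _ (by omega) (by omega)),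
    Small_inv_cast p _ (hnd _ (by omega) (by omega)), Small_inv_cast p _ (hnd _ (by omega) (by omega)),
    Small_inv_cast p _ (hnd _ (by omega) (by omega)), hh]
  have e1 : ∑ j ∈ Finset.Ioc (k + 1) (4 * (k + 1)), ((j : ZMod p))⁻¹ + ((k + 1 : ℕ) : ZMod p)⁻¹ =
      ∑ j ∈ Finset.Ioc k (4 * (k + 1)), ((j : ZMod p))⁻¹ := by
    rw [add_comm, ← Finset.sum_Ioc_consecutive _ (Nat.le_succ k) (show k + 1 ≤ 4 * (k + 1) by omega)]
    congr 1
    rw [show Finset.Ioc k (k + 1) = {k + 1} by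
      ext x; simp only [Finset.mem_Ioc, Finset.mem_singleton]; omega]
    simp
  have e2 : ∑ j ∈ Finset.Ioc k (4 * (k + 1)), ((j : ZMod p))⁻¹ =
      ∑ j ∈ Finset.Ioc k (4 * k), ((j : ZMod p))⁻¹ + (((4 * k + 1 : ℕ) : ZMod p)⁻¹ +
        ((4 * k + 2 : ℕ) : ZMod p)⁻¹ + ((4 * k + 3 : ℕ) : ZMod p)⁻¹ +
        ((4 * k + 4 : ℕ) : ZMod p)⁻¹) := by
    rw [← Finset.sum_Ioc_consecutive _ (show k ≤ 4 * k by omega)
      (show 4 * k ≤ 4 * (k + 1) by omega)]
    congr 1
    rw [show Finset.Ioc (4 * k) (4 * (k + 1)) = {4 * k + 1, 4 * k + 2, 4 * k + 3, 4 * k + 4} by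
      ext x; simp only [Finset.mem_Ioc, Finset.mem_singleton, Finset.mem_insert]; omega]
    rw [Finset.sum_insert (by simp), Finset.sum_insert (by simp), Finset.sum_insert (by simp),
      Finset.sum_singleton]
    ring
  have e3 : (p : ZMod p) = 0 := ZMod.natCast_self p
  push_cast at e1 e2 ⊢
  rw [e3]
  linear_combination (-4 : ZMod p) * e1 - 4 * e2

theorem Small_loop_succ (p M F n k b h A B : ℕ) : Small_loop p M F (n + 1) k b h A B =
    (Small_fr (k + 1) fun k' =>
      Small_fr (b * (8 * (2 * k + 1) * (4 * k + 1) * (4 * k + 3)) / (k + 1) ^ 3) fun b' =>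
      Small_fr (cond (Nat.ble (4 * (k + 1) + 1) p) (Small_h p k h) 0) fun h' =>
      Small_fr ((A * M + cond (Nat.ble (4 * (k + 1) + 1) p) (b' % p * h') (4 * (b' / p))) % p)
        fun A' =>
      Small_fr ((B * M + b') % p) fun B' => Small_loop p M F n k' b' h' A' B') := rfl

theorem Small_loop_sound (p M F : ℕ) [hp : Fact p.Prime] (n : ℕ) : ∀ k b h A B : ℕ, b = bb k →
    (4 * k < p → (h : ZMod p) = 4 * ∑ j ∈ Finset.Ioc k (4 * k), ((j : ZMod p))⁻¹) →
    (A : ZMod p) = ∑ i ∈ Finset.range (k + 1), gz p i * (M : ZMod p) ^ (k - i) →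
    (B : ZMod p) = ∑ i ∈ Finset.range (k + 1), (bb i : ZMod p) * (M : ZMod p) ^ (k - i) →
    Small_loop p M F n k b h A B = true →
    ∑ i ∈ Finset.range (k + n + 1), gz p i * (M : ZMod p) ^ (k + n - i) =
      F * ∑ i ∈ Finset.range (k + n + 1), (bb i : ZMod p) * (M : ZMod p) ^ (k + n - i) := by
  induction n with
  | zero =>
    intro k b h A B _ _ hA hB hl
    have h1 : A % p = F * B % p := Nat.eq_of_beq_eq_true hl
    simp only [Nat.add_zero]
    rw [← hA, ← hB, ← Nat.cast_mul]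
    rw [ZMod.natCast_eq_natCast_iff]
    exact h1
  | succ n ih =>
    intro k b h A B hb hh hA hB hl
    have h1 : Small_loop p M F (n + 1) k b h A B = Small_loop p M F n (k + 1)
        (b * (8 * (2 * k + 1) * (4 * k + 1) * (4 * k + 3)) / (k + 1) ^ 3)
        (cond (Nat.ble (4 * (k + 1) + 1) p) (Small_h p k h) 0)
        ((A * M + cond (Nat.ble (4 * (k + 1) + 1) p)
          (b * (8 * (2 * k + 1) * (4 * k + 1) * (4 * k + 3)) / (k + 1) ^ 3 % p *
            cond (Nat.ble (4 * (k + 1) + 1) p) (Small_h p k h) 0)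
          (4 * (b * (8 * (2 * k + 1) * (4 * k + 1) * (4 * k + 3)) / (k + 1) ^ 3 / p))) % p)
        ((B * M + b * (8 * (2 * k + 1) * (4 * k + 1) * (4 * k + 3)) / (k + 1) ^ 3) % p) := by
      rw [Small_loop_succ]
      simp only [Small_fr_eq]
    rw [h1] at hl
    have hb' : b * (8 * (2 * k + 1) * (4 * k + 1) * (4 * k + 3)) / (k + 1) ^ 3 = bb (k + 1) := by
      rw [hb, ← Small_bb_succ]
      exact Nat.mul_div_cancel _ (by positivity)
    rw [hb'] at hl
    have hgz : ((cond (Nat.ble (4 * (k + 1) + 1) p)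
          (bb (k + 1) % p * cond (Nat.ble (4 * (k + 1) + 1) p) (Small_h p k h) 0)
          (4 * (bb (k + 1) / p)) : ℕ) : ZMod p) = gz p (k + 1) := by
      rw [gz]
      by_cases hc : 4 * (k + 1) < p
      · have : Nat.ble (4 * (k + 1) + 1) p = true := Nat.ble_eq_true_of_le hc
        rw [this, if_pos hc]
        simp only [cond_true]
        rw [Nat.cast_mul, ZMod.natCast_mod, Small_h_cast p k h hc (hh (by omega))]
      · have : Nat.ble (4 * (k + 1) + 1) p = false := by
          rw [← Bool.not_eq_true]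
          intro h2
          exact hc (Nat.le_of_ble_eq_true h2)
        rw [this, if_neg hc]
        simp
    have h2 := ih (k + 1) (bb (k + 1)) _ _ _ rfl ?_ ?_ ?_ hl
    · rw [show k + (n + 1) = k + 1 + n by ring]
      exact h2
    · intro hc
      have : Nat.ble (4 * (k + 1) + 1) p = true := Nat.ble_eq_true_of_le hc
      rw [this]
      exact Small_h_cast p k h hc (hh (by omega))
    · rw [ZMod.natCast_mod, Nat.cast_add, hgz, Nat.cast_mul, hA,
        Finset.sum_range_succ _ (k + 1), Nat.sub_self, pow_zero, mul_one, Finset.sum_mul]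
      congr 1
      refine Finset.sum_congr rfl fun i hi => ?_
      rw [Finset.mem_range] at hi
      rw [show k + 1 - i = k - i + 1 by omega, pow_succ]
      ring
    · rw [ZMod.natCast_mod, Nat.cast_add, Nat.cast_mul, hB,
        Finset.sum_range_succ _ (k + 1), Nat.sub_self, pow_zero, mul_one, Finset.sum_mul]
      congr 1
      refine Finset.sum_congr rfl fun i hi => ?_
      rw [Finset.mem_range] at hi
      rw [show k + 1 - i = k - i + 1 by omega, pow_succ]
      ring

theorem Small_chk_sound (m : ℤ) (p : ℕ) [hp : Fact p.Prime] (h3 : 3 < p)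
    (hm : ¬ (p : ℤ) ∣ m) (hc : Small_chk m p = true) : Star p m := by
  rw [Small_chk, Small_fr_eq] at hc
  set M : ℕ := (m % ((p ^ 2 : ℕ) : ℤ)).toNat with hM
  have hp2 : ((p ^ 2 : ℕ) : ℤ) ≠ 0 := by
    have := hp.out.pos
    positivity
  have hMe : (M : ℤ) = m % ((p ^ 2 : ℕ) : ℤ) := Int.toNat_of_nonneg (Int.emod_nonneg _ hp2)
  -- m = M + p^2 * t
  obtain ⟨t, ht⟩ : ∃ t : ℤ, m = M + (p : ℤ) ^ 2 * t := by
    refine ⟨m / ((p ^ 2 : ℕ) : ℤ), ?_⟩
    rw [hMe]
    have := Int.emod_add_mul_ediv m ((p ^ 2 : ℕ) : ℤ)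
    push_cast at this ⊢
    linarith
  have hcast : (m : ZMod p) = (M : ZMod p) := by
    rw [ht]
    push_cast
    rw [ZMod.natCast_self]
    ring
  have hm0 : (m : ZMod p) ≠ 0 := by
    rwa [Ne, ZMod.intCast_zmod_eq_zero_iff_dvd]
  have hM0 : (M : ZMod p) ≠ 0 := hcast ▸ hm0
  have hMp : Nat.beq (M % p) 0 = false := by
    rw [← Bool.not_eq_true]
    intro h
    have h2 : M % p = 0 := Nat.eq_of_beq_eq_true h
    exact hM0 ((ZMod.natCast_eq_zero_iff _ _).mpr (Nat.dvd_of_mod_eq_zero h2))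
  rw [hMp] at hc
  simp only [cond_false, Small_fr_eq] at hc
  have h1 := Small_loop_sound p M _ ((p - 1) / 2) 0 1 0 0 1 (by simp [bb]) (by simp) (by
    simp [gz, hp.out.pos]) (by simp [bb]) hc
  rw [Nat.zero_add] at h1
  -- the Fermat quotient
  have hF : ((((M ^ (p - 1) % p ^ 2 - 1) / p : ℕ)) : ZMod p) = fq p m := by
    obtain ⟨r, hr⟩ : ∃ r : ℕ, r = M ^ (p - 1) % p ^ 2 := ⟨_, rfl⟩
    rw [← hr]
    -- m^(p-1) = r + p^2 s
    obtain ⟨s, hs⟩ : ∃ s : ℤ, m ^ (p - 1) = r + (p : ℤ) ^ 2 * s := by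
      have e1 : (p : ℤ) ^ 2 ∣ m ^ (p - 1) - (M : ℤ) ^ (p - 1) := by
        refine Dvd.dvd.trans ⟨t, ?_⟩ (sub_dvd_pow_sub_pow _ _ _)
        rw [ht]
        ring
      obtain ⟨s1, hs1⟩ := e1
      have e2 : (M : ℤ) ^ (p - 1) = r + (p : ℤ) ^ 2 * ((M ^ (p - 1) / p ^ 2 : ℕ) : ℤ) := by
        have := Nat.mod_add_div (M ^ (p - 1)) (p ^ 2)
        rw [← hr] at this
        exact_mod_cast this.symm
      refine ⟨s1 + ((M ^ (p - 1) / p ^ 2 : ℕ) : ℤ), ?_⟩
      linear_combination hs1 + e2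
    have hfer : (p : ℤ) ∣ m ^ (p - 1) - 1 := by
      rw [← ZMod.intCast_zmod_eq_zero_iff_dvd]
      push_cast
      rw [ZMod.pow_card_sub_one_eq_one hm0, sub_self]
    have hrd : (p : ℤ) ∣ (r : ℤ) - 1 := by
      have : (r : ℤ) - 1 = (m ^ (p - 1) - 1) - (p : ℤ) * (p * s) := by rw [hs]; ring
      rw [this]
      exact dvd_sub hfer ⟨_, rfl⟩
    have hr1 : 1 ≤ r := by
      by_contra h
      have : r = 0 := by omega
      rw [this] at hrd
      have h2 : (p : ℤ) ∣ 1 := by
        have := (dvd_neg).mpr hrd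
        simpa using this
      have h3' := Int.le_of_dvd one_pos h2
      omega
    obtain ⟨u, hu⟩ := hrd
    have hu2 : (r - 1 : ℕ) = p * u.toNat := by
      have hu0 : 0 ≤ u := by
        by_contra h
        have h4 : (r : ℤ) - 1 ≥ 0 := by omega
        have h5 : (p : ℤ) * u < 0 := mul_neg_of_pos_of_neg (by have := hp.out.pos; positivity)
          (by omega)
        omega
      have : ((r - 1 : ℕ) : ℤ) = ((p * u.toNat : ℕ) : ℤ) := by
        push_cast [Nat.cast_sub hr1, Int.toNat_of_nonneg hu0]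
        exact hu
      exact_mod_cast this
    have hu0 : 0 ≤ u := by
      by_contra h
      have h4 : (r : ℤ) - 1 ≥ 0 := by omega
      have h5 : (p : ℤ) * u < 0 := mul_neg_of_pos_of_neg (by have := hp.out.pos; positivity)
        (by omega)
      omega
    rw [hu2, Nat.mul_div_cancel_left _ hp.out.pos, fq]
    have e3 : m ^ (p - 1) - 1 = (p : ℤ) * (u + p * s) := by
      rw [hs]
      linear_combination hu
    have hp0 : (p : ℤ) ≠ 0 := by
      have := hp.out.pos
      positivity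
    rw [e3, Int.mul_ediv_cancel_left _ hp0]
    push_cast
    rw [ZMod.natCast_self, zero_mul, add_zero]
    have : ((u.toNat : ℤ) : ZMod p) = (u : ZMod p) := by rw [Int.toNat_of_nonneg hu0]
    exact_mod_cast this
  rw [hF] at h1
  rw [Star, hcast]
  have e4 : ∀ (c : ℕ → ZMod p), ∑ k ∈ Finset.range ((p - 1) / 2 + 1), c k * ((M : ZMod p)⁻¹) ^ k =
      ((M : ZMod p)⁻¹) ^ ((p - 1) / 2) *
        ∑ i ∈ Finset.range ((p - 1) / 2 + 1), c i * (M : ZMod p) ^ ((p - 1) / 2 - i) := by
    intro c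
    rw [Finset.mul_sum]
    refine Finset.sum_congr rfl fun i hi => ?_
    rw [Finset.mem_range] at hi
    have e5 : ((M : ZMod p)⁻¹) ^ ((p - 1) / 2) =
        ((M : ZMod p)⁻¹) ^ i * ((M : ZMod p)⁻¹) ^ ((p - 1) / 2 - i) := by
      rw [← pow_add]
      congr 1
      omega
    have e6 : ((M : ZMod p)⁻¹) ^ ((p - 1) / 2 - i) * (M : ZMod p) ^ ((p - 1) / 2 - i) = 1 := by
      rw [← mul_pow, inv_mul_cancel₀ hM0, one_pow]
    rw [e5]
    linear_combination (-(c i) * ((M : ZMod p)⁻¹) ^ i) * e6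
  rw [e4, e4, h1]
  ring

theorem Small_tr_prime (p : ℕ) [hp : Fact p.Prime] : Small_tr p = true := by
  rw [Small_tr, List.all_eq_true]
  intro d hd
  have hd2 : 2 ≤ d := by
    simp only [List.mem_cons, List.mem_nil_iff, or_false] at hd
    omega
  by_cases h : p ≤ d
  · rw [Nat.ble_eq_true_of_le h, Bool.true_or]
  · have h1 : Nat.beq (p % d) 0 = false := by
      rw [← Bool.not_eq_true]
      intro h2
      have h3 : p % d = 0 := Nat.eq_of_beq_eq_true h2
      rcases (Nat.dvd_prime hp.out).mp (Nat.dvd_of_mod_eq_zero h3) with h4 | h4 <;> omega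
    rw [h1, Bool.not_false, Bool.or_true]

theorem Small_all_sound (m : ℤ) (n : ℕ) (h : Small_all m n = true) (p : ℕ) [hp : Fact p.Prime]
    (h3 : 3 < p) (hpn : p < n) (hm : ¬ (p : ℤ) ∣ m) : Star p m := by
  rw [Small_all, List.all_eq_true] at h
  have h1 := h p (List.mem_range.mpr hpn)
  have hp4 : Nat.ble p 4 = false := by
    rw [← Bool.not_eq_true]
    intro h2
    have h4 : p ≤ 4 := Nat.le_of_ble_eq_true h2
    have h5 : p = 4 := by omega
    have := hp.out
    rw [h5] at this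
    exact absurd this (by decide)
  rw [Small_tr_prime, hp4] at h1
  exact Small_chk_sound m p h3 hm (by simpa using h1)

theorem Small_c1 : Small_all (-199148544 : ℤ) 421 = true := by decide +kernel
theorem Small_c2 : Small_all (24591257856 : ℤ) 421 = true := by decide +kernel
theorem Small_c3 : Small_all (2304 : ℤ) 421 = true := by decide +kernel
theorem Small_c4 : Small_all (-12288 : ℤ) 179 = true := by decide +kernel
theorem Small_c5 : Small_all (648 : ℤ) 179 = true := by decide +kernel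
theorem Small_c6 : Small_all (-6635520 : ℤ) 179 = true := by decide +kernel
theorem Small_c7 : Small_all (2509056 : ℤ) 179 = true := by decide +kernel
theorem Small_c8 : Small_all (-144 : ℤ) 179 = true := by decide +kernel
theorem Small_c9 : Small_all (20736 : ℤ) 157 = true := by decide +kernel
theorem Small_c10 : Small_all (-82944 : ℤ) 157 = true := by decide +kernel
theorem Small_c11 : Small_all (614656 : ℤ) 157 = true := by decide +kernel
theorem Small_c12 : Small_all (81 : ℤ) 157 = true := by decide +kernel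
theorem Small_c13 : Small_all (-3969 : ℤ) 157 = true := by decide +kernel
theorem Small_c14 : Small_all (256 : ℤ) 53 = true := by decide +kernel
theorem Small_c15 : Small_all (-1024 : ℤ) 53 = true := by decide +kernel

theorem small31 (p : ℕ) [Fact p.Prime] (h3 : 3 < p) (h : p < 421) (m : ℤ)
    (hl : m ∈ [(-199148544 : ℤ), 24591257856, 2304]) (hm : ¬ (p : ℤ) ∣ m) : Star p m := by
  simp only [List.mem_cons, List.mem_nil_iff, or_false] at hl
  rcases hl with rfl | rfl | rfl
  · exact Small_all_sound _ _ Small_c1 p h3 h hm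
  · exact Small_all_sound _ _ Small_c2 p h3 h hm
  · exact Small_all_sound _ _ Small_c3 p h3 h hm

theorem small13 (p : ℕ) [Fact p.Prime] (h3 : 3 < p) (h : p < 179) (m : ℤ)
    (hl : m ∈ [(-12288 : ℤ), 648, -6635520, 2509056, -144]) (hm : ¬ (p : ℤ) ∣ m) : Star p m := by
  simp only [List.mem_cons, List.mem_nil_iff, or_false] at hl
  rcases hl with rfl | rfl | rfl | rfl | rfl
  · exact Small_all_sound _ _ Small_c4 p h3 h hm
  · exact Small_all_sound _ _ Small_c5 p h3 h hm
  · exact Small_all_sound _ _ Small_c6 p h3 h hm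
  · exact Small_all_sound _ _ Small_c7 p h3 h hm
  · exact Small_all_sound _ _ Small_c8 p h3 h hm

theorem small11 (p : ℕ) [Fact p.Prime] (h3 : 3 < p) (h : p < 157) (m : ℤ)
    (hl : m ∈ [(20736 : ℤ), -82944, 614656, 81, -3969]) (hm : ¬ (p : ℤ) ∣ m) : Star p m := by
  simp only [List.mem_cons, List.mem_nil_iff, or_false] at hl
  rcases hl with rfl | rfl | rfl | rfl | rfl
  · exact Small_all_sound _ _ Small_c9 p h3 h hm
  · exact Small_all_sound _ _ Small_c10 p h3 h hm
  · exact Small_all_sound _ _ Small_c11 p h3 h hm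
  · exact Small_all_sound _ _ Small_c12 p h3 h hm
  · exact Small_all_sound _ _ Small_c13 p h3 h hm

theorem small3 (p : ℕ) [Fact p.Prime] (h3 : 3 < p) (h : p < 53) (m : ℤ)
    (hl : m ∈ [(256 : ℤ), -1024]) (hm : ¬ (p : ℤ) ∣ m) : Star p m := by
  simp only [List.mem_cons, List.mem_nil_iff, or_false] at hl
  rcases hl with rfl | rfl
  · exact Small_all_sound _ _ Small_c14 p h3 h hm
  · exact Small_all_sound _ _ Small_c15 p h3 h hm

end Pool.Agent.Lib_helper57.AP
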