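import Pool.Agent.Lib_helper57.AP.B6
import Pool.Agent.Lib_helper57.AP.ChkA
import Pool.Agent.Lib_helper57.AP.ChkB
import Pool.Agent.Lib_helper57.AP.ChkC
import Pool.Agent.Lib_helper57.AP.Small
import Pool.Agent.Lib_helper57.AP.R5

/-! Assembly: STAR for all the CM values, and the congruence in `ℚ`. -/

namespace Pool.Agent.Lib_helper57.AP

open Finset

theorem MD.Basic.valid {M : MD} (hb : M.Basic) (hm : ModEq M) : M.Valid :=
  ⟨hb.hd, hb.rel, hb.S0, hb.Q0, hb.D0, hb.N0, hb.Jn0, hb.Jd0, hb.degS, hb.degQ, hb.degD, hb.degN, hm⟩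

/-- the values `256 x` -/
def mvals : List ℤ := [256, -1024, 2304, -12288, 20736, -82944, 614656, 2509056, -6635520,
  -199148544, 24591257856, 81, -144, 648, -3969]

theorem prime_cases (p : ℕ) (hp : p.Prime) (a b : ℕ) (hab : ∀ n ∈ Finset.Ico a b, ¬ n.Prime) (h : a ≤ p) : b ≤ p := by
  by_contra hb
  exact hab p (Finset.mem_Ico.2 ⟨h, by omega⟩) hp

theorem star_all (p : ℕ) [hpf : Fact p.Prime] (h3 : 3 < p) (m : ℤ) (hl : m ∈ mvals)
    (hm : ¬ (p : ℤ) ∣ m) : Star p m := by
  have v3 : M3.Valid := M3_basic.valid M3_meq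
  have v11 : M11.Valid := M11_basic.valid M11_meq
  have v13 : M13.Valid := M13_basic.valid M13_meq
  have v31 : M31.Valid := M31_basic.valid M31_meq
  have k3 : ∀ s, (s, m) ∈ [((-10 : ℤ), (256 : ℤ)), (6, -1024)] → M3.Point s m → Star p m := by
    intro s hs hpt
    by_cases hb : p < 53
    · refine small3 p h3 hb m ?_ hm
      simp only [List.mem_cons, Prod.mk.injEq, List.not_mem_nil, or_false] at hs
      rcases hs with h | h <;> simp [h.2]
    · refine BigStar M3 v3 p h3 ?_ s m hpt (M3_good p (by omega) s m hs hm)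
      show 4 * (4 * 0 + 4 + 2 * 3) + 3 * (3 + 1) ≤ 4 * ((p + 3) / 4)
      omega
  have k11 : ∀ s, (s, m) ∈ [((-4 : ℤ), (20736 : ℤ)), (2, -82944), (4, 614656), (-1, 81), (-3, -3969)] →
      M11.Point s m → Star p m := by
    intro s hs hpt
    by_cases hb : p < 157
    · refine small11 p h3 hb m ?_ hm
      simp only [List.mem_cons, Prod.mk.injEq, List.not_mem_nil, or_false] at hs
      rcases hs with h | h | h | h | h <;> simp [h.2]
    · refine BigStar M11 v11 p h3 ?_ s m hpt (M11_good p (by omega) s m hs hm)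
      show 4 * (4 * 1 + 4 + 2 * 11) + 3 * (11 + 1) ≤ 4 * ((p + 3) / 4)
      omega
  have k13 : ∀ s, (s, m) ∈ [((-3 : ℤ), (-12288 : ℤ)), (-2, 648), (5, -6635520), (4, 2509056), (-1, -144)] →
      M13.Point s m → Star p m := by
    intro s hs hpt
    by_cases hb : p < 179
    · refine small13 p h3 hb m ?_ hm
      simp only [List.mem_cons, Prod.mk.injEq, List.not_mem_nil, or_false] at hs
      rcases hs with h | h | h | h | h <;> simp [h.2]
    · refine BigStar M13 v13 p h3 ?_ s m hpt (M13_good p (by omega) s m hs hm)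
      show 4 * (4 * 1 + 4 + 2 * 13) + 3 * (13 + 1) ≤ 4 * ((p + 3) / 4)
      omega
  have k31 : ∀ s, (s, m) ∈ [((2 : ℤ), (-199148544 : ℤ)), (3, 24591257856), (-1, 2304)] →
      M31.Point s m → Star p m := by
    intro s hs hpt
    by_cases hb : p < 421
    · refine small31 p h3 hb m ?_ hm
      simp only [List.mem_cons, Prod.mk.injEq, List.not_mem_nil, or_false] at hs
      rcases hs with h | h | h <;> simp [h.2]
    · have hne : p ≠ 422 := by
        rintro rfl
        exact absurd hpf.out (by norm_num)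
      refine BigStar M31 v31 p h3 ?_ s m hpt (M31_good p (by omega) s m hs hm)
      show 4 * (4 * 4 + 4 + 2 * 31) + 3 * (31 + 1) ≤ 4 * ((p + 3) / 4)
      omega
  simp only [mvals, List.mem_cons, List.not_mem_nil, or_false] at hl
  rcases hl with h | h | h | h | h | h | h | h | h | h | h | h | h | h | h <;> subst h
  · exact k3 (-10) (by simp) M3_pt1
  · exact k3 6 (by simp) M3_pt2
  · exact k31 (-1) (by simp) M31_pt3
  · exact k13 (-3) (by simp) M13_pt1
  · exact k11 (-4) (by simp) M11_pt1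
  · exact k11 2 (by simp) M11_pt2
  · exact k11 4 (by simp) M11_pt3
  · exact k13 4 (by simp) M13_pt4
  · exact k13 5 (by simp) M13_pt3
  · exact k31 2 (by simp) M31_pt1
  · exact k31 3 (by simp) M31_pt2
  · exact k11 (-1) (by simp) M11_pt4
  · exact k13 (-1) (by simp) M13_pt5
  · exact k13 (-2) (by simp) M13_pt2
  · exact k11 (-3) (by simp) M11_pt5

end Pool.Agent.Lib_helper57.AP
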