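import Pool.Agent.Lib_helper57.AP.CmpApi

/-! Block POApi: `PI j x` is `‖x‖ ≤ p^{-j}`, `PO j T f` says that the coefficients of index `< T` are `PI j`. -/

namespace Pool.Agent.Lib_helper57.AP

open PowerSeries Finset

variable {p : ℕ} [Fact p.Prime]

theorem POApi_ppos : (0 : ℝ) < (p : ℝ) := by
  exact_mod_cast (Nat.Prime.pos (Fact.out : p.Prime))

theorem POApi_pone : (1 : ℝ) < (p : ℝ) := by
  exact_mod_cast (Nat.Prime.one_lt (Fact.out : p.Prime))

theorem PI_zero (j : ℕ) : PI j (0 : ℚ_[p]) := by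
  have := POApi_ppos (p := p)
  simp only [PI, norm_zero]
  positivity

theorem PI_add {j : ℕ} {x y : ℚ_[p]} (hx : PI j x) (hy : PI j y) : PI j (x + y) :=
  (Padic.nonarchimedean x y).trans (max_le hx hy)

theorem PI_neg {j : ℕ} {x : ℚ_[p]} (hx : PI j x) : PI j (-x) := by
  simpa only [PI, norm_neg] using hx

theorem PI_sub {j : ℕ} {x y : ℚ_[p]} (hx : PI j x) (hy : PI j y) : PI j (x - y) := by
  rw [sub_eq_add_neg]; exact PI_add hx (PI_neg hy)

theorem PI_mul {i j : ℕ} {x y : ℚ_[p]} (hx : PI i x) (hy : PI j y) : PI (i + j) (x * y) := by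
  have hp := POApi_ppos (p := p)
  simp only [PI] at *
  rw [norm_mul]
  calc ‖x‖ * ‖y‖ ≤ (p : ℝ) ^ (-(i : ℤ)) * (p : ℝ) ^ (-(j : ℤ)) :=
        mul_le_mul hx hy (norm_nonneg _) (by positivity)
    _ = (p : ℝ) ^ (-((i + j : ℕ) : ℤ)) := by
        rw [← zpow_add₀ hp.ne']; congr 1; push_cast; ring

theorem PI_mono {i j : ℕ} (h : i ≤ j) {x : ℚ_[p]} (hx : PI j x) : PI i x := by
  refine le_trans hx ?_
  apply zpow_le_zpow_right₀ (POApi_pone (p := p)).le
  omega

theorem PI_sum {ι : Type} (s : Finset ι) {j : ℕ} (f : ι → ℚ_[p]) (h : ∀ i ∈ s, PI j (f i)) :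
    PI j (∑ i ∈ s, f i) := by
  classical
  induction s using Finset.induction_on with
  | empty => simpa using PI_zero j
  | insert a s ha ih =>
    rw [Finset.sum_insert ha]
    exact PI_add (h a (Finset.mem_insert_self _ _))
      (ih fun i hi => h i (Finset.mem_insert_of_mem hi))

theorem POApi_one : PI 0 (1 : ℚ_[p]) := by simp [PI]

theorem PI_prod {ι : Type} (s : Finset ι) (f : ι → ℚ_[p]) (h : ∀ i ∈ s, PI 0 (f i)) :
    PI 0 (∏ i ∈ s, f i) := by
  classical
  induction s using Finset.induction_on with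
  | empty => simpa using POApi_one
  | insert a s ha ih =>
    rw [Finset.prod_insert ha]
    exact PI_mul (i := 0) (j := 0) (h a (Finset.mem_insert_self _ _))
      (ih fun i hi => h i (Finset.mem_insert_of_mem hi))

theorem PI_pow {x : ℚ_[p]} (hx : PI 0 x) (n : ℕ) : PI 0 (x ^ n) := by
  induction n with
  | zero => simpa using POApi_one
  | succ n ih => rw [pow_succ]; exact PI_mul (i := 0) (j := 0) ih hx

theorem PI_intCast_iff (j : ℕ) (n : ℤ) : PI j ((n : ℚ_[p])) ↔ ((p : ℤ) ^ j) ∣ n := by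
  have := Padic.norm_int_le_pow_iff_dvd (p := p) n j
  rw [PI, this]

theorem PI_intCast (n : ℤ) : PI 0 ((n : ℚ_[p])) := by
  rw [PI_intCast_iff]; simp

theorem PI_natCast_iff (j n : ℕ) : PI j ((n : ℚ_[p])) ↔ p ^ j ∣ n := by
  have := PI_intCast_iff (p := p) j (n : ℤ)
  rw [← Nat.cast_pow, Int.natCast_dvd_natCast] at this
  simpa using this

theorem PI_natCast (n : ℕ) : PI 0 ((n : ℚ_[p])) := by
  rw [PI_natCast_iff]; simp

theorem PI_p : PI 1 ((p : ℚ_[p])) := by
  rw [PI_natCast_iff]; simp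

theorem PI_inv {x : ℚ_[p]} (hx : ‖x‖ = 1) : PI 0 x⁻¹ := by
  simp [PI, norm_inv, hx]

theorem norm_natCast_eq_one (n : ℕ) (h : ¬ p ∣ n) : ‖(n : ℚ_[p])‖ = 1 := by
  rw [Padic.norm_natCast_eq_one_iff]
  exact (Nat.Prime.coprime_iff_not_dvd Fact.out).2 h

theorem PI_natCast_inv (n : ℕ) (h : ¬ p ∣ n) : PI 0 ((n : ℚ_[p]))⁻¹ :=
  PI_inv (norm_natCast_eq_one n h)

/-- division by `p` -/
theorem PI_of_p_mul {j : ℕ} {x : ℚ_[p]} (hx : PI (j + 1) ((p : ℚ_[p]) * x)) : PI j x := by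
  have hp := POApi_ppos (p := p)
  simp only [PI] at *
  rw [norm_mul, Padic.norm_p] at hx
  have h1 : (p : ℝ) ^ (-((j + 1 : ℕ) : ℤ)) = (p : ℝ)⁻¹ * (p : ℝ) ^ (-(j : ℤ)) := by
    rw [← zpow_neg_one, ← zpow_add₀ hp.ne']; congr 1; push_cast; ring
  rw [h1] at hx
  exact le_of_mul_le_mul_left hx (by positivity)

theorem POApi_p_ne : (p : ℚ_[p]) ≠ 0 := by
  exact_mod_cast (Nat.Prime.ne_zero (Fact.out : p.Prime))

theorem PI_p_inv_mul {j : ℕ} {x : ℚ_[p]} (hx : PI (j + 1) x) : PI j ((p : ℚ_[p])⁻¹ * x) := by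
  apply PI_of_p_mul
  rwa [mul_inv_cancel_left₀ POApi_p_ne]

/-- division by a unit -/
theorem PI_of_unit_mul {j : ℕ} {u x : ℚ_[p]} (hu : ‖u‖ = 1) (hx : PI j (u * x)) : PI j x := by
  simpa only [PI, norm_mul, hu, one_mul] using hx

theorem PI_zero_iff_exists (x : ℚ_[p]) : PI 0 x ↔ ∃ y : ℤ_[p], (y : ℚ_[p]) = x := by
  constructor
  · intro h
    have h1 : ‖x‖ ≤ 1 := by simpa [PI] using h
    exact ⟨⟨x, h1⟩, rfl⟩
  · rintro ⟨y, rfl⟩
    have := y.2
    simpa [PI] using PadicInt.norm_le_one y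

theorem PI_iff_exists (j : ℕ) (x : ℚ_[p]) : PI j x ↔ ∃ y : ℚ_[p], PI 0 y ∧ x = (p : ℚ_[p]) ^ j * y := by
  constructor
  · intro h
    induction j generalizing x with
    | zero => exact ⟨x, h, by simp⟩
    | succ j ih =>
      obtain ⟨y, hy, hxy⟩ := ih _ (PI_p_inv_mul h)
      refine ⟨y, hy, ?_⟩
      rw [pow_succ', mul_assoc, ← hxy, mul_inv_cancel_left₀ POApi_p_ne]
  · rintro ⟨y, hy, rfl⟩
    have h1 : PI j ((p : ℚ_[p]) ^ j) := by
      have := (PI_natCast_iff (p := p) j (p ^ j)).2 dvd_rfl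
      simpa using this
    simpa using PI_mul h1 hy

theorem PI_zmod (j : ℕ) (a : ℤ_[p]) : PI j ((a : ℚ_[p])) ↔ PadicInt.toZModPow j a = 0 := by
  rw [← RingHom.mem_ker, PadicInt.ker_toZModPow, ← PadicInt.norm_le_pow_iff_mem_span_pow]
  rfl

/-! ### power series -/

theorem PO_zero (j T : ℕ) : PO j T (0 : PowerSeries ℚ_[p]) := by
  intro n _
  simpa using PI_zero j

theorem PO_C {j T : ℕ} {a : ℚ_[p]} (ha : PI j a) : PO j T (C a) := by
  intro n _
  rw [coeff_C]
  by_cases h : n = 0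
  · simpa [h] using ha
  · simpa [h] using PI_zero j

theorem PO_one (T : ℕ) : PO 0 T (1 : PowerSeries ℚ_[p]) := by
  have := PO_C (T := T) (POApi_one (p := p))
  simpa using this

theorem PO_add {j T : ℕ} {f g : PowerSeries ℚ_[p]} (hf : PO j T f) (hg : PO j T g) : PO j T (f + g) := by
  intro n hn
  rw [map_add]
  exact PI_add (hf n hn) (hg n hn)

theorem PO_neg {j T : ℕ} {f : PowerSeries ℚ_[p]} (hf : PO j T f) : PO j T (-f) := by
  intro n hn
  rw [map_neg]
  exact PI_neg (hf n hn)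

theorem PO_sub {j T : ℕ} {f g : PowerSeries ℚ_[p]} (hf : PO j T f) (hg : PO j T g) : PO j T (f - g) := by
  intro n hn
  rw [map_sub]
  exact PI_sub (hf n hn) (hg n hn)

theorem PO_mul {i j T : ℕ} {f g : PowerSeries ℚ_[p]} (hf : PO i T f) (hg : PO j T g) :
    PO (i + j) T (f * g) := by
  intro n hn
  rw [coeff_mul]
  apply PI_sum
  rintro ⟨a, b⟩ hab
  rw [Finset.HasAntidiagonal.mem_antidiagonal] at hab
  simp only at hab
  exact PI_mul (hf a (by omega)) (hg b (by omega))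

theorem PO_mul_left {j T : ℕ} {f g : PowerSeries ℚ_[p]} (hf : PO 0 T f) (hg : PO j T g) :
    PO j T (f * g) := by
  have := PO_mul hf hg
  rwa [zero_add] at this

theorem PO_mul_right {j T : ℕ} {f g : PowerSeries ℚ_[p]} (hf : PO j T f) (hg : PO 0 T g) :
    PO j T (f * g) := by
  exact PO_mul hf hg

theorem PO_mono {i j T T' : ℕ} (h : i ≤ j) (hT : T ≤ T') {f : PowerSeries ℚ_[p]} (hf : PO j T' f) :
    PO i T f := by
  intro n hn
  exact PI_mono h (hf n (by omega))

theorem PO_pow {T : ℕ} {f : PowerSeries ℚ_[p]} (hf : PO 0 T f) (n : ℕ) : PO 0 T (f ^ n) := by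
  induction n with
  | zero => simpa using PO_one T
  | succ n ih => rw [pow_succ]; exact PO_mul_right ih hf

theorem PO_sum {ι : Type} (s : Finset ι) {j T : ℕ} (f : ι → PowerSeries ℚ_[p])
    (h : ∀ i ∈ s, PO j T (f i)) : PO j T (∑ i ∈ s, f i) := by
  intro n hn
  rw [map_sum]
  exact PI_sum _ _ fun i hi => h i hi n hn

theorem PO_X_pow (n T : ℕ) : PO 0 T (X ^ n : PowerSeries ℚ_[p]) := by
  intro m _
  rw [coeff_X_pow]
  by_cases h : m = n
  · simpa [h] using POApi_one (p := p)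
  · simpa [h] using PI_zero (p := p) 0

theorem PO_natCast (n T : ℕ) : PO 0 T ((n : PowerSeries ℚ_[p])) := by
  have := PO_C (T := T) (PI_natCast (p := p) n)
  simpa using this

theorem PO_p (T : ℕ) : PO 1 T ((p : PowerSeries ℚ_[p])) := by
  have := PO_C (T := T) (PI_p (p := p))
  simpa using this

theorem PO_cst (T : ℕ) (f : Polynomial ℤ) : PO 0 T (cst ℚ_[p] f) := by
  intro n _
  rw [coeff_cst]
  exact PI_intCast _

theorem PO_th {j T : ℕ} {f : PowerSeries ℚ_[p]} (hf : PO j T f) : PO j T (th f) := by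
  intro n hn
  rw [coeff_th]
  have := PI_mul (PI_natCast (p := p) n) (hf n hn)
  rwa [zero_add] at this

theorem PO_inv {T : ℕ} {f : PowerSeries ℚ_[p]} (hf : PO 0 T f) (h0 : ‖constantCoeff f‖ = 1) :
    PO 0 T f⁻¹ := by
  intro n
  induction n using Nat.strong_induction_on with
  | _ n ih =>
    intro hn
    rw [PowerSeries.coeff_inv]
    split_ifs with h
    · exact PI_inv h0
    · refine PI_mul (i := 0) (j := 0) (PI_neg (PI_inv h0)) ?_
      apply PI_sum
      rintro ⟨a, b⟩ hab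
      rw [Finset.HasAntidiagonal.mem_antidiagonal] at hab
      simp only at hab ⊢
      split_ifs with hb
      · exact PI_mul (i := 0) (j := 0) (hf a (by omega)) (ih b hb (by omega))
      · exact PI_zero 0

/-- division by a unit power series -/
theorem PO_of_mul {j T : ℕ} {f g : PowerSeries ℚ_[p]} (hf : PO 0 T f) (h0 : ‖constantCoeff f‖ = 1)
    (h : PO j T (f * g)) : PO j T g := by
  have hne : constantCoeff f ≠ 0 := by
    intro h1
    rw [h1, norm_zero] at h0
    exact zero_ne_one h0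
  have h1 := PO_mul_left (PO_inv hf h0) h
  rwa [← mul_assoc, PowerSeries.inv_mul_cancel _ hne, one_mul] at h1

theorem POApi_coeff_p_mul (f : PowerSeries ℚ_[p]) (n : ℕ) :
    coeff n ((p : PowerSeries ℚ_[p]) * f) = (p : ℚ_[p]) * coeff n f := by
  rw [← map_natCast (C (R := ℚ_[p])) p, coeff_C_mul]

/-- division by `p` -/
theorem PO_of_p_mul {j T : ℕ} {f : PowerSeries ℚ_[p]} (h : PO (j + 1) T ((p : PowerSeries ℚ_[p]) * f)) :
    PO j T f := by
  intro n hn
  have := h n hn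
  rw [POApi_coeff_p_mul] at this
  exact PI_of_p_mul this

theorem PO_iff_exists {j T : ℕ} (f : PowerSeries ℚ_[p]) :
    PO j T f ↔ ∃ g : PowerSeries ℚ_[p], PO 0 T g ∧ f = (p : PowerSeries ℚ_[p]) ^ j * g := by
  constructor
  · intro h
    induction j generalizing f with
    | zero => exact ⟨f, h, by simp⟩
    | succ j ih =>
      obtain ⟨g, hg, hfg⟩ := ih (C (p : ℚ_[p])⁻¹ * f) (by
        intro n hn
        rw [coeff_C_mul]
        exact PI_p_inv_mul (h n hn))
      refine ⟨g, hg, ?_⟩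
      rw [pow_succ', mul_assoc, ← hfg, ← mul_assoc, ← map_natCast (C (R := ℚ_[p])) p, ← map_mul,
        mul_inv_cancel₀ POApi_p_ne, map_one, one_mul]
  · rintro ⟨g, hg, rfl⟩
    induction j generalizing g with
    | zero => simpa using hg
    | succ j ih =>
      rw [pow_succ', mul_assoc]
      have := PO_mul (PO_p T) (ih g hg)
      rwa [add_comm] at this

/-- `φ f` needs only the coefficients of `f` of index `< n0` when `T ≤ p n0` -/
theorem PO_ph {j n0 T : ℕ} (hT : T ≤ p * n0) {f : PowerSeries ℚ_[p]} (hf : PO j n0 f) :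
    PO j T (ph p ℚ_[p] f) := by
  intro n hn
  rw [coeff_ph]
  split_ifs with h
  · exact hf _ (Nat.div_lt_of_lt_mul (by omega))
  · exact PI_zero j

/-- composition -/
theorem PO_cmp {j T : ℕ} {f z : PowerSeries ℚ_[p]} (hz0 : constantCoeff z = 0) (hf : PO j T f)
    (hz : PO 0 T z) : PO j T (cmp f z) := by
  intro n hn
  rw [coeff_cmp f z hz0 n (n + 1) (by omega)]
  apply PI_sum
  intro k hk
  rw [Finset.mem_range] at hk
  exact PI_mul (i := j) (j := 0) (hf k (by omega)) (PO_pow hz k n hn)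

/-- composition with `X^p ∣ z` -/
theorem PO_cmp' {j n0 : ℕ} {f z : PowerSeries ℚ_[p]} (hzX : X ^ p ∣ z) (hf : PO j n0 f)
    (hz : PO 0 (p * n0) z) : PO j (p * n0) (cmp f z) := by
  have hp : 0 < p := Nat.Prime.pos Fact.out
  have hz0 : constantCoeff z = 0 := by
    rw [← PowerSeries.X_dvd_iff]
    exact (dvd_pow_self X hp.ne').trans hzX
  intro n hn
  rw [coeff_cmp f z hz0 n (n + 1) (by omega)]
  apply PI_sum
  intro k hk
  by_cases hkn : k < n0
  · exact PI_mul (i := j) (j := 0) (hf k hkn) (PO_pow hz k n hn)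
  · push Not at hkn
    have h1 : (X : PowerSeries ℚ_[p]) ^ (p * k) ∣ z ^ k := by
      rw [pow_mul]; exact pow_dvd_pow_of_dvd hzX k
    have h2 : coeff n (z ^ k) = 0 := by
      apply PowerSeries.X_pow_dvd_iff.1 h1 n
      exact lt_of_lt_of_le hn (Nat.mul_le_mul_left p hkn)
    rw [h2, mul_zero]
    exact PI_zero j

theorem PO_ext {f g : PowerSeries ℚ_[p]} {j T : ℕ} (h : PO j T (f - g)) (hg : PO j T g) : PO j T f := by
  have := PO_add h hg
  rwa [sub_add_cancel] at this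

end Pool.Agent.Lib_helper57.AP
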