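import Pool.Agent.Lib_helper57.AP.Defs

/-! Block R1: `∑ C(M,m)² H_{M-m} = C(2M,M)(2H_M - H_{2M})`.
Proof: differentiate the Vandermonde identity `∑_m C(M,m) C(M+x,m) = C(2M+x,M)` at `x=0`. -/

namespace Pool.Agent.Lib_helper57.AP

open Finset

theorem R1_Hn_succ (n : ℕ) : Hn ℚ (n + 1) = Hn ℚ n + ((n + 1 : ℕ) : ℚ)⁻¹ := by
  unfold Hn
  rw [Finset.sum_Ioc_succ_top (Nat.zero_le n)]

theorem R1_sum (M m : ℕ) (h : m ≤ M) :
    ∑ j ∈ range m, (((M - j : ℕ) : ℚ))⁻¹ = Hn ℚ M - Hn ℚ (M - m) := by
  induction m with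
  | zero => simp
  | succ m ih =>
    rw [Finset.sum_range_succ, ih (by omega)]
    obtain ⟨k, hk⟩ : ∃ k, M - m = k + 1 := ⟨M - m - 1, by omega⟩
    have h2 : M - (m + 1) = k := by omega
    rw [hk, h2, R1_Hn_succ]
    ring

theorem R1_deriv (a : ℕ → ℚ) (m : ℕ) (h : ∀ j < m, a j ≠ 0) :
    (∏ j ∈ range m, (Polynomial.X + Polynomial.C (a j))).derivative.eval 0 =
      (∏ j ∈ range m, a j) * ∑ j ∈ range m, (a j)⁻¹ := by
  induction m with
  | zero => simp
  | succ m ih =>
    have h1 := ih fun j hj => h j (by omega)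
    have h2 := h m (by omega)
    rw [Finset.prod_range_succ, Polynomial.derivative_mul, Polynomial.eval_add,
      Polynomial.eval_mul, Polynomial.eval_mul, h1, Finset.prod_range_succ,
      Finset.sum_range_succ, Polynomial.eval_prod]
    simp only [Polynomial.eval_add, Polynomial.eval_X, Polynomial.eval_C, zero_add,
      Polynomial.derivative_add, Polynomial.derivative_X, Polynomial.derivative_C, add_zero,
      Polynomial.eval_one, mul_one]
    field_simp

theorem R1_eval (N m x : ℕ) (h : m ≤ N) :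
    (∏ j ∈ range m, (Polynomial.X + Polynomial.C (((N - j : ℕ) : ℚ)))).eval (x : ℚ) =
      (m.factorial : ℚ) * ((N + x).choose m : ℚ) := by
  rw [Polynomial.eval_prod]
  have h1 : (m.factorial : ℚ) * ((N + x).choose m : ℚ) = ((N + x).descFactorial m : ℚ) := by
    rw [Nat.descFactorial_eq_factorial_mul_choose]; push_cast; ring
  rw [h1, Nat.descFactorial_eq_prod_range]
  push_cast
  apply Finset.prod_congr rfl
  intro j hj
  rw [Finset.mem_range] at hj
  simp only [Polynomial.eval_add, Polynomial.eval_X, Polynomial.eval_C]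
  have h2 : N + x - j = x + (N - j) := by omega
  rw [h2]
  push_cast
  ring

theorem R1_vand (M x : ℕ) : ∑ m ∈ range (M + 1), M.choose m * (M + x).choose m =
    (2 * M + x).choose M := by
  have h := Nat.add_choose_eq M (M + x) M
  rw [show M + (M + x) = 2 * M + x by ring] at h
  rw [h, Finset.Nat.sum_antidiagonal_eq_sum_range_succ
    (fun i j => M.choose i * (M + x).choose j) M]
  rw [← Finset.sum_range_reflect]
  apply Finset.sum_congr rfl
  intro m hm
  rw [Finset.mem_range] at hm
  have h1 : M + 1 - 1 - m = M - m := by omega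
  have h2 : M - (M - m) = m := by omega
  rw [h1, ← Nat.choose_symm (show M - m ≤ M by omega), h2]

theorem R1 (M : ℕ) : ∑ m ∈ range (M + 1), ((M.choose m : ℚ)) ^ 2 * Hn ℚ (M - m) =
    ((2 * M).choose M : ℚ) * (2 * Hn ℚ M - Hn ℚ (2 * M)) := by
  have hpoly : ∑ m ∈ range (M + 1), Polynomial.C ((M.choose m : ℚ) / m.factorial) *
      (∏ j ∈ range m, (Polynomial.X + Polynomial.C (((M - j : ℕ) : ℚ)))) =
      Polynomial.C (1 / (M.factorial : ℚ)) *
      (∏ j ∈ range M, (Polynomial.X + Polynomial.C (((2 * M - j : ℕ) : ℚ)))) := by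
    apply Polynomial.eq_of_infinite_eval_eq
    refine Set.Infinite.mono ?_ (Set.infinite_range_of_injective (Nat.cast_injective (R := ℚ)))
    rintro _ ⟨x, rfl⟩
    change Polynomial.eval _ _ = Polynomial.eval _ _
    rw [Polynomial.eval_finsetSum, Polynomial.eval_mul, Polynomial.eval_C,
      R1_eval (2 * M) M x (by omega)]
    have h1 : ∀ m ∈ range (M + 1), Polynomial.eval (x : ℚ)
        (Polynomial.C ((M.choose m : ℚ) / m.factorial) *
        (∏ j ∈ range m, (Polynomial.X + Polynomial.C (((M - j : ℕ) : ℚ))))) =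
        ((M.choose m * (M + x).choose m : ℕ) : ℚ) := by
      intro m hm
      rw [Finset.mem_range] at hm
      rw [Polynomial.eval_mul, Polynomial.eval_C, R1_eval M m x (by omega)]
      have : (m.factorial : ℚ) ≠ 0 := by exact_mod_cast m.factorial_ne_zero
      push_cast
      field_simp
    rw [Finset.sum_congr rfl h1, ← Nat.cast_sum, R1_vand]
    have : (M.factorial : ℚ) ≠ 0 := by exact_mod_cast M.factorial_ne_zero
    field_simp
  have h0 : ∑ m ∈ range (M + 1), ((M.choose m : ℚ)) ^ 2 = ((2 * M).choose M : ℚ) := by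
    have := R1_vand M 0
    rw [add_zero, add_zero] at this
    rw [← this]
    push_cast
    apply Finset.sum_congr rfl
    intro m _
    ring
  have hd := congrArg (fun P : Polynomial ℚ => P.derivative.eval 0) hpoly
  simp only [Polynomial.derivative_sum, Polynomial.eval_finsetSum, Polynomial.derivative_mul,
    Polynomial.derivative_C, zero_mul, zero_add, Polynomial.eval_mul, Polynomial.eval_C] at hd
  have e1 : ∀ m ∈ range (M + 1), (M.choose m : ℚ) / m.factorial *
      (∏ j ∈ range m, (Polynomial.X + Polynomial.C (((M - j : ℕ) : ℚ)))).derivative.eval 0 =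
      (M.choose m : ℚ) ^ 2 * (Hn ℚ M - Hn ℚ (M - m)) := by
    intro m hm
    rw [Finset.mem_range] at hm
    rw [R1_deriv _ m (fun j hj => by
      have : 0 < M - j := by omega
      exact_mod_cast this.ne'), R1_sum M m (by omega)]
    have h2 : ∏ j ∈ range m, (((M - j : ℕ) : ℚ)) = (m.factorial : ℚ) * (M.choose m : ℚ) := by
      have := R1_eval M m 0 (by omega)
      rw [Polynomial.eval_prod] at this
      simpa using this
    rw [h2]
    have : (m.factorial : ℚ) ≠ 0 := by exact_mod_cast m.factorial_ne_zero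
    field_simp
  have e2 : 1 / (M.factorial : ℚ) *
      (∏ j ∈ range M, (Polynomial.X + Polynomial.C (((2 * M - j : ℕ) : ℚ)))).derivative.eval 0 =
      ((2 * M).choose M : ℚ) * (Hn ℚ (2 * M) - Hn ℚ M) := by
    rw [R1_deriv _ M (fun j hj => by
      have : 0 < 2 * M - j := by omega
      exact_mod_cast this.ne'), R1_sum (2 * M) M (by omega)]
    have h2 : ∏ j ∈ range M, (((2 * M - j : ℕ) : ℚ)) =
        (M.factorial : ℚ) * ((2 * M).choose M : ℚ) := by
      have := R1_eval (2 * M) M 0 (by omega)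
      rw [Polynomial.eval_prod] at this
      simpa using this
    rw [h2, show 2 * M - M = M by omega]
    have : (M.factorial : ℚ) ≠ 0 := by exact_mod_cast M.factorial_ne_zero
    field_simp
  rw [Finset.sum_congr rfl e1, e2] at hd
  have h3 : ∑ m ∈ range (M + 1), (M.choose m : ℚ) ^ 2 * (Hn ℚ M - Hn ℚ (M - m)) =
      ((2 * M).choose M : ℚ) * Hn ℚ M - ∑ m ∈ range (M + 1), (M.choose m : ℚ) ^ 2 * Hn ℚ (M - m) := by
    rw [← h0, Finset.sum_mul, ← Finset.sum_sub_distrib]
    apply Finset.sum_congr rfl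
    intro m _
    ring
  rw [h3] at hd
  linarith

end Pool.Agent.Lib_helper57.AP
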