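import Pool.Agent.Lib_helper57.AP.R1
import Pool.Agent.Lib_helper57.AP.POApi

/-! Block R2: `T_k = ∑_{n=k}^{p-1} C(n+k,2k)² ≡ C(4i,2i)(1+2p(H_{2i}-H_{4i})) mod p²`, `k = q - i`, `q=(p-1)/2`.
Terms with `n+k ≥ p`: `p ∣ C(n+k,2k)`.  Terms `n = k+m'`, `m' ≤ 2i`:
`C(2k+m',m') ≡ (-1)^{m'} C(2i,m')(1-p(H_{2i}-H_{2i-m'}))`; sum with R1, `∑C(2i,m')²=C(4i,2i)`. -/

namespace Pool.Agent.Lib_helper57.AP

open Finset

theorem R2_Hn_succ (K : Type) [Field K] (n : ℕ) : Hn K (n + 1) = Hn K n + ((n : K) + 1)⁻¹ := by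
  unfold Hn
  rw [Finset.sum_Ioc_succ_top (by omega)]
  push_cast
  ring

variable {p : ℕ} [Fact p.Prime]

theorem R2_inv {n : ℕ} (h0 : 0 < n) (h : n < p) : PI 0 ((n : ℚ_[p]))⁻¹ :=
  PI_natCast_inv n (fun hd => absurd (Nat.le_of_dvd h0 hd) (by omega))

theorem R2_PI_Hn {n : ℕ} (h : n < p) : PI 0 (Hn ℚ_[p] n) := by
  unfold Hn
  apply PI_sum
  intro j hj
  rw [Finset.mem_Ioc] at hj
  exact R2_inv hj.1 (by omega)

theorem R2_sq {x : ℚ_[p]} (hx : PI 0 x) : PI 2 ((p : ℚ_[p]) ^ 2 * x) := by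
  have h1 : PI 2 ((p : ℚ_[p]) ^ 2) := by
    rw [sq]
    exact PI_mul PI_p PI_p
  exact PI_mul h1 hx

theorem R2_mul0 {j : ℕ} {x y : ℚ_[p]} (hx : PI j x) (hy : PI 0 y) : PI j (x * y) := PI_mul hx hy

theorem R2_one : PI 0 (1 : ℚ_[p]) := by
  have := PI_natCast (p := p) 1
  simpa using this

theorem R2_term (i k : ℕ) (hik : 2 * i + 2 * k + 1 = p) (m : ℕ) : m ≤ 2 * i →
    PI 2 (((2 * k + m).choose m : ℚ_[p]) - (-1) ^ m * ((2 * i).choose m : ℚ_[p]) *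
      (1 - (p : ℚ_[p]) * (Hn ℚ_[p] (2 * i) - Hn ℚ_[p] (2 * i - m)))) := by
  induction m with
  | zero =>
    intro _
    have : ((2 * k + 0).choose 0 : ℚ_[p]) - (-1) ^ 0 * ((2 * i).choose 0 : ℚ_[p]) *
      (1 - (p : ℚ_[p]) * (Hn ℚ_[p] (2 * i) - Hn ℚ_[p] (2 * i - 0))) = 0 := by
      simp
    rw [this]
    exact PI_zero 2
  | succ m ih =>
    intro hm
    have h1 := ih (by omega)
    obtain ⟨s, hs⟩ : ∃ s, 2 * i = m + 1 + s := ⟨2 * i - (m + 1), by omega⟩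
    have e1 : 2 * i - m = s + 1 := by omega
    have e2 : 2 * i - (m + 1) = s := by omega
    rw [e1] at h1
    rw [e2]
    rw [R2_Hn_succ ℚ_[p] s] at h1
    have hm0 : ((m : ℚ_[p]) + 1) ≠ 0 := by
      have : ((m + 1 : ℕ) : ℚ_[p]) ≠ 0 := Nat.cast_ne_zero.2 (by omega)
      push_cast at this
      exact this
    have hs0 : ((s : ℚ_[p]) + 1) ≠ 0 := by
      have : ((s + 1 : ℕ) : ℚ_[p]) ≠ 0 := Nat.cast_ne_zero.2 (by omega)
      push_cast at this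
      exact this
    have hmi : PI 0 (((m : ℚ_[p]) + 1))⁻¹ := by
      have := R2_inv (p := p) (n := m + 1) (by omega) (by omega)
      push_cast at this
      exact this
    have hsi : PI 0 (((s : ℚ_[p]) + 1))⁻¹ := by
      have := R2_inv (p := p) (n := s + 1) (by omega) (by omega)
      push_cast at this
      exact this
    -- `C(2k+m+1,m+1) (m+1) = C(2k+m,m) (2k+m+1)`
    have hA : ((2 * k + (m + 1)).choose (m + 1) : ℚ_[p]) * ((m : ℚ_[p]) + 1) =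
        ((2 * k + m).choose m : ℚ_[p]) * ((p : ℚ_[p]) - ((s : ℚ_[p]) + 1)) := by
      have h4 := Nat.add_one_mul_choose_eq (2 * k + m) m
      have h5 : ((2 * k + m + 1 : ℕ) : ℚ_[p]) * ((2 * k + m).choose m : ℚ_[p]) =
          ((2 * k + m + 1).choose (m + 1) : ℚ_[p]) * ((m + 1 : ℕ) : ℚ_[p]) := by
        exact_mod_cast h4
      have h6 : ((2 * k + m + 1 : ℕ) : ℚ_[p]) = (p : ℚ_[p]) - ((s : ℚ_[p]) + 1) := by
        have h7 : p = (2 * k + m + 1) + (s + 1) := by omega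
        have h8 : (p : ℚ_[p]) = ((2 * k + m + 1 : ℕ) : ℚ_[p]) + ((s + 1 : ℕ) : ℚ_[p]) := by
          rw [← Nat.cast_add, ← h7]
        rw [h8]
        push_cast
        ring
      rw [h6] at h5
      push_cast at h5
      have h9 : 2 * k + (m + 1) = 2 * k + m + 1 := by ring
      rw [h9]
      linear_combination -h5
    have hB : ((2 * i).choose (m + 1) : ℚ_[p]) * ((m : ℚ_[p]) + 1) =
        ((2 * i).choose m : ℚ_[p]) * ((s : ℚ_[p]) + 1) := by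
      have h4 := Nat.choose_succ_right_eq (2 * i) m
      rw [e1] at h4
      have h5 : ((2 * i).choose (m + 1) : ℚ_[p]) * ((m + 1 : ℕ) : ℚ_[p]) =
          ((2 * i).choose m : ℚ_[p]) * ((s + 1 : ℕ) : ℚ_[p]) := by exact_mod_cast h4
      push_cast at h5
      exact h5
    have hHs : PI 0 (Hn ℚ_[p] s) := R2_PI_Hn (by omega)
    have hHi : PI 0 (Hn ℚ_[p] (2 * i)) := R2_PI_Hn (by omega)
    set μ : ℚ_[p] := ((m : ℚ_[p]) + 1)⁻¹ with hμ
    set u : ℚ_[p] := ((s : ℚ_[p]) + 1)⁻¹ with hu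
    set A : ℚ_[p] := ((2 * k + m).choose m : ℚ_[p]) with hAd
    set B : ℚ_[p] := ((2 * i).choose m : ℚ_[p]) with hBd
    set x : ℚ_[p] := Hn ℚ_[p] (2 * i) - (Hn ℚ_[p] s + u) with hx
    have hmm : ((m : ℚ_[p]) + 1) * μ = 1 := mul_inv_cancel₀ hm0
    have hss : ((s : ℚ_[p]) + 1) * u = 1 := mul_inv_cancel₀ hs0
    have hA' : ((2 * k + (m + 1)).choose (m + 1) : ℚ_[p]) =
        A * ((p : ℚ_[p]) - ((s : ℚ_[p]) + 1)) * μ := by
      rw [← hA, mul_assoc, hmm, mul_one]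
    have hB' : ((2 * i).choose (m + 1) : ℚ_[p]) = B * ((s : ℚ_[p]) + 1) * μ := by
      rw [← hB, mul_assoc, hmm, mul_one]
    have hxi : PI 0 x := PI_sub hHi (PI_add hHs hsi)
    have hsc : PI 0 ((s : ℚ_[p]) + 1) := by
      have := PI_natCast (p := p) (s + 1)
      push_cast at this
      exact this
    have hpi : PI 0 (p : ℚ_[p]) := PI_natCast p
    have hsg : PI 0 ((-1 : ℚ_[p]) ^ m) := PI_pow (PI_neg R2_one) m
    have e : ((2 * k + (m + 1)).choose (m + 1) : ℚ_[p]) -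
        (-1) ^ (m + 1) * ((2 * i).choose (m + 1) : ℚ_[p]) *
        (1 - (p : ℚ_[p]) * (Hn ℚ_[p] (2 * i) - Hn ℚ_[p] s)) =
        (A - (-1) ^ m * B * (1 - (p : ℚ_[p]) * x)) *
          (((p : ℚ_[p]) - ((s : ℚ_[p]) + 1)) * μ) -
        (p : ℚ_[p]) ^ 2 * ((-1) ^ m * (B * (x * μ))) := by
      rw [hA', hB']
      have e3 : Hn ℚ_[p] (2 * i) - Hn ℚ_[p] s = x + u := by rw [hx]; ring
      rw [e3]
      have e4 : B * ((s : ℚ_[p]) + 1) * μ * ((p : ℚ_[p]) * (x + u)) =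
          B * ((s : ℚ_[p]) + 1) * μ * (p : ℚ_[p]) * x + B * μ * (p : ℚ_[p]) := by
        linear_combination (B * μ * (p : ℚ_[p])) * hss
      rw [pow_succ]
      linear_combination ((-1 : ℚ_[p]) ^ m * -1) * e4
    rw [e]
    refine PI_sub (R2_mul0 h1 (R2_mul0 (PI_sub hpi hsc) hmi)) (R2_sq ?_)
    exact R2_mul0 hsg (R2_mul0 (PI_natCast _) (R2_mul0 hxi hmi))

theorem R2 (p : ℕ) [Fact p.Prime] (hp : 3 < p) (i k : ℕ) (hik : i + k = (p - 1) / 2) :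
    PI 2 (∑ n ∈ Ico k p, ((n + k).choose (2 * k) : ℚ_[p]) ^ 2
      - ((4 * i).choose (2 * i) : ℚ_[p])
        * (1 + 2 * (p : ℚ_[p]) * (Hn ℚ_[p] (2 * i) - Hn ℚ_[p] (4 * i)))) := by
  have hpp := (Fact.out : p.Prime)
  have hodd : p % 2 = 1 := by
    rcases hpp.eq_two_or_odd with h2 | h2
    · omega
    · exact h2
  have hik' : 2 * i + 2 * k + 1 = p := by omega
  have h2 : PI 0 (2 : ℚ_[p]) := by
    have := PI_natCast (p := p) 2
    simpa using this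
  have hpi : PI 0 (p : ℚ_[p]) := PI_natCast p
  -- reindex
  have e1 : ∑ n ∈ Ico k p, ((n + k).choose (2 * k) : ℚ_[p]) ^ 2 =
      ∑ m ∈ range (2 * i + 1), ((2 * k + m).choose m : ℚ_[p]) ^ 2 +
      ∑ n ∈ Ico (k + (2 * i + 1)) p, ((n + k).choose (2 * k) : ℚ_[p]) ^ 2 := by
    rw [← Finset.sum_Ico_consecutive _ (show k ≤ k + (2 * i + 1) by omega)
      (show k + (2 * i + 1) ≤ p by omega)]
    congr 1
    rw [Finset.sum_Ico_eq_sum_range]
    have e2 : k + (2 * i + 1) - k = 2 * i + 1 := by omega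
    rw [e2]
    refine Finset.sum_congr rfl fun m _ => ?_
    have e3 : k + m + k = 2 * k + m := by ring
    rw [e3, Nat.choose_symm_add]
  have hbig : PI 2 (∑ n ∈ Ico (k + (2 * i + 1)) p, ((n + k).choose (2 * k) : ℚ_[p]) ^ 2) := by
    apply PI_sum
    intro n hn
    rw [Finset.mem_Ico] at hn
    obtain ⟨r, hr⟩ : ∃ r, n = k + r := ⟨n - k, by omega⟩
    have hd : p ∣ (n + k).choose (2 * k) := by
      have := Nat.Prime.dvd_choose_add hpp (a := 2 * k) (b := r) (by omega) (by omega) (by omega)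
      have e3 : n + k = 2 * k + r := by omega
      rw [e3]
      exact this
    have h1 : PI 1 ((n + k).choose (2 * k) : ℚ_[p]) := by
      rw [PI_natCast_iff]
      simpa using hd
    rw [sq]
    exact PI_mul h1 h1
  -- the main sum
  have hmain : PI 2 (∑ m ∈ range (2 * i + 1), (((2 * k + m).choose m : ℚ_[p]) ^ 2 -
      (((2 * i).choose m : ℚ_[p]) ^ 2 * (1 - 2 * (p : ℚ_[p]) *
        (Hn ℚ_[p] (2 * i) - Hn ℚ_[p] (2 * i - m)))))) := by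
    apply PI_sum
    intro m hm
    have hm' : m ≤ 2 * i := by have := Finset.mem_range.1 hm; omega
    have h1 := R2_term i k hik' m hm'
    set A : ℚ_[p] := ((2 * k + m).choose m : ℚ_[p]) with hAd
    set B : ℚ_[p] := ((2 * i).choose m : ℚ_[p]) with hBd
    set x : ℚ_[p] := Hn ℚ_[p] (2 * i) - Hn ℚ_[p] (2 * i - m) with hx
    have hxi : PI 0 x := PI_sub (R2_PI_Hn (by omega)) (R2_PI_Hn (by omega))
    have hA : PI 0 A := PI_natCast _
    have hB : PI 0 B := PI_natCast _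
    have hsg : PI 0 ((-1 : ℚ_[p]) ^ m) := PI_pow (PI_neg R2_one) m
    have hs2 : ((-1 : ℚ_[p]) ^ m) ^ 2 = 1 := by
      rw [← pow_mul, mul_comm, pow_mul]
      norm_num
    have e : A ^ 2 - B ^ 2 * (1 - 2 * (p : ℚ_[p]) * x) =
        (A - (-1) ^ m * B * (1 - (p : ℚ_[p]) * x)) * (A + (-1) ^ m * B * (1 - (p : ℚ_[p]) * x)) +
        (p : ℚ_[p]) ^ 2 * (B ^ 2 * x ^ 2) := by
      have e5 : (A - (-1) ^ m * B * (1 - (p : ℚ_[p]) * x)) *
          (A + (-1) ^ m * B * (1 - (p : ℚ_[p]) * x)) =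
          A ^ 2 - ((-1) ^ m) ^ 2 * (B ^ 2 * (1 - (p : ℚ_[p]) * x) ^ 2) := by ring
      rw [e5, hs2]
      ring
    rw [e]
    refine PI_add (R2_mul0 h1 (PI_add hA (R2_mul0 (R2_mul0 hsg hB)
      (PI_sub R2_one (R2_mul0 hpi hxi))))) (R2_sq (R2_mul0 (PI_pow hB 2) (PI_pow hxi 2)))
  -- exact evaluation
  have hcast : ∀ n : ℕ, ((Hn ℚ n : ℚ) : ℚ_[p]) = Hn ℚ_[p] n := by
    intro n
    unfold Hn
    push_cast
    rfl
  have hsq : ∑ m ∈ range (2 * i + 1), ((2 * i).choose m : ℚ_[p]) ^ 2 =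
      ((4 * i).choose (2 * i) : ℚ_[p]) := by
    have := Nat.sum_range_choose_sq (2 * i)
    have e6 : 2 * (2 * i) = 4 * i := by ring
    rw [e6] at this
    exact_mod_cast this
  have hR1 : ∑ m ∈ range (2 * i + 1), ((2 * i).choose m : ℚ_[p]) ^ 2 * Hn ℚ_[p] (2 * i - m) =
      ((4 * i).choose (2 * i) : ℚ_[p]) * (2 * Hn ℚ_[p] (2 * i) - Hn ℚ_[p] (4 * i)) := by
    have := R1 (2 * i)
    have e6 : 2 * (2 * i) = 4 * i := by ring
    rw [e6] at this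
    have h3 := congrArg (fun x : ℚ => (x : ℚ_[p])) this
    push_cast at h3
    simp only [hcast] at h3
    exact h3
  have hex : ∑ m ∈ range (2 * i + 1), (((2 * i).choose m : ℚ_[p]) ^ 2 * (1 - 2 * (p : ℚ_[p]) *
        (Hn ℚ_[p] (2 * i) - Hn ℚ_[p] (2 * i - m)))) =
      ((4 * i).choose (2 * i) : ℚ_[p])
        * (1 + 2 * (p : ℚ_[p]) * (Hn ℚ_[p] (2 * i) - Hn ℚ_[p] (4 * i))) := by
    have e7 : ∀ m ∈ range (2 * i + 1), (((2 * i).choose m : ℚ_[p]) ^ 2 * (1 - 2 * (p : ℚ_[p]) *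
        (Hn ℚ_[p] (2 * i) - Hn ℚ_[p] (2 * i - m)))) =
        ((2 * i).choose m : ℚ_[p]) ^ 2 * (1 - 2 * (p : ℚ_[p]) * Hn ℚ_[p] (2 * i)) +
        ((2 * i).choose m : ℚ_[p]) ^ 2 * Hn ℚ_[p] (2 * i - m) * (2 * (p : ℚ_[p])) := by
      intro m _
      ring
    rw [Finset.sum_congr rfl e7, Finset.sum_add_distrib, ← Finset.sum_mul, ← Finset.sum_mul,
      hsq, hR1]
    ring
  rw [Finset.sum_sub_distrib, hex] at hmain
  rw [e1]
  have e8 : ∑ m ∈ range (2 * i + 1), ((2 * k + m).choose m : ℚ_[p]) ^ 2 +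
      ∑ n ∈ Ico (k + (2 * i + 1)) p, ((n + k).choose (2 * k) : ℚ_[p]) ^ 2 -
      ((4 * i).choose (2 * i) : ℚ_[p])
        * (1 + 2 * (p : ℚ_[p]) * (Hn ℚ_[p] (2 * i) - Hn ℚ_[p] (4 * i))) =
      (∑ m ∈ range (2 * i + 1), ((2 * k + m).choose m : ℚ_[p]) ^ 2 -
      ((4 * i).choose (2 * i) : ℚ_[p])
        * (1 + 2 * (p : ℚ_[p]) * (Hn ℚ_[p] (2 * i) - Hn ℚ_[p] (4 * i)))) +
      ∑ n ∈ Ico (k + (2 * i + 1)) p, ((n + k).choose (2 * k) : ℚ_[p]) ^ 2 := by ring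
  rw [e8]
  exact PI_add hmain hbig

end Pool.Agent.Lib_helper57.AP
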