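import Pool.Agent.Lib_helper57.AP.POApi

/-! Block R3: `C(2k,k)² ≡ 256^q C(2i,i)² 256^{-i} (1+2p(H_i-H_{2i})) mod p²`, `k = q - i`, `q=(p-1)/2`.
Induction on `k` from `k = 0` (there: `C(p-1,m) ≡ (-1)^m (1 - p H_m) mod p²`). -/

namespace Pool.Agent.Lib_helper57.AP

open Finset

theorem R3_Hn_succ (K : Type) [Field K] (n : ℕ) : Hn K (n + 1) = Hn K n + ((n : K) + 1)⁻¹ := by
  unfold Hn
  rw [Finset.sum_Ioc_succ_top (by omega)]
  push_cast
  ring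

theorem R3_Hn_zero (K : Type) [Field K] : Hn K 0 = 0 := by
  simp [Hn]

variable {p : ℕ} [Fact p.Prime]

theorem R3_inv {n : ℕ} (h0 : 0 < n) (h : n < p) : PI 0 ((n : ℚ_[p]))⁻¹ :=
  PI_natCast_inv n (fun hd => absurd (Nat.le_of_dvd h0 hd) (by omega))

theorem R3_PI_Hn {n : ℕ} (h : n < p) : PI 0 (Hn ℚ_[p] n) := by
  unfold Hn
  apply PI_sum
  intro j hj
  rw [Finset.mem_Ioc] at hj
  exact R3_inv hj.1 (by omega)

theorem R3_sq {x : ℚ_[p]} (hx : PI 0 x) : PI 2 ((p : ℚ_[p]) ^ 2 * x) := by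
  have h1 : PI 2 ((p : ℚ_[p]) ^ 2) := by
    rw [sq]
    exact PI_mul PI_p PI_p
  exact PI_mul h1 hx

theorem R3_mul0 {j : ℕ} {x y : ℚ_[p]} (hx : PI j x) (hy : PI 0 y) : PI j (x * y) := PI_mul hx hy

theorem R3_one : PI 0 (1 : ℚ_[p]) := by
  have := PI_natCast (p := p) 1
  simpa using this

theorem R3_neg_one_pow (m : ℕ) : PI 0 ((-1 : ℚ_[p]) ^ m) := PI_pow (PI_neg R3_one) m

/-- `C(p-1,m) ≡ (-1)^m (1 - p H_m) mod p²` -/
theorem R3_choose (m : ℕ) (hm : m < p) :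
    PI 2 (((p - 1).choose m : ℚ_[p]) - (-1) ^ m * (1 - (p : ℚ_[p]) * Hn ℚ_[p] m)) := by
  induction m with
  | zero =>
    simp only [Nat.choose_zero_right, R3_Hn_zero]
    have : ((1 : ℕ) : ℚ_[p]) - (-1) ^ 0 * (1 - (p : ℚ_[p]) * 0) = 0 := by
      push_cast
      ring
    rw [this]
    exact PI_zero 2
  | succ m ih =>
    have h1 := ih (by omega)
    have hp := (Fact.out : p.Prime)
    have h2 : ((m + 1 : ℕ) : ℚ_[p]) ≠ 0 := by exact_mod_cast (Nat.succ_ne_zero m)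
    have hinv : PI 0 (((m : ℚ_[p]) + 1))⁻¹ := by
      have := R3_inv (p := p) (n := m + 1) (by omega) hm
      push_cast at this
      exact this
    push_cast at h2
    have h3 : ((p - 1).choose (m + 1) : ℚ_[p]) * ((m : ℚ_[p]) + 1) =
        ((p - 1).choose m : ℚ_[p]) * ((p : ℚ_[p]) - ((m : ℚ_[p]) + 1)) := by
      have h4 := Nat.choose_succ_right_eq (p - 1) m
      have h5 : ((p - 1).choose (m + 1) : ℚ_[p]) * ((m + 1 : ℕ) : ℚ_[p]) =
          ((p - 1).choose m : ℚ_[p]) * ((p - 1 - m : ℕ) : ℚ_[p]) := by exact_mod_cast h4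
      have h6 : ((p - 1 - m : ℕ) : ℚ_[p]) = (p : ℚ_[p]) - ((m : ℚ_[p]) + 1) := by
        have h7 : p = (p - 1 - m) + (m + 1) := by omega
        have h8 : (p : ℚ_[p]) = ((p - 1 - m : ℕ) : ℚ_[p]) + ((m + 1 : ℕ) : ℚ_[p]) := by
          rw [← Nat.cast_add, ← h7]
        rw [h8]
        push_cast
        ring
      rw [h6] at h5
      push_cast at h5
      exact h5
    rw [R3_Hn_succ]
    set u : ℚ_[p] := ((m : ℚ_[p]) + 1)⁻¹ with hu
    set A : ℚ_[p] := ((p - 1).choose m : ℚ_[p]) with hA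
    set H : ℚ_[p] := Hn ℚ_[p] m with hH
    have h9 : ((p - 1).choose (m + 1) : ℚ_[p]) = A * ((p : ℚ_[p]) * u - 1) := by
      have hu1 : ((m : ℚ_[p]) + 1) * u = 1 := mul_inv_cancel₀ h2
      calc ((p - 1).choose (m + 1) : ℚ_[p]) =
          ((p - 1).choose (m + 1) : ℚ_[p]) * ((m : ℚ_[p]) + 1) * u := by
            rw [mul_assoc, hu1, mul_one]
        _ = A * ((p : ℚ_[p]) * u - ((m : ℚ_[p]) + 1) * u) := by rw [h3]; ring
        _ = _ := by rw [hu1]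
    have hHi : PI 0 H := R3_PI_Hn (by omega)
    have hpu : PI 0 ((p : ℚ_[p]) * u - 1) :=
      PI_sub (R3_mul0 (PI_mono (by omega) PI_p) hinv) R3_one
    have e : ((p - 1).choose (m + 1) : ℚ_[p]) - (-1) ^ (m + 1) * (1 - (p : ℚ_[p]) * (H + u)) =
        (A - (-1) ^ m * (1 - (p : ℚ_[p]) * H)) * ((p : ℚ_[p]) * u - 1) -
        (p : ℚ_[p]) ^ 2 * ((-1) ^ m * (H * u)) := by
      rw [h9]
      ring
    rw [e]
    exact PI_sub (R3_mul0 h1 hpu) (R3_sq (R3_mul0 (R3_neg_one_pow m) (R3_mul0 hHi hinv)))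

theorem R3_wolst (hp : 3 < p) : PI 1 (Hn ℚ_[p] (p - 1)) := by
  have h := R3_choose (p := p) (p - 1) (by omega)
  have hpp := (Fact.out : p.Prime)
  have hodd : Even (p - 1) := by
    rcases hpp.eq_two_or_odd' with h2 | h2
    · omega
    · obtain ⟨r, hr⟩ := h2
      exact ⟨r, by omega⟩
  rw [Nat.choose_self, hodd.neg_one_pow] at h
  have e : ((1 : ℕ) : ℚ_[p]) - 1 * (1 - (p : ℚ_[p]) * Hn ℚ_[p] (p - 1)) =
      (p : ℚ_[p]) * Hn ℚ_[p] (p - 1) := by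
    push_cast
    ring
  rw [e] at h
  exact PI_of_p_mul h

theorem R3_aux (hp : 3 < p) (k : ℕ) : ∀ i : ℕ, i + k = (p - 1) / 2 →
    PI 2 (((2 * k).choose k : ℚ_[p]) ^ 2
      - (256 : ℚ_[p]) ^ ((p - 1) / 2) * ((2 * i).choose i : ℚ_[p]) ^ 2 * ((256 : ℚ_[p]) ^ i)⁻¹
        * (1 + 2 * (p : ℚ_[p]) * (Hn ℚ_[p] i - Hn ℚ_[p] (2 * i)))) := by
  have hpp := (Fact.out : p.Prime)
  have hodd : p % 2 = 1 := by
    rcases hpp.eq_two_or_odd with h2 | h2
    · omega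
    · exact h2
  have h256 : PI 0 ((256 : ℚ_[p]))⁻¹ := by
    have h1 : ¬ p ∣ 256 := by
      intro hd
      have h2 : p ∣ 2 ^ 8 := by norm_num; exact hd
      have := hpp.dvd_of_dvd_pow h2
      have := Nat.le_of_dvd (by norm_num) this
      omega
    have := PI_natCast_inv (p := p) 256 h1
    simpa using this
  have h256n : (256 : ℚ_[p]) ≠ 0 := by norm_num
  have h256' : PI 0 (256 : ℚ_[p]) := by
    have := PI_natCast (p := p) 256
    simpa using this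
  induction k with
  | zero =>
    intro i hi
    have hi2 : 2 * i = p - 1 := by omega
    have hi' : i = (p - 1) / 2 := by omega
    rw [← hi', hi2]
    have hC := R3_choose (p := p) i (by omega)
    have hW := R3_wolst hp
    set C : ℚ_[p] := ((p - 1).choose i : ℚ_[p]) with hCd
    set H : ℚ_[p] := Hn ℚ_[p] i with hH
    set W : ℚ_[p] := Hn ℚ_[p] (p - 1) with hWd
    have hHi : PI 0 H := R3_PI_Hn (by omega)
    have hCi : PI 0 C := PI_natCast _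
    have h2 : PI 0 (2 : ℚ_[p]) := by
      have := PI_natCast (p := p) 2
      simpa using this
    have h4 : PI 0 (4 : ℚ_[p]) := by
      have := PI_natCast (p := p) 4
      simpa using this
    have hpi : PI 0 (p : ℚ_[p]) := PI_natCast p
    have hsg : ((-1 : ℚ_[p]) ^ i) ^ 2 = 1 := by
      rw [← pow_mul, mul_comm, pow_mul]
      norm_num
    have hpow : (256 : ℚ_[p]) ^ i * ((256 : ℚ_[p]) ^ i)⁻¹ = 1 :=
      mul_inv_cancel₀ (pow_ne_zero _ h256n)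
    have e : ((2 * 0).choose 0 : ℚ_[p]) ^ 2 - (256 : ℚ_[p]) ^ i * C ^ 2 * ((256 : ℚ_[p]) ^ i)⁻¹ *
        (1 + 2 * (p : ℚ_[p]) * (H - W)) =
        -((C - (-1) ^ i * (1 - (p : ℚ_[p]) * H)) *
          ((C + (-1) ^ i * (1 - (p : ℚ_[p]) * H)) * (1 + 2 * (p : ℚ_[p]) * (H - W)))) +
        ((p : ℚ_[p]) ^ 2 * (H ^ 2 * (4 - 1) - 2 * (p : ℚ_[p]) * H ^ 2 * (H - W) - 4 * H * W)
          + (p : ℚ_[p]) * W * 2) := by
      have e1 : (256 : ℚ_[p]) ^ i * C ^ 2 * ((256 : ℚ_[p]) ^ i)⁻¹ = C ^ 2 := by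
        calc (256 : ℚ_[p]) ^ i * C ^ 2 * ((256 : ℚ_[p]) ^ i)⁻¹ =
            ((256 : ℚ_[p]) ^ i * ((256 : ℚ_[p]) ^ i)⁻¹) * C ^ 2 := by ring
          _ = C ^ 2 := by rw [hpow, one_mul]
      rw [e1]
      simp only [Nat.mul_zero, Nat.choose_self, Nat.cast_one]
      have e2 : (C - (-1) ^ i * (1 - (p : ℚ_[p]) * H)) *
          ((C + (-1) ^ i * (1 - (p : ℚ_[p]) * H)) * (1 + 2 * (p : ℚ_[p]) * (H - W))) =
          (C ^ 2 - ((-1) ^ i) ^ 2 * (1 - (p : ℚ_[p]) * H) ^ 2) *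
            (1 + 2 * (p : ℚ_[p]) * (H - W)) := by ring
      rw [e2, hsg]
      ring
    rw [e]
    have hWi : PI 0 W := PI_mono (by omega) hW
    have hd : PI 0 (1 + 2 * (p : ℚ_[p]) * (H - W)) :=
      PI_add R3_one (R3_mul0 (R3_mul0 h2 hpi) (PI_sub hHi hWi))
    have hd2 : PI 0 (C + (-1) ^ i * (1 - (p : ℚ_[p]) * H)) :=
      PI_add hCi (R3_mul0 (R3_neg_one_pow i) (PI_sub R3_one (R3_mul0 hpi hHi)))
    refine PI_add (PI_neg (R3_mul0 hC (R3_mul0 hd2 hd))) (PI_add (R3_sq ?_) ?_)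
    · refine PI_sub (PI_sub (R3_mul0 (PI_pow hHi 2) (PI_sub h4 R3_one))
        (R3_mul0 (R3_mul0 (R3_mul0 h2 hpi) (PI_pow hHi 2)) (PI_sub hHi hWi)))
        (R3_mul0 (R3_mul0 h4 hHi) hWi)
    · exact R3_mul0 (PI_mul PI_p hW) h2
  | succ k ih =>
    intro i hi
    have h1 := ih (i + 1) (by omega)
    -- units
    have ha : PI 0 ((2 * (i : ℚ_[p]) + 1))⁻¹ := by
      have := R3_inv (p := p) (n := 2 * i + 1) (by omega) (by omega)
      push_cast at this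
      exact this
    have hb : PI 0 ((2 * (i : ℚ_[p]) + 2))⁻¹ := by
      have := R3_inv (p := p) (n := 2 * i + 2) (by omega) (by omega)
      push_cast at this
      exact this
    have ha0 : (2 * (i : ℚ_[p]) + 1) ≠ 0 := by
      have : ((2 * i + 1 : ℕ) : ℚ_[p]) ≠ 0 := Nat.cast_ne_zero.2 (by omega)
      push_cast at this
      exact this
    have hb0 : (2 * (i : ℚ_[p]) + 2) ≠ 0 := by
      have : ((2 * i + 2 : ℕ) : ℚ_[p]) ≠ 0 := Nat.cast_ne_zero.2 (by omega)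
      push_cast at this
      exact this
    have hi10 : ((i : ℚ_[p]) + 1) ≠ 0 := by
      have : ((i + 1 : ℕ) : ℚ_[p]) ≠ 0 := Nat.cast_ne_zero.2 (by omega)
      push_cast at this
      exact this
    have hpa : (p : ℚ_[p]) - (2 * (i : ℚ_[p]) + 1) = 2 * ((k : ℚ_[p]) + 1) := by
      have h7 : p = 2 * (k + 1) + (2 * i + 1) := by omega
      have h8 : (p : ℚ_[p]) = ((2 * (k + 1) + (2 * i + 1) : ℕ) : ℚ_[p]) := by rw [← h7]
      rw [h8]
      push_cast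
      ring
    have hk1 : PI 0 (((k : ℚ_[p]) + 1))⁻¹ := by
      have := R3_inv (p := p) (n := k + 1) (by omega) (by omega)
      push_cast at this
      exact this
    have hk10 : ((k : ℚ_[p]) + 1) ≠ 0 := by
      have : ((k + 1 : ℕ) : ℚ_[p]) ≠ 0 := Nat.cast_ne_zero.2 (by omega)
      push_cast at this
      exact this
    have hHi : PI 0 (Hn ℚ_[p] i) := R3_PI_Hn (by omega)
    have hH2i : PI 0 (Hn ℚ_[p] (2 * i)) := R3_PI_Hn (by omega)
    have hL : ((2 * (k + 1)).choose (k + 1) : ℚ_[p]) * ((k : ℚ_[p]) + 1) =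
        ((2 * k).choose k : ℚ_[p]) * (2 * (2 * (k : ℚ_[p]) + 1)) := by
      have h4 := Nat.succ_mul_centralBinom_succ k
      rw [Nat.centralBinom, Nat.centralBinom] at h4
      have h5 : ((k + 1 : ℕ) : ℚ_[p]) * ((2 * (k + 1)).choose (k + 1) : ℚ_[p]) =
          ((2 * (2 * k + 1) : ℕ) : ℚ_[p]) * ((2 * k).choose k : ℚ_[p]) := by exact_mod_cast h4
      push_cast at h5
      linear_combination h5
    have hR : ((2 * (i + 1)).choose (i + 1) : ℚ_[p]) * ((i : ℚ_[p]) + 1) =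
        ((2 * i).choose i : ℚ_[p]) * (2 * (2 * (i : ℚ_[p]) + 1)) := by
      have h4 := Nat.succ_mul_centralBinom_succ i
      rw [Nat.centralBinom, Nat.centralBinom] at h4
      have h5 : ((i + 1 : ℕ) : ℚ_[p]) * ((2 * (i + 1)).choose (i + 1) : ℚ_[p]) =
          ((2 * (2 * i + 1) : ℕ) : ℚ_[p]) * ((2 * i).choose i : ℚ_[p]) := by exact_mod_cast h4
      push_cast at h5
      linear_combination h5
    have eH1 : Hn ℚ_[p] (i + 1) = Hn ℚ_[p] i + ((i : ℚ_[p]) + 1)⁻¹ := R3_Hn_succ _ _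
    have eH2 : Hn ℚ_[p] (2 * (i + 1)) = Hn ℚ_[p] (2 * i) + (2 * (i : ℚ_[p]) + 1)⁻¹ +
        (2 * (i : ℚ_[p]) + 2)⁻¹ := by
      have e1 : 2 * (i + 1) = 2 * i + 1 + 1 := by ring
      rw [e1, R3_Hn_succ, R3_Hn_succ]
      push_cast
      ring
    rw [eH1, eH2] at h1
    have ei1 : ((i : ℚ_[p]) + 1)⁻¹ = 2 * (2 * (i : ℚ_[p]) + 2)⁻¹ := by
      field_simp
    rw [ei1] at h1
    set a : ℚ_[p] := 2 * (i : ℚ_[p]) + 1 with had
    set b : ℚ_[p] := 2 * (i : ℚ_[p]) + 2 with hbd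
    set u : ℚ_[p] := a⁻¹ with hu
    set v : ℚ_[p] := b⁻¹ with hv
    set H : ℚ_[p] := Hn ℚ_[p] i - Hn ℚ_[p] (2 * i) with hHd
    set q : ℕ := (p - 1) / 2 with hq
    set M : ℚ_[p] := (256 : ℚ_[p]) ^ q * ((2 * i).choose i : ℚ_[p]) ^ 2 * ((256 : ℚ_[p]) ^ i)⁻¹
      with hM
    have hMi : PI 0 M := R3_mul0 (R3_mul0 (PI_pow h256' q) (PI_pow (PI_natCast _) 2)) (by
      rw [← inv_pow]
      exact PI_pow h256 i)
    have hHH : PI 0 H := PI_sub hHi hH2i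
    have hpi : PI 0 (p : ℚ_[p]) := PI_natCast p
    have h2 : PI 0 (2 : ℚ_[p]) := by
      have := PI_natCast (p := p) 2
      simpa using this
    have h4 : PI 0 (4 : ℚ_[p]) := by
      have := PI_natCast (p := p) 4
      simpa using this
    set l0 : ℚ_[p] := ((2 * k).choose k : ℚ_[p]) with hl0
    have hau : a * u = 1 := mul_inv_cancel₀ ha0
    have hbv : b * v = 1 := mul_inv_cancel₀ hb0
    -- the factor `t = 2 (2k+1)/(k+1) = 4 (p-b)/(p-a)`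
    set t : ℚ_[p] := 2 * (2 * (k : ℚ_[p]) + 1) * ((k : ℚ_[p]) + 1)⁻¹ with ht
    have hti : PI 0 t := by
      have h5 : PI 0 (2 * (k : ℚ_[p]) + 1) := by
        have := PI_natCast (p := p) (2 * k + 1)
        push_cast at this
        exact this
      exact R3_mul0 (R3_mul0 h2 h5) hk1
    have hL' : ((2 * (k + 1)).choose (k + 1) : ℚ_[p]) = l0 * t := by
      rw [ht]
      field_simp
      linear_combination hL
    have hR' : ((2 * (i + 1)).choose (i + 1) : ℚ_[p]) = ((2 * i).choose i : ℚ_[p]) * (4 * (a * v)) := by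
      have e3 : ((i : ℚ_[p]) + 1) * (2 * v) = 1 := by
        have : ((i : ℚ_[p]) + 1) * (2 * v) = b * v := by rw [hbd]; ring
        rw [this, hbv]
      calc ((2 * (i + 1)).choose (i + 1) : ℚ_[p]) =
          ((2 * (i + 1)).choose (i + 1) : ℚ_[p]) * ((i : ℚ_[p]) + 1) * (2 * v) := by
            rw [mul_assoc, e3, mul_one]
        _ = _ := by rw [hR]; ring
    have hpow : ((256 : ℚ_[p]) ^ (i + 1))⁻¹ = ((256 : ℚ_[p]) ^ i)⁻¹ * (256 : ℚ_[p])⁻¹ := by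
      rw [pow_succ, mul_inv]
    have hRM : (256 : ℚ_[p]) ^ q * ((2 * (i + 1)).choose (i + 1) : ℚ_[p]) ^ 2 *
        ((256 : ℚ_[p]) ^ (i + 1))⁻¹ = M * ((a * v) ^ 2 * (16 : ℚ_[p])⁻¹) := by
      rw [hR', hpow, hM]
      have : (256 : ℚ_[p])⁻¹ = (16 : ℚ_[p])⁻¹ * (16 : ℚ_[p])⁻¹ := by norm_num
      rw [this]
      field_simp
      ring
    have ht2 : t * (1 - (p : ℚ_[p]) * u) * a = 4 * (1 - (p : ℚ_[p]) * v) * b := by
      -- `t (a - p) = 4 (b - p)`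
      have e4 : t * (a - (p : ℚ_[p])) = 4 * (b - (p : ℚ_[p])) := by
        have e5 : (p : ℚ_[p]) = a + 2 * ((k : ℚ_[p]) + 1) := by linear_combination hpa
        have e6 : ((k : ℚ_[p]) + 1)⁻¹ * ((k : ℚ_[p]) + 1) = 1 := inv_mul_cancel₀ hk10
        have e7 : b = a + 1 := by rw [had, hbd]; ring
        rw [ht, e5, e7]
        linear_combination (-4 * (2 * (k : ℚ_[p]) + 1)) * e6
      calc t * (1 - (p : ℚ_[p]) * u) * a = t * (a - (p : ℚ_[p]) * (a * u)) := by ring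
        _ = t * (a - (p : ℚ_[p])) := by rw [hau, mul_one]
        _ = 4 * (b - (p : ℚ_[p])) := e4
        _ = 4 * (b - (p : ℚ_[p]) * (b * v)) := by rw [hbv, mul_one]
        _ = _ := by ring
    -- unit `w = 1/(1 - p u)`
    have hw0 : (1 - (p : ℚ_[p]) * u) ≠ 0 := by
      intro h0
      have : (p : ℚ_[p]) - a = 0 := by
        have : (1 - (p : ℚ_[p]) * u) * a = a - (p : ℚ_[p]) := by
          linear_combination (-(p : ℚ_[p])) * hau
        rw [h0, zero_mul] at this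
        linear_combination this
      rw [hpa] at this
      exact (mul_ne_zero (by norm_num) hk10) this
    have hwi : PI 0 ((1 - (p : ℚ_[p]) * u))⁻¹ := by
      have e8 : (1 - (p : ℚ_[p]) * u)⁻¹ = -(a * ((2 : ℚ_[p])⁻¹ * ((k : ℚ_[p]) + 1)⁻¹)) := by
        have : (1 - (p : ℚ_[p]) * u) * a = -(2 * ((k : ℚ_[p]) + 1)) := by
          linear_combination (-(p : ℚ_[p])) * hau - hpa
        rw [inv_eq_of_mul_eq_one_right]
        calc (1 - (p : ℚ_[p]) * u) * -(a * ((2 : ℚ_[p])⁻¹ * ((k : ℚ_[p]) + 1)⁻¹)) =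
            -((1 - (p : ℚ_[p]) * u) * a) * ((2 : ℚ_[p])⁻¹ * ((k : ℚ_[p]) + 1)⁻¹) := by ring
          _ = (2 * ((k : ℚ_[p]) + 1)) * ((2 : ℚ_[p])⁻¹ * ((k : ℚ_[p]) + 1)⁻¹) := by
              rw [this, neg_neg]
          _ = 1 := by field_simp
      rw [e8]
      have h2i : PI 0 ((2 : ℚ_[p]))⁻¹ := by
        have := R3_inv (p := p) (n := 2) (by omega) (by omega)
        push_cast at this
        exact this
      have hai : PI 0 a := by
        have := PI_natCast (p := p) (2 * i + 1)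
        push_cast at this
        exact this
      exact PI_neg (R3_mul0 hai (R3_mul0 h2i hk1))
    set w : ℚ_[p] := (1 - (p : ℚ_[p]) * u)⁻¹ with hw
    have hww : (1 - (p : ℚ_[p]) * u) * w = 1 := mul_inv_cancel₀ hw0
    have htw : t * (a * v) = 4 * ((1 - (p : ℚ_[p]) * v) * w) := by
      calc t * (a * v) = (t * (1 - (p : ℚ_[p]) * u) * a) * (v * w) +
            t * (a * v) * (1 - (1 - (p : ℚ_[p]) * u) * w) := by ring
        _ = (4 * (1 - (p : ℚ_[p]) * v) * b) * (v * w) := by rw [ht2, hww]; ring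
        _ = 4 * ((1 - (p : ℚ_[p]) * v) * w) * (b * v) := by ring
        _ = _ := by rw [hbv, mul_one]
    rw [hRM] at h1
    have hfin : ((2 * (k + 1)).choose (k + 1) : ℚ_[p]) ^ 2 - M * (1 + 2 * (p : ℚ_[p]) * H) =
        (l0 ^ 2 - M * ((a * v) ^ 2 * (16 : ℚ_[p])⁻¹) * (1 + 2 * (p : ℚ_[p]) *
          (Hn ℚ_[p] i + 2 * v - (Hn ℚ_[p] (2 * i) + u + v)))) * t ^ 2 +
        (p : ℚ_[p]) ^ 2 * (M * (w ^ 2 * (-4 * H * (v - u) +
          (1 + 2 * (p : ℚ_[p]) * H) * (v ^ 2 - u ^ 2) +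
          2 * (v - u) * (-2 * v + (p : ℚ_[p]) * v ^ 2)))) := by
      rw [hL']
      have e9 : Hn ℚ_[p] i + 2 * v - (Hn ℚ_[p] (2 * i) + u + v) = H + v - u := by
        rw [hHd]; ring
      rw [e9]
      have e10 : M * ((a * v) ^ 2 * (16 : ℚ_[p])⁻¹) * (1 + 2 * (p : ℚ_[p]) * (H + v - u)) * t ^ 2 =
          M * (((1 - (p : ℚ_[p]) * v) * w) ^ 2) * (1 + 2 * (p : ℚ_[p]) * (H + v - u)) := by
        have e11 : (t * (a * v)) ^ 2 * (16 : ℚ_[p])⁻¹ = ((1 - (p : ℚ_[p]) * v) * w) ^ 2 := by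
          rw [htw]
          have : (16 : ℚ_[p]) * (16 : ℚ_[p])⁻¹ = 1 := mul_inv_cancel₀ (by norm_num)
          linear_combination ((1 - (p : ℚ_[p]) * v) * w) ^ 2 * this
        rw [← e11]
        ring
      have e12 : M * (1 + 2 * (p : ℚ_[p]) * H) =
          M * (1 + 2 * (p : ℚ_[p]) * H) * ((1 - (p : ℚ_[p]) * u) * w) ^ 2 := by
        rw [hww]; ring
      rw [sub_mul, e10, e12]
      ring
    have hgoal : ((2 * (k + 1)).choose (k + 1) : ℚ_[p]) ^ 2 -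
        (256 : ℚ_[p]) ^ q * ((2 * i).choose i : ℚ_[p]) ^ 2 * ((256 : ℚ_[p]) ^ i)⁻¹ *
        (1 + 2 * (p : ℚ_[p]) * (Hn ℚ_[p] i - Hn ℚ_[p] (2 * i))) =
        ((2 * (k + 1)).choose (k + 1) : ℚ_[p]) ^ 2 - M * (1 + 2 * (p : ℚ_[p]) * H) := by
      rw [hM, hHd]
    rw [hgoal, hfin]
    refine PI_add (R3_mul0 h1 (PI_pow hti 2)) (R3_sq (R3_mul0 hMi (R3_mul0 (PI_pow hwi 2) ?_)))
    refine PI_add (PI_add ?_ ?_) ?_
    · exact R3_mul0 (R3_mul0 (PI_neg h4) hHH) (PI_sub hb ha)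
    · exact R3_mul0 (PI_add R3_one (R3_mul0 (R3_mul0 h2 hpi) hHH))
        (PI_sub (PI_pow hb 2) (PI_pow ha 2))
    · exact R3_mul0 (R3_mul0 h2 (PI_sub hb ha)) (PI_add (R3_mul0 (PI_neg h2) hb)
        (R3_mul0 hpi (PI_pow hb 2)))

theorem R3 (p : ℕ) [Fact p.Prime] (hp : 3 < p) (i k : ℕ) (hik : i + k = (p - 1) / 2) :
    PI 2 (((2 * k).choose k : ℚ_[p]) ^ 2
      - (256 : ℚ_[p]) ^ ((p - 1) / 2) * ((2 * i).choose i : ℚ_[p]) ^ 2 * ((256 : ℚ_[p]) ^ i)⁻¹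
        * (1 + 2 * (p : ℚ_[p]) * (Hn ℚ_[p] i - Hn ℚ_[p] (2 * i)))) :=
  R3_aux hp k i hik

end Pool.Agent.Lib_helper57.AP
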