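import Pool.Agent.Lib_helper57.AP.R2
import Pool.Agent.Lib_helper57.AP.R3
import Pool.Agent.Lib_helper57.AP.GZ

/-! Block R4: `∑_{n<p} A_n(x) ≡ m^q ∑_{i≤q} bb i m^{-i} (1 - (p/2) hh i) mod p²`, `m = 256 x`.
`∑_{n<p} A_n(x) = ∑_{k<p} C(2k,k)² x^k ∑_{n=k}^{p-1} C(n+k,2k)²` (`C(n,k)C(n+k,k) = C(n+k,2k)C(2k,k)`); `k>q`: `p ∣ C(2k,k)`;
`k = q-i`: R2 and R3; cross term `p² (H_i-H_{2i})(H_{2i}-H_{4i}) bb i` is `PI 2` (`p hh`-type bound: `bb i H_{4i}` is p-integral).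
`bb i = C(4i,2i) C(2i,i)²`, `hh i = 4(H_{4i}-H_i)` (hh_eq), `256^q x^q = m^q`, `x^(q-i) = x^q x^{-i}`, `256^{-i} x^{-i} = m^{-i}`. -/

namespace Pool.Agent.Lib_helper57.AP

open Finset

theorem R4_choose (n k : ℕ) (h : k ≤ n) :
    n.choose k * (n + k).choose k = (n + k).choose (2 * k) * (2 * k).choose k := by
  have := Nat.choose_mul (n := n + k) (k := 2 * k) (s := k) (by omega)
  rw [this]
  have h1 : n + k - k = n := by omega
  have h2 : 2 * k - k = k := by omega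
  rw [h1, h2, mul_comm]

theorem AA_sum (p : ℕ) (x : ℚ) : ∑ n ∈ range p, AA n x =
    ∑ k ∈ range p, ((2 * k).choose k : ℚ) ^ 2 * x ^ k * ∑ n ∈ Ico k p, ((n + k).choose (2 * k) : ℚ) ^ 2 := by
  unfold AA
  rw [Finset.sum_comm' (t' := range p) (s' := fun k => Ico k p)]
  · refine Finset.sum_congr rfl fun k _ => ?_
    rw [Finset.mul_sum]
    refine Finset.sum_congr rfl fun n hn => ?_
    have h := R4_choose n k (Finset.mem_Ico.1 hn).1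
    have h' : (n.choose k : ℚ) * ((n + k).choose k : ℚ)
        = ((n + k).choose (2 * k) : ℚ) * ((2 * k).choose k : ℚ) := by
      exact_mod_cast h
    calc (n.choose k : ℚ) ^ 2 * ((n + k).choose k : ℚ) ^ 2 * x ^ k
        = ((n.choose k : ℚ) * ((n + k).choose k : ℚ)) ^ 2 * x ^ k := by ring
      _ = _ := by rw [h']; ring
  · intro n k
    simp only [Finset.mem_range, Finset.mem_Ico]
    omega

theorem R4_H {p : ℕ} [Fact p.Prime] (n : ℕ) (h : n < p) : PI 0 (Hn ℚ_[p] n) := by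
  unfold Hn
  refine PI_sum _ _ fun j hj => ?_
  rw [Finset.mem_Ioc] at hj
  refine PI_natCast_inv _ fun hd => ?_
  have := Nat.le_of_dvd hj.1 hd
  omega

theorem R4_two {p : ℕ} [Fact p.Prime] (hp : 3 < p) : ¬ p ∣ 2 := by
  intro h
  have := Nat.le_of_dvd (by norm_num) h
  omega

theorem R4_pow2 {p : ℕ} [Fact p.Prime] (hp : 3 < p) (n : ℕ) : ¬ p ∣ 2 ^ n := fun h =>
  R4_two hp ((Nat.Prime.dvd_of_dvd_pow Fact.out h))

/-- the termwise estimate -/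
theorem R4_term (p : ℕ) [Fact p.Prime] (hp : 3 < p) (x : ℚ) (m : ℤ) (hx : 256 * x = m)
    (hm : ¬ (p : ℤ) ∣ m) (i k : ℕ) (hik : i + k = (p - 1) / 2) :
    PI 2 (((2 * k).choose k : ℚ_[p]) ^ 2 * (x : ℚ_[p]) ^ k
        * ∑ n ∈ Ico k p, ((n + k).choose (2 * k) : ℚ_[p]) ^ 2
      - (m : ℚ_[p]) ^ ((p - 1) / 2) * ((bb i : ℚ_[p]) * ((m : ℚ_[p])⁻¹) ^ i
          * (1 - (p : ℚ_[p]) / 2 * hh ℚ_[p] i))) := by
  have h256 : ‖(256 : ℚ_[p])‖ = 1 := by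
    have := norm_natCast_eq_one (p := p) 256 (by simpa using R4_pow2 hp 8)
    simpa using this
  have h256ne : (256 : ℚ_[p]) ≠ 0 := by
    intro h; rw [h, norm_zero] at h256; exact zero_ne_one h256
  have hmn : ‖(m : ℚ_[p])‖ = 1 := by
    refine le_antisymm (Padic.norm_int_le_one m) (not_lt.1 fun h => hm ?_)
    exact Padic.norm_intCast_lt_one_iff.1 h
  have hmne : (m : ℚ_[p]) ≠ 0 := by
    intro h; rw [h, norm_zero] at hmn; exact zero_ne_one hmn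
  have hxm : (256 : ℚ_[p]) * (x : ℚ_[p]) = (m : ℚ_[p]) := by
    have := congrArg (fun t : ℚ => (t : ℚ_[p])) hx
    simpa using this
  have hxn : ‖(x : ℚ_[p])‖ = 1 := by
    have := congrArg norm hxm
    rw [norm_mul, h256, hmn, one_mul] at this
    exact this
  have hxne : (x : ℚ_[p]) ≠ 0 := by
    intro h; rw [h, norm_zero] at hxn; exact zero_ne_one hxn
  have hx0 : PI 0 (x : ℚ_[p]) := by
    unfold PI; rw [hxn]; simp
  have h2 := R2 p hp i k hik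
  have h3 := R3 p hp i k hik
  set T : ℚ_[p] := ∑ n ∈ Ico k p, ((n + k).choose (2 * k) : ℚ_[p]) ^ 2 with hT
  have hTi : PI 0 T := by
    refine PI_sum _ _ fun n _ => ?_
    exact PI_pow (PI_natCast _) 2
  set C2 : ℚ_[p] := ((2 * k).choose k : ℚ_[p]) ^ 2 with hC2
  have hC2i : PI 0 C2 := PI_pow (PI_natCast _) 2
  set A : ℚ_[p] := (256 : ℚ_[p]) ^ ((p - 1) / 2) * ((2 * i).choose i : ℚ_[p]) ^ 2 * ((256 : ℚ_[p]) ^ i)⁻¹
        * (1 + 2 * (p : ℚ_[p]) * (Hn ℚ_[p] i - Hn ℚ_[p] (2 * i))) with hA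
  set B : ℚ_[p] := ((4 * i).choose (2 * i) : ℚ_[p])
        * (1 + 2 * (p : ℚ_[p]) * (Hn ℚ_[p] (2 * i) - Hn ℚ_[p] (4 * i))) with hB
  have hAi : PI 0 A := by
    have : A = C2 - (C2 - A) := by ring
    rw [this]
    exact PI_sub hC2i (PI_mono (by norm_num) h3)
  -- first step
  have hs1 : PI 2 (C2 * (x : ℚ_[p]) ^ k * T - A * (x : ℚ_[p]) ^ k * B) := by
    have e : C2 * (x : ℚ_[p]) ^ k * T - A * (x : ℚ_[p]) ^ k * B
        = (C2 - A) * ((x : ℚ_[p]) ^ k * T) + (A * (x : ℚ_[p]) ^ k) * (T - B) := by ring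
    rw [e]
    refine PI_add ?_ ?_
    · exact PI_mul (i := 2) (j := 0) h3 (PI_mul (i := 0) (j := 0) (PI_pow hx0 k) hTi)
    · exact PI_mul (i := 0) (j := 2) (PI_mul (i := 0) (j := 0) hAi (PI_pow hx0 k)) h2
  -- second step
  have hs2 : A * (x : ℚ_[p]) ^ k * B - (m : ℚ_[p]) ^ ((p - 1) / 2) * ((bb i : ℚ_[p]) * ((m : ℚ_[p])⁻¹) ^ i
          * (1 - (p : ℚ_[p]) / 2 * hh ℚ_[p] i))
      = ((p : ℚ_[p]) * (p : ℚ_[p])) * ((m : ℚ_[p]) ^ ((p - 1) / 2) * ((m : ℚ_[p])⁻¹) ^ i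
          * (4 * (Hn ℚ_[p] i - Hn ℚ_[p] (2 * i))
            * ((bb i : ℚ_[p]) * (Hn ℚ_[p] (2 * i) - Hn ℚ_[p] (4 * i))))) := by
    have hkk : (256 : ℚ_[p]) ^ ((p - 1) / 2) * ((256 : ℚ_[p]) ^ i)⁻¹ * (x : ℚ_[p]) ^ k
        = (m : ℚ_[p]) ^ ((p - 1) / 2) * ((m : ℚ_[p])⁻¹) ^ i := by
      rw [← hik, ← hxm]
      have e1 : ((256 : ℚ_[p]) ^ i)⁻¹ * (256 : ℚ_[p]) ^ i = 1 :=
        inv_mul_cancel₀ (pow_ne_zero _ h256ne)
      have e2 : ((256 : ℚ_[p]) * (x : ℚ_[p])) ^ i * (((256 : ℚ_[p]) * (x : ℚ_[p]))⁻¹) ^ i = 1 := by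
        rw [← mul_pow, mul_inv_cancel₀ (mul_ne_zero h256ne hxne), one_pow]
      calc (256 : ℚ_[p]) ^ (i + k) * ((256 : ℚ_[p]) ^ i)⁻¹ * (x : ℚ_[p]) ^ k
          = (((256 : ℚ_[p]) ^ i)⁻¹ * (256 : ℚ_[p]) ^ i) * ((256 : ℚ_[p]) ^ k * (x : ℚ_[p]) ^ k) := by
            rw [pow_add]; ring
        _ = ((256 : ℚ_[p]) * (x : ℚ_[p])) ^ k := by rw [e1, one_mul, mul_pow]
        _ = (((256 : ℚ_[p]) * (x : ℚ_[p])) ^ i * (((256 : ℚ_[p]) * (x : ℚ_[p]))⁻¹) ^ i)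
              * ((256 : ℚ_[p]) * (x : ℚ_[p])) ^ k := by rw [e2, one_mul]
        _ = _ := by rw [pow_add]; ring
    have hbb : (bb i : ℚ_[p]) = ((4 * i).choose (2 * i) : ℚ_[p]) * ((2 * i).choose i : ℚ_[p]) ^ 2 := by
      unfold bb; push_cast; ring
    have hA' : A * (x : ℚ_[p]) ^ k = (m : ℚ_[p]) ^ ((p - 1) / 2) * ((m : ℚ_[p])⁻¹) ^ i
        * (((2 * i).choose i : ℚ_[p]) ^ 2
        * (1 + 2 * (p : ℚ_[p]) * (Hn ℚ_[p] i - Hn ℚ_[p] (2 * i)))) := by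
      rw [← hkk, hA]; ring
    rw [hA', hB, hbb, hh_eq]
    have h2ne : (2 : ℚ_[p]) ≠ 0 := by norm_num
    field_simp
    ring
  have hpi4 : PI 0 (4 : ℚ_[p]) := by
    have := PI_natCast (p := p) 4
    simpa using this
  have hi : 2 * i < p := by omega
  have hbH : PI 0 ((bb i : ℚ_[p]) * (Hn ℚ_[p] (2 * i) - Hn ℚ_[p] (4 * i))) := by
    have h4 : ‖(4 : ℚ_[p])‖ = 1 := by
      have := norm_natCast_eq_one (p := p) 4 (by simpa using R4_pow2 hp 2)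
      simpa using this
    refine PI_of_unit_mul h4 ?_
    have e : 4 * ((bb i : ℚ_[p]) * (Hn ℚ_[p] (2 * i) - Hn ℚ_[p] (4 * i)))
        = (4 * (bb i : ℚ_[p])) * (Hn ℚ_[p] (2 * i) - Hn ℚ_[p] i) - (bb i : ℚ_[p]) * hh ℚ_[p] i := by
      rw [hh_eq]; ring
    rw [e]
    refine PI_sub ?_ (PI_bbhh p i (by omega))
    exact PI_mul (i := 0) (j := 0) (PI_mul (i := 0) (j := 0) hpi4 (PI_natCast _))
      (PI_sub (R4_H _ (by omega)) (R4_H _ (by omega)))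
  have hm0 : PI 0 (m : ℚ_[p]) := PI_intCast m
  have hs3 : PI 2 (A * (x : ℚ_[p]) ^ k * B - (m : ℚ_[p]) ^ ((p - 1) / 2) * ((bb i : ℚ_[p]) * ((m : ℚ_[p])⁻¹) ^ i
          * (1 - (p : ℚ_[p]) / 2 * hh ℚ_[p] i))) := by
    rw [hs2]
    refine PI_mul (i := 2) (j := 0) (PI_mul (i := 1) (j := 1) PI_p PI_p) ?_
    refine PI_mul (i := 0) (j := 0) (PI_mul (i := 0) (j := 0) (PI_pow hm0 _) (PI_pow (PI_inv hmn) _)) ?_
    refine PI_mul (i := 0) (j := 0) (PI_mul (i := 0) (j := 0) hpi4 ?_) hbH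
    exact PI_sub (R4_H _ (by omega)) (R4_H _ (by omega))
  have := PI_add hs1 hs3
  rwa [sub_add_sub_cancel] at this

theorem R4 (p : ℕ) [Fact p.Prime] (hp : 3 < p) (x : ℚ) (m : ℤ) (hx : 256 * x = m)
    (hm : ¬ (p : ℤ) ∣ m) :
    PI 2 (((∑ n ∈ range p, AA n x : ℚ) : ℚ_[p])
      - (m : ℚ_[p]) ^ ((p - 1) / 2) * ∑ i ∈ range ((p - 1) / 2 + 1),
          (bb i : ℚ_[p]) * ((m : ℚ_[p])⁻¹) ^ i * (1 - (p : ℚ_[p]) / 2 * hh ℚ_[p] i)) := by
  rw [AA_sum]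
  have hsplit : range p = range ((p - 1) / 2 + 1) ∪ Ico ((p - 1) / 2 + 1) p := by
    ext k
    simp only [Finset.mem_range, Finset.mem_union, Finset.mem_Ico]
    omega
  have hdisj : Disjoint (range ((p - 1) / 2 + 1)) (Ico ((p - 1) / 2 + 1) p) := by
    rw [Finset.disjoint_left]
    intro k
    simp only [Finset.mem_range, Finset.mem_Ico]
    omega
  have hxn : PI 0 (x : ℚ_[p]) := by
    have h256 : ‖(256 : ℚ_[p])‖ = 1 := by
      have := norm_natCast_eq_one (p := p) 256 (by simpa using R4_pow2 hp 8)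
      simpa using this
    have hxm : (256 : ℚ_[p]) * (x : ℚ_[p]) = (m : ℚ_[p]) := by
      have := congrArg (fun t : ℚ => (t : ℚ_[p])) hx
      simpa using this
    refine PI_of_unit_mul h256 ?_
    rw [hxm]
    exact PI_intCast m
  push_cast
  rw [hsplit, Finset.sum_union hdisj]
  have hpodd : p % 2 = 1 := by
    rcases (Fact.out : p.Prime).eq_two_or_odd with h | h
    · omega
    · exact h
  have hbig : PI 2 (∑ k ∈ Ico ((p - 1) / 2 + 1) p, ((2 * k).choose k : ℚ_[p]) ^ 2 * (x : ℚ_[p]) ^ k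
      * ∑ n ∈ Ico k p, ((n + k).choose (2 * k) : ℚ_[p]) ^ 2) := by
    refine PI_sum _ _ fun k hk => ?_
    rw [Finset.mem_Ico] at hk
    have hd : p ∣ (2 * k).choose k := by
      have := Nat.Prime.dvd_choose_add (p := p) Fact.out (a := k) (b := k) hk.2 hk.2 (by omega)
      rwa [← two_mul] at this
    have h1 : PI 1 ((2 * k).choose k : ℚ_[p]) := (PI_natCast_iff 1 _).2 (by simpa using hd)
    have h2 : PI 2 (((2 * k).choose k : ℚ_[p]) ^ 2) := by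
      rw [pow_two]; exact PI_mul (i := 1) (j := 1) h1 h1
    exact PI_mul (i := 2) (j := 0) (PI_mul (i := 2) (j := 0) h2 (PI_pow hxn k))
      (PI_sum _ _ fun n _ => PI_pow (PI_natCast _) 2)
  have hsmall : PI 2 (∑ k ∈ range ((p - 1) / 2 + 1), ((2 * k).choose k : ℚ_[p]) ^ 2 * (x : ℚ_[p]) ^ k
      * ∑ n ∈ Ico k p, ((n + k).choose (2 * k) : ℚ_[p]) ^ 2
      - (m : ℚ_[p]) ^ ((p - 1) / 2) * ∑ i ∈ range ((p - 1) / 2 + 1),
          (bb i : ℚ_[p]) * ((m : ℚ_[p])⁻¹) ^ i * (1 - (p : ℚ_[p]) / 2 * hh ℚ_[p] i)) := by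
    rw [← Finset.sum_range_reflect, Finset.mul_sum, ← Finset.sum_sub_distrib]
    refine PI_sum _ _ fun i hi => ?_
    rw [Finset.mem_range] at hi
    exact R4_term p hp x m hx hm i _ (by omega)
  have := PI_add hsmall hbig
  convert this using 1
  ring

end Pool.Agent.Lib_helper57.AP
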