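import Pool.Agent.Lib_helper57.AP.Z12

/-! Block Z34.  `CB² (1-256X) = 1` and the Schwarzian-type equation of `W = CB/F`. -/

namespace Pool.Agent.Lib_helper57.AP

open PowerSeries Finset

variable (K : Type) [Field K] [CharZero K]

theorem Z3aux : (1 - 256 * X) * th (CB K) = 128 * X * CB K := by
  have e256 : (256 : PowerSeries K) = C (256 : K) := (map_ofNat C 256).symm
  have e128 : (128 : PowerSeries K) = C (128 : K) := (map_ofNat C 128).symm
  have h : th (CB K) = X * (256 * th (CB K) + 128 * CB K) := by
    ext n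
    cases n with
    | zero => simp [coeff_th]
    | succ n =>
      rw [coeff_succ_X_mul]
      simp only [e256, e128, map_add, coeff_C_mul, coeff_th, CB, coeff_mk]
      have h := Nat.succ_mul_centralBinom_succ n
      have h' : ((n : K) + 1) * (Nat.centralBinom (n + 1) : K) = 2 * (2 * (n : K) + 1) * (Nat.centralBinom n : K) := by
        exact_mod_cast h
      push_cast
      rw [pow_succ]
      linear_combination (64 * 64 ^ n : K) * h'
  linear_combination h

theorem Z3 : (CB K) ^ 2 * (1 - 256 * X) = 1 := by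
  have h := Z3aux K
  apply th_ext
  · simp only [th_mul, th_sub, th_pow, th_one, th_X, th_ofNat]
    push_cast
    simp only [Nat.add_one_sub_one, pow_one]
    linear_combination (2 * CB K) * h
  · simp [CB]

theorem WW_mul_FF : WW K * FF K = CB K := by
  have h : constantCoeff (FF K) ≠ 0 := by rw [constantCoeff_FF]; exact one_ne_zero
  rw [WW, mul_assoc, PowerSeries.inv_mul_cancel _ h, mul_one]

theorem Z3' : (WW K) ^ 2 * (FF K) ^ 2 * (1 - 256 * X) = 1 := by
  rw [← mul_pow, WW_mul_FF, Z3]

theorem Z4 : (1 - 256 * X) ^ 2 * (2 * WW K * th (th (WW K)) - 3 * (th (WW K)) ^ 2) =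
    2 * (104 * X - 2048 * X ^ 2) * (WW K) ^ 2 := by
  have hW := WW_mul_FF K
  have hb := Z3aux K
  have r3 := Z2 K
  have hb2 : (1 - 256 * X) * th (th (CB K)) = 384 * X * th (CB K) + 128 * X * CB K := by
    have h := congrArg th hb
    simp only [th_mul, th_sub, th_one, th_X, th_ofNat] at h
    linear_combination h
  have h1 : th (CB K) = th (WW K) * FF K + WW K * th (FF K) := by
    rw [← hW, th_mul]
  have h2 : th (th (CB K)) = th (th (WW K)) * FF K + 2 * th (WW K) * th (FF K) + WW K * th (th (FF K)) := by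
    rw [h1, th_add, th_mul, th_mul]; ring
  rw [h1, ← hW] at hb
  rw [h2, h1, ← hW] at hb2
  have hF : FF K ≠ 0 := by
    intro h0
    have := constantCoeff_FF (K := K)
    rw [h0] at this
    simp at this
  have hF2 : (FF K) ^ 2 ≠ 0 := pow_ne_zero 2 hF
  apply mul_right_cancel₀ hF2
  linear_combination (2 * WW K * FF K * (1 - 256 * X)) * hb2 +
    (768 * X * WW K * FF K - 4 * WW K * th (FF K) * (1 - 256 * X)
      - 3 * ((1 - 256 * X) * th (WW K) * FF K + 128 * X * WW K * FF K - (1 - 256 * X) * WW K * th (FF K))) * hb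
    - (WW K ^ 2 * (1 - 256 * X)) * r3

end Pool.Agent.Lib_helper57.AP
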