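import Pool.Agent.Lib_helper57.AP.CmpApi
import Pool.Agent.Lib_helper57.AP.Z34

/-! Block Z6: composition with `z`, `vt f = Y θ f`, `vt z = μ z`, `V = μ W(z)`.
With `w = W(z)`, `T1 = (θW)(z)`, `T2 = (θ²W)(z)`: `vt w = μ T1`, `vt T1 = μ T2` (`th_cmp`), and Z4 composed with `z` gives
`(1-256z)²(2 w T2 - 3 T1²) = 2(104z-2048z²) w²`.  Then the claim is a ring identity. -/

namespace Pool.Agent.Lib_helper57.AP

open PowerSeries Finset

variable {K : Type} [Field K] [CharZero K]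

theorem Z6_comp (z : PowerSeries K) (hz0 : constantCoeff z = 0) :
    (1 - 256 * z) ^ 2 * (2 * cmp (WW K) z * cmp (th (th (WW K))) z - 3 * (cmp (th (WW K)) z) ^ 2) =
      2 * (104 * z - 2048 * z ^ 2) * (cmp (WW K) z) ^ 2 := by
  have h := congrArg (fun f => cmp f z) (Z4 K)
  simp only [cmp_mul _ _ _ hz0, cmp_pow _ _ hz0, cmp_sub _ _ _ hz0, cmp_one _ hz0,
    cmp_ofNat _ _ hz0, cmp_X _ hz0] at h
  exact h

theorem Z6 (Y μ z : PowerSeries K) (hz0 : constantCoeff z = 0) (hz : Y * th z = μ * z)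
    (V : PowerSeries K) (hV : V = μ * cmp (WW K) z) :
    (1 - 256 * z) ^ 2 * (μ ^ 2 * (2 * V * (Y * th (Y * th V)) - 3 * (Y * th V) ^ 2)
        - V ^ 2 * (2 * μ * (Y * th (Y * th μ)) - 3 * (Y * th μ) ^ 2))
      = 2 * (104 * z - 2048 * z ^ 2) * μ ^ 4 * V ^ 2 := by
  have h0 := Z6_comp (K := K) z hz0
  have h1 : Y * th (cmp (WW K) z) = μ * cmp (th (WW K)) z := th_cmp _ _ _ _ hz0 hz
  have h2 : Y * th (cmp (th (WW K)) z) = μ * cmp (th (th (WW K))) z := th_cmp _ _ _ _ hz0 hz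
  generalize cmp (WW K) z = w at *
  generalize cmp (th (WW K)) z = T1 at *
  generalize cmp (th (th (WW K))) z = T2 at *
  subst hV
  have e1 : Y * th (μ * w) = (Y * th μ) * w + μ ^ 2 * T1 := by
    rw [th_mul]
    linear_combination μ * h1
  have e2 : Y * th (Y * th (μ * w)) =
      (Y * th (Y * th μ)) * w + 3 * μ * (Y * th μ) * T1 + μ ^ 3 * T2 := by
    rw [e1, th_add, th_mul (Y * th μ) w, th_mul (μ ^ 2) T1, th_pow]
    simp only [Nat.cast_ofNat, Nat.add_one_sub_one, pow_one]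
    linear_combination (Y * th μ) * h1 + μ ^ 2 * h2
  rw [e2, e1]
  generalize Y * th (Y * th μ) = m2 at *
  generalize Y * th μ = m1 at *
  linear_combination μ ^ 6 * h0

end Pool.Agent.Lib_helper57.AP
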